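import Pool.Agent.H78.SpgP
import Pool.Agent.H85.SpgOps

/-!
# Pairs and words of open systems: auxiliary lemmas for F6
-/

set_option linter.unusedSectionVars false
set_option linter.unusedVariables false

open Function

namespace Spg

namespace PS

section

variable {Λ : Type} [Fintype Λ]

end

section

variable {Λ : Type} [Fintype Λ] [DecidableEq Λ]

/-- the crossing of the new letter -/
def xN (A : PS Λ) (l : Letter Λ) : (attach A l).X := (none : Option A.X)

/-- an old crossing -/
def xS (A : PS Λ) (l : Letter Λ) (x : A.X) : (attach A l).X := (some x : Option A.X)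

/-- the new points -/
def pN (A : PS Λ) (l : Letter Λ) (b : Bool) : (attach A l).P := (Sum.inr b : A.P ⊕ Bool)

/-- an old point -/
def pS (A : PS Λ) (l : Letter Λ) (p : A.P) : (attach A l).P := (Sum.inl p : A.P ⊕ Bool)

theorem xS_inj (A : PS Λ) (l : Letter Λ) : Injective (xS A l) := Option.some_injective _

theorem xS_ne (A : PS Λ) (l : Letter Λ) (x : A.X) : xS A l x ≠ xN A l := Option.some_ne_none x

theorem X_cases (A : PS Λ) (l : Letter Λ) (y : (attach A l).X) :
    y = xN A l ∨ ∃ x, y = xS A l x := by
  match y with
  | none => exact Or.inl rfl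
  | some x => exact Or.inr ⟨x, rfl⟩

theorem attach_leg_i (A : PS Λ) (l : Letter Λ) : (attach A l).leg l.i = pN A l false :=
  if_pos rfl

theorem attach_leg_j (A : PS Λ) (l : Letter Λ) : (attach A l).leg l.j = pN A l true :=
  (if_neg l.ne.symm).trans (if_pos rfl)

theorem attach_leg_ne (A : PS Λ) (l : Letter Λ) {k : Λ} (h : k ≠ l.i) (h' : k ≠ l.j) :
    (attach A l).leg k = pS A l (A.leg k) :=
  (if_neg h).trans (if_neg h')

theorem attach_ua_N (A : PS Λ) (l : Letter Λ) : (attach A l).ua (xN A l) = pS A l (A.leg l.i) :=
  rfl

theorem attach_ub_N (A : PS Λ) (l : Letter Λ) : (attach A l).ub (xN A l) =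
    Mt.pick l.m0 l.m1 (pS A l (A.leg l.j)) (pN A l false) (pN A l true) := rfl

theorem attach_ua_S (A : PS Λ) (l : Letter Λ) (x : A.X) :
    (attach A l).ua (xS A l x) = pS A l (A.ua x) := rfl

theorem attach_ub_S (A : PS Λ) (l : Letter Λ) (x : A.X) :
    (attach A l).ub (xS A l x) = pS A l (A.ub x) := rfl

theorem mem_attach_Con (A : PS Λ) (l : Letter Λ) (s : (attach A l).X → Bool)
    (f : (attach A l).P → ZMod 2) : f ∈ (attach A l).Con s ↔
      (fun p => f (pS A l p)) ∈ A.Con (fun x => s (xS A l x)) ∧
      (l.mt (s (xN A l))).ok (f (pS A l (A.leg l.i))) (f (pS A l (A.leg l.j)))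
        (f (pN A l false)) (f (pN A l true)) := Iff.rfl

theorem mem_attach_act (A : PS Λ) (l : Letter Λ) (x : A.X) :
    xS A l x ∈ (attach A l).act ↔ x ∈ A.act := by
  show some x ∈ (match l.fr with
      | none => insert none (A.act.map Function.Embedding.some)
      | some _ => A.act.map Function.Embedding.some) ↔ _
  cases l.fr <;> simp

theorem mem_attach_act_N (A : PS Λ) (l : Letter Λ) :
    xN A l ∈ (attach A l).act ↔ l.fr = none := by
  show none ∈ (match l.fr with
      | none => insert none (A.act.map Function.Embedding.some)
      | some _ => A.act.map Function.Embedding.some) ↔ _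
  cases l.fr <;> simp

theorem attach_val_N (A : PS Λ) (l : Letter Λ) : (attach A l).val (xN A l) = l.fr.getD false := rfl

theorem attach_val_S (A : PS Λ) (l : Letter Λ) (x : A.X) :
    (attach A l).val (xS A l x) = A.val x := rfl

/-- a crossing of `A` as a crossing of `attachW A w` -/
def liftX (A : PS Λ) : (w : List (Letter Λ)) → A.X → (attachW A w).X
  | [], x => x
  | l :: w, x => xS (attachW A w) l (liftX A w x)

theorem liftX_inj (A : PS Λ) (w : List (Letter Λ)) : Injective (liftX A w) := by
  induction w with
  | nil => exact fun _ _ h => h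
  | cons l w ih =>
    intro x y h
    exact ih (xS_inj _ _ h)

/-- extension by zero of a function on the points -/
def liftG (A : PS Λ) (g : A.P → ZMod 2) : (w : List (Letter Λ)) → (attachW A w).P → ZMod 2
  | [] => g
  | _ :: w => Sum.elim (liftG A g w) (fun _ => 0)

theorem liftG_leg {A : PS Λ} {g : A.P → ZMod 2} (hg : ∀ k, g (A.leg k) = 0)
    (w : List (Letter Λ)) (k : Λ) : liftG A g w ((attachW A w).leg k) = 0 := by
  induction w generalizing k with
  | nil => exact hg k
  | cons l w ih =>
    show Sum.elim (liftG A g w) (fun _ => 0) (if k = l.i then Sum.inr false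
      else if k = l.j then Sum.inr true else Sum.inl ((attachW A w).leg k)) = 0
    split_ifs
    · rfl
    · rfl
    · exact ih k

theorem liftG_con {A : PS Λ} {g : A.P → ZMod 2} (hg : ∀ k, g (A.leg k) = 0)
    (w : List (Letter Λ)) (s : (attachW A w).X → Bool) (h : g ∈ A.Con (s ∘ liftX A w)) :
    liftG A g w ∈ (attachW A w).Con s := by
  induction w with
  | nil => exact h
  | cons l w ih =>
    refine ⟨ih (fun x => s (some x)) h, ?_⟩
    show (l.mt (s none)).ok (liftG A g w ((attachW A w).leg l.i))
      (liftG A g w ((attachW A w).leg l.j)) 0 0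
    rw [liftG_leg hg, liftG_leg hg]
    cases l.mt (s none) <;> exact ⟨rfl, rfl⟩

theorem liftG_ua {A : PS Λ} (g : A.P → ZMod 2) (w : List (Letter Λ)) (y : A.X) :
    liftG A g w ((attachW A w).ua (liftX A w y)) = g (A.ua y) := by
  induction w with
  | nil => rfl
  | cons l w ih => exact ih

theorem liftG_ub {A : PS Λ} (g : A.P → ZMod 2) (w : List (Letter Λ)) (y : A.X) :
    liftG A g w ((attachW A w).ub (liftX A w y)) = g (A.ub y) := by
  induction w with
  | nil => rfl
  | cons l w ih => exact ih

theorem pick_cases {T : Type} (m m' : Mt) (b c d : T) :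
    Mt.pick m m' b c d = b ∨ Mt.pick m m' b c d = c ∨ Mt.pick m m' b c d = d := by
  cases m <;> cases m' <;> simp [Mt.pick]

theorem liftG_other {A : PS Λ} {g : A.P → ZMod 2} (hg : ∀ k, g (A.leg k) = 0)
    (w : List (Letter Λ)) (y : (attachW A w).X) (hy : ∀ x, liftX A w x ≠ y) :
    liftG A g w ((attachW A w).ua y) = 0 ∧ liftG A g w ((attachW A w).ub y) = 0 := by
  induction w with
  | nil => exact absurd rfl (hy y)
  | cons l w ih =>
    match y with
    | none =>
      refine ⟨liftG_leg hg w l.i, ?_⟩
      show Sum.elim (liftG A g w) (fun _ => 0) (Mt.pick l.m0 l.m1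
        (Sum.inl ((attachW A w).leg l.j)) (Sum.inr false) (Sum.inr true)) = 0
      rcases pick_cases l.m0 l.m1 (Sum.inl ((attachW A w).leg l.j)) (Sum.inr false)
        (Sum.inr true) with h | h | h
      · rw [h]; exact liftG_leg hg w l.j
      · rw [h]; rfl
      · rw [h]; rfl
    | some y =>
      exact ih y (fun x hx => hy x (congrArg some hx))

/-- the active crossings of `attachW (refreeze A a c) w` -/
def aW (A : PS Λ) : (w : List (Letter Λ)) → Finset A.X → Finset (attachW A w).X
  | [], a => a
  | l :: w, a => match l.fr with
    | none => insert none ((aW A w a).map Function.Embedding.some)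
    | some _ => (aW A w a).map Function.Embedding.some

/-- the frozen values of `attachW (refreeze A a c) w` -/
def cW (A : PS Λ) : (w : List (Letter Λ)) → (A.X → Bool) → (attachW A w).X → Bool
  | [], c => c
  | l :: w, c => fun x => x.elim (l.fr.getD false) (cW A w c)

theorem attachW_refreeze (A : PS Λ) (w : List (Letter Λ)) (a : Finset A.X) (c : A.X → Bool) :
    attachW (refreeze A a c) w = refreeze (attachW A w) (aW A w a) (cW A w c) := by
  induction w with
  | nil => rfl
  | cons l w ih =>
    rw [attachW_cons, ih, attach_refreeze]
    rfl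

theorem aW_act (A : PS Λ) (w : List (Letter Λ)) : aW A w A.act = (attachW A w).act := by
  induction w with
  | nil => rfl
  | cons l w ih =>
    show (match l.fr with
    | none => insert none ((aW A w A.act).map Function.Embedding.some)
    | some _ => (aW A w A.act).map Function.Embedding.some) = _
    rw [ih]
    rfl

theorem cW_val (A : PS Λ) (w : List (Letter Λ)) : cW A w A.val = (attachW A w).val := by
  induction w with
  | nil => rfl
  | cons l w ih =>
    funext x
    match x with
    | none => rfl
    | some y => exact congrFun ih y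

theorem map_some_erase {X : Type} [DecidableEq X] (a : Finset X) (x : X) :
    (a.erase x).map Function.Embedding.some = (a.map Function.Embedding.some).erase (some x) := by
  ext y
  rw [Finset.mem_erase, Finset.mem_map, Finset.mem_map]
  constructor
  · rintro ⟨z, hz, rfl⟩
    obtain ⟨h1, h2⟩ := Finset.mem_erase.1 hz
    exact ⟨fun h => h1 (Option.some_injective _ h), z, h2, rfl⟩
  · rintro ⟨h1, z, h2, rfl⟩
    exact ⟨z, Finset.mem_erase.2 ⟨fun h => h1 (congrArg some h), h2⟩, rfl⟩

theorem aW_erase (A : PS Λ) (w : List (Letter Λ)) (a : Finset A.X) (x : A.X) :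
    aW A w (a.erase x) = (aW A w a).erase (liftX A w x) := by
  induction w with
  | nil => rfl
  | cons l w ih =>
    show (match l.fr with
      | none => insert none ((aW A w (a.erase x)).map Function.Embedding.some)
      | some _ => (aW A w (a.erase x)).map Function.Embedding.some) =
      (match l.fr with
      | none => insert none ((aW A w a).map Function.Embedding.some)
      | some _ => (aW A w a).map Function.Embedding.some).erase (some (liftX A w x))
    rw [ih]
    cases l.fr with
    | none =>
      show insert none (((aW A w a).erase (liftX A w x)).map Function.Embedding.some) =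
        (insert none ((aW A w a).map Function.Embedding.some)).erase (some (liftX A w x))
      rw [map_some_erase]
      ext y
      rw [Finset.mem_insert, Finset.mem_erase, Finset.mem_erase, Finset.mem_insert]
      constructor
      · rintro (rfl | ⟨h1, h2⟩)
        · exact ⟨by simp, Or.inl rfl⟩
        · exact ⟨h1, Or.inr h2⟩
      · rintro ⟨h1, rfl | h2⟩
        · exact Or.inl rfl
        · exact Or.inr ⟨h1, h2⟩
    | some b => exact map_some_erase _ _

theorem cW_update_apply (A : PS Λ) (w : List (Letter Λ)) (c : A.X → Bool) (x : A.X) (b : Bool)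
    (y : (attachW A w).X) : cW A w (update c x b) y = if y = liftX A w x then b else
      cW A w c y := by
  induction w with
  | nil => exact update_apply c x b y
  | cons l w ih =>
    match y with
    | none => exact (if_neg (fun h => Option.some_ne_none _ h.symm)).symm
    | some y =>
      refine (ih y).trans ?_
      by_cases h : y = liftX A w x
      · rw [if_pos h]
        exact (if_pos (congrArg some h)).symm
      · rw [if_neg h]
        exact (if_neg (fun h' => h (Option.some_injective _ h'))).symm

theorem cW_update (A : PS Λ) (w : List (Letter Λ)) (c : A.X → Bool) (x : A.X) (b : Bool) :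
    cW A w (update c x b) = update (cW A w c) (liftX A w x) b := by
  funext y
  rw [cW_update_apply, update_apply]

/-- freezing the last letter -/
theorem attach_frozen (A : PS Λ) (l : Letter Λ) (hl : l.fr = none) (b : Bool) :
    attach A ⟨l.i, l.j, l.ne, l.m0, l.m1, l.mne, some b⟩ =
      refreeze (attach A l) ((attach A l).act.erase (xN A l))
        (update (attach A l).val (xN A l) b) := by
  have e1 : (attach A l).act.erase (xN A l) = A.act.map Function.Embedding.some := by
    ext y
    rcases X_cases A l y with rfl | ⟨x, rfl⟩
    · rw [Finset.mem_erase]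
      constructor
      · exact fun h => absurd rfl h.1
      · intro h
        obtain ⟨z, _, hz⟩ := Finset.mem_map.1 h
        exact absurd hz (Option.some_ne_none z)
    · rw [Finset.mem_erase, mem_attach_act]
      constructor
      · exact fun h => Finset.mem_map.2 ⟨x, h.2, rfl⟩
      · intro h
        obtain ⟨z, hz, hzx⟩ := Finset.mem_map.1 h
        have : z = x := Option.some_injective _ hzx
        rw [← this]
        exact ⟨xS_ne _ _ _, hz⟩
  have e2 : update (attach A l).val (xN A l) b = fun x => x.elim b A.val := by
    funext x
    rcases X_cases A l x with rfl | ⟨x, rfl⟩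
    · exact update_self (f := (attach A l).val) (xN A l) b
    · exact update_of_ne (f := (attach A l).val) (xS_ne A l x) b
  rw [e1, e2]
  rfl

/-- freezing the last two letters -/
theorem attach2_frozen (B : PS Λ) (l l' : Letter Λ) (hf : l.fr = none) (hf' : l'.fr = none)
    (b b' : Bool) :
    attach (attach B ⟨l'.i, l'.j, l'.ne, l'.m0, l'.m1, l'.mne, some b'⟩)
      ⟨l.i, l.j, l.ne, l.m0, l.m1, l.mne, some b⟩ =
    refreeze (attach (attach B l') l)
      (((attach (attach B l') l).act.erase (xS _ l (xN B l'))).erase (xN _ l))
      (update (update (attach (attach B l') l).val (xS _ l (xN B l')) b') (xN _ l) b) := by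
  have e1 : attach (attach B ⟨l'.i, l'.j, l'.ne, l'.m0, l'.m1, l'.mne, some b'⟩) l =
      refreeze (attach (attach B l') l) ((attach (attach B l') l).act.erase (xS _ l (xN B l')))
        (update (attach (attach B l') l).val (xS _ l (xN B l')) b') := by
    rw [attach_frozen B l' hf' b']
    have := attachW_refreeze (attach B l') [l] ((attach B l').act.erase (xN B l'))
      (update (attach B l').val (xN B l') b')
    rw [aW_erase, cW_update, aW_act, cW_val] at this
    exact this
  have e3 : ∀ (Y Z : PS Λ) (h : Y = Z) (x : Y.X) (x' : Z.X) (hx : HEq x x'),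
      refreeze Y (Y.act.erase x) (update Y.val x b) =
        refreeze Z (Z.act.erase x') (update Z.val x' b) := by
    intro Y Z h x x' hx
    subst h
    rw [eq_of_heq hx]
  exact (attach_frozen _ l hf b).trans
    (e3 _ _ e1 (xN (attach B _) l) (xN (attach B l') l) HEq.rfl)

end

end PS

end Spg
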