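import Pool.Agent.H78.SpgT

/-!
# Reindexing the crossings of a closed system
-/

set_option linter.unusedSectionVars false
set_option linter.unusedVariables false

open Function
open scoped Classical

namespace Spg

variable {X X' U' : Type} [DecidableEq X] [DecidableEq X'] [AddCommGroup U'] [Module (ZMod 2) U']

/-- the closed system with crossings renamed along `e` -/
def CS.reindex (S' : CS X' U') (e : X' ≃ X) : CS X U' where
  L s := S'.L (s ∘ e)
  u x := S'.u (e.symm x)
  edge := fun s x h => by
    have h1 : update s x true ∘ e = update (s ∘ e) (e.symm x) true := by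
      funext y
      show update s x true (e y) = _
      by_cases hy : y = e.symm x
      · subst hy
        rw [Equiv.apply_symm_apply, update_self, update_self]
      · rw [update_of_ne hy, update_of_ne (fun h => hy (by rw [← h, Equiv.symm_apply_apply]))]
        rfl
    rw [h1]
    exact S'.edge (s ∘ e) (e.symm x) (by
      show s (e (e.symm x)) = false
      rw [Equiv.apply_symm_apply]; exact h)

theorem CS.reindex_L (S' : CS X' U') (e : X' ≃ X) (s : X → Bool) :
    (S'.reindex e).L s = S'.L (s ∘ e) := rfl

theorem CS.reindex_u (S' : CS X' U') (e : X' ≃ X) (x : X) :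
    (S'.reindex e).u x = S'.u (e.symm x) := rfl

theorem CS.reindex_trans (S' : CS X' U') (e : X' ≃ X) (A : Finset X) (c : X → Bool) :
    Trans (S'.reindex e) S' e LinearMap.id A (A.map e.symm.toEmbedding) c (c ∘ e) where
  he := e.injective
  hA := fun x => by
    constructor
    · intro h
      exact ⟨e.symm x, Finset.mem_map.2 ⟨x, h, rfl⟩, e.apply_symm_apply x⟩
    · rintro ⟨y, hy, rfl⟩
      obtain ⟨x, hx, rfl⟩ := Finset.mem_map.1 hy
      show e (e.symm x) ∈ A
      rwa [Equiv.apply_symm_apply]
  hc := fun _ _ => rfl
  hL := fun s _ => (Submodule.comap_id _).symm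
  hJ := fun s _ => by rw [LinearMap.range_id, top_sup_eq]
  hu := fun s _ x _ => by
    rw [CS.reindex_u, Equiv.symm_apply_apply, LinearMap.id_apply, add_self_F2]
    exact Submodule.zero_mem _

theorem CS.reindex_E (S' : CS X' U') (e : X' ≃ X) (A : Finset X) (c : X → Bool) (n : ℤ) :
    (S'.reindex e).E A c n ↔ S'.E (A.map e.symm.toEmbedding) (c ∘ e) n :=
  (S'.reindex_trans e A c).E_iff n

end Spg
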