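import Pool.Agent.H78.SpgR3
import Pool.Agent.H78.SpgRe
import Pool.Agent.H78.SpgQ

/-!
# The third Reidemeister move for letters (basic form)
-/

set_option linter.unusedSectionVars false
set_option linter.unusedVariables false

open Function

namespace Spg

namespace PS

/-- comparison of annihilators along a map of points -/
theorem ann_comap {P P' : Type} [Fintype P] [Fintype P'] [DecidableEq P'] (j : P → P')
    (C : Submodule (ZMod 2) (P → ZMod 2)) (C' : Submodule (ZMod 2) (P' → ZMod 2))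
    (con : ∀ f ∈ C', (fun q => f (j q)) ∈ C) (ext : ∀ f ∈ C, ∃ f' ∈ C', ∀ q, f' (j q) = f q) :
    ann C = (ann C').comap (push j) := by
  ext v
  rw [Submodule.mem_comap, mem_ann, mem_ann]
  constructor
  · intro hv f hf
    rw [sum_push]
    exact hv _ (con f hf)
  · intro hv f hf
    obtain ⟨f', hf', h⟩ := ext f hf
    have := hv f' hf'
    rw [sum_push] at this
    rw [← this]
    exact Finset.sum_congr rfl (fun q _ => by rw [h])

theorem ann_range {P P' : Type} [Fintype P] [DecidableEq P] [Fintype P'] [DecidableEq P']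
    (j : P → P') (C' : Submodule (ZMod 2) (P' → ZMod 2))
    (det : ∀ f ∈ C', (∀ q, f (j q) = 0) → f = 0) :
    LinearMap.range (push j) ⊔ ann C' = ⊤ := by
  rw [eq_top_iff]
  intro v _
  by_contra hv
  obtain ⟨f, h1, h2⟩ := exists_detect hv
  have hf : f ∈ C' := mem_of_ann (fun w hw => h1 w (Submodule.mem_sup_right hw))
  have hf0 : f = 0 := by
    refine det f hf (fun p => ?_)
    have := h1 _ (Submodule.mem_sup_left ⟨Pi.single p 1, rfl⟩)
    rw [sum_push] at this
    simpa [Pi.single_apply] using this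
  apply h2
  rw [hf0]
  simp

section R3

variable {Λ : Type} [Fintype Λ] [DecidableEq Λ] (A B : PS Λ) (p i j : Λ)

/-- points -/
abbrev QP (A B : PS Λ) : Type := (((A.P ⊕ Bool) ⊕ Bool) ⊕ Bool) ⊕ B.P

/-- crossings -/
abbrev QX (A B : PS Λ) : Type := Option (Option (Option A.X)) ⊕ B.X

/-- the `X` letter -/
def lX (p i : Λ) (h : p ≠ i) : Letter Λ := ⟨p, i, h, Mt.S, Mt.E, by simp, none⟩

/-- the `Y` letter -/
def lY (i j : Λ) (h : i ≠ j) : Letter Λ := ⟨i, j, h, Mt.I, Mt.E, by simp, none⟩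

variable (hi : p ≠ i) (hj : p ≠ j) (h : i ≠ j)

/-- `X(p,i)`, `X(p,j)`, then `Y(i,j)` -/
def Dn : PS Λ := attach (attach (attach A (lX p i hi)) (lX p j hj)) (lY i j h)

/-- `Y(i,j)`, then `X(p,i)`, `X(p,j)` -/
def Up : PS Λ := attach (attach (attach A (lY i j h)) (lX p i hi)) (lX p j hj)

/-- the colourings of the down system -/
def ConD (s : QX A B → Bool) : Submodule (ZMod 2) (QP A B → ZMod 2) :=
  (pair (Dn A p i j hi hj h) B).Con s

/-- the colourings of the up system -/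
def ConU (s : QX A B → Bool) : Submodule (ZMod 2) (QP A B → ZMod 2) :=
  (pair (Up A p i j hi hj h) B).Con s

/-- the closed down system -/
noncomputable def SD : CS (QX A B) (QP A B → ZMod 2) := (pair (Dn A p i j hi hj h) B).close

/-- the closed up system -/
noncomputable def SU : CS (QX A B) (QP A B → ZMod 2) := (pair (Up A p i j hi hj h) B).close

theorem SD_L (s : QX A B → Bool) : (SD A B p i j hi hj h).L s = ann (ConD A B p i j hi hj h s) :=
  rfl

theorem SU_L (s : QX A B → Bool) : (SU A B p i j hi hj h).L s = ann (ConU A B p i j hi hj h s) :=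
  rfl

/-- common constraints -/
structure Cm (f : QP A B → ZMod 2) (s : QX A B → Bool) (s2 i1 i2 : QP A B) : Prop where
  a : (fun q => f (Sum.inl (Sum.inl (Sum.inl (Sum.inl q))))) ∈
    A.Con (fun x => s (Sum.inl (some (some (some x)))))
  b : (fun q => f (Sum.inr q)) ∈ B.Con (fun x => s (Sum.inr x))
  lp : f s2 = f (Sum.inr (B.leg p))
  li : f i1 = f (Sum.inr (B.leg i))
  lj : f i2 = f (Sum.inr (B.leg j))
  lo : ∀ k, k ≠ p → k ≠ i → k ≠ j →
    f (Sum.inl (Sum.inl (Sum.inl (Sum.inl (A.leg k))))) = f (Sum.inr (B.leg k))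

/-- the legs after attaching a letter -/
def lg {P : Type} (L : Λ → P) (p i k : Λ) : P ⊕ Bool :=
  if k = p then Sum.inr false else if k = i then Sum.inr true else Sum.inl (L k)

theorem lg_1 {P : Type} (L : Λ → P) (p i : Λ) : lg L p i p = Sum.inr false := if_pos rfl

theorem lg_2 {P : Type} (L : Λ → P) {p i : Λ} (h : i ≠ p) : lg L p i i = Sum.inr true :=
  (if_neg h).trans (if_pos rfl)

theorem lg_3 {P : Type} (L : Λ → P) {p i k : Λ} (h : k ≠ p) (h' : k ≠ i) :
    lg L p i k = Sum.inl (L k) :=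
  (if_neg h).trans (if_neg h')

theorem mem_ConD (f : QP A B → ZMod 2) (s : QX A B → Bool) : f ∈ ConD A B p i j hi hj h s ↔
    Cm A B p i j f s (Sum.inl (Sum.inl (Sum.inr false))) (Sum.inl (Sum.inr false))
      (Sum.inl (Sum.inr true)) ∧
    ((lX p i hi).mt (s (Sum.inl (some (some none))))).ok
      (f (Sum.inl (Sum.inl (Sum.inl (Sum.inl (A.leg p))))))
      (f (Sum.inl (Sum.inl (Sum.inl (Sum.inl (A.leg i))))))
      (f (Sum.inl (Sum.inl (Sum.inl (Sum.inr false)))))
      (f (Sum.inl (Sum.inl (Sum.inl (Sum.inr true))))) ∧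
    ((lX p j hj).mt (s (Sum.inl (some none)))).ok
      (f (Sum.inl (Sum.inl (Sum.inl (Sum.inr false)))))
      (f (Sum.inl (Sum.inl (Sum.inl (Sum.inl (A.leg j))))))
      (f (Sum.inl (Sum.inl (Sum.inr false))))
      (f (Sum.inl (Sum.inl (Sum.inr true)))) ∧
    ((lY i j h).mt (s (Sum.inl none))).ok
      (f (Sum.inl (Sum.inl (Sum.inl (Sum.inr true)))))
      (f (Sum.inl (Sum.inl (Sum.inr true))))
      (f (Sum.inl (Sum.inr false)))
      (f (Sum.inl (Sum.inr true))) := by
  have e1 : lg A.leg p i p = Sum.inr false := lg_1 _ _ _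
  have e2 : lg A.leg p i j = Sum.inl (A.leg j) := lg_3 _ hj.symm h.symm
  have e3 : lg (lg A.leg p i) p j i = Sum.inl (Sum.inr true) := by
    rw [lg_3 _ hi.symm h, lg_2 _ hi.symm]
  have e4 : lg (lg A.leg p i) p j j = Sum.inr true := lg_2 _ hj.symm
  have e5 : lg (lg (lg A.leg p i) p j) i j p = Sum.inl (Sum.inr false) := by
    rw [lg_3 _ hi hj, lg_1]
  have e6 : lg (lg (lg A.leg p i) p j) i j i = Sum.inr false := lg_1 _ _ _
  have e7 : lg (lg (lg A.leg p i) p j) i j j = Sum.inr true := lg_2 _ h.symm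
  have e8 : ∀ k, k ≠ p → k ≠ i → k ≠ j →
      lg (lg (lg A.leg p i) p j) i j k = Sum.inl (Sum.inl (Sum.inl (A.leg k))) := by
    intro k h1 h2 h3
    rw [lg_3 _ h2 h3, lg_3 _ h1 h3, lg_3 _ h1 h2]
  have key : f ∈ ConD A B p i j hi hj h s ↔
    ((((fun q => f (Sum.inl (Sum.inl (Sum.inl (Sum.inl q))))) ∈
      A.Con (fun x => s (Sum.inl (some (some (some x))))) ∧
      ((lX p i hi).mt (s (Sum.inl (some (some none))))).ok
      (f (Sum.inl (Sum.inl (Sum.inl (Sum.inl (A.leg p))))))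
      (f (Sum.inl (Sum.inl (Sum.inl (Sum.inl (A.leg i))))))
      (f (Sum.inl (Sum.inl (Sum.inl (Sum.inr false)))))
      (f (Sum.inl (Sum.inl (Sum.inl (Sum.inr true)))))) ∧
      ((lX p j hj).mt (s (Sum.inl (some none)))).ok
      (f (Sum.inl (Sum.inl (Sum.inl (lg A.leg p i p)))))
      (f (Sum.inl (Sum.inl (Sum.inl (lg A.leg p i j)))))
      (f (Sum.inl (Sum.inl (Sum.inr false))))
      (f (Sum.inl (Sum.inl (Sum.inr true))))) ∧
      ((lY i j h).mt (s (Sum.inl none))).ok
      (f (Sum.inl (Sum.inl (lg (lg A.leg p i) p j i))))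
      (f (Sum.inl (Sum.inl (lg (lg A.leg p i) p j j))))
      (f (Sum.inl (Sum.inr false)))
      (f (Sum.inl (Sum.inr true)))) ∧
      (fun q => f (Sum.inr q)) ∈ B.Con (fun x => s (Sum.inr x)) ∧
      ∀ l, f (Sum.inl (lg (lg (lg A.leg p i) p j) i j l)) = f (Sum.inr (B.leg l)) := Iff.rfl
  rw [key, e1, e2, e3, e4]
  constructor
  · rintro ⟨⟨⟨⟨h1, h2⟩, h3⟩, h4⟩, h5, h6⟩
    refine ⟨⟨h1, h5, ?_, ?_, ?_, ?_⟩, h2, h3, h4⟩
    · rw [← h6 p, e5]
    · rw [← h6 i, e6]
    · rw [← h6 j, e7]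
    · intro k k1 k2 k3
      rw [← h6 k, e8 k k1 k2 k3]
  · rintro ⟨⟨h1, h5, h6, h7, h8, h9⟩, h2, h3, h4⟩
    refine ⟨⟨⟨⟨h1, h2⟩, h3⟩, h4⟩, h5, fun l => ?_⟩
    by_cases k1 : l = p
    · rw [k1, e5, h6]
    by_cases k2 : l = i
    · rw [k2, e6, h7]
    by_cases k3 : l = j
    · rw [k3, e7, h8]
    rw [e8 l k1 k2 k3, h9 l k1 k2 k3]

/-- reordering of the crossings: crossings of the up system as crossings of the down system -/
def eX0 (X : Type) : Option (Option (Option X)) ≃ Option (Option (Option X)) where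
  toFun
    | none => some none
    | some none => some (some none)
    | some (some none) => none
    | some (some (some x)) => some (some (some x))
  invFun
    | none => some (some none)
    | some none => none
    | some (some none) => some none
    | some (some (some x)) => some (some (some x))
  left_inv := by
    rintro (_ | _ | _ | x) <;> rfl
  right_inv := by
    rintro (_ | _ | _ | x) <;> rfl

/-- reordering of the crossings -/
def eX : QX A B ≃ QX A B := Equiv.sumCongr (eX0 A.X) (Equiv.refl B.X)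

theorem mem_ConU (f : QP A B → ZMod 2) (s : QX A B → Bool) :
    f ∈ ConU A B p i j hi hj h (s ∘ eX A B) ↔
    Cm A B p i j f s (Sum.inl (Sum.inr false)) (Sum.inl (Sum.inl (Sum.inr true)))
      (Sum.inl (Sum.inr true)) ∧
    ((lY i j h).mt (s (Sum.inl none))).ok
      (f (Sum.inl (Sum.inl (Sum.inl (Sum.inl (A.leg i))))))
      (f (Sum.inl (Sum.inl (Sum.inl (Sum.inl (A.leg j))))))
      (f (Sum.inl (Sum.inl (Sum.inl (Sum.inr false)))))
      (f (Sum.inl (Sum.inl (Sum.inl (Sum.inr true))))) ∧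
    ((lX p i hi).mt (s (Sum.inl (some (some none))))).ok
      (f (Sum.inl (Sum.inl (Sum.inl (Sum.inl (A.leg p))))))
      (f (Sum.inl (Sum.inl (Sum.inl (Sum.inr false)))))
      (f (Sum.inl (Sum.inl (Sum.inr false))))
      (f (Sum.inl (Sum.inl (Sum.inr true)))) ∧
    ((lX p j hj).mt (s (Sum.inl (some none)))).ok
      (f (Sum.inl (Sum.inl (Sum.inr false))))
      (f (Sum.inl (Sum.inl (Sum.inl (Sum.inr true)))))
      (f (Sum.inl (Sum.inr false)))
      (f (Sum.inl (Sum.inr true))) := by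
  have e1 : lg A.leg i j p = Sum.inl (A.leg p) := lg_3 _ hi hj
  have e2 : lg A.leg i j i = Sum.inr false := lg_1 _ _ _
  have e3 : lg (lg A.leg i j) p i p = Sum.inr false := lg_1 _ _ _
  have e4 : lg (lg A.leg i j) p i j = Sum.inl (Sum.inr true) := by
    rw [lg_3 _ hj.symm h.symm, lg_2 _ h.symm]
  have e5 : lg (lg (lg A.leg i j) p i) p j p = Sum.inr false := lg_1 _ _ _
  have e6 : lg (lg (lg A.leg i j) p i) p j i = Sum.inl (Sum.inr true) := by
    rw [lg_3 _ hi.symm h, lg_2 _ hi.symm]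
  have e7 : lg (lg (lg A.leg i j) p i) p j j = Sum.inr true := lg_2 _ hj.symm
  have e8 : ∀ k, k ≠ p → k ≠ i → k ≠ j →
      lg (lg (lg A.leg i j) p i) p j k = Sum.inl (Sum.inl (Sum.inl (A.leg k))) := by
    intro k h1 h2 h3
    rw [lg_3 _ h1 h3, lg_3 _ h1 h2, lg_3 _ h2 h3]
  have key : f ∈ ConU A B p i j hi hj h (s ∘ eX A B) ↔
    ((((fun q => f (Sum.inl (Sum.inl (Sum.inl (Sum.inl q))))) ∈
      A.Con (fun x => s (Sum.inl (some (some (some x))))) ∧
      ((lY i j h).mt (s (Sum.inl none))).ok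
      (f (Sum.inl (Sum.inl (Sum.inl (Sum.inl (A.leg i))))))
      (f (Sum.inl (Sum.inl (Sum.inl (Sum.inl (A.leg j))))))
      (f (Sum.inl (Sum.inl (Sum.inl (Sum.inr false)))))
      (f (Sum.inl (Sum.inl (Sum.inl (Sum.inr true)))))) ∧
      ((lX p i hi).mt (s (Sum.inl (some (some none))))).ok
      (f (Sum.inl (Sum.inl (Sum.inl (lg A.leg i j p)))))
      (f (Sum.inl (Sum.inl (Sum.inl (lg A.leg i j i)))))
      (f (Sum.inl (Sum.inl (Sum.inr false))))
      (f (Sum.inl (Sum.inl (Sum.inr true))))) ∧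
      ((lX p j hj).mt (s (Sum.inl (some none)))).ok
      (f (Sum.inl (Sum.inl (lg (lg A.leg i j) p i p))))
      (f (Sum.inl (Sum.inl (lg (lg A.leg i j) p i j))))
      (f (Sum.inl (Sum.inr false)))
      (f (Sum.inl (Sum.inr true)))) ∧
      (fun q => f (Sum.inr q)) ∈ B.Con (fun x => s (Sum.inr x)) ∧
      ∀ l, f (Sum.inl (lg (lg (lg A.leg i j) p i) p j l)) = f (Sum.inr (B.leg l)) := Iff.rfl
  rw [key, e1, e2, e3, e4]
  constructor
  · rintro ⟨⟨⟨⟨h1, h2⟩, h3⟩, h4⟩, h5, h6⟩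
    refine ⟨⟨h1, h5, ?_, ?_, ?_, ?_⟩, h2, h3, h4⟩
    · rw [← h6 p, e5]
    · rw [← h6 i, e6]
    · rw [← h6 j, e7]
    · intro k k1 k2 k3
      rw [← h6 k, e8 k k1 k2 k3]
  · rintro ⟨⟨h1, h5, h6, h7, h8, h9⟩, h2, h3, h4⟩
    refine ⟨⟨⟨⟨h1, h2⟩, h3⟩, h4⟩, h5, fun l => ?_⟩
    by_cases k1 : l = p
    · rw [k1, e5, h6]
    by_cases k2 : l = i
    · rw [k2, e6, h7]
    by_cases k3 : l = j
    · rw [k3, e7, h8]
    rw [e8 l k1 k2 k3, h9 l k1 k2 k3]

/-- the first map of points -/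
def jI : QP A B → QP A B
  | Sum.inl (Sum.inl (Sum.inl (Sum.inl q))) => Sum.inl (Sum.inl (Sum.inl (Sum.inl q)))
  | Sum.inl (Sum.inl (Sum.inl (Sum.inr false))) => Sum.inl (Sum.inl (Sum.inr false))
  | Sum.inl (Sum.inl (Sum.inl (Sum.inr true))) => Sum.inl (Sum.inl (Sum.inr true))
  | Sum.inl (Sum.inl (Sum.inr false)) => Sum.inl (Sum.inr false)
  | Sum.inl (Sum.inl (Sum.inr true)) => Sum.inl (Sum.inr true)
  | Sum.inl (Sum.inr false) => Sum.inl (Sum.inl (Sum.inr true))
  | Sum.inl (Sum.inr true) => Sum.inl (Sum.inr true)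
  | Sum.inr q => Sum.inr q

/-- the second map of points -/
def jC : QP A B → QP A B
  | Sum.inl (Sum.inl (Sum.inl (Sum.inl q))) => Sum.inl (Sum.inl (Sum.inl (Sum.inl q)))
  | Sum.inl (Sum.inl (Sum.inl (Sum.inr false))) => Sum.inl (Sum.inl (Sum.inl (Sum.inl (A.leg i))))
  | Sum.inl (Sum.inl (Sum.inl (Sum.inr true))) => Sum.inl (Sum.inl (Sum.inl (Sum.inl (A.leg p))))
  | Sum.inl (Sum.inl (Sum.inr false)) => Sum.inl (Sum.inr false)
  | Sum.inl (Sum.inl (Sum.inr true)) => Sum.inl (Sum.inl (Sum.inl (Sum.inl (A.leg p))))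
  | Sum.inl (Sum.inr false) => Sum.inl (Sum.inl (Sum.inr true))
  | Sum.inl (Sum.inr true) => Sum.inl (Sum.inr true)
  | Sum.inr q => Sum.inr q

/-- a function given by its values -/
def mkf (fa : A.P → ZMod 2) (fb : B.P → ZMod 2) (a1 a2 b1 b2 c1 c2 : ZMod 2) : QP A B → ZMod 2
  | Sum.inl (Sum.inl (Sum.inl (Sum.inl q))) => fa q
  | Sum.inl (Sum.inl (Sum.inl (Sum.inr false))) => a1
  | Sum.inl (Sum.inl (Sum.inl (Sum.inr true))) => a2
  | Sum.inl (Sum.inl (Sum.inr false)) => b1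
  | Sum.inl (Sum.inl (Sum.inr true)) => b2
  | Sum.inl (Sum.inr false) => c1
  | Sum.inl (Sum.inr true) => c2
  | Sum.inr q => fb q

variable {A B p i j hi hj h}

theorem conI {s : QX A B → Bool} (hz : s (Sum.inl none) = false) {f : QP A B → ZMod 2}
    (hf : f ∈ ConU A B p i j hi hj h (s ∘ eX A B)) :
    (fun q => f (jI A B q)) ∈ ConD A B p i j hi hj h s := by
  rw [mem_ConU] at hf
  rw [mem_ConD]
  rw [hz] at hf ⊢
  obtain ⟨c, ⟨y1, y2⟩, h1, h2⟩ := hf
  refine ⟨⟨c.a, c.b, c.lp, c.li, c.lj, c.lo⟩, ?_, ?_, ⟨rfl, rfl⟩⟩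
  · cases h3 : s (Sum.inl (some (some none)))
    · rw [h3] at h1
      obtain ⟨k1, k2⟩ := h1
      exact ⟨k1, y1.trans k2⟩
    · rw [h3] at h1
      obtain ⟨k1, k2⟩ := h1
      exact ⟨k1.trans y1.symm, k2⟩
  · cases h3 : s (Sum.inl (some none))
    · rw [h3] at h2
      obtain ⟨k1, k2⟩ := h2
      exact ⟨k1, y2.trans k2⟩
    · rw [h3] at h2
      obtain ⟨k1, k2⟩ := h2
      exact ⟨k1.trans y2.symm, k2⟩

theorem extI {s : QX A B → Bool} (hz : s (Sum.inl none) = false) {f : QP A B → ZMod 2}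
    (hf : f ∈ ConD A B p i j hi hj h s) :
    ∃ f' ∈ ConU A B p i j hi hj h (s ∘ eX A B), ∀ q, f' (jI A B q) = f q := by
  rw [mem_ConD] at hf
  rw [hz] at hf
  obtain ⟨c, h1, h2, ⟨y1, y2⟩⟩ := hf
  refine ⟨mkf A B (fun q => f (Sum.inl (Sum.inl (Sum.inl (Sum.inl q))))) (fun q => f (Sum.inr q))
    (f (Sum.inl (Sum.inl (Sum.inl (Sum.inl (A.leg i))))))
    (f (Sum.inl (Sum.inl (Sum.inl (Sum.inl (A.leg j))))))
    (f (Sum.inl (Sum.inl (Sum.inl (Sum.inr false))))) (f (Sum.inl (Sum.inr false)))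
    (f (Sum.inl (Sum.inl (Sum.inr false)))) (f (Sum.inl (Sum.inr true))), ?_, ?_⟩
  · rw [mem_ConU, hz]
    refine ⟨⟨c.a, c.b, c.lp, c.li, c.lj, c.lo⟩, ⟨rfl, rfl⟩, ?_, ?_⟩
    · cases h3 : s (Sum.inl (some (some none)))
      · rw [h3] at h1
        obtain ⟨k1, k2⟩ := h1
        exact ⟨k1.trans y1, k2⟩
      · rw [h3] at h1
        obtain ⟨k1, k2⟩ := h1
        exact ⟨k1, k2.trans y1⟩
    · cases h3 : s (Sum.inl (some none))
      · rw [h3] at h2
        obtain ⟨k1, k2⟩ := h2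
        exact ⟨k1.trans y2, k2⟩
      · rw [h3] at h2
        obtain ⟨k1, k2⟩ := h2
        exact ⟨k1, k2.trans y2⟩
  · rintro ((((q | _ | _) | _ | _) | _ | _) | q) <;> first | rfl | exact y1.symm | exact y2.symm

theorem detI {s : QX A B → Bool} (hz : s (Sum.inl none) = false) {f : QP A B → ZMod 2}
    (hf : f ∈ ConU A B p i j hi hj h (s ∘ eX A B)) (h0 : ∀ q, f (jI A B q) = 0) : f = 0 := by
  rw [mem_ConU] at hf
  rw [hz] at hf
  obtain ⟨c, ⟨y1, y2⟩, h1, h2⟩ := hf
  funext q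
  rcases q with (((q | _ | _) | _ | _) | _ | _) | q
  · exact h0 (Sum.inl (Sum.inl (Sum.inl (Sum.inl q))))
  · exact y1.symm.trans (h0 (Sum.inl (Sum.inl (Sum.inl (Sum.inl (A.leg i))))))
  · exact y2.symm.trans (h0 (Sum.inl (Sum.inl (Sum.inl (Sum.inl (A.leg j))))))
  · exact h0 (Sum.inl (Sum.inl (Sum.inl (Sum.inr false))))
  · exact h0 (Sum.inl (Sum.inl (Sum.inl (Sum.inr true))))
  · exact h0 (Sum.inl (Sum.inl (Sum.inr false)))
  · exact h0 (Sum.inl (Sum.inl (Sum.inr true)))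
  · exact h0 (Sum.inr q)

/-- down (F,T;T), up (T,F;T) -/
theorem conC2 {s t : QX A B → Bool}
    (hs : s (Sum.inl none) = true ∧ s (Sum.inl (some none)) = true ∧
      s (Sum.inl (some (some none))) = false)
    (ht : t (Sum.inl none) = true ∧ t (Sum.inl (some none)) = false ∧
      t (Sum.inl (some (some none))) = true)
    (hA : ∀ x, s (Sum.inl (some (some (some x)))) = t (Sum.inl (some (some (some x)))))
    (hB : ∀ x, s (Sum.inr x) = t (Sum.inr x)) {f : QP A B → ZMod 2}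
    (hf : f ∈ ConU A B p i j hi hj h (t ∘ eX A B)) :
    (fun q => f (jC A B p i q)) ∈ ConD A B p i j hi hj h s := by
  rw [mem_ConU, ht.1, ht.2.1, ht.2.2] at hf
  rw [mem_ConD, hs.1, hs.2.1, hs.2.2]
  obtain ⟨c, ⟨y1, y2⟩, ⟨h1, h2⟩, ⟨h3, h4⟩⟩ := hf
  have e1 : (fun x => s (Sum.inl (some (some (some x))))) =
    fun x => t (Sum.inl (some (some (some x)))) := funext hA
  have e2 : (fun x => s (Sum.inr x)) = fun x => t (Sum.inr x) := funext hB
  refine ⟨⟨?_, ?_, c.lp, c.li, c.lj, c.lo⟩, ⟨rfl, rfl⟩, ⟨y1, ?_⟩, ⟨rfl, ?_⟩⟩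
  · rw [e1]; exact c.a
  · rw [e2]; exact c.b
  · exact ((h1.trans y2).trans h4).symm
  · exact h2.symm.trans h3

theorem extC2 {s t : QX A B → Bool}
    (hs : s (Sum.inl none) = true ∧ s (Sum.inl (some none)) = true ∧
      s (Sum.inl (some (some none))) = false)
    (ht : t (Sum.inl none) = true ∧ t (Sum.inl (some none)) = false ∧
      t (Sum.inl (some (some none))) = true)
    (hA : ∀ x, s (Sum.inl (some (some (some x)))) = t (Sum.inl (some (some (some x)))))
    (hB : ∀ x, s (Sum.inr x) = t (Sum.inr x)) {f : QP A B → ZMod 2}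
    (hf : f ∈ ConD A B p i j hi hj h s) :
    ∃ f' ∈ ConU A B p i j hi hj h (t ∘ eX A B), ∀ q, f' (jC A B p i q) = f q := by
  rw [mem_ConD, hs.1, hs.2.1, hs.2.2] at hf
  obtain ⟨c, ⟨h1, h2⟩, ⟨h3, h4⟩, ⟨y1, y2⟩⟩ := hf
  have e1 : (fun x => s (Sum.inl (some (some (some x))))) =
    fun x => t (Sum.inl (some (some (some x)))) := funext hA
  have e2 : (fun x => s (Sum.inr x)) = fun x => t (Sum.inr x) := funext hB
  refine ⟨mkf A B (fun q => f (Sum.inl (Sum.inl (Sum.inl (Sum.inl q))))) (fun q => f (Sum.inr q))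
    (f (Sum.inl (Sum.inl (Sum.inl (Sum.inl (A.leg p))))))
    (f (Sum.inl (Sum.inl (Sum.inl (Sum.inl (A.leg p))))))
    (f (Sum.inl (Sum.inr false))) (f (Sum.inl (Sum.inr false)))
    (f (Sum.inl (Sum.inl (Sum.inr false)))) (f (Sum.inl (Sum.inr true))), ?_, ?_⟩
  · rw [mem_ConU, ht.1, ht.2.1, ht.2.2]
    refine ⟨⟨?_, ?_, c.lp, c.li, c.lj, c.lo⟩, ⟨h2.trans h3, rfl⟩, ⟨rfl, rfl⟩, ⟨y2, ?_⟩⟩
    · have := c.a
      rw [e1] at this; exact this
    · have := c.b
      rw [e2] at this; exact this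
    · exact (h1.trans y1).trans h4.symm
  · rintro ((((q | _ | _) | _ | _) | _ | _) | q)
    · rfl
    · exact h2
    · exact h1
    · rfl
    · exact h1.trans y1
    · rfl
    · rfl
    · rfl

theorem detC2 {t : QX A B → Bool}
    (ht : t (Sum.inl none) = true ∧ t (Sum.inl (some none)) = false ∧
      t (Sum.inl (some (some none))) = true) {f : QP A B → ZMod 2}
    (hf : f ∈ ConU A B p i j hi hj h (t ∘ eX A B)) (h0 : ∀ q, f (jC A B p i q) = 0) : f = 0 := by
  rw [mem_ConU, ht.1, ht.2.1, ht.2.2] at hf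
  obtain ⟨c, ⟨y1, y2⟩, ⟨h1, h2⟩, ⟨h3, h4⟩⟩ := hf
  have a1 : f (Sum.inl (Sum.inl (Sum.inl (Sum.inr false)))) = 0 :=
    h1.symm.trans (h0 (Sum.inl (Sum.inl (Sum.inl (Sum.inl (A.leg p))))))
  funext q
  rcases q with (((q | _ | _) | _ | _) | _ | _) | q
  · exact h0 (Sum.inl (Sum.inl (Sum.inl (Sum.inl q))))
  · exact a1
  · exact y2.symm.trans a1
  · exact h2.trans (h0 (Sum.inl (Sum.inr false)))
  · exact h0 (Sum.inl (Sum.inr false))
  · exact h0 (Sum.inl (Sum.inl (Sum.inr false)))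
  · exact h0 (Sum.inl (Sum.inr true))
  · exact h0 (Sum.inr q)

/-- down (F,F;T), up (T,F;F) -/
theorem conC3 {s t : QX A B → Bool}
    (hs : s (Sum.inl none) = true ∧ s (Sum.inl (some none)) = false ∧
      s (Sum.inl (some (some none))) = false)
    (ht : t (Sum.inl none) = false ∧ t (Sum.inl (some none)) = false ∧
      t (Sum.inl (some (some none))) = true)
    (hA : ∀ x, s (Sum.inl (some (some (some x)))) = t (Sum.inl (some (some (some x)))))
    (hB : ∀ x, s (Sum.inr x) = t (Sum.inr x)) {f : QP A B → ZMod 2}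
    (hf : f ∈ ConU A B p i j hi hj h (t ∘ eX A B)) :
    (fun q => f (jC A B p i q)) ∈ ConD A B p i j hi hj h s := by
  rw [mem_ConU, ht.1, ht.2.1, ht.2.2] at hf
  rw [mem_ConD, hs.1, hs.2.1, hs.2.2]
  obtain ⟨c, ⟨y1, y2⟩, ⟨h1, h2⟩, ⟨h3, h4⟩⟩ := hf
  have e1 : (fun x => s (Sum.inl (some (some (some x))))) =
    fun x => t (Sum.inl (some (some (some x)))) := funext hA
  have e2 : (fun x => s (Sum.inr x)) = fun x => t (Sum.inr x) := funext hB
  refine ⟨⟨?_, ?_, c.lp, c.li, c.lj, c.lo⟩, ⟨rfl, rfl⟩, ⟨?_, ?_⟩, ⟨rfl, ?_⟩⟩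
  · rw [e1]; exact c.a
  · rw [e2]; exact c.b
  · exact y1.trans h1.symm
  · exact y2.trans h4
  · exact h2.symm.trans h3

theorem extC3 {s t : QX A B → Bool}
    (hs : s (Sum.inl none) = true ∧ s (Sum.inl (some none)) = false ∧
      s (Sum.inl (some (some none))) = false)
    (ht : t (Sum.inl none) = false ∧ t (Sum.inl (some none)) = false ∧
      t (Sum.inl (some (some none))) = true)
    (hA : ∀ x, s (Sum.inl (some (some (some x)))) = t (Sum.inl (some (some (some x)))))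
    (hB : ∀ x, s (Sum.inr x) = t (Sum.inr x)) {f : QP A B → ZMod 2}
    (hf : f ∈ ConD A B p i j hi hj h s) :
    ∃ f' ∈ ConU A B p i j hi hj h (t ∘ eX A B), ∀ q, f' (jC A B p i q) = f q := by
  rw [mem_ConD, hs.1, hs.2.1, hs.2.2] at hf
  obtain ⟨c, ⟨h1, h2⟩, ⟨h3, h4⟩, ⟨y1, y2⟩⟩ := hf
  have e1 : (fun x => s (Sum.inl (some (some (some x))))) =
    fun x => t (Sum.inl (some (some (some x)))) := funext hA
  have e2 : (fun x => s (Sum.inr x)) = fun x => t (Sum.inr x) := funext hB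
  refine ⟨mkf A B (fun q => f (Sum.inl (Sum.inl (Sum.inl (Sum.inl q))))) (fun q => f (Sum.inr q))
    (f (Sum.inl (Sum.inl (Sum.inl (Sum.inl (A.leg p))))))
    (f (Sum.inl (Sum.inl (Sum.inr false))))
    (f (Sum.inl (Sum.inr false))) (f (Sum.inl (Sum.inr false)))
    (f (Sum.inl (Sum.inl (Sum.inr false)))) (f (Sum.inl (Sum.inr true))), ?_, ?_⟩
  · rw [mem_ConU, ht.1, ht.2.1, ht.2.2]
    refine ⟨⟨?_, ?_, c.lp, c.li, c.lj, c.lo⟩, ⟨?_, h4⟩, ⟨rfl, rfl⟩, ⟨y2, rfl⟩⟩
    · have := c.a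
      rw [e1] at this; exact this
    · have := c.b
      rw [e2] at this; exact this
    · -- o1 = s0
      exact (((h1.trans y1).trans h3.symm).trans h2.symm).symm
  · rintro ((((q | _ | _) | _ | _) | _ | _) | q)
    · rfl
    · exact h2
    · exact h1
    · rfl
    · exact h1.trans y1
    · rfl
    · rfl
    · rfl

theorem SD_uz : (SD A B p i j hi hj h).u (Sum.inl none) =
    uvec (Sum.inl (Sum.inl (Sum.inl (Sum.inr true)))) (Sum.inl (Sum.inr true)) := by
  have e : lg (lg A.leg p i) p j i = Sum.inl (Sum.inr true) := by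
    rw [lg_3 _ hi.symm h, lg_2 _ hi.symm]
  rw [← e]
  rfl

theorem SD_u2 : (SD A B p i j hi hj h).u (Sum.inl (some none)) =
    uvec (Sum.inl (Sum.inl (Sum.inl (Sum.inr false)))) (Sum.inl (Sum.inl (Sum.inr false))) := by
  have e : lg A.leg p i p = Sum.inr false := lg_1 _ _ _
  rw [← e]
  rfl

theorem SD_u1 : (SD A B p i j hi hj h).u (Sum.inl (some (some none))) =
    uvec (Sum.inl (Sum.inl (Sum.inl (Sum.inl (A.leg p)))))
      (Sum.inl (Sum.inl (Sum.inl (Sum.inr false)))) := rfl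

theorem SD_uA (x : A.X) : (SD A B p i j hi hj h).u (Sum.inl (some (some (some x)))) =
    uvec (Sum.inl (Sum.inl (Sum.inl (Sum.inl (A.ua x)))))
      (Sum.inl (Sum.inl (Sum.inl (Sum.inl (A.ub x))))) := rfl

theorem SD_uB (x : B.X) : (SD A B p i j hi hj h).u (Sum.inr x) =
    uvec (Sum.inr (B.ua x)) (Sum.inr (B.ub x)) := rfl

/-- the up system with the crossings of the down system -/
noncomputable def SV (A B : PS Λ) (p i j : Λ) (hi : p ≠ i) (hj : p ≠ j) (h : i ≠ j) :
    CS (QX A B) (QP A B → ZMod 2) := (SU A B p i j hi hj h).reindex (eX A B)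

theorem SV_L (s : QX A B → Bool) : (SV A B p i j hi hj h).L s =
    ann (ConU A B p i j hi hj h (s ∘ eX A B)) := rfl

theorem SV_uz : (SV A B p i j hi hj h).u (Sum.inl none) =
    uvec (Sum.inl (Sum.inl (Sum.inl (Sum.inl (A.leg i)))))
      (Sum.inl (Sum.inl (Sum.inl (Sum.inr true)))) := rfl

theorem SV_u2 : (SV A B p i j hi hj h).u (Sum.inl (some none)) =
    uvec (Sum.inl (Sum.inl (Sum.inr false))) (Sum.inl (Sum.inr false)) := by
  have e : lg (lg A.leg i j) p i p = Sum.inr false := lg_1 _ _ _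
  rw [← e]
  rfl

theorem SV_u1 : (SV A B p i j hi hj h).u (Sum.inl (some (some none))) =
    uvec (Sum.inl (Sum.inl (Sum.inl (Sum.inl (A.leg p)))))
      (Sum.inl (Sum.inl (Sum.inr false))) := by
  have e : lg A.leg i j p = Sum.inl (A.leg p) := lg_3 _ hi hj
  rw [← e]
  rfl

theorem SV_uA (x : A.X) : (SV A B p i j hi hj h).u (Sum.inl (some (some (some x)))) =
    uvec (Sum.inl (Sum.inl (Sum.inl (Sum.inl (A.ua x)))))
      (Sum.inl (Sum.inl (Sum.inl (Sum.inl (A.ub x))))) := rfl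

theorem SV_uB (x : B.X) : (SV A B p i j hi hj h).u (Sum.inr x) =
    uvec (Sum.inr (B.ua x)) (Sum.inr (B.ub x)) := rfl

/-- the functional given by a function -/
def fn {P : Type} [Fintype P] (g : P → ZMod 2) : (P → ZMod 2) →ₗ[ZMod 2] ZMod 2 where
  toFun v := ∑ q, g q * v q
  map_add' v w := by
    simp only [Pi.add_apply, mul_add, Finset.sum_add_distrib]
  map_smul' a v := by
    simp only [Pi.smul_apply, smul_eq_mul, RingHom.id_apply, Finset.mul_sum]
    exact Finset.sum_congr rfl (fun q _ => by ring)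

theorem fn_apply {P : Type} [Fintype P] (g v : P → ZMod 2) : fn g v = ∑ q, g q * v q := rfl

theorem fn_uvec {P : Type} [Fintype P] [DecidableEq P] (g : P → ZMod 2) (a b : P) :
    fn g (uvec a b) = g a + g b := sum_mul_uvec g a b

theorem mem_ann_fn {P : Type} [Fintype P] {C : Submodule (ZMod 2) (P → ZMod 2)}
    {v : P → ZMod 2} : v ∈ ann C ↔ ∀ f ∈ C, fn f v = 0 := Iff.rfl

theorem fn_push {P Q : Type} [Fintype P] [Fintype Q] [DecidableEq Q] (j : P → Q)
    (f : Q → ZMod 2) (v : P → ZMod 2) : fn f (push j v) = fn (fun q => f (j q)) v :=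
  sum_push j f v

theorem fn_add {P : Type} [Fintype P] (g g' v : P → ZMod 2) :
    fn g v + fn g' v = fn (fun q => g q + g' q) v := by
  rw [fn_apply, fn_apply, fn_apply, ← Finset.sum_add_distrib]
  exact Finset.sum_congr rfl (fun q _ => by ring)

theorem fn_zero {P : Type} [Fintype P] {g : P → ZMod 2} (hg : ∀ q, g q = 0) (v : P → ZMod 2) :
    fn g v = 0 := by
  rw [fn_apply]
  exact Finset.sum_eq_zero (fun q _ => by rw [hg, zero_mul])

theorem push_uvec {P Q : Type} [Fintype P] [DecidableEq P] [Fintype Q] [DecidableEq Q]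
    (j : P → Q) (a b : P) : push j (uvec a b) = uvec (j a) (j b) := by
  funext q
  have h1 := sum_push j (Pi.single q 1) (uvec a b)
  have h2 : ∑ z, (Pi.single q (1 : ZMod 2) : Q → ZMod 2) z * push j (uvec a b) z =
      push j (uvec a b) q := by
    rw [Finset.sum_eq_single q]
    · rw [Pi.single_eq_same, one_mul]
    · intro z _ hz
      rw [Pi.single_eq_of_ne hz, zero_mul]
    · intro h; exact absurd (Finset.mem_univ _) h
  rw [← h2, h1, sum_mul_uvec (fun p => (Pi.single q (1 : ZMod 2) : Q → ZMod 2) (j p))]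
  simp only [uvec, Pi.add_apply, Pi.single_apply, eq_comm]

/-- the indicator of the circle in the down system -/
def gD (A B : PS Λ) : QP A B → ZMod 2 := mkf A B (fun _ => 0) (fun _ => 0) 1 1 0 1 0 0

/-- the indicator of the circle in the up system -/
def gU (A B : PS Λ) : QP A B → ZMod 2 := mkf A B (fun _ => 0) (fun _ => 0) 1 1 1 0 0 0

theorem fn_mul {P : Type} [Fintype P] (g v : P → ZMod 2) (w : ZMod 2) :
    fn g v * w = fn (fun q => g q * w) v := by
  rw [fn_apply, fn_apply, Finset.sum_mul]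
  exact Finset.sum_congr rfl (fun q _ => by ring)

theorem alg0 (a w : ZMod 2) : a + a + 0 * w = 0 := by revert a w; decide

theorem alg1 (a b c : ZMod 2) (h : a = c) : a + b + 1 * (b + c) = 0 := by
  subst h; revert a b; decide

theorem alg1' (a b c : ZMod 2) (h : b = c) : a + b + 1 * (c + a) = 0 := by
  subst h; revert a b; decide

theorem alg2 (a b c d : ZMod 2) (h : a = d) (h' : b = c) : a + b + 1 * (c + d) = 0 := by
  subst h h'; revert a b; decide

theorem alg3 (a b c d : ZMod 2) (h : a = c) (h' : b = d) : a + b + (c + d) = 0 := by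
  subst h h'; revert a b; decide

theorem alg4 (a b c d e : ZMod 2) (h : c = a) (h' : e = b) :
    a + b + (c + d + (d + e)) = 0 := by
  subst h h'; revert c d e; decide

theorem alg5 (a b w : ZMod 2) (h : a = b) : (a + b) * w = 0 := by
  subst h; revert a w; decide

theorem alg6 (x y a b c d e : ZMod 2) (h : x + y = 0) (h1 : a = c) (h2 : e = b) :
    x + (y + (a + b) + (c + d)) + (e + c + (c + d)) = 0 := by
  subst h1 h2; revert x y a e d; decide

theorem alg7 (x y a b c d e : ZMod 2) (h : x + y = e + b) (h1 : a = c) (h2 : d = e) :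
    x + (y + (a + b) + (c + d)) = 0 := by
  subst h1 h2; revert x y a b d; decide

variable (A B p i j hi hj h)

/-- the active crossings -/
def actD : Finset (QX A B) := (pair (Dn A p i j hi hj h) B).act

/-- the frozen values -/
def valD : QX A B → Bool := (pair (Dn A p i j hi hj h) B).val

variable {A B p i j hi hj h}

theorem mem_actD (x : QX A B) : x ∈ actD A B p i j hi hj h ↔
    (∀ a, x = Sum.inl (some (some (some a))) → a ∈ A.act) ∧ ∀ b, x = Sum.inr b → b ∈ B.act := by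
  have hk : actD A B p i j hi hj h = (insert none ((insert none ((insert none
    (A.act.map Function.Embedding.some)).map Function.Embedding.some)).map
      Function.Embedding.some)).disjSum B.act := rfl
  rw [hk]
  rcases x with (_ | _ | _ | a) | b
  · rw [Finset.inl_mem_disjSum]; simp
  · rw [Finset.inl_mem_disjSum]; simp
  · rw [Finset.inl_mem_disjSum]; simp
  · rw [Finset.inl_mem_disjSum]; simp
  · rw [Finset.inr_mem_disjSum]; simp

theorem mem_z : (Sum.inl none : QX A B) ∈ actD A B p i j hi hj h := by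
  rw [mem_actD]; simp

theorem mem_x2 : (Sum.inl (some none) : QX A B) ∈ actD A B p i j hi hj h := by
  rw [mem_actD]; simp

theorem mem_x1 : (Sum.inl (some (some none)) : QX A B) ∈ actD A B p i j hi hj h := by
  rw [mem_actD]; simp

theorem R2D : R2H (SD A B p i j hi hj h) ((actD A B p i j hi hj h).erase (Sum.inl none))
    (update (valD A B p i j hi hj h) (Sum.inl none) true) (Sum.inl (some (some none)))
    (Sum.inl (some none)) (fn (gD A B)) where
  ma := Finset.mem_erase.2 ⟨by simp, mem_x1⟩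
  mb := Finset.mem_erase.2 ⟨by simp, mem_x2⟩
  ne := by simp
  la := by rw [SD_u1, fn_uvec]; exact zero_add 1
  lb := by rw [SD_u2, fn_uvec]; exact add_zero 1
  ly := by
    rintro ((_ | _ | _ | a) | b) hy h1 h2
    · exact absurd rfl (Finset.mem_erase.1 hy).1
    · exact absurd rfl h2
    · exact absurd rfl h1
    · rw [SD_uA, fn_uvec]; exact zero_add 0
    · rw [SD_uB, fn_uvec]; exact zero_add 0
  lL := by
    intro s hs h1 h2 l hl
    rw [SD_L] at hl
    refine mem_ann_fn.1 hl _ ?_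
    have hz := hs (Sum.inl none) (by simp)
    rw [update_self] at hz
    rw [mem_ConD, h1, h2, hz]
    refine ⟨⟨Submodule.zero_mem _, Submodule.zero_mem _, rfl, rfl, rfl, fun _ _ _ _ => rfl⟩,
      ⟨rfl, rfl⟩, ⟨rfl, rfl⟩, ⟨rfl, rfl⟩⟩

theorem R2V : R2H (SV A B p i j hi hj h) ((actD A B p i j hi hj h).erase (Sum.inl none))
    (update (valD A B p i j hi hj h) (Sum.inl none) true) (Sum.inl (some none))
    (Sum.inl (some (some none))) (fn (gU A B)) where
  ma := Finset.mem_erase.2 ⟨by simp, mem_x2⟩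
  mb := Finset.mem_erase.2 ⟨by simp, mem_x1⟩
  ne := by simp
  la := by rw [SV_u2, fn_uvec]; exact add_zero 1
  lb := by rw [SV_u1, fn_uvec]; exact zero_add 1
  ly := by
    rintro ((_ | _ | _ | a) | b) hy h1 h2
    · exact absurd rfl (Finset.mem_erase.1 hy).1
    · exact absurd rfl h1
    · exact absurd rfl h2
    · rw [SV_uA, fn_uvec]; exact zero_add 0
    · rw [SV_uB, fn_uvec]; exact zero_add 0
  lL := by
    intro s hs h1 h2 l hl
    rw [SV_L] at hl
    refine mem_ann_fn.1 hl _ ?_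
    have hz := hs (Sum.inl none) (by simp)
    rw [update_self] at hz
    rw [mem_ConU, h1, h2, hz]
    refine ⟨⟨Submodule.zero_mem _, Submodule.zero_mem _, rfl, rfl, rfl, fun _ _ _ _ => rfl⟩,
      ⟨rfl, rfl⟩, ⟨rfl, rfl⟩, ⟨rfl, rfl⟩⟩

theorem R3PH : R3H (SD A B p i j hi hj h) (SV A B p i j hi hj h) (actD A B p i j hi hj h)
    (valD A B p i j hi hj h) (Sum.inl (some (some none))) (Sum.inl (some none)) (Sum.inl none)
    (fn (gD A B)) (fn (gU A B)) (push (jI A B)) (push (jC A B p i))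
    (uvec (Sum.inl (Sum.inl (Sum.inl (Sum.inl (A.leg i))))) (Sum.inl (Sum.inl (Sum.inr true)))) where
  mz := mem_z
  H := R2D
  H' := R2V
  lz := by rw [SD_uz, fn_uvec]; exact add_zero 1
  lz' := by rw [SV_uz, fn_uvec]; exact zero_add 1
  L1 := fun s _ hz => ann_comap _ _ _ (fun f hf => conI hz hf) (fun f hf => extI hz hf)
  L2 := fun s _ h1 h2 hz => by
    have hs : s (Sum.inl none) = true ∧ s (Sum.inl (some none)) = true ∧
      s (Sum.inl (some (some none))) = false := ⟨hz, h2, h1⟩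
    set t := update (update s (Sum.inl (some (some none))) true) (Sum.inl (some none)) false with ht
    have ht' : t (Sum.inl none) = true ∧ t (Sum.inl (some none)) = false ∧
      t (Sum.inl (some (some none))) = true := by
      rw [ht]
      refine ⟨?_, ?_, ?_⟩
      · rw [update_of_ne (by simp), update_of_ne (by simp)]; exact hz
      · rw [update_self]
      · rw [update_of_ne (by simp), update_self]
    have hA : ∀ x, s (Sum.inl (some (some (some x)))) = t (Sum.inl (some (some (some x)))) := by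
      intro x
      rw [ht, update_of_ne (by simp), update_of_ne (by simp)]
    have hB : ∀ x, s (Sum.inr x) = t (Sum.inr x) := by
      intro x
      rw [ht, update_of_ne (by simp), update_of_ne (by simp)]
    exact ann_comap _ _ _ (fun f hf => conC2 hs ht' hA hB hf) (fun f hf => extC2 hs ht' hA hB hf)
  L3 := fun s _ h1 h2 hz => by
    have hs : s (Sum.inl none) = true ∧ s (Sum.inl (some none)) = false ∧
      s (Sum.inl (some (some none))) = false := ⟨hz, h2, h1⟩
    set t := update (update s (Sum.inl (some (some none))) true) (Sum.inl none) false with ht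
    have ht' : t (Sum.inl none) = false ∧ t (Sum.inl (some none)) = false ∧
      t (Sum.inl (some (some none))) = true := by
      rw [ht]
      refine ⟨?_, ?_, ?_⟩
      · rw [update_self]
      · rw [update_of_ne (by simp), update_of_ne (by simp)]; exact h2
      · rw [update_of_ne (by simp), update_self]
    have hA : ∀ x, s (Sum.inl (some (some (some x)))) = t (Sum.inl (some (some (some x)))) := by
      intro x
      rw [ht, update_of_ne (by simp), update_of_ne (by simp)]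
    have hB : ∀ x, s (Sum.inr x) = t (Sum.inr x) := by
      intro x
      rw [ht, update_of_ne (by simp), update_of_ne (by simp)]
    exact ann_comap _ _ _ (fun f hf => conC3 hs ht' hA hB hf) (fun f hf => extC3 hs ht' hA hB hf)
  FIu := by
    rintro ((_ | _ | _ | a) | b) hy h1
    · exact absurd rfl h1
    · rw [SD_u2, SV_u2, push_uvec]; rfl
    · rw [SD_u1, SV_u1, push_uvec]; rfl
    · rw [SD_uA, SV_uA, push_uvec]; rfl
    · rw [SD_uB, SV_uB, push_uvec]; rfl
  FCu := by
    rintro ((_ | _ | _ | a) | b) hy h1 h2 h3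
    · exact absurd rfl h3
    · exact absurd rfl h2
    · exact absurd rfl h1
    · rw [SD_uA, SV_uA, push_uvec]; rfl
    · rw [SD_uB, SV_uB, push_uvec]; rfl
  lFC := fun v => by
    rw [fn_push]
    refine fn_zero ?_ v
    rintro ((((q | _ | _) | _ | _) | _ | _) | q) <;> rfl
  lw0 := by rw [fn_uvec]; exact add_zero 0
  JI := fun s _ hz => ann_range _ _ (fun f hf h0 => detI hz hf h0)
  JC := fun s _ h1 h2 hz => ann_range _ _ (fun f hf h0 => detC2 ⟨hz, h2, h1⟩ hf h0)
  K1 := fun s _ h1 h2 hz v => by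
    rw [SV_L, mem_ann_fn]
    intro f hf
    rw [mem_ConU, h1, h2, hz] at hf
    obtain ⟨c, ⟨y1, y2⟩, ⟨k1, k2⟩, ⟨k3, k4⟩⟩ := hf
    rw [map_add, map_add, fn_push, fn_push, map_smul, fn_uvec, smul_eq_mul, fn_mul, fn_add,
      fn_add]
    refine fn_zero ?_ v
    rintro ((((q | _ | _) | _ | _) | _ | _) | q)
    · exact alg0 _ _
    · exact alg1 _ _ _ k2
    · exact alg1' _ _ _ (k1.trans y1.symm)
    · exact alg0 _ _
    · exact alg2 _ _ _ _ (k3.symm.trans k2) (k1.trans y1.symm)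
    · exact alg0 _ _
    · exact alg0 _ _
    · exact alg0 _ _
  K2 := fun s _ h1 h2 hz => by
    rw [SV_L, mem_ann_fn]
    intro f hf
    rw [mem_ConU, h1, h2, hz] at hf
    obtain ⟨c, ⟨y1, y2⟩, ⟨k1, k2⟩, ⟨k3, k4⟩⟩ := hf
    rw [SD_u1, push_uvec, map_add, fn_uvec, fn_uvec]
    exact alg3 _ _ _ _ (k1.trans y1.symm) k2
  K3 := fun s _ h1 h2 => by
    rw [SV_L, mem_ann_fn]
    intro f hf
    rw [mem_ConU, h1, h2] at hf
    obtain ⟨c, _, ⟨k1, k2⟩, ⟨k3, k4⟩⟩ := hf
    rw [SD_u2, push_uvec, SV_uz, map_add, fn_uvec, fn_uvec]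
    exact alg3 _ _ _ _ rfl k4.symm
  K4 := fun s _ h1 h2 hz => by
    rw [SV_L, mem_ann_fn]
    intro f hf
    rw [mem_ConU, h1, h2, hz] at hf
    obtain ⟨c, ⟨y1, y2⟩, ⟨k1, k2⟩, ⟨k3, k4⟩⟩ := hf
    rw [SD_uz, push_uvec, SV_u1, SV_u2, map_add, map_add, fn_uvec, fn_uvec, fn_uvec]
    exact alg4 _ _ _ _ _ k1 k4
  K5 := fun s _ h1 h2 hz => by
    rw [SV_L, mem_ann_fn]
    intro f hf
    rw [mem_ConU, h1, h2, hz] at hf
    obtain ⟨c, ⟨y1, y2⟩, ⟨k1, k2⟩, ⟨k3, k4⟩⟩ := hf
    rw [SD_uz, push_uvec, SV_u1, map_add, fn_uvec, fn_uvec]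
    exact alg3 _ _ _ _ rfl k3.symm
  K7 := fun s _ h1 h2 hz v => by
    have key : ∀ f ∈ ConU A B p i j hi hj h (s ∘ eX A B),
        fn f (push (jI A B) v) + fn f (push (jC A B p i) v) =
        v (Sum.inl (Sum.inl (Sum.inr true))) *
          (f (Sum.inl (Sum.inr true)) + f (Sum.inl (Sum.inl (Sum.inr true)))) := by
      intro f hf
      rw [mem_ConU, h1, h2, hz] at hf
      obtain ⟨c, ⟨y1, y2⟩, ⟨k1, k2⟩, ⟨k3, k4⟩⟩ := hf
      rw [fn_push, fn_push, fn_add, fn_apply, Finset.sum_eq_single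
        (Sum.inl (Sum.inl (Sum.inr true)))]
      · show (f (Sum.inl (Sum.inr true)) + f (Sum.inl (Sum.inl (Sum.inl (Sum.inl (A.leg p)))))) * _
          = _
        rw [mul_comm]
        congr 2
      · rintro ((((q | _ | _) | _ | _) | _ | _) | q) _ hq
        · exact alg5 _ _ _ rfl
        · exact alg5 _ _ _ (y1.trans k2).symm
        · exact alg5 _ _ _ k1.symm
        · exact alg5 _ _ _ rfl
        · exact absurd rfl hq
        · exact alg5 _ _ _ rfl
        · exact alg5 _ _ _ rfl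
        · exact alg5 _ _ _ rfl
      · intro h; exact absurd (Finset.mem_univ _) h
    rcases Z2_cases (v (Sum.inl (Sum.inl (Sum.inr true)))) with hv | hv
    · right
      rw [SV_L, mem_ann_fn]
      intro f hf
      have hk := key f hf
      rw [hv, zero_mul] at hk
      rw [mem_ConU, h1, h2, hz] at hf
      obtain ⟨c, ⟨y1, y2⟩, ⟨k1, k2⟩, ⟨k3, k4⟩⟩ := hf
      rw [SV_u1, SV_u2]
      simp only [map_add]
      rw [fn_uvec, fn_uvec, fn_uvec]
      exact alg6 _ _ _ _ _ _ _ hk (y1.trans k2) k1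
    · left
      rw [SV_L, mem_ann_fn]
      intro f hf
      have hk := key f hf
      rw [hv, one_mul] at hk
      rw [mem_ConU, h1, h2, hz] at hf
      obtain ⟨c, ⟨y1, y2⟩, ⟨k1, k2⟩, ⟨k3, k4⟩⟩ := hf
      rw [SV_u2]
      simp only [map_add]
      rw [fn_uvec, fn_uvec]
      exact alg7 _ _ _ _ _ _ _ hk (y1.trans k2) k4

/-- The third Reidemeister move for letters, basic form. -/
theorem R3raw (A B : PS Λ) (p i j : Λ) (hi : p ≠ i) (hj : p ≠ j) (h : i ≠ j) (n : ℤ) :
    EE (attach (attach (attach A (lX p i hi)) (lX p j hj)) (lY i j h)) B n ↔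
    EE (attach (attach (attach A (lY i j h)) (lX p i hi)) (lX p j hj)) B n := by
  have h1 := (R3PH (A := A) (B := B) (hi := hi) (hj := hj) (h := h)).E_iff n
  have h2 := (SU A B p i j hi hj h).reindex_E (eX A B) (actD A B p i j hi hj h)
    (valD A B p i j hi hj h) n
  have e1 : (actD A B p i j hi hj h).map (eX A B).symm.toEmbedding =
      (insert none ((insert none ((insert none
    (A.act.map Function.Embedding.some)).map Function.Embedding.some)).map
      Function.Embedding.some)).disjSum B.act := by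
    ext x
    rw [Finset.mem_map_equiv, Equiv.symm_symm, mem_actD]
    rcases x with (_ | _ | _ | a) | b
    · rw [Finset.inl_mem_disjSum]
      simp [eX, eX0]
    · rw [Finset.inl_mem_disjSum]
      simp [eX, eX0]
    · rw [Finset.inl_mem_disjSum]
      simp [eX, eX0]
    · rw [Finset.inl_mem_disjSum]
      simp [eX, eX0]
    · rw [Finset.inr_mem_disjSum]
      simp [eX, eX0]
  have e2 : (valD A B p i j hi hj h) ∘ (eX A B) = (pair (Up A p i j hi hj h) B).val := by
    funext x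
    rcases x with (_ | _ | _ | a) | b <;> rfl
  have h3 : EE (attach (attach (attach A (lX p i hi)) (lX p j hj)) (lY i j h)) B n ↔
    (SD A B p i j hi hj h).E (actD A B p i j hi hj h) (valD A B p i j hi hj h) n := Iff.rfl
  rw [h3, h1]
  refine h2.trans ?_
  rw [e1, e2]
  rfl

end R3

end PS

end Spg
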