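import Pool.Agent.H85.SpgPS

/-!
# Push-forward of vectors and double annihilators
-/

set_option linter.unusedSectionVars false
set_option linter.unusedVariables false

open Function
open scoped Classical

namespace Spg

namespace PS

/-- push-forward of vectors along a map of points -/
def push {P Q : Type} [Fintype P] [DecidableEq Q] (j : P → Q) :
    (P → ZMod 2) →ₗ[ZMod 2] (Q → ZMod 2) where
  toFun v q := ∑ p, if j p = q then v p else 0
  map_add' v w := by
    funext q
    simp only [Pi.add_apply]
    rw [← Finset.sum_add_distrib]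
    refine Finset.sum_congr rfl (fun p _ => ?_)
    split_ifs
    · rfl
    · rw [add_zero]
  map_smul' a v := by
    funext q
    simp only [Pi.smul_apply, RingHom.id_apply]
    rw [Finset.smul_sum]
    refine Finset.sum_congr rfl (fun p _ => ?_)
    split_ifs
    · rfl
    · rw [smul_zero]

theorem push_apply {P Q : Type} [Fintype P] [DecidableEq Q] (j : P → Q) (v : P → ZMod 2) (q : Q) :
    push j v q = ∑ p, if j p = q then v p else 0 := rfl

/-- the pairing -/
theorem sum_push {P Q : Type} [Fintype P] [Fintype Q] [DecidableEq Q] (j : P → Q)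
    (f : Q → ZMod 2) (v : P → ZMod 2) : ∑ q, f q * push j v q = ∑ p, f (j p) * v p := by
  simp only [push_apply, Finset.mul_sum]
  rw [Finset.sum_comm]
  refine Finset.sum_congr rfl (fun p _ => ?_)
  simp

theorem mem_ann {P : Type} [Fintype P] {C : Submodule (ZMod 2) (P → ZMod 2)} {v : P → ZMod 2} :
    v ∈ ann C ↔ ∀ f ∈ C, ∑ p, f p * v p = 0 := Iff.rfl

/-- a vector outside a subspace is detected by a functional -/
theorem exists_detect {P : Type} [Fintype P] [DecidableEq P] {W : Submodule (ZMod 2) (P → ZMod 2)}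
    {v : P → ZMod 2} (hv : v ∉ W) :
    ∃ f : P → ZMod 2, (∀ w ∈ W, ∑ p, f p * w p = 0) ∧ ∑ p, f p * v p ≠ 0 := by
  obtain ⟨φ, h1, h2⟩ := Submodule.exists_le_ker_of_notMem hv
  have key : ∀ w : P → ZMod 2, ∑ p, φ (fun q => if p = q then 1 else 0) * w p = φ w := by
    intro w
    rw [LinearMap.pi_apply_eq_sum_univ φ w]
    refine Finset.sum_congr rfl (fun p _ => ?_)
    rw [smul_eq_mul, mul_comm]
  refine ⟨fun p => φ (fun q => if p = q then 1 else 0), fun w hw => ?_, ?_⟩
  · rw [key]; exact h2 hw
  · rw [key]; exact h1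

/-- the double annihilator -/
theorem mem_of_ann {P : Type} [Fintype P] [DecidableEq P] {C : Submodule (ZMod 2) (P → ZMod 2)}
    {f : P → ZMod 2} (h : ∀ v ∈ ann C, ∑ p, f p * v p = 0) : f ∈ C := by
  by_contra hf
  obtain ⟨v, h1, h2⟩ := exists_detect hf
  have h3 : ∑ p, f p * v p = 0 := by
    refine h v (fun w hw => ?_)
    rw [← h1 w hw]
    exact Finset.sum_congr rfl (fun p _ => mul_comm _ _)
  apply h2
  rw [← h3]
  exact Finset.sum_congr rfl (fun p _ => mul_comm _ _)

end PS

end Spg
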