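import Pool.Agent.H85.SpgIso

/-!
# Isomorphisms of open systems given by bijections
-/

set_option linter.unusedSectionVars false
set_option linter.unusedVariables false

open Function

namespace Spg

namespace PS

variable {Λ : Type} [Fintype Λ]

theorem attach_leg_o [DecidableEq Λ] (A : PS Λ) (l : Letter Λ) {k : Λ} (h : k ≠ l.i)
    (h' : k ≠ l.j) : (attach A l).leg k = (Sum.inl (A.leg k) : A.P ⊕ Bool) :=
  (if_neg h).trans (if_neg h')

end PS

end Spg
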