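import Pool.Agent.H85.SpgCS
import Pool.Agent.H78.Kh.Trace

/-!
# The endomorphism `F` (layer M8 of the proof of MP_5e61f3_gt)
-/

set_option linter.unusedSectionVars false
set_option linter.unusedVariables false

open Function
open scoped Classical

namespace Spg

section Tsum

variable {U UG : Type} [AddCommGroup U] [Module (ZMod 2) U] [AddCommGroup UG]
  [Module (ZMod 2) UG] [Finite UG]

/-- the sum of the translates of `φ` by representatives of `UG / K` -/
noncomputable def Tsum (J : UG →ₗ[ZMod 2] U) (K : Submodule (ZMod 2) UG) :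
    (U → ZMod 2) →ₗ[ZMod 2] (U → ZMod 2) := ∑ h : UG ⧸ K, Tr (J h.out)

theorem Tsum_apply (J : UG →ₗ[ZMod 2] U) (K : Submodule (ZMod 2) UG) (φ : U → ZMod 2) (v : U) :
    Tsum J K φ v = ∑ h : UG ⧸ K, φ (v + J h.out) := by
  simp [Tsum, LinearMap.sum_apply, Finset.sum_apply]

theorem Tsum_eq_tr (J : UG →ₗ[ZMod 2] U) (K : Submodule (ZMod 2) UG) (φ : U → ZMod 2) (v : U) :
    Tsum J K φ v = Pool.H78.Kh.tr K ⊤ (fun g => φ (v + J g)) 0 := by
  rw [Tsum_apply]
  simp [Pool.H78.Kh.tr]

theorem pull_inv {J : UG →ₗ[ZMod 2] U} {L : Submodule (ZMod 2) U} {φ : U → ZMod 2}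
    (hφ : φ ∈ Inv L) (v : U) : Pool.H78.Kh.Inv (L.comap J) (fun g => φ (v + J g)) := by
  intro l hl g
  show φ (v + J (g + l)) = φ (v + J g)
  rw [map_add, ← add_assoc]
  exact hφ _ hl _

theorem Tsum_comm_Tr (J : UG →ₗ[ZMod 2] U) (K : Submodule (ZMod 2) UG) (φ : U → ZMod 2) (u : U) :
    Tr u (Tsum J K φ) = Tsum J K (Tr u φ) := by
  funext v
  rw [Tr_apply, Tsum_apply, Tsum_apply]
  refine Finset.sum_congr rfl (fun h _ => ?_)
  rw [Tr_apply, add_right_comm]

/-- the sum is invariant under the range of `J` -/
theorem Tsum_mem {J : UG →ₗ[ZMod 2] U} {L : Submodule (ZMod 2) U} {φ : U → ZMod 2}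
    (hφ : φ ∈ Inv L) : Tsum J (L.comap J) φ ∈ Inv (LinearMap.range J ⊔ L) := by
  intro l hl v
  obtain ⟨a, ha, b, hb, rfl⟩ := Submodule.mem_sup.1 hl
  obtain ⟨g, rfl⟩ := ha
  rw [Tsum_apply, Tsum_apply]
  have h1 : ∀ h : UG ⧸ L.comap J, φ (v + (J g + b) + J h.out) = φ (v + J (h.out + g)) := by
    intro h
    have e : v + (J g + b) + J h.out = (v + J (h.out + g)) + b := by
      rw [map_add]; abel
    rw [e]
    exact hφ b hb _
  rw [Finset.sum_congr rfl (fun h _ => h1 h)]
  refine Fintype.sum_equiv (Equiv.addRight (Submodule.Quotient.mk g : UG ⧸ L.comap J)) _ _ ?_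
  intro h
  have h2 := pull_inv hφ v (J := J)
  refine h2.congr ?_
  rw [← Submodule.Quotient.eq]
  rw [Submodule.Quotient.mk_add, Pool.H78.Kh.mk_out, Equiv.coe_addRight, Pool.H78.Kh.mk_out]

/-- enlarging `K` by one vector -/
theorem Tsum_merge {J : UG →ₗ[ZMod 2] U} {L : Submodule (ZMod 2) U} {φ : U → ZMod 2}
    (hφ : φ ∈ Inv L) {h0 : UG} (h : h0 ∉ L.comap J) {u : U} (hu : u + J h0 ∈ L) :
    Tsum J (L.comap J ⊔ Submodule.span (ZMod 2) {h0}) (φ + Tr u φ) = Tsum J (L.comap J) φ := by
  have e : Tr u φ = Tr (J h0) φ := by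
    funext v
    rw [Tr_apply, Tr_apply]
    have := hφ _ hu (v + J h0)
    rw [← this]
    congr 1
    rw [show v + J h0 + (u + J h0) = v + u + J h0 + J h0 by abel, add_add_cancel_F2]
  funext v
  rw [e, Tsum_eq_tr, Tsum_eq_tr, ← Pool.H78.Kh.tr_add_T (le_top) h (Submodule.mem_top) (pull_inv hφ v)]
  congr 1
  funext g
  show φ (v + J g) + φ (v + J g + J h0) = φ (v + J g) + φ (v + J (g + h0))
  rw [map_add, add_assoc v]

/-- the sum of a function with one more period vanishes -/
theorem Tsum_zero {J : UG →ₗ[ZMod 2] U} {L : Submodule (ZMod 2) U} {φ : U → ZMod 2}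
    (hφ : φ ∈ Inv L) {h0 : UG} (h : h0 ∉ L.comap J) (h' : ∀ v, φ (v + J h0) = φ v) :
    Tsum J (L.comap J) φ = 0 := by
  funext v
  rw [Tsum_eq_tr, Pool.H78.Kh.tr_eq_zero le_top h (Submodule.mem_top)]
  · rfl
  · intro l hl g
    show φ (v + J (g + l)) = φ (v + J g)
    rw [map_add, ← add_assoc]
    rcases Pool.H78.Kh.mem_sup_span hl with h1 | h1
    · exact hφ _ h1 _
    · have h2 := hφ _ h1 (v + J g + J h0)
      rw [h'] at h2
      rw [← h2, map_sub]
      congr 1
      abel

theorem finrank_insert' {K : Submodule (ZMod 2) UG} {h0 : UG} (h : h0 ∉ K) :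
    Module.finrank (ZMod 2) ↥(K ⊔ Submodule.span (ZMod 2) {h0}) = Module.finrank (ZMod 2) K + 1 := by
  have : Module.Finite (ZMod 2) UG := Module.Finite.of_finite
  have hu0 : h0 ≠ 0 := fun h' => h (h' ▸ K.zero_mem)
  have h1 : K ⊓ Submodule.span (ZMod 2) {h0} = ⊥ := by
    rw [← disjoint_iff, disjoint_comm]
    exact (Submodule.disjoint_span_singleton' hu0).2 h |>.symm
  have h2 := Submodule.finrank_sup_add_finrank_inf_eq K (Submodule.span (ZMod 2) {h0})
  rw [h1, finrank_bot, finrank_span_singleton hu0] at h2
  omega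

/-- in case of a merge inside `range J ⊔ L`: the preimage grows by one vector -/
theorem comap_merge {J : UG →ₗ[ZMod 2] U} {L L' : Submodule (ZMod 2) U} {u : U}
    (he : Edge L L' u) (hu : u ∉ L) (hN : u ∈ LinearMap.range J ⊔ L) :
    ∃ h0, h0 ∉ L.comap J ∧ u + J h0 ∈ L ∧
      L'.comap J = L.comap J ⊔ Submodule.span (ZMod 2) {h0} := by
  obtain ⟨a, ⟨h0, rfl⟩, b, hb, hab⟩ := Submodule.mem_sup.1 hN
  have hu0 : u + J h0 ∈ L := by
    rw [← hab, show J h0 + b + J h0 = b + J h0 + J h0 by abel, add_add_cancel_F2]
    exact hb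
  have hn : h0 ∉ L.comap J := by
    intro h
    apply hu
    rw [← hab]
    exact L.add_mem h hb
  refine ⟨h0, hn, hu0, ?_⟩
  have hu' := he.not_mem_right hu
  ext g
  rw [Submodule.mem_comap, he.mem_iff hu', mem_sup_span, Submodule.mem_comap, Submodule.mem_comap]
  have e : J g + u ∈ L ↔ J (g + h0) ∈ L := by
    rw [map_add]
    constructor
    · intro h
      have := L.add_mem h hu0
      rwa [show J g + u + (u + J h0) = J g + J h0 + u + u by abel, add_add_cancel_F2] at this
    · intro h
      have := L.add_mem h hu0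
      rwa [show J g + J h0 + (u + J h0) = J g + u + J h0 + J h0 by abel, add_add_cancel_F2] at this
  rw [e]

theorem comap_out {J : UG →ₗ[ZMod 2] U} {L L' : Submodule (ZMod 2) U} {u : U}
    (he : Edge L L' u) (hN : u ∉ LinearMap.range J ⊔ L) : L'.comap J = L.comap J := by
  have hu : u ∉ L := fun h => hN (Submodule.mem_sup_right h)
  have hu' := he.not_mem_right hu
  ext g
  rw [Submodule.mem_comap, he.mem_iff hu', Submodule.mem_comap]
  constructor
  · rintro (h | h)
    · exact h
    · exfalso
      apply hN
      have : u = J g + (J g + u) := by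
        rw [show J g + (J g + u) = u + J g + J g by abel, add_add_cancel_F2]
      rw [this]
      exact Submodule.add_mem _ (Submodule.mem_sup_left ⟨g, rfl⟩) (Submodule.mem_sup_right h)
  · exact Or.inl

/-- The naturality of `F` along one toggle of the closing. -/
theorem edge_natural {J : UG →ₗ[ZMod 2] U} {L0 L0' L1 L1' : Submodule (ZMod 2) U} {u : U}
    (h0 : Edge L0 L0' u) (h1 : Edge L1 L1' u)
    (hN : LinearMap.range J ⊔ L1 = LinearMap.range J ⊔ L0)
    (hN' : LinearMap.range J ⊔ L1' = LinearMap.range J ⊔ L0')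
    (m : ℕ)
    (hm : m ≤ Module.finrank (ZMod 2) (L1.comap J) + Module.finrank (ZMod 2) (L0.comap J))
    (hm' : m ≤ Module.finrank (ZMod 2) (L1'.comap J) + Module.finrank (ZMod 2) (L0'.comap J))
    {φ : U → ZMod 2} (hφ : φ ∈ Inv L1) :
    tog L0 L0' u (if Module.finrank (ZMod 2) (L1.comap J) + Module.finrank (ZMod 2) (L0.comap J) = m
        then Tsum J (L1.comap J) φ else 0) =
      if Module.finrank (ZMod 2) (L1'.comap J) + Module.finrank (ZMod 2) (L0'.comap J) = m
        then Tsum J (L1'.comap J) (tog L1 L1' u φ) else 0 := by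
  by_cases hu : u ∈ LinearMap.range J ⊔ L1
  swap
  · -- `u ∉ N`
    have hu0 : u ∉ LinearMap.range J ⊔ L0 := hN ▸ hu
    rw [comap_out h1 hu, comap_out h0 hu0]
    have u1 : u ∉ L1 := fun h => hu (Submodule.mem_sup_right h)
    have u0 : u ∉ L0 := fun h => hu0 (Submodule.mem_sup_right h)
    split_ifs
    · rw [tog_out u0, tog_out u1, map_add, Tsum_comm_Tr]
    · rw [map_zero]
  by_cases hu' : u ∈ LinearMap.range J ⊔ L1'
  swap
  · -- `u ∈ N`, `u ∉ N'`
    have hu0 : u ∉ LinearMap.range J ⊔ L0' := hN' ▸ hu'
    rw [comap_out h1.symm hu', comap_out h0.symm hu0]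
    have u1 : u ∉ L1' := fun h => hu' (Submodule.mem_sup_right h)
    have u0 : u ∉ L0' := fun h => hu0 (Submodule.mem_sup_right h)
    split_ifs
    · rw [tog_in_out (h0.not_mem_left u0) u0, tog_in_out (h1.not_mem_left u1) u1]
    · rw [map_zero]
  have hu0 : u ∈ LinearMap.range J ⊔ L0 := hN ▸ hu
  have hu0' : u ∈ LinearMap.range J ⊔ L0' := hN' ▸ hu'
  -- left side: only a split on the `0` side contributes
  have left : tog L0 L0' u (if Module.finrank (ZMod 2) (L1.comap J) +
        Module.finrank (ZMod 2) (L0.comap J) = m then Tsum J (L1.comap J) φ else 0) =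
      if u ∉ L0' ∧ Module.finrank (ZMod 2) (L1.comap J) + Module.finrank (ZMod 2) (L0.comap J) = m
        then Tsum J (L1.comap J) φ else 0 := by
    by_cases a : u ∈ L0
    · by_cases b : u ∈ L0'
      · rw [tog_in_in a b, if_neg (show ¬ (u ∉ L0' ∧ _) from fun h => h.1 b)]
      · rw [tog_in_out a b]
        simp [b]
    · have b := h0.not_mem_right a
      rw [tog_out a, if_neg (show ¬ (u ∉ L0' ∧ _) from fun h => h.1 b)]
      split_ifs with h
      · funext v
        show Tsum J (L1.comap J) φ v + Tsum J (L1.comap J) φ (v + u) = 0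
        rw [Tsum_mem hφ u hu v]
        exact add_self_Z2 _
      · rw [map_zero, add_zero]
  have right : (if Module.finrank (ZMod 2) (L1'.comap J) + Module.finrank (ZMod 2) (L0'.comap J) = m
        then Tsum J (L1'.comap J) (tog L1 L1' u φ) else 0) =
      if u ∉ L1 ∧ Module.finrank (ZMod 2) (L1'.comap J) + Module.finrank (ZMod 2) (L0'.comap J) = m
        then Tsum J (L1.comap J) φ else 0 := by
    by_cases a : u ∈ L1
    · rw [if_neg (show ¬ (u ∉ L1 ∧ _) from fun h => h.1 a)]
      by_cases b : u ∈ L1'
      · rw [tog_in_in a b, map_zero]; simp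
      · rw [tog_in_out a b]
        obtain ⟨g, hg1, hg2, _⟩ := comap_merge h1.symm b hu'
        have hle := h1.symm.le_of_mem a
        have hφ' : φ ∈ Inv L1' := fun l hl v => hφ l (hle hl) v
        rw [Tsum_zero hφ' hg1]
        · simp
        · intro v
          have h2 := hφ _ (hle hg2) v
          have h3 := hφ _ a (v + J g)
          rw [← h3, ← h2]
          congr 1
          abel
    · obtain ⟨g, hg1, hg2, hg3⟩ := comap_merge h1 a hu
      rw [tog_out a, hg3, Tsum_merge hφ hg1 hg2]
      simp [a]
  rw [left, right]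
  have d0 : (u ∉ L0' → Module.finrank (ZMod 2) (L0.comap J) =
        Module.finrank (ZMod 2) (L0'.comap J) + 1) ∧
      (u ∈ L0' → Module.finrank (ZMod 2) (L0.comap J) ≤ Module.finrank (ZMod 2) (L0'.comap J)) := by
    constructor
    · intro h
      obtain ⟨g, hg1, _, hg3⟩ := comap_merge h0.symm h hu0'
      rw [hg3, finrank_insert' hg1]
    · intro h
      by_cases a : u ∈ L0
      · rw [h0.eq_of_mem a h]
      · obtain ⟨g, hg1, _, hg3⟩ := comap_merge h0 a hu0
        rw [hg3, finrank_insert' hg1]; omega
  have d1 : (u ∉ L1 → Module.finrank (ZMod 2) (L1'.comap J) =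
        Module.finrank (ZMod 2) (L1.comap J) + 1) ∧
      (u ∈ L1 → Module.finrank (ZMod 2) (L1'.comap J) ≤ Module.finrank (ZMod 2) (L1.comap J)) := by
    constructor
    · intro h
      obtain ⟨g, hg1, _, hg3⟩ := comap_merge h1 h hu
      rw [hg3, finrank_insert' hg1]
    · intro h
      by_cases a : u ∈ L1'
      · rw [h1.eq_of_mem h a]
      · obtain ⟨g, hg1, _, hg3⟩ := comap_merge h1.symm a hu'
        rw [hg3, finrank_insert' hg1]; omega
  by_cases a : u ∈ L0' <;> by_cases b : u ∈ L1
  · rw [if_neg (fun h => h.1 a), if_neg (fun h => h.1 b)]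
  · have := d0.2 a
    have := d1.1 b
    rw [if_neg (fun h => h.1 a), if_neg]
    rintro ⟨_, h⟩
    omega
  · have := d0.1 a
    have := d1.2 b
    rw [if_neg (show ¬ (u ∉ L1 ∧ _) from fun h => h.1 b), if_neg]
    rintro ⟨_, h⟩
    omega
  · have := d0.1 a
    have := d1.1 b
    have e : (u ∉ L0' ∧ Module.finrank (ZMod 2) (L1.comap J) +
        Module.finrank (ZMod 2) (L0.comap J) = m) ↔
        (u ∉ L1 ∧ Module.finrank (ZMod 2) (L1'.comap J) +
        Module.finrank (ZMod 2) (L0'.comap J) = m) := by
      simp only [a, b, not_false_eq_true, true_and]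
      omega
    rw [if_congr e rfl rfl]

end Tsum

section FSec

variable {X0 Y U UG : Type} [DecidableEq X0] [DecidableEq Y] [Fintype X0]
  [AddCommGroup U] [Module (ZMod 2) U] [AddCommGroup UG] [Module (ZMod 2) UG] [Finite UG]

/-- the state with constant value `b` on the crossings `X0` of the graph and `t` on the closing -/
def stt (b : Bool) (t : Y → Bool) : X0 ⊕ Y → Bool := Sum.elim (fun _ => b) t

/-- the closing part of a state -/
def yp (s : X0 ⊕ Y → Bool) : Y → Bool := fun y => s (Sum.inr y)

/-- the graph part of `s` is constant `b` -/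
def XC (b : Bool) (s : X0 ⊕ Y → Bool) : Prop := ∀ x, s (Sum.inl x) = b

theorem stt_of_XC {b : Bool} {s : X0 ⊕ Y → Bool} (h : XC b s) : s = stt b (yp s) := by
  funext z
  cases z with
  | inl x => exact h x
  | inr y => rfl

theorem XC_stt (b : Bool) (t : Y → Bool) : XC b (stt (X0 := X0) b t) := fun _ => rfl

@[simp] theorem yp_stt (b : Bool) (t : Y → Bool) : yp (stt (X0 := X0) b t) = t := rfl

theorem stt_update_inr (b c : Bool) (t : Y → Bool) (y : Y) :
    update (stt (X0 := X0) b t) (Sum.inr y) c = stt b (update t y c) := by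
  funext z
  cases z with
  | inl x => rw [update_of_ne (by simp)]; rfl
  | inr z =>
    by_cases h : z = y
    · subst h; simp [stt]
    · rw [update_of_ne (by simpa using h)]
      show t z = update t y c z
      rw [update_of_ne h]

theorem yp_update_inr (s : X0 ⊕ Y → Bool) (y : Y) (c : Bool) :
    yp (update s (Sum.inr y) c) = update (yp s) y c := by
  funext z
  by_cases h : z = y
  · subst h; simp [yp]
  · show update s (Sum.inr y) c (Sum.inr z) = _
    rw [update_of_ne (by simpa using h), update_of_ne h]; rfl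

theorem yp_update_inl (s : X0 ⊕ Y → Bool) (x : X0) (c : Bool) :
    yp (update s (Sum.inl x) c) = yp s := by
  funext z
  show update s (Sum.inl x) c (Sum.inr z) = _
  rw [update_of_ne (by simp)]; rfl

theorem XC_update_inr {b : Bool} {s : X0 ⊕ Y → Bool} {y : Y} {c : Bool} :
    XC b (update s (Sum.inr y) c) ↔ XC b s := by
  constructor
  · intro h x
    have := h x
    rwa [update_of_ne (by simp)] at this
  · intro h x
    rw [update_of_ne (by simp)]; exact h x

variable (S : CS (X0 ⊕ Y) U) (J : UG →ₗ[ZMod 2] U)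

/-- `K b t`: the vectors of `UG` that die in the state `(b, t)` -/
def KK (b : Bool) (t : Y → Bool) : Submodule (ZMod 2) UG := (S.L (stt b t)).comap J

/-- the total number of dead directions in the two extreme states -/
noncomputable def MM (t : Y → Bool) : ℕ :=
  Module.finrank (ZMod 2) (KK S J true t) + Module.finrank (ZMod 2) (KK S J false t)

/-- the endomorphism of degree `-|X0|` -/
noncomputable def FF (m : ℕ) : Co (X0 ⊕ Y) U →ₗ[ZMod 2] Co (X0 ⊕ Y) U where
  toFun Φ s := if XC false s then
    (if MM S J (yp s) = m then Tsum J (KK S J true (yp s)) (Φ (stt true (yp s))) else 0) else 0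
  map_add' Φ Ψ := by
    funext s
    simp only [Pi.add_apply]
    split_ifs
    · rw [map_add]
    · rw [add_zero]
    · rw [add_zero]
  map_smul' c Φ := by
    funext s
    simp only [Pi.smul_apply, RingHom.id_apply]
    split_ifs
    · rw [map_smul]
    · rw [smul_zero]
    · rw [smul_zero]

theorem FF_apply (m : ℕ) (Φ : Co (X0 ⊕ Y) U) (s : X0 ⊕ Y → Bool) : FF S J m Φ s =
    if XC false s then
      (if MM S J (yp s) = m then Tsum J (KK S J true (yp s)) (Φ (stt true (yp s))) else 0)
      else 0 := rfl

/-- `range J + L` does not depend on the state of the graph -/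
theorem sup_const (hJ : ∀ x : X0, S.u (Sum.inl x) ∈ LinearMap.range J) (t : Y → Bool) :
    LinearMap.range J ⊔ S.L (stt true t) = LinearMap.range J ⊔ S.L (stt false t) := by
  have key : ∀ W : Finset X0, LinearMap.range J ⊔ S.L (Sum.elim (fun x => decide (x ∈ W)) t) =
      LinearMap.range J ⊔ S.L (stt false t) := by
    intro W
    induction W using Finset.induction_on with
    | empty => simp [stt]
    | insert x W hx ih =>
      rw [← ih]
      have he := S.edge (Sum.elim (fun x => decide (x ∈ W)) t) (Sum.inl x) (by simp [hx])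
      have e : update (Sum.elim (fun x => decide (x ∈ W)) t) (Sum.inl x) true =
          (Sum.elim (fun z => decide (z ∈ insert x W)) t : X0 ⊕ Y → Bool) := by
        funext z
        cases z with
        | inl z =>
          by_cases h : z = x
          · subst h; simp
          · rw [update_of_ne (by simpa using h)]; simp [h]
        | inr z => rw [update_of_ne (by simp)]; rfl
      rw [e] at he
      have hle : Submodule.span (ZMod 2) {S.u (Sum.inl x)} ≤ LinearMap.range J :=
        (Submodule.span_singleton_le_iff_mem _ _).2 (hJ x)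
      have h1 : ∀ L : Submodule (ZMod 2) U, LinearMap.range J ⊔ L =
          LinearMap.range J ⊔ (L ⊔ Submodule.span (ZMod 2) {S.u (Sum.inl x)}) := by
        intro L
        rw [sup_comm L, ← sup_assoc, sup_eq_left.2 hle]
      rw [h1, ← he.swap, ← h1]
  have := key Finset.univ
  simpa [stt] using this

variable {S J}

/-- every toggle commutes with `FF` -/
theorem pd_FF (hJ : ∀ x : X0, S.u (Sum.inl x) ∈ LinearMap.range J)
    {A : Finset (X0 ⊕ Y)} {c : X0 ⊕ Y → Bool} {n : ℤ} (m : ℕ)
    (hA : ∀ x : X0, Sum.inl x ∈ A)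
    (hM : ∀ t : Y → Bool, InCube A c (stt true t) → m ≤ MM S J t)
    (ad : ∀ (b : Bool) (x : X0) (t : Y → Bool), InCube A c (stt true t) →
      S.u (Sum.inl x) ∉ S.L (stt b t))
    {Φ : Co (X0 ⊕ Y) U} (hΦ : S.IsC A c n Φ) {z : X0 ⊕ Y} (hz : z ∈ A) :
    S.pd z (FF S J m Φ) = FF S J m (S.pd z Φ) := by
  have zeroOut : ∀ s : X0 ⊕ Y → Bool, ¬ InCube A c s → Φ s = 0 := by
    intro s hs
    by_contra h
    exact hs (hΦ.supp s h).1
  have cube_iff : ∀ (b b' : Bool) (t : Y → Bool), InCube A c (stt (X0 := X0) b t) ↔
      InCube A c (stt (X0 := X0) b' t) := by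
    intro b b' t
    constructor <;>
    · intro h w hw
      cases w with
      | inl x => exact absurd (hA x) hw
      | inr y => exact h (Sum.inr y) hw
  funext s
  cases z with
  | inl x =>
    -- both sides vanish
    have hR : FF S J m (S.pd (Sum.inl x) Φ) s = 0 := by
      rw [FF_apply]
      split_ifs with h1 h2
      · rw [S.pd_true (Sum.inl x) Φ (by rfl)]
        by_cases hc : InCube A c (stt (X0 := X0) true (yp s))
        · have he := S.edge' (stt true (yp s)) (Sum.inl x) rfl
          have hn := ad true x (yp s) hc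
          have hi := he.not_mem_left hn
          rw [tog_in_out hi hn]
          obtain ⟨h0, hh0⟩ := hJ x
          have hφ := hΦ.inv (update (stt true (yp s)) (Sum.inl x) false)
          have hφ' : Φ (update (stt true (yp s)) (Sum.inl x) false) ∈
              Inv (S.L (stt true (yp s))) := fun l hl v => hφ l (he.symm.le_of_mem hi hl) v
          refine Tsum_zero hφ' (h0 := h0) ?_ ?_
          · intro h
            rw [Submodule.mem_comap, hh0] at h
            exact hn h
          · intro v
            rw [hh0]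
            exact hφ _ hi v
        · rw [zeroOut _ (fun h => hc (InCube.of_update (hA x) h)), map_zero, map_zero]
      · rfl
      · rfl
    rw [hR]
    by_cases hs : s (Sum.inl x) = true
    · rw [S.pd_true _ _ hs]
      by_cases h1 : XC false (update s (Sum.inl x) false)
      · have e1 := stt_of_XC h1
        rw [yp_update_inl] at e1
        by_cases hc : InCube A c (stt (X0 := X0) true (yp s))
        · have hn := ad false x (yp s) hc
          rw [← e1] at hn
          rw [tog_out hn]
          have hinv : FF S J m Φ (update s (Sum.inl x) false) ∈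
              Inv (LinearMap.range J ⊔ S.L (stt true (yp s))) := by
            rw [FF_apply, if_pos h1, yp_update_inl]
            split_ifs
            · exact Tsum_mem (hΦ.inv _)
            · exact Submodule.zero_mem _
          funext v
          show _ + FF S J m Φ (update s (Sum.inl x) false) (v + S.u (Sum.inl x)) = 0
          rw [hinv _ (Submodule.mem_sup_left (hJ x)) v]
          exact add_self_Z2 _
        · have : FF S J m Φ (update s (Sum.inl x) false) = 0 := by
            rw [FF_apply, if_pos h1, yp_update_inl, zeroOut _ hc, map_zero, ite_self]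
          rw [this, map_zero]
      · have : FF S J m Φ (update s (Sum.inl x) false) = 0 := by
          rw [FF_apply, if_neg h1]
        rw [this, map_zero]
    · rw [S.pd_false _ _ (by simpa using hs)]
  | inr y =>
    by_cases hs : s (Sum.inr y) = true
    · rw [S.pd_true _ _ hs]
      by_cases h1 : XC false s
      · have e1 := stt_of_XC h1
        set t' := yp s with ht'
        have hty : t' y = true := hs
        by_cases hc : InCube A c (stt (X0 := X0) true t')
        · have hc' : InCube A c (stt (X0 := X0) true (update t' y false)) := by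
            rw [← stt_update_inr]
            exact hc.update hz false
          have E0 := S.edge' (stt false t') (Sum.inr y) hs
          have E1 := S.edge' (stt true t') (Sum.inr y) hs
          rw [stt_update_inr] at E0 E1
          have key := edge_natural (J := J) E0 E1 (sup_const S J hJ _) (sup_const S J hJ _) m
            (hM _ hc') (hM _ hc) (hΦ.inv (stt true (update t' y false)))
          rw [e1, stt_update_inr]
          have l1 : FF S J m Φ (stt false (update t' y false)) =
              if Module.finrank (ZMod 2) ((S.L (stt true (update t' y false))).comap J) +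
                Module.finrank (ZMod 2) ((S.L (stt false (update t' y false))).comap J) = m
              then Tsum J ((S.L (stt true (update t' y false))).comap J)
                (Φ (stt true (update t' y false))) else 0 := by
            rw [FF_apply, if_pos (XC_stt _ _)]; rfl
          have l2 : FF S J m (S.pd (Sum.inr y) Φ) (stt false t') =
              if Module.finrank (ZMod 2) ((S.L (stt true t')).comap J) +
                Module.finrank (ZMod 2) ((S.L (stt false t')).comap J) = m
              then Tsum J ((S.L (stt true t')).comap J)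
                (tog (S.L (stt true (update t' y false))) (S.L (stt true t')) (S.u (Sum.inr y))
                (Φ (stt true (update t' y false)))) else 0 := by
            rw [FF_apply, if_pos (XC_stt _ _), yp_stt, S.pd_true (Sum.inr y) Φ
              (s := stt true t') hty, stt_update_inr]
            rfl
          rw [l1, l2, key]
        · have z1 : ¬ InCube A c (stt (X0 := X0) true (update t' y false)) := by
            intro h
            rw [← stt_update_inr] at h
            exact hc (InCube.of_update hz h)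
          have l1 : FF S J m Φ (update s (Sum.inr y) false) = 0 := by
            rw [FF_apply, yp_update_inr, zeroOut _ z1, map_zero]; simp
          have l2 : FF S J m (S.pd (Sum.inr y) Φ) s = 0 := by
            rw [FF_apply, S.pd_true (Sum.inr y) Φ (s := stt true (yp s)) hs, stt_update_inr,
              zeroOut _ z1, map_zero, map_zero]; simp
          rw [l1, l2, map_zero]
      · have l1 : FF S J m Φ (update s (Sum.inr y) false) = 0 := by
          rw [FF_apply, if_neg (fun h => h1 (XC_update_inr.1 h))]
        rw [l1, map_zero, FF_apply, if_neg h1]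
    · have hs' : s (Sum.inr y) = false := by simpa using hs
      rw [S.pd_false _ _ hs', FF_apply]
      rw [S.pd_false (Sum.inr y) Φ (s := stt true (yp s)) hs', map_zero]
      simp

/-- (F1) `FF` is a chain map -/
theorem d_FF (hJ : ∀ x : X0, S.u (Sum.inl x) ∈ LinearMap.range J)
    {A : Finset (X0 ⊕ Y)} {c : X0 ⊕ Y → Bool} {n : ℤ} (m : ℕ)
    (hA : ∀ x : X0, Sum.inl x ∈ A)
    (hM : ∀ t : Y → Bool, InCube A c (stt true t) → m ≤ MM S J t)
    (ad : ∀ (b : Bool) (x : X0) (t : Y → Bool), InCube A c (stt true t) →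
      S.u (Sum.inl x) ∉ S.L (stt b t))
    {Φ : Co (X0 ⊕ Y) U} (hΦ : S.IsC A c n Φ) :
    S.d A (FF S J m Φ) = FF S J m (S.d A Φ) := by
  rw [CS.d, LinearMap.sum_apply, LinearMap.sum_apply, map_sum]
  exact Finset.sum_congr rfl (fun z hz => pd_FF hJ m hA hM ad hΦ hz)

theorem deg_stt {A : Finset (X0 ⊕ Y)} (hA : ∀ x : X0, Sum.inl x ∈ A) (t : Y → Bool) :
    deg A (stt true t) = deg A (stt false t) + Fintype.card X0 := by
  unfold deg
  have e : A.filter (fun z => stt (X0 := X0) true t z = true) =
      A.filter (fun z => stt (X0 := X0) false t z = true) ∪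
        (Finset.univ : Finset X0).map Function.Embedding.inl := by
    ext z
    rw [Finset.mem_union, Finset.mem_filter, Finset.mem_filter, Finset.mem_map]
    cases z with
    | inl x => simp [stt, hA x]
    | inr y => simp [stt]
  rw [e, Finset.card_union_of_disjoint, Finset.card_map, Finset.card_univ]
  · push_cast; rfl
  · rw [Finset.disjoint_left]
    intro z hz hz'
    rw [Finset.mem_map] at hz'
    obtain ⟨x, _, rfl⟩ := hz'
    have := (Finset.mem_filter.1 hz).2
    simp [stt] at this

/-- (F1) `FF` has degree `-|X0|` -/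
theorem isC_FF (hJ : ∀ x : X0, S.u (Sum.inl x) ∈ LinearMap.range J)
    {A : Finset (X0 ⊕ Y)} {c : X0 ⊕ Y → Bool} {n : ℤ} (m : ℕ)
    (hA : ∀ x : X0, Sum.inl x ∈ A) {Φ : Co (X0 ⊕ Y) U} (hΦ : S.IsC A c n Φ) :
    S.IsC A c (n - Fintype.card X0) (FF S J m Φ) := by
  refine ⟨fun s => ?_, fun s hs => ?_⟩
  · rw [FF_apply]
    split_ifs with h1 h2
    · have h3 := Tsum_mem (J := J) (hΦ.inv (stt true (yp s)))
      intro l hl v
      refine h3 l ?_ v
      rw [sup_const S J hJ]
      rw [stt_of_XC h1] at hl
      exact Submodule.mem_sup_right hl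
    · exact Submodule.zero_mem _
    · exact Submodule.zero_mem _
  · rw [FF_apply] at hs
    split_ifs at hs with h1 h2
    · have h3 : Φ (stt true (yp s)) ≠ 0 := by
        intro h
        rw [h, map_zero] at hs
        exact hs rfl
      obtain ⟨h4, h5⟩ := hΦ.supp _ h3
      refine ⟨?_, ?_⟩
      · rw [stt_of_XC h1]
        intro w hw
        cases w with
        | inl x => exact absurd (hA x) hw
        | inr y => exact h4 (Sum.inr y) hw
      · rw [deg_stt hA] at h5
        rw [stt_of_XC h1]
        omega
    · exact absurd rfl hs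
    · exact absurd rfl hs

variable (S J)

/-- `FF` kills the cohomology of the subcube -/
def ZZ (A : Finset (X0 ⊕ Y)) (c : X0 ⊕ Y → Bool) (m : ℕ) : Prop :=
  ∀ n Φ, S.IsC A c n Φ → S.d A Φ = 0 →
    ∃ Ψ, S.IsC A c (n - Fintype.card X0 - 1) Ψ ∧ S.d A Ψ = FF S J m Φ

end FSec

end Spg
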