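import Pool.Agent.H78.SpgF
import Pool.Agent.H78.Kh.Filter

/-!
# (F2) nonvanishing and (F5) the filtration lemma
-/

set_option linter.unusedSectionVars false
set_option linter.unusedVariables false

open Function
open scoped Classical

namespace Spg

variable {X0 Y U UG : Type} [DecidableEq X0] [DecidableEq Y] [Fintype X0]
  [AddCommGroup U] [Module (ZMod 2) U] [AddCommGroup UG] [Module (ZMod 2) UG] [Finite UG]

variable {S : CS (X0 ⊕ Y) U} {J : UG →ₗ[ZMod 2] U}

theorem deg_nonneg {X : Type} (A : Finset X) (s : X → Bool) : 0 ≤ deg A s := by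
  unfold deg; positivity

/-- (F2): if all active crossings belong to the graph and the closing is extremal, `FF` does not
kill the cohomology -/
theorem not_ZZ {A : Finset (X0 ⊕ Y)} {c : X0 ⊕ Y → Bool} {m : ℕ}
    (hA : ∀ z, z ∈ A ↔ ∃ x, Sum.inl x = z) (hm : MM S J (yp c) = m) : ¬ ZZ S J A c m := by
  intro hZ
  set t := yp c with ht
  set Φ : Co (X0 ⊕ Y) U := fun s => if s = stt true t then
    (fun v => if v ∈ S.L (stt true t) then 1 else 0) else 0 with hΦ
  have hA' : ∀ x : X0, Sum.inl x ∈ A := fun x => (hA _).2 ⟨x, rfl⟩
  have hdeg : deg A (stt true t) = Fintype.card X0 := by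
    rw [deg_stt hA']
    have : deg A (stt (X0 := X0) false t) = 0 := by
      unfold deg
      rw [Finset.filter_false_of_mem]
      · rfl
      · intro z hz
        obtain ⟨x, rfl⟩ := (hA z).1 hz
        simp [stt]
    rw [this, zero_add]
  have hC : S.IsC A c (Fintype.card X0) Φ := by
    refine ⟨fun s => ?_, fun s hs => ?_⟩
    · rw [hΦ]
      dsimp only
      split_ifs with h
      · subst h
        intro l hl v
        dsimp only
        have : v + l ∈ S.L (stt true t) ↔ v ∈ S.L (stt true t) :=
          Submodule.add_mem_iff_left _ hl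
        simp only [this]
      · exact Submodule.zero_mem _
    · have h : s = stt true t := by
        by_contra h
        apply hs
        rw [hΦ]; dsimp only; rw [if_neg h]
      subst h
      refine ⟨?_, hdeg⟩
      intro z hz
      cases z with
      | inl x => exact absurd (hA' x) hz
      | inr y => rfl
  have hd : S.d A Φ = 0 := by
    funext s
    rw [S.d_apply]
    refine Finset.sum_eq_zero (fun z hz => ?_)
    obtain ⟨x, rfl⟩ := (hA z).1 hz
    by_cases h : s (Sum.inl x) = true
    · rw [S.pd_true _ _ h]
      have : Φ (update s (Sum.inl x) false) = 0 := by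
        rw [hΦ]; dsimp only
        rw [if_neg]
        intro h'
        have := congrFun h' (Sum.inl x)
        simp [stt] at this
      rw [this, map_zero]
    · rw [S.pd_false _ _ (by simpa using h)]
  obtain ⟨Ψ, hΨ, hdΨ⟩ := hZ _ Φ hC hd
  have hΨ0 : Ψ = 0 := by
    funext s
    by_contra h
    have := (hΨ.supp s h).2
    have h2 := deg_nonneg A s
    omega
  rw [hΨ0, map_zero] at hdΨ
  have h1 := congrFun (congrFun hdΨ (stt false t)) 0
  rw [FF_apply, if_pos (XC_stt _ _), yp_stt, if_pos hm, Tsum_apply] at h1
  have h2 : ∑ h : UG ⧸ KK S J true t, Φ (stt true t) (0 + J h.out) = 1 := by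
    rw [Finset.sum_eq_single 0]
    · rw [hΦ]
      dsimp only
      rw [if_pos rfl, if_pos]
      rw [zero_add]
      have := Pool.H78.Kh.out_sub_mem (KK S J true t) (0 : UG)
      rw [sub_zero] at this
      exact this
    · intro b _ hb
      rw [hΦ]
      dsimp only
      rw [if_pos rfl, if_neg]
      intro h
      apply hb
      rw [zero_add] at h
      rw [← Pool.H78.Kh.mk_out b]
      exact (Submodule.Quotient.mk_eq_zero _).2 h
    · intro h; exact absurd (Finset.mem_univ _) h
  rw [h2] at h1
  have h3 : (0 : ZMod 2) = 1 := h1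
  exact absurd h3 (by decide)

/-! ### the filtration lemma -/

theorem d_supp {X : Type} [DecidableEq X] {S : CS X U} {A : Finset X} {Φ : Co X U} {s : X → Bool}
    (h : S.d A Φ s ≠ 0) : ∃ x ∈ A, s x = true ∧ Φ (update s x false) ≠ 0 := by
  rw [S.d_apply] at h
  obtain ⟨x, hx, hne⟩ := Finset.exists_ne_zero_of_sum_ne_zero h
  by_cases hs : s x = true
  · refine ⟨x, hx, hs, fun h0 => hne ?_⟩
    rw [S.pd_true _ _ hs, h0, map_zero]
  · exact absurd (S.pd_false _ _ (by simpa using hs)) hne

theorem FF_supp {m : ℕ} {Φ : Co (X0 ⊕ Y) U} {s : X0 ⊕ Y → Bool} (h : FF S J m Φ s ≠ 0) :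
    XC false s ∧ Φ (stt true (yp s)) ≠ 0 := by
  rw [FF_apply] at h
  split_ifs at h with h1 h2
  · refine ⟨h1, fun h0 => h ?_⟩
    rw [h0, map_zero]
  · exact absurd rfl h
  · exact absurd rfl h

/-- number of `true`s of `s` in `T` -/
def tc {X : Type} (T : Finset X) (s : X → Bool) : ℕ := (T.filter (fun x => s x = true)).card

theorem tc_update_le {X : Type} [DecidableEq X] (T : Finset X) (s : X → Bool) (x : X) :
    tc T (update s x false) ≤ tc T s := by
  unfold tc
  apply Finset.card_le_card
  intro y hy
  rw [Finset.mem_filter] at hy ⊢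
  refine ⟨hy.1, ?_⟩
  by_cases h : y = x
  · subst h; simp at hy
  · rw [update_of_ne h] at hy; exact hy.2

theorem tc_update_notMem {X : Type} [DecidableEq X] {T : Finset X} {s : X → Bool} {x : X}
    (hx : x ∉ T) (b : Bool) : tc T (update s x b) = tc T s := by
  unfold tc
  congr 1
  apply Finset.filter_congr
  intro y hy
  have hyx : y ≠ x := fun h => hx (h ▸ hy)
  rw [update_of_ne hyx]

theorem tc_update_mem {X : Type} [DecidableEq X] {T : Finset X} {s : X → Bool} {x : X}
    (hx : x ∈ T) (h : s x = true) : tc T (update s x false) + 1 = tc T s := by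
  unfold tc
  have h1 : T.filter (fun y => update s x false y = true)
      = (T.filter (fun y => s y = true)).erase x := by
    ext y
    simp only [Finset.mem_filter, Finset.mem_erase]
    by_cases hy : y = x
    · subst hy; simp
    · rw [update_of_ne hy]; simp [hy]
  have h2 : x ∈ T.filter (fun y => s y = true) := by
    rw [Finset.mem_filter]; exact ⟨hx, h⟩
  rw [h1, Finset.card_erase_add_one h2]

theorem deg_sdiff {X : Type} [DecidableEq X] {A T : Finset X} (hT : T ⊆ A) (s : X → Bool) :
    deg A s = deg (A \ T) s + tc T s := by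
  unfold deg tc
  have : A.filter (fun x => s x = true) = (A \ T).filter (fun x => s x = true) ∪
      T.filter (fun x => s x = true) := by
    rw [← Finset.filter_union, Finset.sdiff_union_of_subset hT]
  rw [this, Finset.card_union_of_disjoint]
  · push_cast; rfl
  · rw [Finset.disjoint_left]
    intro x hx hx'
    rw [Finset.mem_filter, Finset.mem_sdiff] at hx
    exact hx.1.2 (Finset.mem_filter.1 hx').1

/-- chains of the cube -/
def chC {X : Type} [DecidableEq X] (S : CS X U) (A : Finset X) (c : X → Bool) :
    AddSubgroup (Co X U) where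
  carrier := {Φ | S.IsInv Φ ∧ ∀ s, Φ s ≠ 0 → InCube A c s}
  zero_mem' := ⟨CS.IsInv.zero S, fun s h => absurd rfl h⟩
  add_mem' := fun {a b} ha hb => ⟨CS.IsInv.add S ha.1 hb.1, fun s hs => by
    by_cases h : a s = 0
    · exact hb.2 s (fun h' => hs (by rw [Pi.add_apply, h, h', add_zero]))
    · exact ha.2 s h⟩
  neg_mem' := fun {a} ha => ⟨fun s => Submodule.neg_mem _ (ha.1 s), fun s hs => ha.2 s (fun h => hs (by
    rw [Pi.neg_apply, h, neg_zero]))⟩

/-- cochains supported in a set of states -/
def suppG {X : Type} (U : Type) [AddCommGroup U] (P : (X → Bool) → Prop) : AddSubgroup (Co X U) where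
  carrier := {Φ | ∀ s, Φ s ≠ 0 → P s}
  zero_mem' := fun s h => absurd rfl h
  add_mem' := fun {a b} ha hb s hs => by
    by_cases h : a s = 0
    · exact hb s (fun h' => hs (by rw [Pi.add_apply, h, h', add_zero]))
    · exact ha s h
  neg_mem' := fun {a} ha s hs => ha s (fun h => hs (by rw [Pi.neg_apply, h, neg_zero]))

theorem mem_suppG {X : Type} {P : (X → Bool) → Prop} {Φ : Co X U} :
    Φ ∈ suppG U P ↔ ∀ s, Φ s ≠ 0 → P s := Iff.rfl

/-- the graded pieces -/
theorem graded {X : Type} [DecidableEq X] {S : CS X U} {A T : Finset X} (hT : T ⊆ A)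
    {c : X → Bool} {p : ℕ} {q : ℤ}
    (hv : ∀ c' : X → Bool, (∀ z, z ∉ A → c' z = c z) → S.E (A \ T) c' q)
    {Φ : Co X U} (hC : Φ ∈ chC S A c) (hd : Φ ∈ suppG U (fun s => deg A s = p + q))
    (hF : Φ ∈ suppG U (fun s => p ≤ tc T s))
    (hdF : S.d A Φ ∈ suppG U (fun s => p + 1 ≤ tc T s)) :
    ∃ y ∈ chC S A c, y ∈ suppG U (fun s => deg A s = p + q - 1) ∧
      Φ - S.d A y ∈ suppG U (fun s => p + 1 ≤ tc T s) := by
  -- pattern of a set `π ⊆ T`
  set pat : Finset X → X → Bool := fun π z => if z ∈ T then decide (z ∈ π) else c z with hpat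
  set ok : Finset X → (X → Bool) → Prop := fun π s => ∀ z ∈ T, s z = decide (z ∈ π) with hok
  have step : ∀ π ∈ T.powersetCard p, ∃ y, S.IsC (A \ T) (pat π) (q - 1) y ∧
      S.d (A \ T) y = fun s => if ok π s then Φ s else 0 := by
    intro π hπ
    rw [Finset.mem_powersetCard] at hπ
    have tcp : ∀ s, ok π s → tc T s = p := by
      intro s hs
      unfold tc
      have : T.filter (fun x => s x = true) = π := by
        ext z
        rw [Finset.mem_filter]
        constructor
        · rintro ⟨h1, h2⟩
          rw [hs z h1] at h2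
          simpa using h2
        · intro h
          refine ⟨hπ.1 h, ?_⟩
          rw [hs z (hπ.1 h)]
          simpa using h
      rw [this, hπ.2]
    refine hv (pat π) (fun z hz => ?_) (fun s => if ok π s then Φ s else 0) ?_ ?_
    · rw [hpat]
      show (if z ∈ T then decide (z ∈ π) else c z) = c z
      rw [if_neg (fun h => hz (hT h))]
    · refine ⟨fun s => ?_, fun s hs => ?_⟩
      · show (if ok π s then Φ s else 0) ∈ Inv (S.L s)
        split_ifs
        · exact hC.1 s
        · exact Submodule.zero_mem _
      · change (if ok π s then Φ s else 0) ≠ 0 at hs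
        split_ifs at hs with h
        · refine ⟨?_, ?_⟩
          · intro z hz
            rw [hpat]; dsimp only
            by_cases hzT : z ∈ T
            · rw [if_pos hzT]; exact h z hzT
            · rw [if_neg hzT]
              refine hC.2 s hs z (fun hA => hz ?_)
              rw [Finset.mem_sdiff]; exact ⟨hA, hzT⟩
          · have h1 : deg A s = p + q := hd s hs
            have h2 := deg_sdiff hT s
            rw [tcp s h] at h2
            omega
        · exact absurd rfl hs
    · funext s
      by_cases hs : ok π s
      · have h1 : S.d A Φ s = 0 := by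
          by_contra h
          have : p + 1 ≤ tc T s := hdF s h
          rw [tcp s hs] at this
          omega
        rw [S.d_apply] at h1 ⊢
        rw [← Finset.sum_sdiff hT] at h1
        have h2 : ∑ x ∈ T, S.pd x Φ s = 0 := by
          refine Finset.sum_eq_zero (fun x hx => ?_)
          by_cases hsx : s x = true
          · rw [S.pd_true _ _ hsx]
            have : Φ (update s x false) = 0 := by
              by_contra h
              have h3 : p ≤ tc T (update s x false) := hF _ h
              have h4 := tc_update_mem hx hsx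
              rw [tcp s hs] at h4
              omega
            rw [this, map_zero]
          · rw [S.pd_false _ _ (by simpa using hsx)]
        rw [h2, add_zero] at h1
        rw [Pi.zero_apply, ← h1]
        refine Finset.sum_congr rfl (fun x hx => ?_)
        by_cases hsx : s x = true
        · rw [S.pd_true _ _ hsx, S.pd_true _ _ hsx]
          have hk : ok π (update s x false) := by
            intro z hz
            have hzx : z ≠ x := fun h => (Finset.mem_sdiff.1 hx).2 (h ▸ hz)
            rw [update_of_ne hzx]
            exact hs z hz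
          rw [if_pos hk]
        · rw [S.pd_false _ _ (by simpa using hsx), S.pd_false _ _ (by simpa using hsx)]
      · rw [S.d_apply]
        refine Finset.sum_eq_zero (fun x hx => ?_)
        by_cases hsx : s x = true
        · rw [S.pd_true _ _ hsx]
          have hk : ¬ ok π (update s x false) := by
            intro h
            apply hs
            intro z hz
            have h1 := h z hz
            have hzx : z ≠ x := fun h => (Finset.mem_sdiff.1 hx).2 (h ▸ hz)
            rwa [update_of_ne hzx] at h1
          rw [if_neg hk, map_zero]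
        · rw [S.pd_false _ _ (by simpa using hsx)]
  choose! y hy1 hy2 using step
  refine ⟨∑ π ∈ T.powersetCard p, y π, ?_, ?_, ?_⟩
  · refine AddSubgroup.sum_mem _ (fun π hπ => ⟨(hy1 π hπ).inv, fun s hs z hz => ?_⟩)
    have := ((hy1 π hπ).supp s hs).1 z (fun h => hz (Finset.mem_sdiff.1 h).1)
    rw [this, hpat]; dsimp only
    rw [if_neg (fun h => hz (hT h))]
  · refine AddSubgroup.sum_mem _ (fun π hπ s hs => ?_)
    obtain ⟨h1, h2⟩ := (hy1 π hπ).supp s hs
    have h3 := deg_sdiff hT s
    have h4 : tc T s = p := by
      unfold tc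
      have : T.filter (fun x => s x = true) = π := by
        ext z
        rw [Finset.mem_filter]
        rw [Finset.mem_powersetCard] at hπ
        constructor
        · rintro ⟨k1, k2⟩
          have := h1 z (fun h => (Finset.mem_sdiff.1 h).2 k1)
          rw [k2, hpat] at this
          dsimp only at this
          rw [if_pos k1] at this
          simpa using this.symm
        · intro h
          refine ⟨hπ.1 h, ?_⟩
          have := h1 z (fun h' => (Finset.mem_sdiff.1 h').2 (hπ.1 h))
          rw [this, hpat]
          dsimp only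
          rw [if_pos (hπ.1 h)]
          simpa using h
      rw [this, (Finset.mem_powersetCard.1 hπ).2]
    rw [h4] at h3
    show deg A s = p + q - 1
    omega
  · intro s hs
    by_contra hlt
    apply hs
    have ysupp : ∀ π ∈ T.powersetCard p, ∀ s, y π s ≠ 0 → tc T s = p ∧ ok π s := by
      intro π hπ s hs
      obtain ⟨h1, h2⟩ := (hy1 π hπ).supp s hs
      have hk : ok π s := by
        intro z hz
        have := h1 z (fun h' => (Finset.mem_sdiff.1 h').2 hz)
        rw [this, hpat]
        dsimp only
        rw [if_pos hz]
      refine ⟨?_, hk⟩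
      rw [Finset.mem_powersetCard] at hπ
      unfold tc
      have : T.filter (fun x => s x = true) = π := by
        ext z
        rw [Finset.mem_filter]
        constructor
        · rintro ⟨k1, k2⟩
          rw [hk z k1] at k2
          simpa using k2
        · intro h
          refine ⟨hπ.1 h, ?_⟩
          rw [hk z (hπ.1 h)]
          simpa using h
      rw [this, hπ.2]
    -- `d A` of the sum at `s`
    have hdy : S.d A (∑ π ∈ T.powersetCard p, y π) s =
        ∑ π ∈ T.powersetCard p, (if ok π s then Φ s else 0) := by
      rw [map_sum, Finset.sum_apply]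
      refine Finset.sum_congr rfl (fun π hπ => ?_)
      rw [S.d_apply, ← Finset.sum_sdiff hT]
      have h2 : ∑ x ∈ T, S.pd x (y π) s = 0 := by
        refine Finset.sum_eq_zero (fun x hx => ?_)
        by_cases hsx : s x = true
        · rw [S.pd_true _ _ hsx]
          have : y π (update s x false) = 0 := by
            by_contra h
            have h3 := (ysupp π hπ _ h).1
            have h4 := tc_update_mem hx hsx
            omega
          rw [this, map_zero]
        · rw [S.pd_false _ _ (by simpa using hsx)]
      rw [h2, add_zero, ← S.d_apply]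
      exact congrFun (hy2 π hπ) s
    rw [Pi.sub_apply, hdy]
    by_cases hp : tc T s = p
    · rw [Finset.sum_eq_single (T.filter (fun x => s x = true))]
      · rw [if_pos, sub_self]
        intro z hz
        simp [hz]
      · intro π hπ hne
        rw [if_neg]
        intro hk
        apply hne
        rw [Finset.mem_powersetCard] at hπ
        ext z
        rw [Finset.mem_filter]
        constructor
        · intro h
          refine ⟨hπ.1 h, ?_⟩
          rw [hk z (hπ.1 h)]
          simpa using h
        · rintro ⟨k1, k2⟩
          rw [hk z k1] at k2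
          simpa using k2
      · intro h
        exfalso
        apply h
        rw [Finset.mem_powersetCard]
        exact ⟨Finset.filter_subset _ _, hp⟩
    · have hΦ0 : Φ s = 0 := by
        by_contra h
        have : p ≤ tc T s := hF s h
        omega
      rw [hΦ0]
      simp

/-- (F5) the filtration lemma -/
theorem filt (hJ : ∀ x : X0, S.u (Sum.inl x) ∈ LinearMap.range J)
    {A : Finset (X0 ⊕ Y)} {c : X0 ⊕ Y → Bool} (m : ℕ)
    (hA : ∀ x : X0, Sum.inl x ∈ A)
    (hM : ∀ t : Y → Bool, InCube A c (stt true t) → m ≤ MM S J t)
    (ad : ∀ (b : Bool) (x : X0) (t : Y → Bool), InCube A c (stt true t) →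
      S.u (Sum.inl x) ∉ S.L (stt b t))
    {T : Finset (X0 ⊕ Y)} (hT : T ⊆ A) (hTr : ∀ x : X0, Sum.inl x ∉ T) {lo hi : ℤ}
    (hlo : hi - lo < Fintype.card X0)
    (hv : ∀ c' : X0 ⊕ Y → Bool, (∀ z, z ∉ A → c' z = c z) → ∀ n : ℤ, (n < lo ∨ hi < n) →
      S.E (A \ T) c' n) : ZZ S J A c m := by
  have tcf : ∀ s, XC false s → tc T (stt (X0 := X0) true (yp s)) = tc T s := by
    intro s hs
    unfold tc
    congr 1
    apply Finset.filter_congr
    intro z hz
    cases z with
    | inl x => exact absurd hz (hTr x)
    | inr y => exact Iff.rfl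
  have icf : ∀ s, InCube A c (stt (X0 := X0) true (yp s)) → InCube A c s := by
    intro s h z hz
    cases z with
    | inl x => exact absurd (hA x) hz
    | inr y => exact h (Sum.inr y) hz
  have isC : ∀ {n : ℤ} {Φ : Co (X0 ⊕ Y) U}, Φ ∈ chC S A c → Φ ∈ suppG U (fun s => deg A s = n) →
      S.IsC A c n Φ := fun {n Φ} h1 h2 => ⟨h1.1, fun s hs => ⟨h1.2 s hs, h2 s hs⟩⟩
  let D : Pool.H78.Kh.FiltData (Co (X0 ⊕ Y) U) :=
    { C := chC S A c
      d := (S.d A).toAddMonoidHom
      f := (FF S J m).toAddMonoidHom
      deg := fun n => suppG U (fun s => deg A s = n)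
      F := fun p => suppG U (fun s => p ≤ tc T s)
      c := Fintype.card X0
      n := T.card + 1
      lo := lo
      hi := hi
      F_anti := fun p Φ h s hs => by
        have := h s hs
        show p ≤ tc T s
        omega
      F_zero := by
        rw [eq_top_iff]
        intro Φ _ s _
        exact Nat.zero_le _
      F_last := fun Φ _ h => by
        funext s
        by_contra h'
        have h1 : T.card + 1 ≤ tc T s := h s h'
        have h2 : tc T s ≤ T.card := Finset.card_filter_le _ _
        omega
      d_C := fun Φ h => by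
        refine ⟨CS.IsInv.d S h.1 A, fun s hs => ?_⟩
        obtain ⟨x, hx, _, h2⟩ := d_supp hs
        exact InCube.of_update hx (h.2 _ h2)
      f_C := fun Φ h => by
        refine ⟨fun s => ?_, fun s hs => icf s (h.2 _ (FF_supp hs).2)⟩
        show FF S J m Φ s ∈ Inv (S.L s)
        rw [FF_apply]
        split_ifs with h1 h2
        · have h3 := Tsum_mem (J := J) (h.1 (stt true (yp s)))
          intro l hl v
          refine h3 l ?_ v
          rw [sup_const S J hJ]
          rw [stt_of_XC h1] at hl
          exact Submodule.mem_sup_right hl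
        · exact Submodule.zero_mem _
        · exact Submodule.zero_mem _
      d_deg := fun n Φ _ h s hs => by
        obtain ⟨x, hx, h1, h2⟩ := d_supp hs
        have h3 : deg A (update s x false) = n := h _ h2
        rw [deg_update_false hx h1] at h3
        show deg A s = n + 1
        omega
      f_deg := fun n Φ _ h s hs => by
        obtain ⟨h1, h2⟩ := FF_supp hs
        have h3 : deg A (stt true (yp s)) = n := h _ h2
        rw [deg_stt hA, ← stt_of_XC h1] at h3
        show deg A s = n - Fintype.card X0
        omega
      f_F := fun p Φ _ h s hs => by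
        obtain ⟨h1, h2⟩ := FF_supp hs
        have h3 : p ≤ tc T (stt true (yp s)) := h _ h2
        rwa [tcf s h1] at h3
      d_f := fun n Φ h1 h2 => d_FF hJ m hA hM ad (isC h1 h2)
      d_d := fun Φ h => S.d_d h.1 A
      van := fun p q hq Φ h1 h2 h3 h4 => graded hT (fun c' hc' => hv c' hc' q hq) h1 h2 h3 h4 }
  intro n Φ hΦ hd
  obtain ⟨y, hy1, hy2, hy3⟩ := D.f_kills hlo n (z := Φ) ⟨hΦ.inv, fun s hs => (hΦ.supp s hs).1⟩
    (fun s hs => (hΦ.supp s hs).2) hd
  exact ⟨y, isC hy1 hy2, hy3⟩

end Spg
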