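import Pool.Agent.H78.SpgF
import Pool.Agent.H85.SpgR2

/-!
# (F3): `FF` commutes with the inclusion of the R2 retract
-/

set_option linter.unusedSectionVars false
set_option linter.unusedVariables false

open Function
open scoped Classical

namespace Spg

section General

variable {X U : Type} [DecidableEq X] [AddCommGroup U] [Module (ZMod 2) U]

/-- the inclusion of the R2 retract: identity at `(F,T)`, `ι τ_a` at `(T,F)` -/
noncomputable def gg (S : CS X U) (lam : U →ₗ[ZMod 2] ZMod 2) (xa xb : X) :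
    Co X U →ₗ[ZMod 2] Co X U where
  toFun Φ s :=
    if s xa = false ∧ s xb = true then Φ s
    else if s xa = true ∧ s xb = false then
      iot lam (tog (S.L (update (update s xa false) xb true)) (S.L (update s xb true)) (S.u xa)
        (Φ (update (update s xa false) xb true)))
    else 0
  map_add' Φ Ψ := by
    funext s
    simp only [Pi.add_apply]
    split_ifs
    · rfl
    · rw [map_add, map_add]
    · rw [add_zero]
  map_smul' a Φ := by
    funext s
    simp only [Pi.smul_apply, RingHom.id_apply]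
    split_ifs
    · rfl
    · rw [map_smul, map_smul]
    · rw [smul_zero]

theorem gg_C (S : CS X U) (lam : U →ₗ[ZMod 2] ZMod 2) (xa xb : X) (Φ : Co X U) {s : X → Bool}
    (ha : s xa = false) (hb : s xb = true) : gg S lam xa xb Φ s = Φ s := by
  show (if s xa = false ∧ s xb = true then Φ s else _) = Φ s
  rw [if_pos ⟨ha, hb⟩]

theorem gg_B (S : CS X U) (lam : U →ₗ[ZMod 2] ZMod 2) (xa xb : X) (Φ : Co X U) {s : X → Bool}
    (ha : s xa = true) (hb : s xb = false) : gg S lam xa xb Φ s =
      iot lam (tog (S.L (update (update s xa false) xb true)) (S.L (update s xb true)) (S.u xa)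
        (Φ (update (update s xa false) xb true))) := by
  show (if s xa = false ∧ s xb = true then Φ s else if s xa = true ∧ s xb = false then _ else 0) = _
  rw [if_neg (by rw [ha]; simp), if_pos ⟨ha, hb⟩]

theorem gg_0 (S : CS X U) (lam : U →ₗ[ZMod 2] ZMod 2) (xa xb : X) (Φ : Co X U) {s : X → Bool}
    (h : s xa = s xb) : gg S lam xa xb Φ s = 0 := by
  show (if s xa = false ∧ s xb = true then Φ s else if s xa = true ∧ s xb = false then _ else 0) = _
  rw [if_neg (by rw [h]; cases s xb <;> simp), if_neg (by rw [h]; cases s xb <;> simp)]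

end General

variable {X0 Y U UG : Type} [DecidableEq X0] [DecidableEq Y] [Fintype X0]
  [AddCommGroup U] [Module (ZMod 2) U] [AddCommGroup UG] [Module (ZMod 2) UG] [Finite UG]

variable {S : CS (X0 ⊕ Y) U} {J : UG →ₗ[ZMod 2] U}

theorem notMem_sup_of_lam {lam : U →ₗ[ZMod 2] ZMod 2} (hlJ : ∀ g, lam (J g) = 0)
    {L : Submodule (ZMod 2) U} (hL : ∀ l ∈ L, lam l = 0) {u : U} (hu : lam u = 1) :
    u ∉ LinearMap.range J ⊔ L := by
  intro h
  obtain ⟨a, ⟨g, rfl⟩, b, hb, rfl⟩ := Submodule.mem_sup.1 h
  rw [map_add, hlJ, hL b hb] at hu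
  exact absurd hu (by decide)

theorem Tsum_iot {lam : U →ₗ[ZMod 2] ZMod 2} (hlJ : ∀ g, lam (J g) = 0) (K : Submodule (ZMod 2) UG)
    (φ : U → ZMod 2) : Tsum J K (iot lam φ) = iot lam (Tsum J K φ) := by
  funext v
  rw [iot_apply, Tsum_apply, Tsum_apply]
  have : ∀ h : UG ⧸ K, iot lam φ (v + J h.out) = if lam v = 0 then φ (v + J h.out) else 0 := by
    intro h
    rw [iot_apply, map_add, hlJ, add_zero]
  rw [Finset.sum_congr rfl (fun h _ => this h)]
  split_ifs
  · rfl
  · simp

theorem FF_gg {ya yb : Y} (hab : ya ≠ yb) {lam : U →ₗ[ZMod 2] ZMod 2}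
    (hlJ : ∀ g, lam (J g) = 0)
    (hub : lam (S.u (Sum.inr yb)) = 1)
    (hJ : ∀ x : X0, S.u (Sum.inl x) ∈ LinearMap.range J)
    {A : Finset (X0 ⊕ Y)} {c : X0 ⊕ Y → Bool} {n : ℤ} (m : ℕ)
    (hA : ∀ x : X0, Sum.inl x ∈ A) (hya : Sum.inr ya ∈ A) (hyb : Sum.inr yb ∈ A)
    (hM : ∀ t : Y → Bool, InCube A c (stt true t) → m ≤ MM S J t)
    (hL : ∀ s, InCube A c s → s (Sum.inr ya) = true → s (Sum.inr yb) = false →
      ∀ l ∈ S.L s, lam l = 0)
    {c' : X0 ⊕ Y → Bool} (hc' : ∀ z, z ∉ A → c' z = c z)
    {Φ : Co (X0 ⊕ Y) U} (hΦ : S.IsC (A \ {Sum.inr ya, Sum.inr yb}) c' n Φ) :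
    FF S J m (gg S lam (Sum.inr ya) (Sum.inr yb) Φ) =
      gg S lam (Sum.inr ya) (Sum.inr yb) (FF S J m Φ) := by
  have inA : ∀ s, Φ s ≠ 0 → InCube A c s := by
    intro s hs z hz
    have := (hΦ.supp s hs).1 z (fun h => hz (Finset.mem_sdiff.1 h).1)
    rw [this, hc' z hz]
  funext s
  by_cases hX : XC false s
  swap
  · have l1 : FF S J m (gg S lam (Sum.inr ya) (Sum.inr yb) Φ) s = 0 := by
      rw [FF_apply, if_neg hX]
    rw [l1]
    symm
    cases ha : s (Sum.inr ya) <;> cases hb : s (Sum.inr yb)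
    · exact gg_0 _ _ _ _ _ (by rw [ha, hb])
    · rw [gg_C _ _ _ _ _ ha hb, FF_apply, if_neg hX]
    · rw [gg_B _ _ _ _ _ ha hb, FF_apply, if_neg, map_zero, map_zero]
      rw [XC_update_inr, XC_update_inr]; exact hX
    · exact gg_0 _ _ _ _ _ (by rw [ha, hb])
  · obtain ⟨t, rfl⟩ : ∃ t, s = stt false t := ⟨yp s, stt_of_XC hX⟩
    rw [FF_apply, if_pos hX, yp_stt]
    cases ha : t ya <;> cases hb : t yb
    · rw [gg_0 _ _ _ _ _ (show stt (X0 := X0) false t (Sum.inr ya) = stt false t (Sum.inr yb) from
        by show t ya = t yb; rw [ha, hb]),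
        gg_0 _ _ _ _ _ (show stt (X0 := X0) true t (Sum.inr ya) = stt true t (Sum.inr yb) from
        by show t ya = t yb; rw [ha, hb]), map_zero, ite_self]
    · rw [gg_C _ _ _ _ _ (show stt (X0 := X0) false t (Sum.inr ya) = false from ha)
        (show stt (X0 := X0) false t (Sum.inr yb) = true from hb),
        gg_C _ _ _ _ _ (show stt (X0 := X0) true t (Sum.inr ya) = false from ha)
        (show stt (X0 := X0) true t (Sum.inr yb) = true from hb), FF_apply, if_pos hX, yp_stt]
    · rw [gg_B _ _ _ _ _ (show stt (X0 := X0) false t (Sum.inr ya) = true from ha)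
        (show stt (X0 := X0) false t (Sum.inr yb) = false from hb),
        gg_B _ _ _ _ _ (show stt (X0 := X0) true t (Sum.inr ya) = true from ha)
        (show stt (X0 := X0) true t (Sum.inr yb) = false from hb)]
      simp only [stt_update_inr]
      set tD := update t yb true with htD
      set tC := update (update t ya false) yb true with htC
      by_cases h0 : Φ (stt true tC) = 0
      · rw [h0, map_zero, map_zero, map_zero, ite_self, FF_apply, yp_stt, h0, map_zero]
        simp
      · have cC := inA _ h0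
        have eCD : tD = update tC ya true := by
          funext y
          by_cases h1 : y = ya
          · subst h1
            rw [htD, update_of_ne hab, update_self, ha]
          · rw [update_of_ne h1, htD, htC]
            by_cases h2 : y = yb
            · subst h2; simp
            · rw [update_of_ne h2, update_of_ne h2, update_of_ne h1]
        have eDC : tC = update tD ya false := by
          rw [htC, htD, update_comm hab]
        have cD : InCube A c (stt (X0 := X0) true tD) := by
          rw [eCD, ← stt_update_inr]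
          exact cC.update hya true
        have et : t = update tD yb false := by
          rw [htD, update_idem, ← hb, update_eq_self]
        have cB : InCube A c (stt (X0 := X0) true t) := by
          rw [et, ← stt_update_inr]
          exact cD.update hyb false
        have cb : ∀ b, InCube A c (stt (X0 := X0) b t) := by
          intro b w hw
          cases w with
          | inl x => exact absurd (hA x) hw
          | inr y => exact cB (Sum.inr y) hw
        -- `K` agrees at `B` and `D`
        have KBD : ∀ b, KK S J b tD = KK S J b t := by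
          intro b
          have he := S.edge' (stt b tD) (Sum.inr yb) (by show tD yb = true; rw [htD]; simp)
          rw [stt_update_inr, ← et] at he
          exact comap_out he (notMem_sup_of_lam hlJ (hL _ (cb b) ha hb) hub)
        have MBD : MM S J tD = MM S J t := by
          unfold MM
          rw [KBD, KBD]
        -- naturality along `C → D`
        have E0 := S.edge' (stt false tD) (Sum.inr ya) (by show tD ya = true; rw [eCD]; simp)
        have E1 := S.edge' (stt true tD) (Sum.inr ya) (by show tD ya = true; rw [eCD]; simp)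
        rw [stt_update_inr, ← eDC] at E0 E1
        have key := edge_natural (J := J) E0 E1 (sup_const S J hJ _) (sup_const S J hJ _) m
          (hM _ cC) (hM _ cD) (hΦ.inv (stt true tC))
        have l1 : FF S J m Φ (stt false tC) =
              if Module.finrank (ZMod 2) ((S.L (stt true tC)).comap J) +
                Module.finrank (ZMod 2) ((S.L (stt false tC)).comap J) = m
              then Tsum J ((S.L (stt true tC)).comap J) (Φ (stt true tC)) else 0 := by
            rw [FF_apply, if_pos (XC_stt _ _)]; rfl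
        rw [l1, key]
        change _ = iot lam (if MM S J tD = m then Tsum J (KK S J true tD) _ else 0)
        rw [MBD, KBD]
        split_ifs
        · rw [Tsum_iot hlJ]
        · rw [map_zero]
    · rw [gg_0 _ _ _ _ _ (show stt (X0 := X0) false t (Sum.inr ya) = stt false t (Sum.inr yb) from
        by show t ya = t yb; rw [ha, hb]),
        gg_0 _ _ _ _ _ (show stt (X0 := X0) true t (Sum.inr ya) = stt true t (Sum.inr yb) from
        by show t ya = t yb; rw [ha, hb]), map_zero, ite_self]

theorem R2H.g_eq_gg {X U : Type} [DecidableEq X] [AddCommGroup U] [Module (ZMod 2) U]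
    {S : CS X U} {A : Finset X} {c : X → Bool} {xa xb : X}
    {lam : U →ₗ[ZMod 2] ZMod 2} (H : R2H S A c xa xb lam) {n : ℤ} {Φ : Co X U}
    (hΦ : S.IsC H.A' H.c' n Φ) : H.g Φ = gg S lam xa xb Φ := by
  have h0 : ∀ s, ¬ (s xa = false ∧ s xb = true) → Φ s = 0 := by
    intro s hs
    by_contra h
    obtain ⟨_, h1, h2, _⟩ := H.small hΦ h
    exact hs ⟨h1, h2⟩
  rw [H.g_eq]
  funext s
  rw [Pi.add_apply, H.HI_apply]
  cases ha : s xa <;> cases hb : s xb
  · rw [gg_0 _ _ _ _ _ (by rw [ha, hb]), h0 s (by rw [ha, hb]; simp)]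
    simp
  · rw [gg_C _ _ _ _ _ ha hb]
    simp
  · rw [gg_B _ _ _ _ _ ha hb, h0 s (by rw [ha, hb]; simp), zero_add, if_pos rfl, if_pos rfl,
      S.pd_true xa _ (by rw [update_of_ne H.ne]; exact ha),
      update_comm (β := fun _ => Bool) H.ne.symm true false]
  · rw [gg_0 _ _ _ _ _ (by rw [ha, hb]), h0 s (by rw [ha, hb]; simp)]
    simp

/-- (F3) -/
theorem ZZ_R2 {ya yb : Y} {lam : U →ₗ[ZMod 2] ZMod 2}
    {A : Finset (X0 ⊕ Y)} {c : X0 ⊕ Y → Bool} (H : R2H S A c (Sum.inr ya) (Sum.inr yb) lam)
    (hlJ : ∀ g, lam (J g) = 0)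
    (hJ : ∀ x : X0, S.u (Sum.inl x) ∈ LinearMap.range J) (m : ℕ)
    (hA : ∀ x : X0, Sum.inl x ∈ A)
    (hM : ∀ t : Y → Bool, InCube A c (stt true t) → m ≤ MM S J t)
    (hZ : ZZ S J A c m) : ZZ S J H.A' H.c' m := by
  have hab : ya ≠ yb := fun h => H.ne (by rw [h])
  have hA' : ∀ x : X0, Sum.inl x ∈ H.A' := fun x => by
    rw [H.mem_A']; exact ⟨hA x, by simp, by simp⟩
  have eA : H.A' = A \ {Sum.inr ya, Sum.inr yb} := by
    ext z
    rw [H.mem_A', Finset.mem_sdiff]
    simp
  have hc' : ∀ z, z ∉ A → H.c' z = c z := by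
    intro z hz
    unfold R2H.c'
    rw [update_of_ne (show z ≠ Sum.inr yb from fun h => hz (h ▸ H.mb)),
      update_of_ne (show z ≠ Sum.inr ya from fun h => hz (h ▸ H.ma))]
  intro n Φ hΦ hd
  obtain ⟨Ψ, hΨ, hdΨ⟩ := hZ (n + 1) (H.g Φ) (H.sdr.gC n Φ hΦ) (by
    rw [H.sdr.gd n Φ hΦ, hd, map_zero])
  have hF := isC_FF (J := J) hJ m hA' hΦ
  have e1 : FF S J m (H.g Φ) = H.g (FF S J m Φ) := by
    rw [H.g_eq_gg hΦ, H.g_eq_gg hF]
    rw [eA] at hΦ
    exact FF_gg hab hlJ H.lb hJ m hA H.ma H.mb hM H.lL hc' hΦ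
  refine ⟨H.r Ψ, ?_, ?_⟩
  · have := H.sdr.rC _ Ψ hΨ
    convert this using 1
    ring
  · rw [H.sdr.rd _ Ψ hΨ, hdΨ, e1, H.sdr.rg _ _ hF]

end Spg
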