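import Pool.Agent.H78.SpgF

/-!
# Transport of cochains along a presentation change (layers M4 and F4)
-/

set_option linter.unusedSectionVars false
set_option linter.unusedVariables false

open Function
open scoped Classical

namespace Spg

variable {X X' U U' : Type} [DecidableEq X] [DecidableEq X']
  [AddCommGroup U] [Module (ZMod 2) U] [AddCommGroup U'] [Module (ZMod 2) U']

/-- the hypotheses of the comparison of two closed systems -/
structure Trans (S : CS X U) (S' : CS X' U') (e : X' → X) (J : U' →ₗ[ZMod 2] U)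
    (A : Finset X) (A' : Finset X') (c : X → Bool) (c' : X' → Bool) : Prop where
  he : Injective e
  hA : ∀ x, x ∈ A ↔ ∃ x' ∈ A', e x' = x
  hc : ∀ x', x' ∉ A' → c (e x') = c' x'
  hL : ∀ s, InCube A c s → S'.L (s ∘ e) = (S.L s).comap J
  hJ : ∀ s, InCube A c s → LinearMap.range J ⊔ S.L s = ⊤
  hu : ∀ s, InCube A c s → ∀ x ∈ A', S.u (e x) + J (S'.u x) ∈ S.L s

/-- extension of a state by `c` -/
noncomputable def hat (e : X' → X) (c : X → Bool) (s' : X' → Bool) : X → Bool :=
  fun x => if h : ∃ x', e x' = x then s' h.choose else c x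

theorem hat_e {e : X' → X} (he : Injective e) (c : X → Bool) (s' : X' → Bool) (x' : X') :
    hat e c s' (e x') = s' x' := by
  have h : ∃ y, e y = e x' := ⟨x', rfl⟩
  unfold hat
  rw [dif_pos h]
  exact congrArg s' (he h.choose_spec)

theorem hat_comp {e : X' → X} (he : Injective e) (c : X → Bool) (s' : X' → Bool) :
    hat e c s' ∘ e = s' := funext (fun x' => hat_e he c s' x')

theorem hat_of_notin {e : X' → X} (c : X → Bool) (s' : X' → Bool) {x : X} (h : ¬ ∃ x', e x' = x) :
    hat e c s' x = c x := by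
  unfold hat; rw [dif_neg h]

theorem hat_update {e : X' → X} (he : Injective e) (c : X → Bool) (s' : X' → Bool) (x' : X')
    (b : Bool) : hat e c (update s' x' b) = update (hat e c s') (e x') b := by
  funext x
  by_cases h : ∃ y, e y = x
  · obtain ⟨y, rfl⟩ := h
    rw [hat_e he]
    by_cases hy : y = x'
    · subst hy; simp
    · rw [update_of_ne hy, update_of_ne (fun h => hy (he h)), hat_e he]
  · rw [hat_of_notin c _ h, update_of_ne (fun h' => h ⟨x', h'.symm⟩), hat_of_notin c _ h]

theorem tog_comp {L1 L2 : Submodule (ZMod 2) U} {L1' L2' : Submodule (ZMod 2) U'} {u : U} {u' : U'}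
    {J : U' →ₗ[ZMod 2] U} (h1 : L1' = L1.comap J) (h2 : L2' = L2.comap J) (hu1 : u + J u' ∈ L1)
    (hu2 : u + J u' ∈ L2) {φ : U → ZMod 2} (hφ : φ ∈ Inv L1) :
    tog L1' L2' u' (fun v => φ (J v)) = fun v => tog L1 L2 u φ (J v) := by
  have key : ∀ {L : Submodule (ZMod 2) U}, u + J u' ∈ L → (J u' ∈ L ↔ u ∈ L) := by
    intro L h
    constructor
    · intro h'
      have := L.add_mem h h'
      rwa [add_add_cancel_F2] at this
    · intro h'
      have := L.add_mem h h'
      rwa [show u + J u' + u = J u' + u + u by abel, add_add_cancel_F2] at this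
  subst h1
  subst h2
  by_cases a : u ∈ L1
  · have a' : u' ∈ L1.comap J := (key hu1).2 a
    by_cases b : u ∈ L2
    · have b' : u' ∈ L2.comap J := (key hu2).2 b
      rw [tog_in_in a' b', tog_in_in a b]; rfl
    · have b' : u' ∉ L2.comap J := fun h => b ((key hu2).1 h)
      rw [tog_in_out a' b', tog_in_out a b]
  · have a' : u' ∉ L1.comap J := fun h => a ((key hu1).1 h)
    rw [tog_out a', tog_out a]
    funext v
    show φ (J v) + φ (J (v + u')) = φ (J v) + φ (J v + u)
    rw [map_add]
    congr 1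
    have := hφ _ hu1 (J v + J u')
    rw [← this]
    congr 1
    rw [show J v + J u' + (u + J u') = J v + u + J u' + J u' by abel, add_add_cancel_F2]

/-- the transport of cochains -/
noncomputable def TT (e : X' → X) (c : X → Bool) (J : U' →ₗ[ZMod 2] U) :
    Co X U →ₗ[ZMod 2] Co X' U' where
  toFun Φ s' v' := Φ (hat e c s') (J v')
  map_add' _ _ := rfl
  map_smul' _ _ := rfl

theorem TT_apply (e : X' → X) (c : X → Bool) (J : U' →ₗ[ZMod 2] U) (Φ : Co X U) (s' : X' → Bool)
    (v' : U') : TT e c J Φ s' v' = Φ (hat e c s') (J v') := rfl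

namespace Trans

variable {S : CS X U} {S' : CS X' U'} {e : X' → X} {J : U' →ₗ[ZMod 2] U}
    {A : Finset X} {A' : Finset X'} {c : X → Bool} {c' : X' → Bool}
    (H : Trans S S' e J A A' c c')

include H

theorem mem_e {x' : X'} : e x' ∈ A ↔ x' ∈ A' := by
  rw [H.hA]
  constructor
  · rintro ⟨y, hy, h⟩
    rwa [← H.he h]
  · intro h; exact ⟨x', h, rfl⟩

theorem cube_hat {s' : X' → Bool} : InCube A c (hat e c s') ↔ InCube A' c' s' := by
  constructor
  · intro h x' hx'
    have := h (e x') (fun h' => hx' (H.mem_e.1 h'))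
    rw [hat_e H.he, H.hc x' hx'] at this
    exact this
  · intro h x hx
    by_cases hx' : ∃ x', e x' = x
    · obtain ⟨x', rfl⟩ := hx'
      have h1 : x' ∉ A' := fun h' => hx (H.mem_e.2 h')
      rw [hat_e H.he, H.hc x' h1]
      exact h x' h1
    · exact hat_of_notin c s' hx'

theorem hat_of_cube {s : X → Bool} (h : InCube A c s) : hat e c (s ∘ e) = s := by
  funext x
  by_cases hx' : ∃ x', e x' = x
  · obtain ⟨x', rfl⟩ := hx'
    rw [hat_e H.he]; rfl
  · rw [hat_of_notin c _ hx']
    refine (h x (fun hA => hx' ?_)).symm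
    obtain ⟨x', _, h'⟩ := (H.hA x).1 hA
    exact ⟨x', h'⟩

theorem A_eq : A = A'.map ⟨e, H.he⟩ := by
  ext x
  rw [H.hA, Finset.mem_map]
  rfl

theorem deg_hat (s' : X' → Bool) : deg A (hat e c s') = deg A' s' := by
  unfold deg
  rw [H.A_eq, Finset.filter_map, Finset.card_map]
  congr 2
  apply Finset.filter_congr
  intro x' _
  show hat e c s' (e x') = true ↔ s' x' = true
  rw [hat_e H.he]

theorem hL' {s' : X' → Bool} (h : InCube A' c' s') : S'.L s' = (S.L (hat e c s')).comap J := by
  have := H.hL _ (H.cube_hat.2 h)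
  rwa [hat_comp H.he] at this

theorem isC_TT {n : ℤ} {Φ : Co X U} (hΦ : S.IsC A c n Φ) : S'.IsC A' c' n (TT e c J Φ) := by
  refine ⟨fun s' => ?_, fun s' hs' => ?_⟩
  · by_cases h : InCube A' c' s'
    · rw [H.hL' h]
      intro l hl v
      show Φ _ (J (v + l)) = Φ _ (J v)
      rw [map_add]
      exact hΦ.inv _ _ hl _
    · have : TT e c J Φ s' = 0 := by
        funext v'
        rw [TT_apply]
        have h0 : Φ (hat e c s') = 0 := by
          by_contra h'
          exact h (H.cube_hat.1 (hΦ.supp _ h').1)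
        rw [h0]; rfl
      rw [this]; exact Submodule.zero_mem _
  · have h0 : Φ (hat e c s') ≠ 0 := by
      intro h
      apply hs'
      funext v'
      rw [TT_apply, h]; rfl
    obtain ⟨h1, h2⟩ := hΦ.supp _ h0
    exact ⟨H.cube_hat.1 h1, by rw [← H.deg_hat, h2]⟩

theorem pd_TT {n : ℤ} {Φ : Co X U} (hΦ : S.IsC A c n Φ) {x' : X'} (hx' : x' ∈ A') :
    S'.pd x' (TT e c J Φ) = TT e c J (S.pd (e x') Φ) := by
  funext s'
  by_cases h : s' x' = true
  · have h2 : hat e c s' (e x') = true := by rw [hat_e H.he]; exact h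
    rw [S'.pd_true _ _ h]
    have eR : TT e c J (S.pd (e x') Φ) s' = fun v => tog (S.L (update (hat e c s') (e x') false))
        (S.L (hat e c s')) (S.u (e x')) (Φ (update (hat e c s') (e x') false)) (J v) := by
      funext v
      rw [TT_apply, S.pd_true _ _ h2]
    rw [eR]
    have eL : TT e c J Φ (update s' x' false) =
        fun v => Φ (update (hat e c s') (e x') false) (J v) := by
      funext v
      rw [TT_apply, hat_update H.he]
    rw [eL]
    by_cases hc : InCube A' c' s'
    · have hc1 := hc.update hx' false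
      have hcs := H.cube_hat.2 hc
      have hcs1 := H.cube_hat.2 hc1
      rw [hat_update H.he] at hcs1
      refine tog_comp ?_ (H.hL' hc) (H.hu _ hcs1 x' hx') (H.hu _ hcs x' hx') (hΦ.inv _)
      rw [H.hL' hc1, hat_update H.he]
    · have h0 : Φ (update (hat e c s') (e x') false) = 0 := by
        by_contra h'
        have := (hΦ.supp _ h').1
        rw [← hat_update H.he] at this
        exact hc (InCube.of_update hx' (H.cube_hat.1 this))
      rw [h0]
      have : (fun v : U' => (0 : U → ZMod 2) (J v)) = 0 := rfl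
      rw [this, map_zero, map_zero]; rfl
  · have h' : s' x' = false := by simpa using h
    have h2 : hat e c s' (e x') = false := by rw [hat_e H.he]; exact h'
    rw [S'.pd_false _ _ h']
    funext v
    rw [TT_apply, S.pd_false _ _ h2]; rfl

theorem d_TT {n : ℤ} {Φ : Co X U} (hΦ : S.IsC A c n Φ) :
    S'.d A' (TT e c J Φ) = TT e c J (S.d A Φ) := by
  rw [CS.d, CS.d, LinearMap.sum_apply, LinearMap.sum_apply, map_sum, H.A_eq, Finset.sum_map]
  exact Finset.sum_congr rfl (fun x' hx' => H.pd_TT hΦ hx')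

theorem TT_inj {n : ℤ} {Φ : Co X U} (hΦ : S.IsC A c n Φ) (h0 : TT e c J Φ = 0) : Φ = 0 := by
  funext s
  by_cases h : InCube A c s
  · funext v
    have hv : v ∈ LinearMap.range J ⊔ S.L s := by rw [H.hJ s h]; trivial
    obtain ⟨a, ⟨v', rfl⟩, l, hl, rfl⟩ := Submodule.mem_sup.1 hv
    rw [hΦ.inv s l hl]
    have := congrFun (congrFun h0 (s ∘ e)) v'
    rw [TT_apply, H.hat_of_cube h] at this
    exact this
  · by_contra h'
    exact h (hΦ.supp s h').1

theorem TT_surj {n : ℤ} {Φ' : Co X' U'} (hΦ' : S'.IsC A' c' n Φ') :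
    ∃ Φ, S.IsC A c n Φ ∧ TT e c J Φ = Φ' := by
  have hex : ∀ s, InCube A c s → ∀ v : U, ∃ v' : U', v + J v' ∈ S.L s := by
    intro s hs v
    have hv : v ∈ LinearMap.range J ⊔ S.L s := by rw [H.hJ s hs]; trivial
    obtain ⟨a, ⟨v', rfl⟩, l, hl, rfl⟩ := Submodule.mem_sup.1 hv
    refine ⟨v', ?_⟩
    rw [show J v' + l + J v' = l + J v' + J v' by abel, add_add_cancel_F2]
    exact hl
  have wd : ∀ s, InCube A c s → ∀ v (v' v'' : U'), v + J v' ∈ S.L s → v + J v'' ∈ S.L s →
      Φ' (s ∘ e) v' = Φ' (s ∘ e) v'' := by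
    intro s hs v v' v'' h1 h2
    have h3 : v' + v'' ∈ S'.L (s ∘ e) := by
      rw [H.hL s hs, Submodule.mem_comap, map_add]
      have := (S.L s).add_mem h1 h2
      rwa [show v + J v' + (v + J v'') = J v' + J v'' + v + v by abel, add_add_cancel_F2] at this
    have := hΦ'.inv _ _ h3 v''
    rw [show v'' + (v' + v'') = v' + v'' + v'' by abel, add_add_cancel_F2] at this
    exact this
  refine ⟨fun s v => if h : InCube A c s then Φ' (s ∘ e) (hex s h v).choose else 0, ?_, ?_⟩
  · refine ⟨fun s l hl v => ?_, fun s hs => ?_⟩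
    · by_cases h : InCube A c s
      · simp only [dif_pos h]
        refine wd s h v _ _ ?_ (hex s h v).choose_spec
        have h1 := (hex s h (v + l)).choose_spec
        have := (S.L s).add_mem h1 hl
        rwa [show ∀ a : U, v + l + a + l = v + a + l + l from fun a => by abel,
          add_add_cancel_F2] at this
      · simp only [dif_neg h]
    · by_cases h : InCube A c s
      · refine ⟨h, ?_⟩
        have h0 : Φ' (s ∘ e) ≠ 0 := by
          intro h'
          apply hs
          funext v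
          simp only [dif_pos h, h']; rfl
        have := (hΦ'.supp _ h0).2
        rw [← H.deg_hat, H.hat_of_cube h] at this
        exact this
      · exfalso
        apply hs
        funext v
        simp only [dif_neg h]; rfl
  · funext s' v'
    rw [TT_apply]
    by_cases h : InCube A c (hat e c s')
    · simp only [dif_pos h]
      have h1 := (hex _ h (J v')).choose_spec
      rw [wd _ h (J v') _ v' h1 (by rw [add_self_F2]; exact Submodule.zero_mem _),
        hat_comp H.he]
    · simp only [dif_neg h]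
      by_contra h'
      have h0 : Φ' s' ≠ 0 := fun h'' => h' (by rw [h'']; rfl)
      exact h (H.cube_hat.2 (hΦ'.supp _ h0).1)

/-- M4 -/
theorem E_iff (n : ℤ) : S.E A c n ↔ S'.E A' c' n := by
  constructor
  · intro hE Φ' hΦ' hd
    obtain ⟨Φ, hΦ, rfl⟩ := H.TT_surj hΦ'
    rw [H.d_TT hΦ] at hd
    have h0 := H.TT_inj (CS.IsC.d S hΦ) hd
    obtain ⟨Ψ, hΨ, rfl⟩ := hE Φ hΦ h0
    exact ⟨TT e c J Ψ, H.isC_TT hΨ, H.d_TT hΨ⟩
  · intro hE Φ hΦ hd
    obtain ⟨Ψ', hΨ', hd'⟩ := hE (TT e c J Φ) (H.isC_TT hΦ) (by rw [H.d_TT hΦ, hd, map_zero])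
    obtain ⟨Ψ, hΨ, rfl⟩ := H.TT_surj hΨ'
    refine ⟨Ψ, hΨ, ?_⟩
    rw [H.d_TT hΨ, ← sub_eq_zero, ← map_sub] at hd'
    have h1 : S.IsC A c n (S.d A Ψ - Φ) := by
      have h2 := CS.IsC.d S hΨ
      rw [sub_add_cancel] at h2
      have h3 : S.d A Ψ - Φ = S.d A Ψ + Φ := by
        funext s v
        show S.d A Ψ s v - Φ s v = S.d A Ψ s v + Φ s v
        rw [sub_eq_add_neg, neg_eq_F2]
      rw [h3]
      exact CS.IsC.add S h2 hΦ
    exact sub_eq_zero.1 (H.TT_inj h1 hd')

end Trans

/-- M4: comparison of closed systems along a linear map `J : U' → U`. -/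
theorem CS.E_congr' {X X' U U' : Type} [DecidableEq X] [DecidableEq X']
    [AddCommGroup U] [Module (ZMod 2) U] [AddCommGroup U'] [Module (ZMod 2) U']
    (S : CS X U) (S' : CS X' U') (e : X' → X) (he : Injective e) (J : U' →ₗ[ZMod 2] U)
    (A : Finset X) (A' : Finset X') (hA : ∀ x, x ∈ A ↔ ∃ x' ∈ A', e x' = x)
    (c : X → Bool) (c' : X' → Bool) (hc : ∀ x', x' ∉ A' → c (e x') = c' x')
    (hL : ∀ s, InCube A c s → S'.L (s ∘ e) = (S.L s).comap J)
    (hJ : ∀ s, InCube A c s → LinearMap.range J ⊔ S.L s = ⊤)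
    (hu : ∀ s, InCube A c s → ∀ x ∈ A', S.u (e x) + J (S'.u x) ∈ S.L s)
    (n : ℤ) : S.E A c n ↔ S'.E A' c' n :=
  Trans.E_iff ⟨he, hA, hc, hL, hJ, hu⟩ n

end Spg
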