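import Pool.Agent.H85.SpgIso
import Pool.Agent.H78.SpgT

/-!
# From presentations of open systems to transports of closed systems

The lemmas are in `Pool.Agent.H78.SpgAnn` and `Pool.Agent.H85.SpgIso`.
-/
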