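import Pool.Agent.H78.SpgX

/-!
# The third Reidemeister move on the closed level
-/

set_option linter.unusedSectionVars false
set_option linter.unusedVariables false

open Function
open scoped Classical

namespace Spg

open Pool.H78.Kh (Cx HEquiv IsoMap ChMap cone coneR)

theorem R2H.r_apply {X U : Type} [DecidableEq X] [AddCommGroup U] [Module (ZMod 2) U]
    {S : CS X U} {A : Finset X} {c : X → Bool} {xa xb : X}
    {lam : U →ₗ[ZMod 2] ZMod 2} (H : R2H S A c xa xb lam) (Φ : Co X U) {s : X → Bool}
    (ha : s xa = false) (hb : s xb = true) : H.r Φ s = Φ s +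
      tog (S.L (update s xb false)) (S.L s) (S.u xb)
        (psi lam (S.u xa) (Φ (update (update s xb false) xa true))) := by
  rw [H.r_eq, H.PC_apply, if_pos ha, if_pos hb, Pi.add_apply, S.pd_true _ _ hb, H.HP_apply,
    update_self, if_pos rfl, update_of_ne H.ne, if_pos ha]

variable {X U U' : Type} [DecidableEq X]
  [AddCommGroup U] [Module (ZMod 2) U] [AddCommGroup U'] [Module (ZMod 2) U']

/-- the hypotheses of the closed version of the third Reidemeister move -/
structure R3H (S : CS X U) (S' : CS X U') (A : Finset X) (c : X → Bool) (x1 x2 z : X)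
    (lam : U →ₗ[ZMod 2] ZMod 2) (lam' : U' →ₗ[ZMod 2] ZMod 2)
    (FI FC : U →ₗ[ZMod 2] U') (w0 : U') : Prop where
  mz : z ∈ A
  H : R2H S (A.erase z) (update c z true) x1 x2 lam
  H' : R2H S' (A.erase z) (update c z true) x2 x1 lam'
  lz : lam (S.u z) = 1
  lz' : lam' (S'.u z) = 1
  L1 : ∀ s, InCube A c s → s z = false → S.L s = (S'.L s).comap FI
  L2 : ∀ s, InCube A c s → s x1 = false → s x2 = true → s z = true →
    S.L s = (S'.L (update (update s x1 true) x2 false)).comap FC
  L3 : ∀ s, InCube A c s → s x1 = false → s x2 = false → s z = true →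
    S.L s = (S'.L (update (update s x1 true) z false)).comap FC
  FIu : ∀ y ∈ A, y ≠ z → FI (S.u y) = S'.u y
  FCu : ∀ y ∈ A, y ≠ x1 → y ≠ x2 → y ≠ z → FC (S.u y) = S'.u y
  lFC : ∀ v, lam' (FC v) = 0
  lw0 : lam' w0 = 0
  JI : ∀ s, InCube A c s → s z = false → LinearMap.range FI ⊔ S'.L s = ⊤
  JC : ∀ s, InCube A c s → s x1 = true → s x2 = false → s z = true →
    LinearMap.range FC ⊔ S'.L s = ⊤
  K1 : ∀ s, InCube A c s → s x1 = true → s x2 = false → s z = false →
    ∀ v, FI v + FC v + lam v • w0 ∈ S'.L s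
  K2 : ∀ s, InCube A c s → s x1 = true → s x2 = false → s z = false →
    FI (S.u x1) + w0 ∈ S'.L s
  K3 : ∀ s, InCube A c s → s x1 = true → s x2 = false → FC (S.u x2) + S'.u z ∈ S'.L s
  K4 : ∀ s, InCube A c s → s x1 = false → s x2 = true → s z = false →
    FI (S.u z) + (S'.u x1 + S'.u x2) ∈ S'.L s
  K5 : ∀ s, InCube A c s → s x1 = true → s x2 = false → s z = true →
    FC (S.u z) + S'.u x1 ∈ S'.L s
  K7 : ∀ s, InCube A c s → s x1 = false → s x2 = true → s z = false → ∀ v,
    FI v + (FC v + w0 + S'.u x2) ∈ S'.L s ∨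
      FI v + (FC v + w0 + S'.u x2) + (S'.u x1 + S'.u x2) ∈ S'.L s

theorem inv_eq {L : Submodule (ZMod 2) U} {φ : U → ZMod 2} (h : φ ∈ Inv L) {a b : U}
    (hab : a + b ∈ L) : φ a = φ b := by
  have := h _ hab b
  rw [show b + (a + b) = a + b + b by abel, add_add_cancel_F2] at this
  exact this

theorem mem_iff_of_add {L : Submodule (ZMod 2) U} {a b : U} (hab : a + b ∈ L) :
    a ∈ L ↔ b ∈ L := by
  constructor
  · intro h
    have := L.add_mem hab h
    rwa [show a + b + a = b + a + a by abel, add_add_cancel_F2] at this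
  · intro h
    have := L.add_mem hab h
    rwa [add_add_cancel_F2] at this

namespace R3H

variable {S : CS X U} {S' : CS X U'} {A : Finset X} {c : X → Bool} {x1 x2 z : X}
    {lam : U →ₗ[ZMod 2] ZMod 2} {lam' : U' →ₗ[ZMod 2] ZMod 2}
    {FI FC : U →ₗ[ZMod 2] U'} {w0 : U'}
    (R : R3H S S' A c x1 x2 z lam lam' FI FC w0)

include R

theorem ne1 : x1 ≠ z := (Finset.mem_erase.1 R.H.ma).1
theorem ne2 : x2 ≠ z := (Finset.mem_erase.1 R.H.mb).1
theorem m1 : x1 ∈ A := (Finset.mem_erase.1 R.H.ma).2
theorem m2 : x2 ∈ A := (Finset.mem_erase.1 R.H.mb).2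

/-- the first commutation -/
theorem commA {s : X → Bool} (hs : InCube A c s) (h1 : s x1 = false) (h2 : s x2 = true)
    (hz : s z = true) {q : U' → ZMod 2}
    (hq : q ∈ Inv (S'.L (update (update (update s x1 true) x2 false) z false))) :
    tog (S.L (update s x2 false)) (S.L s) (S.u x2)
      (psi lam (S.u x1) (fun v => q (FI v))) =
    fun v => Tr w0 (tog (S'.L (update (update (update s x1 true) x2 false) z false))
      (S'.L (update (update s x1 true) x2 false)) (S'.u z) q) (FC v) := by
  have hne := R.H.ne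
  set t := update (update (update s x1 true) x2 false) z false with ht
  have htc : InCube A c t := ((hs.update R.m1 true).update R.m2 false).update R.mz false
  have t1 : t x1 = true := by
    rw [ht, update_of_ne R.ne1, update_of_ne hne, update_self]
  have t2 : t x2 = false := by
    rw [ht, update_of_ne R.ne2, update_self]
  have tz : t z = false := by rw [ht, update_self]
  set t' := update (update s x1 true) x2 false with ht'
  have htc' : InCube A c t' := (hs.update R.m1 true).update R.m2 false
  have t1' : t' x1 = true := by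
    rw [ht', update_of_ne hne, update_self]
  have t2' : t' x2 = false := by
    rw [ht', update_self]
  have e1 : psi lam (S.u x1) (fun v => q (FI v)) = fun v => Tr w0 q (FC v) := by
    funext v
    rw [psi_apply, Tr_apply]
    have k1 := R.K1 t htc t1 t2 tz v
    split_ifs with h0
    · refine inv_eq hq ?_
      rw [h0, zero_smul, add_zero] at k1
      have := (S'.L t).add_mem k1 (R.K2 t htc t1 t2 tz)
      rw [map_add]
      rwa [show FI v + FI (S.u x1) + (FC v + w0) = FI v + FC v + (FI (S.u x1) + w0) by abel]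
    · rw [ne_zero_Z2 h0, one_smul] at k1
      refine inv_eq hq ?_
      rwa [← add_assoc]
  rw [e1]
  have l3 := R.L3 (update s x2 false) (hs.update R.m2 false)
    (by rw [update_of_ne hne]; exact h1) (by simp) (by rw [update_of_ne R.ne2.symm]; exact hz)
  have et : update (update (update s x2 false) x1 true) z false = t := by
    rw [ht, ht', update_comm (β := fun _ => Bool) hne.symm]
  rw [et] at l3
  have l2 := R.L2 s hs h1 h2 hz
  have hq' : Tr w0 q ∈ Inv (S'.L t) := by
    intro l hl v
    show q (v + l + w0) = q (v + w0)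
    rw [add_right_comm]
    exact hq l hl _
  have := tog_comp (J := FC) (u := S'.u z) (u' := S.u x2) l3 l2
    (by rw [add_comm]; exact R.K3 t htc t1 t2) (by rw [add_comm]; exact R.K3 t' htc' t1' t2') hq'
  rw [this, tog_Tr]

/-- the second commutation -/
theorem commB {s : X → Bool} (hs : InCube A c s) (h1 : s x1 = false) (h2 : s x2 = true)
    (hz : s z = true) {p : U' → ZMod 2} (hp : p ∈ Inv (S'.L (update s z false))) :
    tog (S.L (update s z false)) (S.L s) (S.u z) (fun v => p (FI v)) =
    fun v => Tr w0 (tog (S'.L (update s x2 false))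
      (S'.L (update (update s x1 true) x2 false)) (S'.u x1) (psi lam' (S'.u x2) p)) (FC v) := by
  have hne := R.H.ne
  set t := update s z false with ht
  have htc : InCube A c t := hs.update R.mz false
  have t1 : t x1 = false := by rw [ht, update_of_ne R.ne1]; exact h1
  have t2 : t x2 = true := by rw [ht, update_of_ne R.ne2]; exact h2
  have tz : t z = false := by rw [ht, update_self]
  set t' := update (update s x1 true) x2 false with ht'
  have htc' : InCube A c t' := (hs.update R.m1 true).update R.m2 false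
  have t1' : t' x1 = true := by
    rw [ht', update_of_ne hne, update_self]
  have t2' : t' x2 = false := by
    rw [ht', update_self]
  have tz' : t' z = true := by
    rw [ht', update_of_ne R.ne2.symm, update_of_ne R.ne1.symm]; exact hz
  -- the circle state of `S'`
  have hsc : InCube (A.erase z) (update c z true) s := (cube_erase R.mz true).2 ⟨hs, hz⟩
  have cz : Circ lam' (S'.L s) (S'.L t) (S'.u z) := by
    refine ⟨(S'.edge' s z hz).symm, ?_, R.lz'⟩
    exact R.H'.lL s hsc h2 h1
  have c2 := R.H'.circa hsc h2 h1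
  have l1 : lam' (S'.u x1) = 1 := R.H'.lb
  have l2 : lam' (S'.u x2) = 1 := R.H'.la
  have ls : lam' (S'.u x1 + S'.u x2) = 0 := by
    rw [map_add, l1, l2]; decide
  have k4 := R.K4 t htc t1 t2 tz
  have k5 := R.K5 t' htc' t1' t2' tz'
  have k7 := R.K7 t htc t1 t2 tz
  -- memberships
  have mA : S.u z ∈ S.L t ↔ S'.u x1 + S'.u x2 ∈ S'.L t := by
    rw [R.L1 t htc tz, Submodule.mem_comap]
    exact mem_iff_of_add k4
  have mB : S'.u x1 + S'.u x2 ∈ S'.L t ↔ S'.u x1 ∈ S'.L (update s x2 false) := by
    rw [cz.mem_iff ls, ← c2.mem_iff ls]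
    refine mem_iff_of_add ?_
    rw [show S'.u x1 + S'.u x2 + S'.u x1 = S'.u x2 + S'.u x1 + S'.u x1 by abel, add_add_cancel_F2]
    exact c2.mem
  have mC : S.u z ∈ S.L s ↔ S'.u x1 ∈ S'.L t' := by
    rw [R.L2 s hs h1 h2 hz, Submodule.mem_comap]
    exact mem_iff_of_add k5
  have ps0 : ∀ v, psi lam' (S'.u x2) p (FC v + w0) = p (FC v + w0 + S'.u x2) := by
    intro v
    rw [psi_apply, if_pos]
    rw [map_add, R.lFC, R.lw0, add_zero]
  have ps1 : ∀ v, psi lam' (S'.u x2) p (FC v + w0 + S'.u x1) = p (FC v + w0 + S'.u x1) := by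
    intro v
    rw [psi_apply, if_neg]
    rw [map_add, map_add, R.lFC, R.lw0, l1]; decide
  by_cases hu : S.u z ∈ S.L t
  · have hu' : S'.u x1 ∈ S'.L (update s x2 false) := mB.1 (mA.1 hu)
    by_cases hv : S.u z ∈ S.L s
    · rw [tog_in_in hu hv, tog_in_in hu' (mC.1 hv), map_zero]; rfl
    · rw [tog_in_out hu hv, tog_in_out hu' (fun h => hv (mC.2 h))]
      funext v
      rw [Tr_apply, ps0]
      refine inv_eq hp ?_
      rcases k7 v with h | h
      · exact h
      · have := (S'.L t).add_mem h (mA.1 hu)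
        rwa [add_add_cancel_F2] at this
  · have hu' : S'.u x1 ∉ S'.L (update s x2 false) := fun h => hu (mA.2 (mB.2 h))
    rw [tog_out hu, tog_out hu']
    funext v
    rw [Pi.add_apply, Tr_apply, Tr_apply, Pi.add_apply, Tr_apply, ps0, ps1, map_add]
    have e1 : p (FI v + FI (S.u z)) = p (FI v + (S'.u x1 + S'.u x2)) := by
      refine inv_eq hp ?_
      rw [show FI v + FI (S.u z) + (FI v + (S'.u x1 + S'.u x2)) =
        FI (S.u z) + (S'.u x1 + S'.u x2) + FI v + FI v by abel, add_add_cancel_F2]
      exact k4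
    rw [e1]
    have h22 := add_self_F2 (S'.u x2)
    rcases k7 v with h | h
    · have e2 : p (FI v) = p (FC v + w0 + S'.u x2) := inv_eq hp h
      have e3 : p (FI v + (S'.u x1 + S'.u x2)) = p (FC v + w0 + S'.u x1) := by
        refine inv_eq hp ?_
        rwa [show FI v + (S'.u x1 + S'.u x2) + (FC v + w0 + S'.u x1) =
          FI v + (FC v + w0 + S'.u x2) + S'.u x1 + S'.u x1 by abel, add_add_cancel_F2]
      rw [e2, e3]
    · have e2 : p (FI v) = p (FC v + w0 + S'.u x1) := by
        refine inv_eq hp ?_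
        rw [show FI v + (FC v + w0 + S'.u x2) + (S'.u x1 + S'.u x2) =
          FI v + (FC v + w0 + S'.u x1) + S'.u x2 + S'.u x2 by abel, add_add_cancel_F2] at h
        exact h
      have e3 : p (FI v + (S'.u x1 + S'.u x2)) = p (FC v + w0 + S'.u x2) := by
        refine inv_eq hp ?_
        rwa [show FI v + (S'.u x1 + S'.u x2) + (FC v + w0 + S'.u x2) =
          FI v + (FC v + w0 + S'.u x2) + (S'.u x1 + S'.u x2) by abel]
      rw [e2, e3, add_comm]

/-- the transport on the part `z = false` -/
theorem transI : Trans S' S (id : X → X) FI (A.erase z) (A.erase z) (update c z false)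
    (update c z false) where
  he := injective_id
  hA := fun x => ⟨fun h => ⟨x, h, rfl⟩, fun ⟨y, hy, h⟩ => h ▸ hy⟩
  hc := fun _ _ => rfl
  hL := fun s hs => by
    obtain ⟨h1, h2⟩ := (cube_erase R.mz false).1 hs
    exact R.L1 s h1 h2
  hJ := fun s hs => by
    obtain ⟨h1, h2⟩ := (cube_erase R.mz false).1 hs
    exact R.JI s h1 h2
  hu := fun s hs x hx => by
    obtain ⟨h1, h2⟩ := Finset.mem_erase.1 hx
    show S'.u x + FI (S.u x) ∈ S'.L s
    rw [R.FIu x h2 h1, add_self_F2]
    exact Submodule.zero_mem _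

theorem mem_small {y : X} : y ∈ R.H.A' ↔ y ∈ A ∧ y ≠ z ∧ y ≠ x1 ∧ y ≠ x2 := by
  rw [R.H.mem_A', Finset.mem_erase]
  tauto

theorem mem_small' {y : X} : y ∈ R.H'.A' ↔ y ∈ A ∧ y ≠ z ∧ y ≠ x1 ∧ y ≠ x2 := by
  rw [R.H'.mem_A', Finset.mem_erase]
  tauto

theorem cube_small {s : X → Bool} : InCube R.H.A' R.H.c' s ↔
    InCube A c s ∧ s z = true ∧ s x1 = false ∧ s x2 = true := by
  have hne := R.H.ne
  have c1 : R.H.c' x1 = false := by
    unfold R2H.c'; rw [update_of_ne hne, update_self]
  have c2 : R.H.c' x2 = true := by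
    unfold R2H.c'; rw [update_self]
  have c3 : ∀ y, y ≠ x1 → y ≠ x2 → R.H.c' y = update c z true y := by
    intro y h1 h2
    unfold R2H.c'; rw [update_of_ne h2, update_of_ne h1]
  constructor
  · intro h
    refine ⟨fun y hy => ?_, ?_, ?_, ?_⟩
    · have hy1 : y ≠ x1 := fun e => hy (e ▸ R.m1)
      have hy2 : y ≠ x2 := fun e => hy (e ▸ R.m2)
      have hyz : y ≠ z := fun e => hy (e ▸ R.mz)
      have := h y (by rw [R.mem_small]; tauto)
      rw [c3 y hy1 hy2, update_of_ne hyz] at this
      exact this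
    · have := h z (by rw [R.mem_small]; tauto)
      rw [c3 z R.ne1.symm R.ne2.symm, update_self] at this
      exact this
    · have := h x1 (by rw [R.mem_small]; tauto)
      rwa [c1] at this
    · have := h x2 (by rw [R.mem_small]; tauto)
      rwa [c2] at this
  · rintro ⟨h, hz, h1, h2⟩ y hy
    by_cases e1 : y = x1
    · rw [e1, c1, h1]
    by_cases e2 : y = x2
    · rw [e2, c2, h2]
    rw [c3 y e1 e2]
    by_cases ez : y = z
    · rw [ez, update_self, hz]
    rw [update_of_ne ez]
    refine h y (fun hA => hy ?_)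
    rw [R.mem_small]
    exact ⟨hA, ez, e1, e2⟩

theorem cube_small' {s : X → Bool} : InCube R.H'.A' R.H'.c' s ↔
    InCube A c s ∧ s z = true ∧ s x1 = true ∧ s x2 = false := by
  have hne := R.H.ne
  have c1 : R.H'.c' x1 = true := by
    unfold R2H.c'; rw [update_self]
  have c2 : R.H'.c' x2 = false := by
    unfold R2H.c'; rw [update_of_ne hne.symm, update_self]
  have c3 : ∀ y, y ≠ x1 → y ≠ x2 → R.H'.c' y = update c z true y := by
    intro y h1 h2
    unfold R2H.c'; rw [update_of_ne h1, update_of_ne h2]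
  constructor
  · intro h
    refine ⟨fun y hy => ?_, ?_, ?_, ?_⟩
    · have hy1 : y ≠ x1 := fun e => hy (e ▸ R.m1)
      have hy2 : y ≠ x2 := fun e => hy (e ▸ R.m2)
      have hyz : y ≠ z := fun e => hy (e ▸ R.mz)
      have := h y (by rw [R.mem_small']; tauto)
      rw [c3 y hy1 hy2, update_of_ne hyz] at this
      exact this
    · have := h z (by rw [R.mem_small']; tauto)
      rw [c3 z R.ne1.symm R.ne2.symm, update_self] at this
      exact this
    · have := h x1 (by rw [R.mem_small']; tauto)
      rwa [c1] at this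
    · have := h x2 (by rw [R.mem_small']; tauto)
      rwa [c2] at this
  · rintro ⟨h, hz, h1, h2⟩ y hy
    by_cases e1 : y = x1
    · rw [e1, c1, h1]
    by_cases e2 : y = x2
    · rw [e2, c2, h2]
    rw [c3 y e1 e2]
    by_cases ez : y = z
    · rw [ez, update_self, hz]
    rw [update_of_ne ez]
    refine h y (fun hA => hy ?_)
    rw [R.mem_small']
    exact ⟨hA, ez, e1, e2⟩

omit R in
theorem comp_swap {x1 x2 : X} (hne : x1 ≠ x2) {s : X → Bool} {a b : Bool} (h1 : s x1 = a)
    (h2 : s x2 = b) : s ∘ Equiv.swap x1 x2 = update (update s x1 b) x2 a := by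
  funext y
  show s (Equiv.swap x1 x2 y) = _
  by_cases e1 : y = x1
  · rw [e1, Equiv.swap_apply_left, update_of_ne hne, update_self, h2]
  by_cases e2 : y = x2
  · rw [e2, Equiv.swap_apply_right, update_self, h1]
  rw [Equiv.swap_apply_of_ne_of_ne e1 e2, update_of_ne e2, update_of_ne e1]

/-- the transport on the small cubes -/
theorem transC : Trans S' S (Equiv.swap x1 x2 : X → X) FC R.H'.A' R.H.A' R.H'.c' R.H.c' where
  he := (Equiv.swap x1 x2).injective
  hA := fun x => by
    constructor
    · intro h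
      rw [R.mem_small'] at h
      refine ⟨x, R.mem_small.2 h, ?_⟩
      exact Equiv.swap_apply_of_ne_of_ne h.2.2.1 h.2.2.2
    · rintro ⟨y, hy, rfl⟩
      rw [R.mem_small] at hy
      rw [Equiv.swap_apply_of_ne_of_ne hy.2.2.1 hy.2.2.2]
      exact R.mem_small'.2 hy
  hc := fun x' _ => by
    have hne := R.H.ne
    by_cases e1 : x' = x1
    · rw [e1, Equiv.swap_apply_left]
      unfold R2H.c'
      rw [update_of_ne hne.symm, update_self, update_of_ne hne, update_self]
    by_cases e2 : x' = x2
    · rw [e2, Equiv.swap_apply_right]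
      unfold R2H.c'
      rw [update_self, update_self]
    rw [Equiv.swap_apply_of_ne_of_ne e1 e2]
    unfold R2H.c'
    rw [update_of_ne e1, update_of_ne e2, update_of_ne e2, update_of_ne e1]
  hL := fun s hs => by
    obtain ⟨h, hz, h1, h2⟩ := R.cube_small'.1 hs
    have hne := R.H.ne
    rw [comp_swap hne h1 h2]
    have := R.L2 (update (update s x1 false) x2 true) ((h.update R.m1 _).update R.m2 _)
      (by rw [update_of_ne hne, update_self]) (by rw [update_self])
      (by rw [update_of_ne R.ne2.symm, update_of_ne R.ne1.symm]; exact hz)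
    rw [this]
    congr 2
    funext y
    by_cases e2 : y = x2
    · rw [e2, update_self, h2]
    by_cases e1 : y = x1
    · rw [e1, update_of_ne hne, update_self, h1]
    rw [update_of_ne e2, update_of_ne e1, update_of_ne e2, update_of_ne e1]
  hJ := fun s hs => by
    obtain ⟨h, hz, h1, h2⟩ := R.cube_small'.1 hs
    exact R.JC s h h1 h2 hz
  hu := fun s hs x hx => by
    obtain ⟨h, hz, h1, h2⟩ := R.mem_small.1 hx
    rw [Equiv.swap_apply_of_ne_of_ne h1 h2, R.FCu x h h1 h2 hz, add_self_F2]
    exact Submodule.zero_mem _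

omit R in
theorem hat_id (c s : X → Bool) : hat (id : X → X) c s = s :=
  hat_comp injective_id c s

omit R in
theorem hat_swap {x1 x2 : X} (c s : X → Bool) :
    hat (Equiv.swap x1 x2 : X → X) c s = s ∘ Equiv.swap x1 x2 := by
  funext y
  have := hat_e (Equiv.swap x1 x2).injective c s (Equiv.swap x1 x2 y)
  rw [Equiv.swap_apply_self] at this
  exact this

/-- the central identity -/
theorem comm {n : ℤ} {Φ : Co X U'} (hΦ : S'.IsC (A.erase z) (update c z false) n Φ) :
    TT (Equiv.swap x1 x2 : X → X) R.H'.c' FC (TrA X w0 (R.H'.r (S'.pd z Φ))) =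
      R.H.r (S.pd z (TT id (update c z false) FI Φ)) := by
  have hne := R.H.ne
  have i1 : S'.IsC (A.erase z) (update c z true) n (S'.pd z Φ) := edge_isC R.mz hΦ
  have i2 := R.transC.isC_TT (isC_TrA w0 (R.H'.sdr.rC _ _ i1))
  have i3 := R.H.sdr.rC _ _ (edge_isC R.mz (R.transI.isC_TT hΦ))
  refine CS.ext_cube i2 i3 ?_
  intro s hs
  obtain ⟨hsA, hz, h1, h2⟩ := R.cube_small.1 hs
  set t' := update (update s x1 true) x2 false with ht'
  have htc' : InCube A c t' := (hsA.update R.m1 true).update R.m2 false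
  have t1' : t' x1 = true := by
    rw [ht', update_of_ne hne, update_self]
  have t2' : t' x2 = false := by
    rw [ht', update_self]
  have tz' : t' z = true := by
    rw [ht', update_of_ne R.ne2.symm, update_of_ne R.ne1.symm]; exact hz
  have lhs : TT (Equiv.swap x1 x2 : X → X) R.H'.c' FC (TrA X w0 (R.H'.r (S'.pd z Φ))) s =
      fun v => Tr w0 (R.H'.r (S'.pd z Φ) t') (FC v) := by
    funext v
    rw [TT_apply, hat_swap, comp_swap hne h1 h2]
    rfl
  rw [lhs, R.H'.r_apply _ t2' t1', R.H.r_apply _ h1 h2]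
  have e1 : update t' x1 false = update s x2 false := by
    funext y
    by_cases k1 : y = x1
    · rw [k1, update_self, update_of_ne hne, h1]
    rw [update_of_ne k1, ht']
    by_cases k2 : y = x2
    · rw [k2, update_self, update_self]
    rw [update_of_ne k2, update_of_ne k1, update_of_ne k2]
  have e2 : update (update t' x1 false) x2 true = s := by
    rw [e1, update_idem, ← h2, update_eq_self]
  have e3 : update (update s x2 false) x1 true = t' := by
    rw [ht', update_comm (β := fun _ => Bool) hne.symm]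
  rw [e2, e1, e3]
  have hsc : InCube (A.erase z) (update c z true) s := (cube_erase R.mz true).2 ⟨hsA, hz⟩
  have hsc' : InCube (A.erase z) (update c z true) t' := (cube_erase R.mz true).2 ⟨htc', tz'⟩
  have f1 : S'.pd z Φ s = Φ (update s z false) := by
    have cz : Circ lam' (S'.L s) (S'.L (update s z false)) (S'.u z) :=
      ⟨(S'.edge' s z hz).symm, R.H'.lL s hsc h2 h1, R.lz'⟩
    rw [S'.pd_true _ _ hz, cz.tog_split]
  have f2 : S.pd z (TT id (update c z false) FI Φ) t' =
      fun v => Φ (update t' z false) (FI v) := by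
    have cz : Circ lam (S.L t') (S.L (update t' z false)) (S.u z) :=
      ⟨(S.edge' t' z tz').symm, R.H.lL t' hsc' t1' t2', R.lz⟩
    rw [S.pd_true _ _ tz', cz.tog_split]
    funext v
    rw [TT_apply, hat_id]
  have f3 : S.pd z (TT id (update c z false) FI Φ) s =
      tog (S.L (update s z false)) (S.L s) (S.u z) (fun v => Φ (update s z false) (FI v)) := by
    rw [S.pd_true _ _ hz]
    congr 1
    funext v
    rw [TT_apply, hat_id]
  have hA := R.commA hsA h1 h2 hz (hΦ.inv _)
  have hB := R.commB hsA h1 h2 hz (hΦ.inv _)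
  rw [f1, f2, f3, hA, hB, S'.pd_true _ _ tz']
  funext v
  rw [map_add]
  simp only [Pi.add_apply]
  exact add_comm _ _

/-- the third Reidemeister move on the closed level -/
theorem E_iff (n : ℤ) : S.E A c n ↔ S'.E A c n := by
  have a1 := (S.coneIso (c := c) R.mz).van n
  have a2 := (coneR (S.edgeMap (c := c) R.mz) R.H.hequiv (fun i x _ => R.H.r_h x)).van (n - 1)
  have b1 := (S'.coneIso (c := c) R.mz).van n
  have b2 := (coneR (S'.edgeMap (c := c) R.mz) R.H'.hequiv (fun i x _ => R.H'.r_h x)).van (n - 1)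
  have c1 := (IsoMap.cone ((S.edgeMap (c := c) R.mz).compR R.H.hequiv)
    ((S'.edgeMap (c := c) R.mz).compR R.H'.hequiv) R.transI.iso (R.transC.isoTr w0)
    (fun i x hx => R.comm hx)).van (n - 1)
  rw [E_iff_van, E_iff_van, a1, b1, add_zero]
  rw [sub_add_cancel] at a2 b2
  rw [← a2, ← b2, c1, add_zero]

end R3H

end Spg
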