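import Pool.Agent.H78.SpgF2
import Pool.Agent.H78.SpgT
import Pool.Agent.H78.Kh.Cx
import Pool.Agent.H85.SpgR2

/-!
# Subcubes as abstract complexes; transport and cone decomposition
-/

set_option linter.unusedSectionVars false
set_option linter.unusedVariables false

open Function
open scoped Classical

namespace Spg

open Pool.H78.Kh (Cx HEquiv IsoMap ChMap cone coneR)

section

variable {X U : Type} [DecidableEq X] [AddCommGroup U] [Module (ZMod 2) U]

/-- cochains of degree `n` as a subgroup -/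
def grpC (S : CS X U) (A : Finset X) (c : X → Bool) (n : ℤ) : AddSubgroup (Co X U) where
  carrier := {Φ | S.IsC A c n Φ}
  zero_mem' := CS.IsC.zero S A c n
  add_mem' := fun h h' => CS.IsC.add S h h'
  neg_mem' := fun {Φ} h => by
    have : -Φ = Φ := by
      funext s v
      exact neg_eq_F2 (Φ s v)
    show S.IsC A c n (-Φ)
    rw [this]
    exact h

theorem mem_grpC {S : CS X U} {A : Finset X} {c : X → Bool} {n : ℤ} {Φ : Co X U} :
    Φ ∈ grpC S A c n ↔ S.IsC A c n Φ := Iff.rfl

/-- the complex of a subcube -/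
noncomputable def CS.cx (S : CS X U) (A : Finset X) (c : X → Bool) : Cx where
  M := Co X U
  two := fun x => by
    funext s v
    exact add_self_Z2 _
  G := grpC S A c
  d := (S.d A).toAddMonoidHom
  d_G := fun _ _ h => CS.IsC.d S h
  d_d := fun _ _ h => S.d_d (CS.IsC.inv h) A

theorem E_iff_van (S : CS X U) (A : Finset X) (c : X → Bool) (n : ℤ) :
    S.E A c n ↔ (S.cx A c).Van n := Iff.rfl

theorem pd_supp {S : CS X U} {x : X} {Φ : Co X U} {s : X → Bool} (hs : S.pd x Φ s ≠ 0) :
    s x = true ∧ Φ (update s x false) ≠ 0 := by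
  by_cases h1 : s x = true
  · refine ⟨h1, fun h' => hs ?_⟩
    rw [S.pd_true _ _ h1, h', map_zero]
  · exact absurd (S.pd_false _ _ (by simpa using h1)) hs

theorem deg_erase {A : Finset X} {x : X} (hx : x ∈ A) (s : X → Bool) :
    deg A s = deg (A.erase x) s + (if s x = true then 1 else 0) := by
  unfold deg
  by_cases h : s x = true
  · rw [if_pos h]
    have : A.filter (fun y => s y = true) = insert x ((A.erase x).filter (fun y => s y = true)) := by
      ext y
      rw [Finset.mem_insert, Finset.mem_filter, Finset.mem_filter, Finset.mem_erase]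
      by_cases hy : y = x
      · subst hy; simp [hx, h]
      · simp [hy]
    rw [this, Finset.card_insert_of_notMem]
    · push_cast; rfl
    · rw [Finset.mem_filter, Finset.mem_erase]; simp
  · rw [if_neg h, add_zero]
    congr 2
    ext y
    rw [Finset.mem_filter, Finset.mem_filter, Finset.mem_erase]
    by_cases hy : y = x
    · subst hy; simp [h]
    · simp [hy]

theorem cube_erase {A : Finset X} {c s : X → Bool} {x : X} (hx : x ∈ A) (b : Bool) :
    InCube (A.erase x) (update c x b) s ↔ InCube A c s ∧ s x = b := by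
  constructor
  · intro h
    refine ⟨fun z hz => ?_, ?_⟩
    · have := h z (fun h' => hz (Finset.mem_of_mem_erase h'))
      have hzx : z ≠ x := fun h' => hz (h' ▸ hx)
      rwa [update_of_ne hzx] at this
    · have := h x (by simp)
      simpa using this
  · rintro ⟨h1, h2⟩ z hz
    by_cases hzx : z = x
    · subst hzx; simpa using h2
    · rw [update_of_ne hzx]
      exact h1 z (fun h' => hz (Finset.mem_erase.2 ⟨hzx, h'⟩))

theorem deg_erase_update {A : Finset X} {x : X} (s : X → Bool) (b : Bool) :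
    deg (A.erase x) (update s x b) = deg (A.erase x) s := by
  unfold deg
  congr 2
  apply Finset.filter_congr
  intro y hy
  rw [update_of_ne (Finset.ne_of_mem_erase hy)]

theorem edge_isC {S : CS X U} {A : Finset X} {c : X → Bool} {x : X} (hx : x ∈ A) {n : ℤ}
    {Φ : Co X U} (h : S.IsC (A.erase x) (update c x false) n Φ) :
    S.IsC (A.erase x) (update c x true) n (S.pd x Φ) := by
  refine ⟨CS.IsInv.pd S h.inv x, fun s hs => ?_⟩
  obtain ⟨h1, h2⟩ := pd_supp hs
  obtain ⟨h3, h4⟩ := h.supp _ h2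
  refine ⟨(cube_erase hx true).2 ⟨InCube.of_update hx ((cube_erase hx false).1 h3).1, h1⟩, ?_⟩
  rwa [deg_erase_update] at h4

theorem edge_d {S : CS X U} {A : Finset X} {x : X} {Φ : Co X U} (h : S.IsInv Φ) :
    S.pd x (S.d A Φ) = S.d A (S.pd x Φ) := by
  rw [CS.d, LinearMap.sum_apply, LinearMap.sum_apply, map_sum]
  exact Finset.sum_congr rfl (fun y _ => S.pd_comm h x y)

/-- the edge map as a chain map -/
noncomputable def CS.edgeMap (S : CS X U) {A : Finset X} {c : X → Bool} {x : X} (hx : x ∈ A) :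
    ChMap (S.cx (A.erase x) (update c x false)) (S.cx (A.erase x) (update c x true)) 0 where
  e := (S.pd x).toAddMonoidHom
  e_G := fun i x h => Cx.cast (add_zero i).symm (edge_isC hx h)
  e_d := fun _ _ h => edge_d (CS.IsC.inv h)

theorem d_rest {S : CS X U} {A : Finset X} {x : X} (hx : x ∈ A) (Φ : Co X U) :
    Rs x false (S.d A Φ) = S.d (A.erase x) (Rs x false Φ) ∧
    Rs x true (S.d A Φ) = S.pd x (Rs x false Φ) + S.d (A.erase x) (Rs x true Φ) := by
  have key : ∀ b, Rs x b (S.d (A.erase x) Φ) = S.d (A.erase x) (Rs x b Φ) := by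
    intro b
    rw [CS.d, LinearMap.sum_apply, LinearMap.sum_apply, map_sum]
    exact Finset.sum_congr rfl (fun y hy => S.Rs_pd_comm (Finset.ne_of_mem_erase hy) b Φ)
  rw [S.d_erase hx]
  constructor
  · rw [map_add, CS.Rs_false_pd, zero_add, key]
  · rw [map_add, CS.Rs_true_pd, key, CS.pd_Rs_false]

theorem Rs_of_cube {S : CS X U} {A : Finset X} {c : X → Bool} {x : X} (hx : x ∈ A) {n : ℤ}
    {Φ : Co X U} {b : Bool} (h : S.IsC (A.erase x) (update c x b) n Φ) (b' : Bool) :
    Rs x b' Φ = if b = b' then Φ else 0 := by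
  funext s
  rw [Rs_apply]
  by_cases h0 : Φ s = 0
  · rw [h0]; split_ifs <;> simp [h0]
  · have h1 := ((cube_erase hx b).1 (h.supp s h0).1).2
    rw [h1]
    split_ifs <;> rfl

theorem Rs_isC {S : CS X U} {A : Finset X} {c : X → Bool} {x : X} (hx : x ∈ A) {n : ℤ}
    {Φ : Co X U} (h : S.IsC A c n Φ) (b : Bool) :
    S.IsC (A.erase x) (update c x b) (n - (if b = true then 1 else 0)) (Rs x b Φ) := by
  refine ⟨CS.IsInv.Rs S h.inv x b, fun s hs => ?_⟩
  rw [Rs_apply] at hs
  split_ifs at hs with h1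
  · obtain ⟨h2, h3⟩ := h.supp s hs
    refine ⟨(cube_erase hx b).2 ⟨h2, h1⟩, ?_⟩
    have h4 := deg_erase hx s
    rw [h1] at h4
    omega
  · exact absurd rfl hs

theorem isC_of_erase {S : CS X U} {A : Finset X} {c : X → Bool} {x : X} (hx : x ∈ A) {n : ℤ}
    {Φ : Co X U} {b : Bool} (h : S.IsC (A.erase x) (update c x b) n Φ) :
    S.IsC A c (n + (if b = true then 1 else 0)) Φ := by
  refine ⟨h.inv, fun s hs => ?_⟩
  obtain ⟨h2, h3⟩ := h.supp s hs
  obtain ⟨h4, h5⟩ := (cube_erase hx b).1 h2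
  refine ⟨h4, ?_⟩
  rw [deg_erase hx s, h5, h3]

/-- a subcube is the cone of an edge map -/
noncomputable def CS.coneIso (S : CS X U) {A : Finset X} {c : X → Bool} {x : X} (hx : x ∈ A) :
    IsoMap (S.cx A c) (cone (S.edgeMap (c := c) hx)) 0 where
  f := AddMonoidHom.prod (Rs x false).toAddMonoidHom (Rs x true).toAddMonoidHom
  f_G := fun i Φ h => by
    refine ⟨?_, ?_⟩
    · have := Rs_isC hx (mem_grpC.1 h) false
      exact Cx.cast (K := S.cx (A.erase x) (update c x false)) (by simp) this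
    · have := Rs_isC hx (mem_grpC.1 h) true
      exact Cx.cast (K := S.cx (A.erase x) (update c x true)) (by simp) this
  f_d := fun i Φ _ => Prod.ext (d_rest hx Φ).1 (d_rest hx Φ).2
  inj := fun i Φ _ h => by
    have h1 : Rs x false Φ = 0 := congrArg Prod.fst h
    have h2 : Rs x true Φ = 0 := congrArg Prod.snd h
    have := Rs_add_Rs x Φ
    rw [h1, h2, add_zero] at this
    exact this.symm
  surj := fun i (y : Co X U × Co X U) hy => by
    obtain ⟨a, b⟩ := y
    have ha : S.IsC (A.erase x) (update c x false) (i - 0) a := hy.1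
    have hb : S.IsC (A.erase x) (update c x true) (i - 1) b := hy.2
    refine ⟨a + b, ?_, ?_⟩
    · refine AddSubgroup.add_mem _ ?_ ?_
      · exact Cx.cast (K := S.cx A c) (by simp) (isC_of_erase hx ha)
      · exact Cx.cast (K := S.cx A c) (by simp) (isC_of_erase hx hb)
    · refine Prod.ext ?_ ?_
      · show Rs x false (a + b) = a
        rw [map_add, Rs_of_cube hx ha, Rs_of_cube hx hb]
        simp
      · show Rs x true (a + b) = b
        rw [map_add, Rs_of_cube hx ha, Rs_of_cube hx hb]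
        simp

/-- the second Reidemeister move as a homotopy equivalence -/
noncomputable def R2H.hequiv {S : CS X U} {A : Finset X} {c : X → Bool} {xa xb : X}
    {lam : U →ₗ[ZMod 2] ZMod 2} (H : R2H S A c xa xb lam) :
    HEquiv (S.cx H.A' H.c') (S.cx A c) 1 where
  φ := H.g.toAddMonoidHom
  ψ := H.r.toAddMonoidHom
  h := H.h.toAddMonoidHom
  φ_G := fun i x hx => H.sdr.gC i x hx
  ψ_G := fun i x hx => H.sdr.rC i x hx
  h_G := fun i x hx => H.sdr.hC i x hx
  φ_d := fun i x hx => (H.sdr.gd i x hx).symm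
  ψ_d := fun i x hx => (H.sdr.rd i x hx).symm
  ψφ := fun i x hx => H.sdr.rg i x hx
  φψ := fun i x hx => H.sdr.hd i x hx

theorem R2H.r_h {S : CS X U} {A : Finset X} {c : X → Bool} {xa xb : X}
    {lam : U →ₗ[ZMod 2] ZMod 2} (H : R2H S A c xa xb lam) (Φ : Co X U) : H.r (H.h Φ) = 0 := by
  rw [H.r_eq, H.h_eq]
  have e0 : H.HP (H.HP Φ + H.HI Φ) = 0 := by
    funext s
    rw [H.HP_apply]
    split_ifs with h1 h2
    · rw [Pi.add_apply, H.HP_apply, H.HI_apply, update_self, update_of_ne H.ne.symm, if_pos h1,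
        if_pos rfl, if_pos h1, if_neg (by simp), zero_add, psi_iot lam H.la]
      rfl
    · rfl
    · rfl
  rw [e0, map_zero, add_zero]
  funext s
  rw [H.PC_apply]
  split_ifs with h1 h2
  · rw [Pi.add_apply, H.HP_apply, H.HI_apply, if_neg (by rw [h2]; simp), if_neg (by rw [h1]; simp),
      add_zero]
    rfl
  · rfl
  · rfl

end

section

variable {X X' U U' : Type} [DecidableEq X] [DecidableEq X']
  [AddCommGroup U] [Module (ZMod 2) U] [AddCommGroup U'] [Module (ZMod 2) U']

/-- transport as an isomorphism of complexes -/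
noncomputable def Trans.iso {S : CS X U} {S' : CS X' U'} {e : X' → X} {J : U' →ₗ[ZMod 2] U}
    {A : Finset X} {A' : Finset X'} {c : X → Bool} {c' : X' → Bool}
    (H : Trans S S' e J A A' c c') : IsoMap (S.cx A c) (S'.cx A' c') 0 where
  f := (TT e c J).toAddMonoidHom
  f_G := fun i x hx => Cx.cast (K := S'.cx A' c') (add_zero i).symm (H.isC_TT hx)
  f_d := fun i x hx => (H.d_TT hx).symm
  inj := fun i x hx h => H.TT_inj hx h
  surj := fun i y hy => by
    obtain ⟨x, hx, hx'⟩ := H.TT_surj (n := i) (Φ' := y) hy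
    exact ⟨x, Cx.cast (K := S.cx A c) (by simp) hx, hx'⟩

/-- translation of all values by `w` -/
def TrA (X : Type) (w : U) : Co X U →ₗ[ZMod 2] Co X U where
  toFun Φ s := Tr w (Φ s)
  map_add' _ _ := rfl
  map_smul' _ _ := rfl

theorem TrA_apply (w : U) (Φ : Co X U) (s : X → Bool) : TrA X w Φ s = Tr w (Φ s) := rfl

theorem TrA_TrA (w : U) (Φ : Co X U) : TrA X w (TrA X w Φ) = Φ := by
  funext s v
  show Φ s (v + w + w) = Φ s v
  rw [add_add_cancel_F2]

theorem tog_Tr (L L' : Submodule (ZMod 2) U) (u w : U) (φ : U → ZMod 2) :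
    tog L L' u (Tr w φ) = Tr w (tog L L' u φ) := by
  have h : ∀ φ : U → ZMod 2, Tr u (Tr w φ) = Tr w (Tr u φ) := by
    intro φ
    funext v
    show φ (v + u + w) = φ (v + w + u)
    rw [add_right_comm]
  by_cases h1 : u ∈ L
  · by_cases h2 : u ∈ L'
    · rw [tog_in_in h1 h2, tog_in_in h1 h2, map_zero]
    · rw [tog_in_out h1 h2, tog_in_out h1 h2]
  · rw [tog_out h1, tog_out h1, map_add, h]

theorem pd_TrA (S : CS X U) (w : U) (x : X) (Φ : Co X U) :
    S.pd x (TrA X w Φ) = TrA X w (S.pd x Φ) := by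
  funext s
  by_cases h1 : s x = true
  · rw [S.pd_true _ _ h1, TrA_apply, TrA_apply, S.pd_true _ _ h1, tog_Tr]
  · rw [S.pd_false _ _ (by simpa using h1), TrA_apply, S.pd_false _ _ (by simpa using h1),
      map_zero]

theorem d_TrA (S : CS X U) (w : U) (A : Finset X) (Φ : Co X U) :
    S.d A (TrA X w Φ) = TrA X w (S.d A Φ) := by
  rw [CS.d, LinearMap.sum_apply, LinearMap.sum_apply, map_sum]
  exact Finset.sum_congr rfl (fun y _ => pd_TrA S w y Φ)

theorem isC_TrA {S : CS X U} (w : U) {A : Finset X} {c : X → Bool} {n : ℤ} {Φ : Co X U}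
    (h : S.IsC A c n Φ) : S.IsC A c n (TrA X w Φ) := by
  refine ⟨fun s l hl v => ?_, fun s hs => h.supp s (fun h0 => hs ?_)⟩
  · show Φ s (v + l + w) = Φ s (v + w)
    rw [add_right_comm]
    exact h.inv s l hl _
  · rw [TrA_apply, h0, map_zero]

/-- translation by `w`, then transport -/
noncomputable def Trans.isoTr {S : CS X U} {S' : CS X' U'} {e : X' → X} {J : U' →ₗ[ZMod 2] U}
    {A : Finset X} {A' : Finset X'} {c : X → Bool} {c' : X' → Bool}
    (H : Trans S S' e J A A' c c') (w : U) : IsoMap (S.cx A c) (S'.cx A' c') 0 where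
  f := ((TT e c J) ∘ₗ (TrA X w)).toAddMonoidHom
  f_G := fun i x hx => Cx.cast (K := S'.cx A' c') (add_zero i).symm (H.isC_TT (isC_TrA w hx))
  f_d := fun i (x : Co X U) hx => by
    show TT e c J (TrA X w (S.d A x)) = S'.d A' (TT e c J (TrA X w x))
    rw [H.d_TT (isC_TrA w hx), d_TrA]
  inj := fun i (x : Co X U) hx h => by
    have h1 : TrA X w x = 0 := H.TT_inj (isC_TrA w hx) h
    show x = (0 : Co X U)
    rw [← TrA_TrA w x, h1, map_zero]
  surj := fun i y hy => by
    obtain ⟨x, hx, hx'⟩ := H.TT_surj (n := i) (Φ' := y) hy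
    refine ⟨TrA X w x, Cx.cast (K := S.cx A c) (by simp) (isC_TrA w hx), ?_⟩
    show TT e c J (TrA X w (TrA X w x)) = y
    rw [TrA_TrA, hx']

end

end Spg
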