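import Pool.Agent.H78.SpgT

/-!
# (F4): transport of the property `ZZ`
-/

set_option linter.unusedSectionVars false
set_option linter.unusedVariables false

open Function
open scoped Classical

namespace Spg

variable {X0 Y Y' U U' UG : Type} [DecidableEq X0] [DecidableEq Y] [DecidableEq Y'] [Fintype X0]
  [AddCommGroup U] [Module (ZMod 2) U] [AddCommGroup U'] [Module (ZMod 2) U']
  [AddCommGroup UG] [Module (ZMod 2) UG] [Finite UG]

theorem hat_stt {e' : Y' → Y} (he' : Injective e') (c : X0 ⊕ Y → Bool) (b : Bool) (t' : Y' → Bool) :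
    hat (Sum.map id e') c (stt (X0 := X0) b t') = stt b (hat e' (yp c) t') := by
  have he : Injective (Sum.map id e' : X0 ⊕ Y' → X0 ⊕ Y) := injective_id.sumMap he'
  funext z
  cases z with
  | inl x => exact hat_e he c (stt b t') (Sum.inl x)
  | inr y =>
    by_cases h : ∃ y', e' y' = y
    · obtain ⟨y', rfl⟩ := h
      have := hat_e he c (stt (X0 := X0) b t') (Sum.inr y')
      show hat (Sum.map id e') c (stt b t') (Sum.map id e' (Sum.inr y')) = hat e' (yp c) t' (e' y')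
      rw [this, hat_e he']; rfl
    · rw [hat_of_notin]
      · show c (Sum.inr y) = hat e' (yp c) t' y
        rw [hat_of_notin _ _ h]; rfl
      · rintro ⟨z, hz⟩
        cases z with
        | inl x => simp at hz
        | inr y' =>
          apply h
          exact ⟨y', by simpa using hz⟩

theorem Trans.inl_mem {S : CS (X0 ⊕ Y) U} {S' : CS (X0 ⊕ Y') U'} {e' : Y' → Y} {J : U' →ₗ[ZMod 2] U}
    {A : Finset (X0 ⊕ Y)} {A' : Finset (X0 ⊕ Y')} {c : X0 ⊕ Y → Bool} {c' : X0 ⊕ Y' → Bool}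
    (H : Trans S S' (Sum.map id e') J A A' c c') (hA : ∀ x : X0, Sum.inl x ∈ A) :
    ∀ x : X0, Sum.inl x ∈ A' := fun x => H.mem_e.1 (hA x)

theorem MM_eq {S : CS (X0 ⊕ Y) U} {S' : CS (X0 ⊕ Y') U'} {e' : Y' → Y} {J : U' →ₗ[ZMod 2] U}
    {A : Finset (X0 ⊕ Y)} {A' : Finset (X0 ⊕ Y')} {c : X0 ⊕ Y → Bool} {c' : X0 ⊕ Y' → Bool}
    (H : Trans S S' (Sum.map id e') J A A' c c') (hA : ∀ x : X0, Sum.inl x ∈ A)
    {JG : UG →ₗ[ZMod 2] U} {JG' : UG →ₗ[ZMod 2] U'} (hJG : ∀ g, J (JG' g) = JG g)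
    {t' : Y' → Bool} (ht : InCube A' c' (stt (X0 := X0) true t')) (b : Bool) :
    KK S' JG' b t' = KK S JG b (hat e' (yp c) t') := by
  have he' : Injective e' := by
    intro a b h
    have : Sum.map id e' (Sum.inr a : X0 ⊕ Y') = Sum.map id e' (Sum.inr b) := by simp [h]
    simpa using H.he this
  have hb : InCube A' c' (stt (X0 := X0) b t') := by
    intro w hw
    cases w with
    | inl x => exact absurd (H.inl_mem hA x) hw
    | inr y => exact ht (Sum.inr y) hw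
  unfold KK
  rw [H.hL' hb, hat_stt he']
  ext g
  rw [Submodule.mem_comap, Submodule.mem_comap, Submodule.mem_comap, hJG]

theorem TT_FF {S : CS (X0 ⊕ Y) U} {S' : CS (X0 ⊕ Y') U'} {e' : Y' → Y} {J : U' →ₗ[ZMod 2] U}
    {A : Finset (X0 ⊕ Y)} {A' : Finset (X0 ⊕ Y')} {c : X0 ⊕ Y → Bool} {c' : X0 ⊕ Y' → Bool}
    (H : Trans S S' (Sum.map id e') J A A' c c') (hA : ∀ x : X0, Sum.inl x ∈ A)
    {JG : UG →ₗ[ZMod 2] U} {JG' : UG →ₗ[ZMod 2] U'} (hJG : ∀ g, J (JG' g) = JG g)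
    (hJ : ∀ x : X0, S.u (Sum.inl x) ∈ LinearMap.range JG)
    (hJ' : ∀ x : X0, S'.u (Sum.inl x) ∈ LinearMap.range JG')
    (m : ℕ) {n : ℤ} {Φ : Co (X0 ⊕ Y) U} (hΦ : S.IsC A c n Φ) :
    TT (Sum.map id e') c J (FF S JG m Φ) = FF S' JG' m (TT (Sum.map id e') c J Φ) := by
  have he' : Injective e' := by
    intro a b h
    have : Sum.map id e' (Sum.inr a : X0 ⊕ Y') = Sum.map id e' (Sum.inr b) := by simp [h]
    simpa using H.he this
  have hA' := H.inl_mem hA
  have c1 := H.isC_TT (isC_FF (J := JG) hJ m hA hΦ)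
  have c2 := isC_FF (J := JG') hJ' m hA' (H.isC_TT hΦ)
  funext s'
  by_cases hc : InCube A' c' s'
  · by_cases hx : XC false s'
    · have e1 := stt_of_XC hx
      have hc1 : InCube A' c' (stt (X0 := X0) true (yp s')) := by
        intro w hw
        cases w with
        | inl x => exact absurd (hA' x) hw
        | inr y => exact hc (Sum.inr y) hw
      have ht : MM S' JG' (yp s') = MM S JG (hat e' (yp c) (yp s')) := by
        unfold MM
        rw [MM_eq H hA hJG hc1, MM_eq H hA hJG hc1]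
      rw [e1]
      funext v'
      rw [TT_apply, hat_stt he', FF_apply, FF_apply, if_pos (XC_stt _ _), if_pos (XC_stt _ _),
        yp_stt, yp_stt, ht]
      split_ifs with hm
      · rw [Tsum_apply, Tsum_apply, MM_eq H hA hJG hc1]
        refine Finset.sum_congr rfl (fun h _ => ?_)
        rw [TT_apply, hat_stt he', map_add, hJG]
      · rfl
    · have hx' : ¬ XC false (hat (Sum.map id e') c s') := by
        intro h
        apply hx
        intro x
        have := h x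
        rw [show (Sum.inl x : X0 ⊕ Y) = Sum.map id e' (Sum.inl x) from rfl, hat_e H.he] at this
        exact this
      funext v'
      rw [TT_apply, FF_apply, FF_apply, if_neg hx, if_neg hx']
      rfl
  · have h1 : TT (Sum.map id e') c J (FF S JG m Φ) s' = 0 := by
      by_contra h
      exact hc (c1.supp _ h).1
    have h2 : FF S' JG' m (TT (Sum.map id e') c J Φ) s' = 0 := by
      by_contra h
      exact hc (c2.supp _ h).1
    rw [h1, h2]

/-- (F4) -/
theorem ZZ_congr {S : CS (X0 ⊕ Y) U} {S' : CS (X0 ⊕ Y') U'} {e' : Y' → Y} {J : U' →ₗ[ZMod 2] U}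
    {A : Finset (X0 ⊕ Y)} {A' : Finset (X0 ⊕ Y')} {c : X0 ⊕ Y → Bool} {c' : X0 ⊕ Y' → Bool}
    (H : Trans S S' (Sum.map id e') J A A' c c') (hA : ∀ x : X0, Sum.inl x ∈ A)
    {JG : UG →ₗ[ZMod 2] U} {JG' : UG →ₗ[ZMod 2] U'} (hJG : ∀ g, J (JG' g) = JG g)
    (hJ : ∀ x : X0, S.u (Sum.inl x) ∈ LinearMap.range JG)
    (hJ' : ∀ x : X0, S'.u (Sum.inl x) ∈ LinearMap.range JG') (m : ℕ) :
    ZZ S JG A c m ↔ ZZ S' JG' A' c' m := by
  constructor
  · intro hZ n Φ' hΦ' hd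
    obtain ⟨Φ, hΦ, rfl⟩ := H.TT_surj hΦ'
    rw [H.d_TT hΦ] at hd
    have h0 := H.TT_inj (CS.IsC.d S hΦ) hd
    obtain ⟨Ψ, hΨ, hΨ'⟩ := hZ n Φ hΦ h0
    refine ⟨TT _ c J Ψ, H.isC_TT hΨ, ?_⟩
    rw [H.d_TT hΨ, hΨ', TT_FF H hA hJG hJ hJ' m hΦ]
  · intro hZ n Φ hΦ hd
    obtain ⟨Ψ', hΨ', hd'⟩ := hZ n (TT _ c J Φ) (H.isC_TT hΦ) (by rw [H.d_TT hΦ, hd, map_zero])
    obtain ⟨Ψ, hΨ, rfl⟩ := H.TT_surj hΨ'
    refine ⟨Ψ, hΨ, ?_⟩
    rw [H.d_TT hΨ, ← TT_FF H hA hJG hJ hJ' m hΦ, ← sub_eq_zero, ← map_sub] at hd'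
    have h1 : S.IsC A c (n - Fintype.card X0) (S.d A Ψ - FF S JG m Φ) := by
      have h2 := CS.IsC.d S hΨ
      rw [sub_add_cancel] at h2
      have h3 : S.d A Ψ - FF S JG m Φ = S.d A Ψ + FF S JG m Φ := by
        funext s v
        show S.d A Ψ s v - FF S JG m Φ s v = S.d A Ψ s v + FF S JG m Φ s v
        rw [sub_eq_add_neg, neg_eq_F2]
      rw [h3]
      exact CS.IsC.add S h2 (isC_FF hJ m hA hΦ)
    exact sub_eq_zero.1 (H.TT_inj h1 hd')

end Spg
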