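import Pool.Agent.H85.SpgZB

/-!
# Closings: the number `MB` and adequacy in terms of the boundary values; F2 and F5 for pairs
-/

set_option linter.unusedSectionVars false
set_option linter.unusedVariables false

open Function

namespace Spg

namespace PS

variable {Λ : Type} [Fintype Λ]

/-- restriction of the colourings of a state to the legs -/
def resL (B : PS Λ) (t : B.X → Bool) : Submodule (ZMod 2) (Λ → ZMod 2) :=
  (B.Con t).map (LinearMap.funLeft (ZMod 2) (ZMod 2) B.leg)

theorem mem_resL {B : PS Λ} {t : B.X → Bool} {h : Λ → ZMod 2} :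
    h ∈ resL B t ↔ ∃ f ∈ B.Con t, ∀ l, f (B.leg l) = h l := by
  unfold resL
  rw [Submodule.mem_map]
  constructor
  · rintro ⟨f, hf, rfl⟩
    exact ⟨f, hf, fun l => rfl⟩
  · rintro ⟨f, hf, h⟩
    exact ⟨f, hf, funext h⟩

/-- the colourings of the constant state `b` of `G` with boundary values in `R` -/
def ConR (G : PS Λ) (b : Bool) (R : Submodule (ZMod 2) (Λ → ZMod 2)) :
    Submodule (ZMod 2) (G.P → ZMod 2) :=
  G.Con (fun _ => b) ⊓ R.comap (LinearMap.funLeft (ZMod 2) (ZMod 2) G.leg)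

theorem mem_ConR {G : PS Λ} {b : Bool} {R : Submodule (ZMod 2) (Λ → ZMod 2)}
    {f : G.P → ZMod 2} : f ∈ ConR G b R ↔ f ∈ G.Con (fun _ => b) ∧ (fun l => f (G.leg l)) ∈ R :=
  Iff.rfl

/-- the number of dead directions of the two extreme states of `G` -/
noncomputable def MMr (G : PS Λ) (R : Submodule (ZMod 2) (Λ → ZMod 2)) : ℕ :=
  Module.finrank (ZMod 2) (ann (ConR G true R)) + Module.finrank (ZMod 2) (ann (ConR G false R))

theorem KK_pcs (G B : PS Λ) (b : Bool) (t : B.X → Bool) :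
    KK (pcs G B) (extL G.P B.P) b t = ann (ConR G b (resL B t)) := by
  ext g
  have key : ∀ f : G.P ⊕ B.P → ZMod 2, ∑ z, f z * extL G.P B.P g z =
      ∑ p, f (Sum.inl p) * g p := by
    intro f
    rw [Fintype.sum_sum_type]
    show (∑ p, f (Sum.inl p) * g p) + (∑ q, f (Sum.inr q) * 0) = _
    simp
  show (∀ f ∈ (pair G B).Con (stt b t), ∑ z : G.P ⊕ B.P, f z * extL G.P B.P g z = 0)
    ↔ _
  rw [mem_ann]
  constructor
  · intro h f hf
    obtain ⟨h1, h2⟩ := mem_ConR.1 hf
    obtain ⟨f2, h3, h4⟩ := mem_resL.1 h2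
    have := h (Sum.elim f f2) ⟨h1, h3, fun l => (h4 l).symm⟩
    rw [key] at this
    exact this
  · rintro h (f : G.P ⊕ B.P → ZMod 2) ⟨h1, h2, h3⟩
    exact (key f).trans
      (h (fun p => f (Sum.inl p)) ⟨h1, mem_resL.2 ⟨_, h2, fun l => (h3 l).symm⟩⟩)

/-- the number `MB` only depends on the boundary values -/
theorem MB_eq (G B : PS Λ) (t : B.X → Bool) : MB G B t = MMr G (resL B t) := by
  unfold MB MM MMr
  rw [KK_pcs, KK_pcs]

/-- adequacy of the constant state `b` of `G` closed up by `R` -/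
def Adeq (G : PS Λ) (b : Bool) (R : Submodule (ZMod 2) (Λ → ZMod 2)) : Prop :=
  ∀ x : G.X, ∃ f ∈ ConR G b R, f (G.ua x) + f (G.ub x) ≠ 0

theorem Adeq.notMem {G B : PS Λ} {b : Bool} {t : B.X → Bool} (h : Adeq G b (resL B t)) (x : G.X) :
    (pcs G B).u (Sum.inl x) ∉ (pcs G B).L (stt b t) := by
  intro hx
  obtain ⟨f, hf, hne⟩ := h x
  have h1 : extL G.P B.P (uvec (G.ua x) (G.ub x)) ∈ (pcs G B).L (stt b t) := by
    rw [extL_uvec]; exact hx
  have h2 : uvec (G.ua x) (G.ub x) ∈ ann (ConR G b (resL B t)) := by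
    rw [← KK_pcs]; exact h1
  apply hne
  rw [← h2 f hf, sum_mul_uvec]

theorem cube_pcs {G B : PS Λ} (hG : ∀ x, x ∈ G.act) {b : Bool} {t : B.X → Bool} :
    InCube (pact G B) (pval G B) (stt b t) ↔ InCube B.act B.val t := by
  constructor
  · intro h y hy
    exact h (Sum.inr y) (fun h' => hy (Finset.inr_mem_disjSum.1 h'))
  · rintro h (x | y) hy
    · exact absurd (Finset.inl_mem_disjSum.2 (hG x)) hy
    · exact h y (fun h' => hy (Finset.inr_mem_disjSum.2 h'))

/-- goodness in terms of the boundary values -/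
theorem Good.of {G B : PS Λ} {m : ℕ} (hG : ∀ x, x ∈ G.act)
    (hM : ∀ t, InCube B.act B.val t → m ≤ MMr G (resL B t))
    (ad : ∀ b t, InCube B.act B.val t → Adeq G b (resL B t)) : Good G B m where
  act := hG
  M := fun t ht => by rw [MB_eq]; exact hM t ht
  ad := fun b x t ht => (ad b t ht).notMem x

/-- (F2) for pairs -/
theorem not_ZB {G B : PS Λ} (hG : ∀ x, x ∈ G.act) (hB : B.act = ∅) {m : ℕ}
    (hm : MB G B B.val = m) : ¬ ZB G B m := by
  refine not_ZZ (X0 := G.X) (Y := B.X) ?_ hm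
  rintro (x | y)
  · exact ⟨fun _ => ⟨x, rfl⟩, fun _ => Finset.inl_mem_disjSum.2 (hG x)⟩
  · constructor
    · intro h
      have h' : y ∈ B.act := Finset.inr_mem_disjSum.1 h
      rw [hB] at h'
      exact absurd h' (Finset.notMem_empty _)
    · rintro ⟨x, hx⟩
      simp at hx

/-- (F5) for pairs -/
theorem ZB_filt {G B : PS Λ} {m : ℕ} (hG : Good G B m)
    {T : Finset B.X} (hT : T ⊆ B.act) {lo hi : ℤ} (hlo : hi - lo < Fintype.card G.X)
    (hv : ∀ v : B.X → Bool, (∀ y, y ∉ B.act → v y = B.val y) → ∀ n : ℤ, (n < lo ∨ hi < n) →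
      EE G (refreeze B (B.act \ T) v) n) : ZB G B m := by
  refine filt (X0 := G.X) (Y := B.X) (pcs_hJ G B) m
    (fun x => Finset.inl_mem_disjSum.2 (hG.act x))
    (T := T.map Function.Embedding.inr) ?_ ?_ ?_ ?_ hlo ?_
  · intro t ht
    exact hG.M t ((cube_pcs hG.act).1 ht)
  · intro b x t ht
    exact hG.ad b x t ((cube_pcs hG.act).1 ht)
  · intro z hz
    obtain ⟨y, hy, rfl⟩ := Finset.mem_map.1 hz
    exact Finset.inr_mem_disjSum.2 (hT hy)
  · intro x hx
    obtain ⟨y, hy, h⟩ := Finset.mem_map.1 hx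
    simp at h
  · intro c' hc' n hn
    have h1 := hv (fun y => c' (Sum.inr y)) (fun y hy => hc' (Sum.inr y)
      (fun h' => hy (Finset.inr_mem_disjSum.1 h'))) n hn
    have eA : G.act.disjSum (B.act \ T) = G.act.disjSum B.act \ T.map Function.Embedding.inr := by
      ext z
      cases z with
      | inl x =>
        rw [Finset.inl_mem_disjSum, Finset.mem_sdiff, Finset.inl_mem_disjSum]
        simp
      | inr y =>
        rw [Finset.inr_mem_disjSum, Finset.mem_sdiff, Finset.mem_sdiff, Finset.inr_mem_disjSum]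
        simp
    have h2 : (pcs G B).E (G.act.disjSum (B.act \ T))
        (Sum.elim G.val (fun y => c' (Sum.inr y))) n := h1
    rw [eA] at h2
    have e3 : ∀ s, InCube (G.act.disjSum B.act \ T.map Function.Embedding.inr)
        (Sum.elim G.val (fun y => c' (Sum.inr y))) s ↔
        InCube (G.act.disjSum B.act \ T.map Function.Embedding.inr) c' s := by
      intro s
      have : ∀ z, z ∉ G.act.disjSum B.act \ T.map Function.Embedding.inr →
          Sum.elim G.val (fun y => c' (Sum.inr y)) z = c' z := by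
        rintro (x | y) hz
        · exfalso
          apply hz
          rw [Finset.mem_sdiff]
          refine ⟨Finset.inl_mem_disjSum.2 (hG.act x), ?_⟩
          simp
        · rfl
      constructor
      · intro h z hz
        rw [h z hz, this z hz]
      · intro h z hz
        rw [h z hz, this z hz]
    have e4 : ∀ k Φ, (pcs G B).IsC (G.act.disjSum B.act \ T.map Function.Embedding.inr)
        (Sum.elim G.val (fun y => c' (Sum.inr y))) k Φ ↔
        (pcs G B).IsC (G.act.disjSum B.act \ T.map Function.Embedding.inr) c' k Φ := by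
      intro k Φ
      constructor
      · intro h
        exact ⟨h.inv, fun s hs => ⟨(e3 s).1 (h.supp s hs).1, (h.supp s hs).2⟩⟩
      · intro h
        exact ⟨h.inv, fun s hs => ⟨(e3 s).2 (h.supp s hs).1, (h.supp s hs).2⟩⟩
    intro Φ hΦ hd
    obtain ⟨Ψ, h3, h4⟩ := h2 Φ ((e4 _ _).2 hΦ) hd
    exact ⟨Ψ, (e4 _ _).1 h3, h4⟩

end PS

end Spg
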