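import Pool.Agent.H78.ZFDefs

/-!
Models of ZF (first-order, with parameters) and definability by instance search.
-/

set_option autoImplicit false
set_option linter.unusedSectionVars false

namespace Pool.Agent.H78

universe u

/-! ### Renaming of variables -/

/-- lift a renaming under a quantifier -/
def liftR (f : ℕ → ℕ) : ℕ → ℕ
  | 0 => 0
  | (i + 1) => f i + 1

/-- rename variables -/
def Fml.ren : (ℕ → ℕ) → Fml → Fml
  | f, .mem i j => .mem (f i) (f j)
  | f, .eq i j => .eq (f i) (f j)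
  | f, .neg φ => .neg (φ.ren f)
  | f, .and φ ψ => .and (φ.ren f) (ψ.ren f)
  | f, .ex φ => .ex (φ.ren (liftR f))

section

variable {M : Type u} [Membership M M]

theorem scons_lift (x : M) (v : ℕ → M) (f : ℕ → ℕ) :
    (fun i => scons x v (liftR f i)) = scons x (fun i => v (f i)) := by
  funext i
  cases i <;> rfl

theorem sat_ren (φ : Fml) : ∀ (f : ℕ → ℕ) (v : ℕ → M),
    Sat (φ.ren f) v ↔ Sat φ (fun i => v (f i)) := by
  induction φ with
  | mem i j => intro f v; exact Iff.rfl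
  | eq i j => intro f v; exact Iff.rfl
  | neg φ ih => intro f v; exact not_congr (ih f v)
  | and φ ψ ih1 ih2 => intro f v; exact and_congr (ih1 f v) (ih2 f v)
  | ex φ ih =>
    intro f v
    refine exists_congr fun x => ?_
    rw [ih (liftR f) (scons x v), scons_lift]

end

/-! ### Contexts -/

/-- finite contexts: nested products of `M` -/
class Ctx (M : Type u) (Γ : Type u) where
  len : ℕ
  code : Γ → (ℕ → M) → ℕ → M
  code_len : ∀ (γ : Γ) (q : ℕ → M) (i : ℕ), code γ q (i + len) = q i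
  code_low : ∀ (γ : Γ) (q q' : ℕ → M) (i : ℕ), i < len → code γ q i = code γ q' i

instance ctxUnit (M : Type u) : Ctx M PUnit.{u+1} where
  len := 0
  code := fun _ q => q
  code_len := fun _ _ _ => rfl
  code_low := fun _ _ _ i h => absurd h (Nat.not_lt_zero i)

instance ctxProd (M : Type u) (Γ : Type u) [c : Ctx M Γ] : Ctx M (Γ × M) where
  len := c.len + 1
  code := fun w q => scons w.2 (c.code w.1 q)
  code_len := fun w q i => by
    show scons w.2 (c.code w.1 q) (i + c.len + 1) = q i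
    exact c.code_len w.1 q i
  code_low := fun w q q' i h => by
    cases i with
    | zero => rfl
    | succ i => exact c.code_low w.1 q q' i (Nat.lt_of_succ_lt_succ h)

/-- variable maps between contexts -/
class PMap (M : Type u) {Γ Δ : Type u} [cΓ : Ctx M Γ] [cΔ : Ctx M Δ] (g : Γ → Δ) : Prop where
  out : ∃ ρ : ℕ → ℕ, ∀ (γ : Γ) (q : ℕ → M) (i : ℕ), i < cΔ.len →
    ρ i < cΓ.len ∧ cΔ.code (g γ) q i = cΓ.code γ q (ρ i)

instance pmapId (M : Type u) {Γ : Type u} [Ctx M Γ] : PMap M (fun γ : Γ => γ) :=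
  ⟨⟨fun i => i, fun _ _ _ h => ⟨h, rfl⟩⟩⟩

instance pmapFst (M : Type u) {Γ Δ : Type u} [cΓ : Ctx M Γ] [cΔ : Ctx M Δ] (g : Γ → Δ × M)
    [hg : PMap M g] : PMap M (fun γ => (g γ).1) := by
  obtain ⟨ρ, hρ⟩ := hg.out
  refine ⟨⟨fun i => ρ (i + 1), fun γ q i hi => ?_⟩⟩
  exact hρ γ q (i + 1) (Nat.succ_lt_succ hi)

/-- definable predicates on a context, with parameters -/
class Dp (M : Type u) [Membership M M] {Γ : Type u} [c : Ctx M Γ] (P : Γ → Prop) : Prop where
  out : ∃ (φ : Fml) (q : ℕ → M), ∀ γ : Γ, P γ ↔ Sat φ (c.code γ q)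

/-- definable functions on a context, with parameters -/
class Df (M : Type u) [Membership M M] {Γ : Type u} [c : Ctx M Γ] (f : Γ → M) : Prop where
  out : Dp M (fun w : Γ × M => w.2 = f w.1)

section closure

variable {M : Type u} [Membership M M] {Γ Δ : Type u} [c : Ctx M Γ] [cΔ : Ctx M Δ]

theorem Dp.congr {P Q : Γ → Prop} (hP : Dp M P) (h : ∀ γ, Q γ ↔ P γ) : Dp M Q := by
  obtain ⟨φ, q, hφ⟩ := hP.out
  exact ⟨⟨φ, q, fun γ => (h γ).trans (hφ γ)⟩⟩

theorem code_merge (q1 q2 : ℕ → M) : ∃ (q : ℕ → M) (g1 g2 : ℕ → ℕ), ∀ γ : Γ,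
    (fun i => c.code γ q (g1 i)) = c.code γ q1 ∧ (fun i => c.code γ q (g2 i)) = c.code γ q2 := by
  refine ⟨fun i => if i % 2 = 0 then q1 (i / 2) else q2 (i / 2),
    fun i => if i < c.len then i else 2 * (i - c.len) + c.len,
    fun i => if i < c.len then i else (2 * (i - c.len) + 1) + c.len, fun γ => ⟨?_, ?_⟩⟩
  · funext i
    by_cases h : i < c.len
    · simp only [h, if_true]
      exact c.code_low _ _ _ _ h
    · simp only [h, if_false]
      rw [c.code_len]
      have h1 : (2 * (i - c.len)) % 2 = 0 := by omega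
      have h2 : (2 * (i - c.len)) / 2 = i - c.len := by omega
      simp only [h1, h2, if_true]
      have h3 : c.code γ q1 i = c.code γ q1 ((i - c.len) + c.len) := by
        congr 1; omega
      rw [h3, c.code_len]
  · funext i
    by_cases h : i < c.len
    · simp only [h, if_true]
      exact c.code_low _ _ _ _ h
    · simp only [h, if_false]
      rw [c.code_len]
      have h1 : ¬ (2 * (i - c.len) + 1) % 2 = 0 := by omega
      have h2 : (2 * (i - c.len) + 1) / 2 = i - c.len := by omega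
      simp only [h1, h2, if_false]
      have h3 : c.code γ q2 i = c.code γ q2 ((i - c.len) + c.len) := by
        congr 1; omega
      rw [h3, c.code_len]

instance (priority := 900) dpAnd (P Q : Γ → Prop) [hP : Dp M P] [hQ : Dp M Q] :
    Dp M (fun γ => P γ ∧ Q γ) := by
  obtain ⟨φ, q1, hφ⟩ := hP.out
  obtain ⟨ψ, q2, hψ⟩ := hQ.out
  obtain ⟨q, g1, g2, hg⟩ := code_merge (Γ := Γ) q1 q2
  refine ⟨⟨.and (φ.ren g1) (ψ.ren g2), q, fun γ => ?_⟩⟩
  show P γ ∧ Q γ ↔ Sat (φ.ren g1) _ ∧ Sat (ψ.ren g2) _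
  rw [sat_ren, sat_ren, (hg γ).1, (hg γ).2, hφ γ, hψ γ]

instance (priority := 900) dpNot (P : Γ → Prop) [hP : Dp M P] : Dp M (fun γ => ¬ P γ) := by
  obtain ⟨φ, q, hφ⟩ := hP.out
  exact ⟨⟨.neg φ, q, fun γ => not_congr (hφ γ)⟩⟩

instance (priority := 900) dpEx (P : Γ → M → Prop) [hP : Dp M (fun w : Γ × M => P w.1 w.2)] :
    Dp M (fun γ => ∃ x : M, P γ x) := by
  obtain ⟨φ, q, hφ⟩ := hP.out
  exact ⟨⟨.ex φ, q, fun γ => exists_congr fun x => hφ (γ, x)⟩⟩

instance (priority := 900) dpOr (P Q : Γ → Prop) [hP : Dp M P] [hQ : Dp M Q] :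
    Dp M (fun γ => P γ ∨ Q γ) :=
  Dp.congr (inferInstance : Dp M (fun γ => ¬ (¬ P γ ∧ ¬ Q γ))) (fun γ => by tauto)

instance (priority := 900) dpImp (P Q : Γ → Prop) [hP : Dp M P] [hQ : Dp M Q] :
    Dp M (fun γ => P γ → Q γ) :=
  Dp.congr (inferInstance : Dp M (fun γ => ¬ (P γ ∧ ¬ Q γ))) (fun γ => by tauto)

instance (priority := 900) dpIff (P Q : Γ → Prop) [hP : Dp M P] [hQ : Dp M Q] :
    Dp M (fun γ => P γ ↔ Q γ) :=
  Dp.congr (inferInstance : Dp M (fun γ => (P γ → Q γ) ∧ (Q γ → P γ))) (fun γ => by tauto)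

instance (priority := 900) dpAll (P : Γ → M → Prop) [hP : Dp M (fun w : Γ × M => P w.1 w.2)] :
    Dp M (fun γ => ∀ x : M, P γ x) :=
  Dp.congr (inferInstance : Dp M (fun γ => ¬ ∃ x : M, ¬ P γ x)) (fun γ => by push Not; rfl)

/-- substitution along variable maps -/
theorem dpPMap (P : Δ → Prop) [hP : Dp M P] (g : Γ → Δ) [hg : PMap M g] :
    Dp M (fun γ => P (g γ)) := by
  obtain ⟨φ, q, hφ⟩ := hP.out
  obtain ⟨ρ, hρ⟩ := hg.out
  refine ⟨⟨φ.ren (fun i => if i < cΔ.len then ρ i else (i - cΔ.len) + c.len), q, fun γ => ?_⟩⟩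
  rw [sat_ren, hφ (g γ)]
  have : (fun i => c.code γ q (if i < cΔ.len then ρ i else (i - cΔ.len) + c.len))
      = cΔ.code (g γ) q := by
    funext i
    by_cases h : i < cΔ.len
    · simp only [h, if_true]
      exact ((hρ γ q i h).2).symm
    · simp only [h, if_false]
      rw [c.code_len]
      have h3 : cΔ.code (g γ) q i = cΔ.code (g γ) q ((i - cΔ.len) + cΔ.len) := by
        congr 1; omega
      rw [h3, cΔ.code_len]
  rw [this]

theorem dpPMap1 (P : Δ → M → Prop) [hP : Dp M (fun w : Δ × M => P w.1 w.2)] (g : Γ → Δ)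
    [hg : PMap M g] : Dp M (fun w : Γ × M => P (g w.1) w.2) := by
  obtain ⟨ρ, hρ⟩ := hg.out
  have : PMap M (fun w : Γ × M => (g w.1, w.2)) := by
    refine ⟨⟨liftR ρ, fun w q i hi => ?_⟩⟩
    cases i with
    | zero => exact ⟨Nat.succ_pos _, rfl⟩
    | succ i =>
      have := hρ w.1 q i (Nat.lt_of_succ_lt_succ hi)
      exact ⟨Nat.succ_lt_succ this.1, this.2⟩
  exact dpPMap (fun w : Δ × M => P w.1 w.2) (fun w : Γ × M => (g w.1, w.2))

theorem dpPMap2 (P : Δ → M → M → Prop) [hP : Dp M (fun w : (Δ × M) × M => P w.1.1 w.1.2 w.2)]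
    (g : Γ → Δ) [hg : PMap M g] : Dp M (fun w : (Γ × M) × M => P (g w.1.1) w.1.2 w.2) := by
  obtain ⟨ρ, hρ⟩ := hg.out
  have : PMap M (fun w : Γ × M => (g w.1, w.2)) := by
    refine ⟨⟨liftR ρ, fun w q i hi => ?_⟩⟩
    cases i with
    | zero => exact ⟨Nat.succ_pos _, rfl⟩
    | succ i =>
      have := hρ w.1 q i (Nat.lt_of_succ_lt_succ hi)
      exact ⟨Nat.succ_lt_succ this.1, this.2⟩
  exact dpPMap1 (fun (w : Δ × M) (x : M) => P w.1 w.2 x) (fun w : Γ × M => (g w.1, w.2))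

theorem nonemptyM (M : Type u) [Membership M M] [h : ModelZF M] : Nonempty M :=
  ⟨h.infinity.choose⟩

/-- the basic equality of a variable -/
theorem dpEqVar [ModelZF M] (g : Γ → Δ × M) [hg : PMap M g] :
    Dp M (fun w : Γ × M => w.2 = (g w.1).2) := by
  obtain ⟨ρ, hρ⟩ := hg.out
  obtain ⟨m⟩ := nonemptyM M
  refine ⟨⟨.eq 0 (ρ 0 + 1), fun _ => m, fun w => ?_⟩⟩
  have := hρ w.1 (fun _ => m) 0 (Nat.succ_pos _)
  show w.2 = (g w.1).2 ↔ w.2 = c.code w.1 (fun _ => m) (ρ 0)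
  rw [← this.2]
  rfl

instance (priority := 1100) dfVar [ModelZF M] (g : Γ → Δ × M) [hg : PMap M g] :
    Df M (fun γ : Γ => (g γ).2) := ⟨dpEqVar g⟩

instance (priority := 1200) dfConst [ModelZF M] (a : M) : Df M (fun _ : Γ => a) := by
  refine ⟨⟨.eq 0 (c.len + 1), fun _ => a, fun w => ?_⟩⟩
  show w.2 = a ↔ w.2 = c.code w.1 (fun _ => a) c.len
  have := c.code_len w.1 (fun _ => a) 0
  rw [Nat.zero_add] at this
  rw [this]

/-- composition with a variable map -/
instance (priority := 100) dfPMap (f : Δ → M) [hf : Df M f] (g : Γ → Δ) [hg : PMap M g] :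
    Df M (fun γ => f (g γ)) := by
  refine ⟨?_⟩
  have := hf.out
  exact dpPMap1 (fun (w : Δ) (x : M) => x = f w) g

instance (priority := 100) dpPMap' (P : Δ → Prop) [hP : Dp M P] (g : Γ → Δ) [hg : PMap M g] :
    Dp M (fun γ => P (g γ)) := dpPMap P g

/-- substitution of a definable function in a definable predicate -/
theorem dpSubst (P : Γ → M → Prop) [hP : Dp M (fun w : Γ × M => P w.1 w.2)] (f : Γ → M)
    [hf : Df M f] : Dp M (fun γ => P γ (f γ)) := by
  have h1 := hf.out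
  exact Dp.congr (inferInstance : Dp M (fun γ => ∃ x : M, x = f γ ∧ P γ x)) (fun γ => by simp)

theorem dpSubstG (P : Δ → M → Prop) [hP : Dp M (fun w : Δ × M => P w.1 w.2)] (g : Γ → Δ)
    [hg : PMap M g] (f : Γ → M) [hf : Df M f] : Dp M (fun γ => P (g γ) (f γ)) := by
  have h1 := hf.out
  have h2 := dpPMap1 P g
  exact Dp.congr (inferInstance : Dp M (fun γ => ∃ x : M, x = f γ ∧ P (g γ) x))
    (fun γ => by simp)

theorem dpMemVar [ModelZF M] (Γ : Type u) [c : Ctx M Γ] :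
    Dp M (fun w : (Γ × M) × M => w.1.2 ∈ w.2) := by
  obtain ⟨m⟩ := nonemptyM M
  exact ⟨⟨.mem 1 0, fun _ => m, fun w => Iff.rfl⟩⟩

instance (priority := 900) dpMem [ModelZF M] (f g : Γ → M) [hf : Df M f] [hg : Df M g] :
    Dp M (fun γ => f γ ∈ g γ) := by
  have h1 := hf.out
  have h1' := hg.out
  have h2 := dpPMap1 (fun (γ : Γ) (y : M) => y = g γ) (fun w : Γ × M => w.1)
  have h3 := dpMemVar (M := M) Γ
  exact Dp.congr (inferInstance : Dp M (fun γ => ∃ x : M, x = f γ ∧ ∃ y : M, y = g γ ∧ x ∈ y))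
    (fun γ => by simp)

theorem dpEqVar2 [ModelZF M] (Γ : Type u) [c : Ctx M Γ] :
    Dp M (fun w : (Γ × M) × M => w.1.2 = w.2) := by
  obtain ⟨m⟩ := nonemptyM M
  exact ⟨⟨.eq 1 0, fun _ => m, fun w => Iff.rfl⟩⟩

instance (priority := 900) dpEq [ModelZF M] (f g : Γ → M) [hf : Df M f] [hg : Df M g] :
    Dp M (fun γ => f γ = g γ) := by
  have h1 := hf.out
  have h1' := hg.out
  have h2 := dpPMap1 (fun (γ : Γ) (y : M) => y = g γ) (fun w : Γ × M => w.1)
  have h3 := dpEqVar2 (M := M) Γ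
  exact Dp.congr (inferInstance : Dp M (fun γ => ∃ x : M, x = f γ ∧ ∃ y : M, y = g γ ∧ x = y))
    (fun γ => by simp)

instance (priority := 900) dpNe [ModelZF M] (f g : Γ → M) [hf : Df M f] [hg : Df M g] :
    Dp M (fun γ => f γ ≠ g γ) :=
  (inferInstance : Dp M (fun γ => ¬ (f γ = g γ)))

instance (priority := 900) dpExU [ModelZF M] (P : Γ → M → Prop)
    [hP : Dp M (fun w : Γ × M => P w.1 w.2)] : Dp M (fun γ => ∃! x : M, P γ x) := by
  have h1 := dpSubstG (M := M) P (fun w : (Γ × M) × M => w.1.1) (fun w : (Γ × M) × M => w.2)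
  exact Dp.congr (inferInstance : Dp M (fun γ => ∃ x : M, P γ x ∧ ∀ y : M, P γ y → y = x))
    (fun γ => Iff.rfl)

instance (priority := 1300) dpTrue [ModelZF M] : Dp M (fun _ : Γ => True) := by
  obtain ⟨m⟩ := nonemptyM M
  exact ⟨⟨.eq 0 0, fun _ => m, fun w => by simp [Sat]⟩⟩

instance (priority := 1300) dpFalse [ModelZF M] : Dp M (fun _ : Γ => False) := by
  obtain ⟨m⟩ := nonemptyM M
  exact ⟨⟨.neg (.eq 0 0), fun _ => m, fun w => by simp [Sat]⟩⟩

theorem pmapUnit : PMap M (fun _ : Γ => (PUnit.unit : PUnit.{u+1})) :=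
  ⟨⟨fun i => i, fun _ _ _ h => absurd h (Nat.not_lt_zero _)⟩⟩

theorem pmapPair {Θ : Type u} [cΘ : Ctx M Θ] (g : Γ → Δ) (h : Γ → Θ × M) [hg : PMap M g]
    [hh : PMap M h] : PMap M (fun γ => (g γ, (h γ).2)) := by
  obtain ⟨ρ, hρ⟩ := hg.out
  obtain ⟨σ, hσ⟩ := hh.out
  refine ⟨⟨fun i => match i with
    | 0 => σ 0
    | (i + 1) => ρ i, fun γ q i hi => ?_⟩⟩
  cases i with
  | zero =>
    have := hσ γ q 0 (Nat.succ_pos _)
    exact this
  | succ i => exact hρ γ q i (Nat.lt_of_succ_lt_succ hi)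

/-- unary predicates on `M` -/
instance (priority := 200) dpUnary [ModelZF M] (P : M → Prop)
    [hP : Dp M (fun w : PUnit.{u+1} × M => P w.2)]
    (g : Γ → M) [hg : Df M g] : Dp M (fun γ => P (g γ)) := by
  have h1 := hg.out
  have i1 : PMap M (fun w : Γ × M => ((PUnit.unit : PUnit.{u+1}), w.2)) :=
    pmapPair (hg := pmapUnit) _ (fun w : Γ × M => w)
  have h2 : Dp M (fun w : Γ × M => P w.2) :=
    dpPMap (fun w : PUnit.{u+1} × M => P w.2) (fun w : Γ × M => (PUnit.unit, w.2))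
  exact Dp.congr (inferInstance : Dp M (fun γ => ∃ x : M, x = g γ ∧ P x)) (fun γ => by simp)

/-- unary functions on `M` -/
instance (priority := 200) dfUnary [ModelZF M] (F : M → M)
    [hF : Df M (fun w : PUnit.{u+1} × M => F w.2)]
    (g : Γ → M) [hg : Df M g] : Df M (fun γ => F (g γ)) := by
  have h1 := hg.out
  have h0 := hF.out
  have i1 : PMap M (fun w : (Γ × M) × M => (((PUnit.unit : PUnit.{u+1}), w.2), w.1.2)) :=
    pmapPair (hg := pmapPair (hg := pmapUnit) _ (fun w : (Γ × M) × M => w)) _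
      (fun w : (Γ × M) × M => w.1)
  have h2 : Dp M (fun w : (Γ × M) × M => w.1.2 = F w.2) :=
    dpPMap (fun w : (PUnit.{u+1} × M) × M => w.2 = F w.1.2)
      (fun w : (Γ × M) × M => ((PUnit.unit, w.2), w.1.2))
  have h3 := dpPMap1 (fun (γ : Γ) (y : M) => y = g γ) (fun w : Γ × M => w.1)
  exact ⟨Dp.congr (inferInstance : Dp M (fun w : Γ × M => ∃ x : M, x = g w.1 ∧ w.2 = F x))
    (fun γ => by simp)⟩

/-- binary functions on `M` -/
instance (priority := 200) dfBinary [ModelZF M] (F : M → M → M)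
    [hF : Df M (fun w : (PUnit.{u+1} × M) × M => F w.1.2 w.2)]
    (g h : Γ → M) [hg : Df M g] [hh : Df M h] : Df M (fun γ => F (g γ) (h γ)) := by
  have h1 := hg.out
  have h1' := hh.out
  have h0 := hF.out
  have i1 : PMap M (fun w : ((Γ × M) × M) × M =>
      ((((PUnit.unit : PUnit.{u+1}), w.1.2), w.2), w.1.1.2)) :=
    pmapPair (hg := pmapPair (hg := pmapPair (hg := pmapUnit) _
      (fun w : ((Γ × M) × M) × M => w.1)) _ (fun w : ((Γ × M) × M) × M => w)) _
      (fun w : ((Γ × M) × M) × M => w.1.1)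
  have h2 : Dp M (fun w : ((Γ × M) × M) × M => w.1.1.2 = F w.1.2 w.2) :=
    dpPMap (fun w : ((PUnit.{u+1} × M) × M) × M => w.2 = F w.1.1.2 w.1.2)
      (fun w : ((Γ × M) × M) × M => (((PUnit.unit, w.1.2), w.2), w.1.1.2))
  have h3 := dpPMap1 (fun (γ : Γ) (y : M) => y = g γ) (fun w : Γ × M => w.1)
  have h4 := dpPMap1 (fun (γ : Γ) (y : M) => y = h γ) (fun w : (Γ × M) × M => w.1.1)
  exact ⟨Dp.congr (inferInstance : Dp M (fun w : Γ × M => ∃ x : M, x = g w.1 ∧
    ∃ y : M, y = h w.1 ∧ w.2 = F x y)) (fun γ => by simp)⟩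

/-- freezing a context -/
theorem dpFix (P : Γ → M → Prop) [hP : Dp M (fun w : Γ × M => P w.1 w.2)] (γ : Γ) :
    Dp M (fun w : PUnit.{u+1} × M => P γ w.2) := by
  obtain ⟨φ, q, hφ⟩ := hP.out
  exact ⟨⟨φ, c.code γ q, fun w => hφ (γ, w.2)⟩⟩

theorem dfFix (F : Γ → M → M) [hF : Df M (fun w : Γ × M => F w.1 w.2)] (γ : Γ) :
    Df M (fun w : PUnit.{u+1} × M => F γ w.2) := by
  obtain ⟨φ, q, hφ⟩ := hF.out.out
  exact ⟨⟨φ, c.code γ q, fun w => hφ ((γ, w.1.2), w.2)⟩⟩

end closure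

end Pool.Agent.H78
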