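import Pool.Agent.H78.ZFMain

/-!
The set-theoretic notions of the statements agree with the internal operations.
-/

set_option autoImplicit false
set_option linter.unusedSectionVars false

namespace Pool.Agent.H78

universe u

variable {M : Type u} [Membership M M] [ModelZF M]

theorem isUPair_iff {p x y : M} : IsUPair p x y ↔ p = upair x y := by
  rw [eq_iff_ext]
  exact forall_congr' fun z => by rw [mem_upair]

theorem isOPair_iff {p x y : M} : IsOPair p x y ↔ p = opair x y := by
  unfold IsOPair opair sing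
  constructor
  · rintro ⟨a, b, ha, hb, hp⟩
    rw [isUPair_iff] at ha hb hp
    rw [hp, ha, hb]
  · intro h
    exact ⟨upair x x, upair x y, isUPair_iff.2 rfl, isUPair_iff.2 rfl, isUPair_iff.2 h⟩

theorem pairMem_iff {x y f : M} : PairMem x y f ↔ opair x y ∈ f := by
  unfold PairMem
  constructor
  · rintro ⟨p, hp, hpf⟩
    rw [isOPair_iff] at hp
    rw [← hp]; exact hpf
  · intro h
    exact ⟨_, isOPair_iff.2 rfl, h⟩

theorem isFunc_iff {f a b : M} : IsFunc f a b ↔ IsFn f a b := by
  unfold IsFunc IsFn
  refine and_congr ?_ ?_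
  · refine forall_congr' fun p => imp_congr_right fun _ => ?_
    rw [mem_prod]
    constructor
    · rintro ⟨x, y, hx, hy, h⟩
      exact ⟨x, hx, y, hy, isOPair_iff.1 h⟩
    · rintro ⟨x, hx, y, hy, h⟩
      exact ⟨x, y, hx, hy, isOPair_iff.2 h⟩
  · refine forall_congr' fun x => imp_congr_right fun _ => ?_
    simp only [pairMem_iff]

theorem isInjection_iff {f a b : M} : IsInjection f a b ↔ Inj f a b := by
  unfold IsInjection Inj
  rw [isFunc_iff]
  refine and_congr_right fun hf => ?_
  simp only [pairMem_iff, hf.mem_iff]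
  constructor
  · intro h x hx y hy hxy
    exact h x y (app f y) ⟨hx, hxy⟩ ⟨hy, rfl⟩
  · intro h x x' y h1 h2
    exact h x h1.1 x' h2.1 (h1.2.trans h2.2.symm)

theorem isBijection_iff {f a b : M} : IsBijection f a b ↔ Bij f a b := by
  unfold IsBijection Bij
  rw [isInjection_iff]
  refine and_congr_right fun hf => ?_
  simp only [pairMem_iff, hf.1.mem_iff]

theorem isSymSet_iff {s a : M} : IsSymSet s a ↔ s = Sym a := by
  rw [eq_iff_ext]
  refine forall_congr' fun g => ?_
  rw [mem_Sym, isBijection_iff]

theorem isProduct_iff {p a b : M} : IsProduct p a b ↔ p = prod a b := by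
  rw [eq_iff_ext]
  refine forall_congr' fun z => ?_
  rw [mem_prod]
  refine iff_congr Iff.rfl ?_
  constructor
  · rintro ⟨x, y, hx, hy, h⟩
    exact ⟨x, hx, y, hy, isOPair_iff.1 h⟩
  · rintro ⟨x, hx, y, hy, h⟩
    exact ⟨x, y, hx, hy, isOPair_iff.2 h⟩

theorem isInductive_iff {w : M} : IsInductive w ↔ Ind w := by
  unfold IsInductive Ind
  refine and_congr ?_ ?_
  · constructor
    · rintro ⟨e, he, hn⟩
      rw [← eq_emp hn]; exact he
    · intro h
      exact ⟨_, h, mem_emp⟩
  · refine forall_congr' fun x => imp_congr_right fun _ => ?_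
    constructor
    · rintro ⟨s, hs, h⟩
      have : s = sc x := ext fun z => by rw [h, mem_sc]
      rw [← this]; exact hs
    · intro h
      exact ⟨_, h, fun z => mem_sc⟩

theorem isOmega_iff {w : M} : IsOmega w ↔ w = om M := by
  unfold IsOmega
  constructor
  · rintro ⟨h1, h2⟩
    exact Sub.antisymm (fun x hx => h2 _ (isInductive_iff.2 om_ind_set) x hx)
      (om_sub_ind (isInductive_iff.1 h1))
  · rintro rfl
    exact ⟨isInductive_iff.2 om_ind_set, fun w' hw' x hx => om_sub_ind (isInductive_iff.1 hw') x hx⟩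

end Pool.Agent.H78
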