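import Pool.Agent.H78.ZFDed

/-!
The combinatorial core: a locally finite decoding structure on a Dedekind finite set produces
infinitely many permutations with disjoint supports.
-/

set_option autoImplicit false
set_option linter.unusedSectionVars false
set_option synthInstance.maxSize 100000

namespace Pool.Agent.H78

universe u

variable {M : Type u} [Membership M M] [ModelZF M] {Γ : Type u} [Ctx M Γ]

/-- the set of elements decoded from `x` -/
noncomputable def Dd (A C x : M) : M := sep A (fun y => ∃ p : M, p ∈ om M ∧ y = app C (opair p x))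

instance (priority := 1000) dfDd (A C : M) (f : Γ → M) [hf : Df M f] :
    Df M (fun γ => Dd A C (f γ)) :=
  (inferInstance : Df M (fun γ => sep A (fun y => ∃ p : M, p ∈ om M ∧ y = app C (opair p (f γ)))))

/-- number of elements decoded from `x` -/
noncomputable def rk (A C x : M) : M := the (fun n => n ∈ om M ∧ ∃ f : M, Bij f n (Dd A C x))

instance (priority := 1000) dfRk (A C : M) (f : Γ → M) [hf : Df M f] :
    Df M (fun γ => rk A C (f γ)) :=
  (inferInstance : Df M (fun γ => the (fun n => n ∈ om M ∧ ∃ g : M, Bij g n (Dd A C (f γ)))))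

/-- the combinatorial structure -/
structure Dec (A C J : M) : Prop where
  hN : NoN A
  hinf : ∀ n : M, n ∈ om M → ¬ ∃ f : M, Bij f n A
  hC : IsFn C (prod (om M) A) A
  hJ : IsFn J (prod A A) A
  p1 : ∀ x : M, x ∈ A → x ∈ Dd A C x
  p2 : ∀ x : M, x ∈ A → ∀ y : M, y ∈ Dd A C x → Sub (Dd A C y) (Dd A C x)
  p3 : ∀ x : M, x ∈ A → ∀ y : M, y ∈ Dd A C x → ∀ z : M, z ∈ Dd A C x →
    app J (opair y z) ∈ Dd A C x
  p4 : ∀ y : M, y ∈ A → ∀ z : M, z ∈ A → y ∈ Dd A C (app J (opair y z)) ∧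
    z ∈ Dd A C (app J (opair y z))
  nd : ∀ r : M, IsFn r (om M) (Sym A) →
    (∀ k : M, k ∈ om M → ∃ x : M, x ∈ A ∧ app (app r k) x ≠ x) →
    (∀ k : M, k ∈ om M → ∀ l : M, l ∈ om M → ∀ x : M, x ∈ A → app (app r k) x ≠ x →
      app (app r l) x ≠ x → k = l) → False

/-- comparison of finite sets through Dedekind finiteness -/
theorem key_inj {D f f' n n' a : M} (hf : Inj f n D) (hf' : Bij f' n' D) (hn : Sub n' n)
    (ha : a ∈ D) (hna : ∀ p : M, p ∈ n' → app f p ≠ a) : ∃ g : M, Inj g (om M) D := by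
  have hinv : ∀ y : M, y ∈ D → (the (fun p => p ∈ n' ∧ app f' p = y)) ∈ n' ∧
      app f' (the (fun p => p ∈ n' ∧ app f' p = y)) = y := by
    intro y hy
    obtain ⟨p, hp, hpy⟩ := hf'.2 y hy
    exact the_spec (fun p => p ∈ n' ∧ app f' p = y)
      ⟨p, ⟨hp, hpy⟩, fun q ⟨hq, hqy⟩ => hf'.1.2 q hq p hp (hqy.trans hpy.symm)⟩
  refine exists_inj_of_self D a (fun y => app f (the (fun p => p ∈ n' ∧ app f' p = y))) ha ?_ ?_ ?_
  · intro y hy; exact hf.1.app_mem (hn _ (hinv y hy).1)
  · intro x hx y hy he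
    have := hf.2 _ (hn _ (hinv x hx).1) _ (hn _ (hinv y hy).1) he
    have h2 := (hinv x hx).2
    rw [this, (hinv y hy).2] at h2
    exact h2.symm
  · intro y hy; exact hna _ (hinv y hy).1

theorem sub_of_mem {m n : M} (hn : n ∈ om M) (h : m ∈ n) : Sub m n :=
  fun _ hk => om_trans hn h hk

namespace Dec

variable {A C J : M} (h : Dec A C J)

include h

theorem DA (x : M) : Sub (Dd A C x) A := fun _ hy => ((mem_sep _ _ _).1 hy).1

theorem NoD (x : M) : NoN (Dd A C x) := h.hN.sub (h.DA x)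

theorem card_unique {x f f' n n' : M} (hn : n ∈ om M) (hn' : n' ∈ om M)
    (hf : Bij f n (Dd A C x)) (hf' : Bij f' n' (Dd A C x)) : n = n' := by
  rcases om_tri hn hn' with h1 | h1 | h1
  · exact (h.NoD x (key_inj hf'.1 hf (sub_of_mem hn' h1) (hf'.1.1.app_mem h1) (fun p hp he => by
      have := hf'.1.2 p (sub_of_mem hn' h1 p hp) n h1 he
      rw [this] at hp
      exact not_mem_self _ hp))).elim
  · exact h1
  · exact (h.NoD x (key_inj hf.1 hf' (sub_of_mem hn h1) (hf.1.1.app_mem h1) (fun p hp he => by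
      have := hf.1.2 p (sub_of_mem hn h1 p hp) n' h1 he
      rw [this] at hp
      exact not_mem_self _ hp))).elim

theorem rk_spec {x : M} (hx : x ∈ A) : rk A C x ∈ om M ∧ ∃ f : M, Bij f (rk A C x) (Dd A C x) := by
  refine the_spec (fun n => n ∈ om M ∧ ∃ f : M, Bij f n (Dd A C x)) ?_
  have hu : IsFn (lam (om M) (fun p => app C (opair p x))) (om M) A :=
    lam_isFn fun p hp => h.hC.app_mem (opair_mem_prod.2 ⟨hp, hx⟩)
  obtain ⟨P, hP, hPq⟩ := h.hN.range_finite hu
  have hrep : rep P (fun p => app C (opair p x)) = Dd A C x := by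
    refine ext fun z => ?_
    rw [mem_rep]
    constructor
    · rintro ⟨p, hp, rfl⟩
      exact (mem_sep _ _ _).2 ⟨h.hC.app_mem (opair_mem_prod.2 ⟨om_mem hP hp, hx⟩),
        p, om_mem hP hp, rfl⟩
    · intro hz
      obtain ⟨_, p, hp, rfl⟩ := (mem_sep _ _ _).1 hz
      obtain ⟨q, hq, hqp⟩ := hPq p hp
      rw [app_lam hp, app_lam (om_mem hP hq)] at hqp
      exact ⟨q, hq, hqp.symm⟩
  obtain ⟨m, hm, f, hf⟩ := rep_finite (fun p => app C (opair p x)) P hP
  rw [hrep] at hf
  exact ⟨m, ⟨hm, f, hf⟩, fun n ⟨hn, g, hg⟩ => h.card_unique hn hm hg hf⟩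

theorem rk_lt {x y a : M} (hx : x ∈ A) (hy : y ∈ A) (hs : Sub (Dd A C y) (Dd A C x))
    (ha : a ∈ Dd A C x) (hna : ¬ a ∈ Dd A C y) : rk A C y ∈ rk A C x := by
  obtain ⟨h1, f, hf⟩ := h.rk_spec hx
  obtain ⟨h2, g, hg⟩ := h.rk_spec hy
  have hg' : Inj g (rk A C y) (Dd A C x) := ⟨hg.1.1.mono (fun z hz => hs _ (hg.1.1.app_mem hz)),
    hg.1.2⟩
  have hsub : Sub (rk A C x) (rk A C y) → False := fun hsub =>
    h.NoD x (key_inj hg' hf hsub ha (fun p hp he => hna (he ▸ hg.1.1.app_mem (hsub p hp))))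
  rcases om_tri h2 h1 with h3 | h3 | h3
  · exact h3
  · exact (hsub (h3 ▸ Sub.refl _)).elim
  · exact (hsub (sub_of_mem h2 h3)).elim

theorem rk_le {x y : M} (hx : x ∈ A) (hy : y ∈ A) (hs : Sub (Dd A C y) (Dd A C x)) :
    rk A C y ∈ sc (rk A C x) := by
  by_cases hc : ∃ a : M, a ∈ Dd A C x ∧ ¬ a ∈ Dd A C y
  · obtain ⟨a, ha, hna⟩ := hc
    exact mem_sc.2 (Or.inl (h.rk_lt hx hy hs ha hna))
  · push Not at hc
    have : Dd A C x = Dd A C y := Sub.antisymm hc hs
    obtain ⟨h1, f, hf⟩ := h.rk_spec hx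
    obtain ⟨h2, g, hg⟩ := h.rk_spec hy
    rw [this] at hf
    exact mem_sc.2 (Or.inr (h.card_unique h2 h1 hg hf))

theorem D_ne_A {x : M} (hx : x ∈ A) : ∃ a : M, a ∈ A ∧ ¬ a ∈ Dd A C x := by
  by_contra hcon
  push Not at hcon
  obtain ⟨h1, f, hf⟩ := h.rk_spec hx
  have : Dd A C x = A := Sub.antisymm (h.DA x) hcon
  rw [this] at hf
  exact h.hinf _ h1 ⟨f, hf⟩

theorem J_mem {x y : M} (hx : x ∈ A) (hy : y ∈ A) : app J (opair x y) ∈ A :=
  h.hJ.app_mem (opair_mem_prod.2 ⟨hx, hy⟩)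

theorem C_mem {p x : M} (hp : p ∈ om M) (hx : x ∈ A) : app C (opair p x) ∈ A :=
  h.hC.app_mem (opair_mem_prod.2 ⟨hp, hx⟩)

theorem rk_J {a o : M} (ha : a ∈ A) (ho : o ∈ A) (hna : ¬ a ∈ Dd A C o) :
    rk A C o ∈ rk A C (app J (opair a o)) := by
  have hJ := h.J_mem ha ho
  obtain ⟨h1, h2⟩ := h.p4 a ha o ho
  exact h.rk_lt hJ ho (h.p2 _ hJ _ h2) h1 hna

theorem exists_A : ∃ a : M, a ∈ A := by
  by_contra hcon
  push Not at hcon
  refine h.hinf (zr M) zr_mem ⟨emp M, ⟨⟨?_, ?_⟩, ?_⟩, ?_⟩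
  · intro z hz; exact absurd hz (mem_emp z)
  · intro z hz; exact absurd hz (not_mem_zr z)
  · intro z hz; exact absurd hz (not_mem_zr z)
  · intro z hz; exact absurd hz (hcon z)

theorem rk_unbounded : ∀ b : M, b ∈ om M → ∃ x : M, x ∈ A ∧ b ∈ rk A C x := by
  apply om_induction
  · obtain ⟨a, ha⟩ := h.exists_A
    refine ⟨a, ha, ?_⟩
    obtain ⟨h1, f, hf⟩ := h.rk_spec ha
    rcases zr_or h1 with h2 | h2
    · obtain ⟨p, hp, _⟩ := hf.2 a (h.p1 a ha)
      rw [h2] at hp
      exact absurd hp (not_mem_zr p)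
    · exact h2
  · intro b hb ih
    obtain ⟨x, hx, hbx⟩ := ih
    obtain ⟨a, ha, hna⟩ := h.D_ne_A hx
    refine ⟨_, h.J_mem ha hx, ?_⟩
    have h1 := h.rk_J ha hx hna
    have h2 := (h.rk_spec hx).1
    have h3 := (h.rk_spec (h.J_mem ha hx)).1
    rcases mem_sc.1 (sc_mem_sc h2 hbx) with h4 | h4
    · exact om_trans h3 h1 h4
    · rw [h4]; exact h1

end Dec

/-! ### Claim 3 -/

/-- elements `o` of rank `i` not above `a` -/
def XA (A C a i o : M) : Prop := o ∈ A ∧ ¬ a ∈ Dd A C o ∧ rk A C o = i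

instance (priority := 1000) dpXA (A C a : M) (f g : Γ → M) [hf : Df M f] [hg : Df M g] :
    Dp M (fun γ => XA A C a (f γ) (g γ)) :=
  (inferInstance : Dp M (fun γ => g γ ∈ A ∧ ¬ a ∈ Dd A C (g γ) ∧ rk A C (g γ) = f γ))

/-- least rank of a join -/
noncomputable def gam (A C J a i : M) : M :=
  mu (fun i' => ∃ o : M, XA A C a i o ∧ rk A C (app J (opair a o)) = i')

instance (priority := 1000) dfGam (A C J a : M) (f : Γ → M) [hf : Df M f] :
    Df M (fun γ => gam A C J a (f γ)) :=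
  (inferInstance : Df M (fun γ => mu (fun i' => ∃ o : M, XA A C a (f γ) o ∧
    rk A C (app J (opair a o)) = i')))

/-- least decoding index -/
noncomputable def ppi (A C J a i : M) : M :=
  mu (fun p => ∃ o : M, XA A C a i o ∧ rk A C (app J (opair a o)) = gam A C J a i ∧
    o = app C (opair p (app J (opair a o))))

instance (priority := 1000) dfPpi (A C J a : M) (f : Γ → M) [hf : Df M f] :
    Df M (fun γ => ppi A C J a (f γ)) :=
  (inferInstance : Df M (fun γ => mu (fun p => ∃ o : M, XA A C a (f γ) o ∧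
    rk A C (app J (opair a o)) = gam A C J a (f γ) ∧ o = app C (opair p (app J (opair a o))))))

/-- the selected class of elements of rank `i` -/
def XS (A C J a i o : M) : Prop := XA A C a i o ∧
  rk A C (app J (opair a o)) = gam A C J a i ∧
    o = app C (opair (ppi A C J a i) (app J (opair a o)))

instance (priority := 1000) dpXS (A C J a : M) (f g : Γ → M) [hf : Df M f] [hg : Df M g] :
    Dp M (fun γ => XS A C J a (f γ) (g γ)) :=
  (inferInstance : Dp M (fun γ => XA A C a (f γ) (g γ) ∧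
  rk A C (app J (opair a (g γ))) = gam A C J a (f γ) ∧
    g γ = app C (opair (ppi A C J a (f γ)) (app J (opair a (g γ))))))

/-- the involution exchanging `o` and its join with `a` -/
noncomputable def rho (A C J a i : M) : M :=
  lam A (fun x => ifM (XS A C J a i x) (app J (opair a x))
    (ifM (∃ o : M, XS A C J a i o ∧ x = app J (opair a o)) (app C (opair (ppi A C J a i) x)) x))

instance (priority := 1000) dfRho (A C J a : M) (f : Γ → M) [hf : Df M f] :
    Df M (fun γ => rho A C J a (f γ)) :=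
  (inferInstance : Df M (fun γ => lam A (fun x => ifM (XS A C J a (f γ) x) (app J (opair a x))
    (ifM (∃ o : M, XS A C J a (f γ) o ∧ x = app J (opair a o))
      (app C (opair (ppi A C J a (f γ)) x)) x))))

namespace Dec

variable {A C J : M} (h : Dec A C J)

include h

theorem gam_spec {a i : M} (ha : a ∈ A) (hi : ∃ o : M, XA A C a i o) :
    gam A C J a i ∈ om M ∧ ∃ o : M, XA A C a i o ∧ rk A C (app J (opair a o)) = gam A C J a i := by
  obtain ⟨o, ho⟩ := hi
  have := mu_spec (fun i' => ∃ o : M, XA A C a i o ∧ rk A C (app J (opair a o)) = i')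
    ⟨rk A C (app J (opair a o)), (h.rk_spec (h.J_mem ha ho.1)).1, o, ho, rfl⟩
  exact ⟨this.1, this.2.1⟩

theorem ppi_spec {a i : M} (ha : a ∈ A) (hi : ∃ o : M, XA A C a i o) :
    ppi A C J a i ∈ om M ∧ ∃ o : M, XS A C J a i o := by
  obtain ⟨_, o, ho, hg⟩ := h.gam_spec ha hi
  obtain ⟨_, p, hp, he⟩ := (mem_sep _ _ _).1 (h.p4 a ha o ho.1).2
  have := mu_spec (fun p => ∃ o : M, XA A C a i o ∧
    rk A C (app J (opair a o)) = gam A C J a i ∧ o = app C (opair p (app J (opair a o))))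
    ⟨p, hp, o, ho, hg, he⟩
  exact ⟨this.1, this.2.1⟩

theorem XS_lt {a i o : M} (ha : a ∈ A) (ho : XS A C J a i o) : i ∈ gam A C J a i := by
  have := h.rk_J ha ho.1.1 ho.1.2.1
  rw [ho.2.1, ho.1.2.2] at this
  exact this

theorem rho_app {a i x : M} (hx : x ∈ A) : app (rho A C J a i) x =
    ifM (XS A C J a i x) (app J (opair a x))
    (ifM (∃ o : M, XS A C J a i o ∧ x = app J (opair a o))
      (app C (opair (ppi A C J a i) x)) x) := by
  unfold rho; rw [app_lam hx]

theorem rho_mem {a i : M} (ha : a ∈ A) (hi : ∃ o : M, XA A C a i o) :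
    rho A C J a i ∈ Sym A := by
  obtain ⟨hp, _⟩ := h.ppi_spec ha hi
  unfold rho
  refine sym_of_invol A _ ?_ ?_
  · intro x hx
    show ifM (XS A C J a i x) (app J (opair a x))
      (ifM (∃ o : M, XS A C J a i o ∧ x = app J (opair a o))
      (app C (opair (ppi A C J a i) x)) x) ∈ A
    by_cases h1 : XS A C J a i x
    · rw [ifM_pos h1]; exact h.J_mem ha hx
    · rw [ifM_neg h1]
      by_cases h2 : ∃ o : M, XS A C J a i o ∧ x = app J (opair a o)
      · rw [ifM_pos h2]; exact h.C_mem hp hx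
      · rw [ifM_neg h2]; exact hx
  · have key : ∀ x : M, x ∈ A → XS A C J a i x → ¬ XS A C J a i (app J (opair a x)) := by
      intro x _ h1 h2
      have h3 := h.XS_lt ha h1
      have h4 := h1.2.1
      rw [h2.1.2.2] at h4
      rw [← h4] at h3
      exact not_mem_self _ h3
    intro x hx
    show ifM (XS A C J a i (ifM (XS A C J a i x) (app J (opair a x))
      (ifM (∃ o : M, XS A C J a i o ∧ x = app J (opair a o))
      (app C (opair (ppi A C J a i) x)) x))) (app J (opair a (ifM (XS A C J a i x)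
        (app J (opair a x)) (ifM (∃ o : M, XS A C J a i o ∧ x = app J (opair a o))
      (app C (opair (ppi A C J a i) x)) x))))
      (ifM (∃ o : M, XS A C J a i o ∧ (ifM (XS A C J a i x) (app J (opair a x))
      (ifM (∃ o : M, XS A C J a i o ∧ x = app J (opair a o))
      (app C (opair (ppi A C J a i) x)) x)) = app J (opair a o))
      (app C (opair (ppi A C J a i) (ifM (XS A C J a i x) (app J (opair a x))
      (ifM (∃ o : M, XS A C J a i o ∧ x = app J (opair a o))
      (app C (opair (ppi A C J a i) x)) x)))) (ifM (XS A C J a i x) (app J (opair a x))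
      (ifM (∃ o : M, XS A C J a i o ∧ x = app J (opair a o))
      (app C (opair (ppi A C J a i) x)) x))) = x
    by_cases h1 : XS A C J a i x
    · rw [ifM_pos h1, ifM_neg (key x hx h1), ifM_pos ⟨x, h1, rfl⟩]
      exact h1.2.2.symm
    · rw [ifM_neg h1]
      by_cases h2 : ∃ o : M, XS A C J a i o ∧ x = app J (opair a o)
      · rw [ifM_pos h2]
        obtain ⟨o, ho, rfl⟩ := h2
        rw [← ho.2.2, ifM_pos ho]
      · rw [ifM_neg h2, ifM_neg h1, ifM_neg h2]

theorem rho_moved {a i x : M} (hx : x ∈ A)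
    (hm : app (rho A C J a i) x ≠ x) : rk A C x = i ∨ rk A C x = gam A C J a i := by
  rw [h.rho_app hx] at hm
  by_cases h1 : XS A C J a i x
  · exact Or.inl h1.1.2.2
  · rw [ifM_neg h1] at hm
    by_cases h2 : ∃ o : M, XS A C J a i o ∧ x = app J (opair a o)
    · obtain ⟨o, ho, rfl⟩ := h2
      exact Or.inr ho.2.1
    · rw [ifM_neg h2] at hm
      exact absurd rfl hm

theorem claim3 {a : M} (ha : a ∈ A) : ∃ b : M, b ∈ om M ∧ ∀ o : M, o ∈ A → b ∈ rk A C o →
    a ∈ Dd A C o := by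
  by_contra hcon
  push Not at hcon
  have hub : ∀ b : M, b ∈ om M → ∃ i : M, i ∈ om M ∧ (∃ o : M, XA A C a i o) ∧ b ∈ i := by
    intro b hb
    obtain ⟨o, ho, hbo, hna⟩ := hcon b hb
    exact ⟨rk A C o, (h.rk_spec ho).1, ⟨o, ho, hna, rfl⟩, hbo⟩
  obtain ⟨v, hv, hv2⟩ := exists_enum (fun i => ∃ o : M, XA A C a i o)
    (fun i => ifM (∃ o : M, XA A C a i o) (gam A C J a i) i) (fun n hn => by
      by_cases hc : ∃ o : M, XA A C a n o
      · rw [ifM_pos hc]; exact (h.gam_spec ha hc).1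
      · rw [ifM_neg hc]; exact hn) hub
  have hPk : ∀ k : M, k ∈ om M → ∃ o : M, XA A C a (app v k) o := fun k hk => (hv2 k hk).1
  have hlt : ∀ k : M, k ∈ om M → app v k ∈ gam A C J a (app v k) := by
    intro k hk
    obtain ⟨_, o, ho⟩ := h.ppi_spec ha (hPk k hk)
    exact h.XS_lt ha ho
  have hgm : ∀ k : M, k ∈ om M → gam A C J a (app v k) ∈ om M := fun k hk =>
    (h.gam_spec ha (hPk k hk)).1
  have hdis : ∀ k : M, k ∈ om M → ∀ l : M, l ∈ om M → k ∈ l → ∀ x : M,
      (rk A C x = app v k ∨ rk A C x = gam A C J a (app v k)) →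
      (rk A C x = app v l ∨ rk A C x = gam A C J a (app v l)) → False := by
    intro k hk l hl hkl x h1 h2
    obtain ⟨g1, g2⟩ := (hv2 k hk).2 l hl hkl
    rw [ifM_pos (hPk k hk)] at g2
    have g3 := hlt l hl
    have hxl : rk A C x ∈ app v l := by
      rcases h1 with h1 | h1 <;> rw [h1]
      · exact g1
      · exact g2
    rcases h2 with h2 | h2
    · rw [← h2] at hxl; exact not_mem_self _ hxl
    · have := om_trans (hgm l hl) g3 hxl
      rw [← h2] at this; exact not_mem_self _ this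
  refine h.nd (lam (om M) (fun k => rho A C J a (app v k))) (lam_isFn fun k hk =>
    h.rho_mem ha (hPk k hk)) ?_ ?_
  · intro k hk
    obtain ⟨_, o, ho⟩ := h.ppi_spec ha (hPk k hk)
    refine ⟨o, ho.1.1, ?_⟩
    rw [app_lam hk, h.rho_app ho.1.1, ifM_pos ho]
    intro he
    have h1 := h.XS_lt ha ho
    have h2 := ho.2.1
    rw [he, ho.1.2.2] at h2
    rw [← h2] at h1
    exact not_mem_self _ h1
  · intro k hk l hl x hx h1 h2
    rw [app_lam hk] at h1
    rw [app_lam hl] at h2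
    have e1 := h.rho_moved hx h1
    have e2 := h.rho_moved hx h2
    rcases om_tri hk hl with h3 | h3 | h3
    · exact (hdis k hk l hl h3 x e1 e2).elim
    · exact h3
    · exact (hdis l hl k hk h3 x e2 e1).elim

end Dec

end Pool.Agent.H78
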