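import Pool.Agent.H78.ZFCore

/-!
The combinatorial core, second half.
-/

set_option autoImplicit false
set_option linter.unusedSectionVars false
set_option synthInstance.maxSize 100000

namespace Pool.Agent.H78

universe u

variable {M : Type u} [Membership M M] [ModelZF M] {Γ : Type u} [Ctx M Γ]

/-- elements below every element of large rank -/
noncomputable def Fb (A C b : M) : M :=
  sep A (fun a => ∀ o : M, o ∈ A → b ∈ rk A C o → a ∈ Dd A C o)

instance (priority := 1000) dfFb (A C : M) (f : Γ → M) [hf : Df M f] :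
    Df M (fun γ => Fb A C (f γ)) :=
  (inferInstance : Df M (fun γ => sep A (fun a => ∀ o : M, o ∈ A → f γ ∈ rk A C o →
    a ∈ Dd A C o)))

/-- generators of `Fb` -/
noncomputable def Rb (A C b : M) : M :=
  sep (Fb A C b) (fun x => ∀ y : M, y ∈ Fb A C b → y ∈ Dd A C x)

instance (priority := 1000) dfRb (A C : M) (f : Γ → M) [hf : Df M f] :
    Df M (fun γ => Rb A C (f γ)) :=
  (inferInstance : Df M (fun γ => sep (Fb A C (f γ)) (fun x => ∀ y : M, y ∈ Fb A C (f γ) →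
    y ∈ Dd A C x)))

/-- new indices -/
def I0 (A C b : M) : Prop := (∃ x : M, x ∈ Fb A C b) ∧ ∀ b' : M, b' ∈ b → Fb A C b' ≠ Fb A C b

instance (priority := 1000) dpI0 (A C : M) (f : Γ → M) [hf : Df M f] :
    Dp M (fun γ => I0 A C (f γ)) :=
  (inferInstance : Dp M (fun γ => (∃ x : M, x ∈ Fb A C (f γ)) ∧ ∀ b' : M, b' ∈ f γ →
    Fb A C b' ≠ Fb A C (f γ)))

/-- several generators -/
def I2 (A C b : M) : Prop := I0 A C b ∧ ∃ x : M, x ∈ Rb A C b ∧ ∃ y : M, y ∈ Rb A C b ∧ x ≠ y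

instance (priority := 1000) dpI2 (A C : M) (f : Γ → M) [hf : Df M f] :
    Dp M (fun γ => I2 A C (f γ)) :=
  (inferInstance : Dp M (fun γ => I0 A C (f γ) ∧ ∃ x : M, x ∈ Rb A C (f γ) ∧
    ∃ y : M, y ∈ Rb A C (f γ) ∧ x ≠ y))

/-- a pair of distinct generators decoding each other with indices `p, q` -/
def Pq (A C b p q : M) : Prop := ∃ x : M, x ∈ Rb A C b ∧ ∃ y : M, y ∈ Rb A C b ∧ x ≠ y ∧
  y = app C (opair p x) ∧ x = app C (opair q y)

instance (priority := 1000) dpPq (A C : M) (f g k : Γ → M) [hf : Df M f] [hg : Df M g]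
    [hk : Df M k] : Dp M (fun γ => Pq A C (f γ) (g γ) (k γ)) :=
  (inferInstance : Dp M (fun γ => ∃ x : M, x ∈ Rb A C (f γ) ∧ ∃ y : M, y ∈ Rb A C (f γ) ∧ x ≠ y ∧
  y = app C (opair (g γ) x) ∧ x = app C (opair (k γ) y)))

/-- least first index -/
noncomputable def pb (A C b : M) : M := mu (fun p => ∃ q : M, q ∈ om M ∧ Pq A C b p q)

instance (priority := 1000) dfPb (A C : M) (f : Γ → M) [hf : Df M f] :
    Df M (fun γ => pb A C (f γ)) :=
  (inferInstance : Df M (fun γ => mu (fun p => ∃ q : M, q ∈ om M ∧ Pq A C (f γ) p q)))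

/-- least second index -/
noncomputable def qb (A C b : M) : M := mu (fun q => Pq A C b (pb A C b) q)

instance (priority := 1000) dfQb (A C : M) (f : Γ → M) [hf : Df M f] :
    Df M (fun γ => qb A C (f γ)) :=
  (inferInstance : Df M (fun γ => mu (fun q => Pq A C (f γ) (pb A C (f γ)) q)))

/-- the forward map -/
noncomputable def fw (A C b x : M) : M := app C (opair (pb A C b) x)

/-- the backward map -/
noncomputable def bw (A C b x : M) : M := app C (opair (qb A C b) x)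

instance (priority := 1000) dfFw (A C : M) (f g : Γ → M) [hf : Df M f] [hg : Df M g] :
    Df M (fun γ => fw A C (f γ) (g γ)) :=
  (inferInstance : Df M (fun γ => app C (opair (pb A C (f γ)) (g γ))))

instance (priority := 1000) dfBw (A C : M) (f g : Γ → M) [hf : Df M f] [hg : Df M g] :
    Df M (fun γ => bw A C (f γ) (g γ)) :=
  (inferInstance : Df M (fun γ => app C (opair (qb A C (f γ)) (g γ))))

/-- domain of the canonical partial injection -/
def Dom (A C b x : M) : Prop := x ∈ Rb A C b ∧ fw A C b x ∈ Rb A C b ∧ fw A C b x ≠ x ∧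
  bw A C b (fw A C b x) = x

instance (priority := 1000) dpDom (A C : M) (f g : Γ → M) [hf : Df M f] [hg : Df M g] :
    Dp M (fun γ => Dom A C (f γ) (g γ)) :=
  (inferInstance : Dp M (fun γ => g γ ∈ Rb A C (f γ) ∧ fw A C (f γ) (g γ) ∈ Rb A C (f γ) ∧
    fw A C (f γ) (g γ) ≠ g γ ∧ bw A C (f γ) (fw A C (f γ) (g γ)) = g γ))

/-- range of the canonical partial injection -/
def Ran (A C b y : M) : Prop := ∃ x : M, Dom A C b x ∧ y = fw A C b x

instance (priority := 1000) dpRan (A C : M) (f g : Γ → M) [hf : Df M f] [hg : Df M g] :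
    Dp M (fun γ => Ran A C (f γ) (g γ)) :=
  (inferInstance : Dp M (fun γ => ∃ x : M, Dom A C (f γ) x ∧ g γ = fw A C (f γ) x))

/-- starting points -/
def St (A C b x : M) : Prop := Dom A C b x ∧ ¬ Ran A C b x

instance (priority := 1000) dpSt (A C : M) (f g : Γ → M) [hf : Df M f] [hg : Df M g] :
    Dp M (fun γ => St A C (f γ) (g γ)) :=
  (inferInstance : Dp M (fun γ => Dom A C (f γ) (g γ) ∧ ¬ Ran A C (f γ) (g γ)))

/-- first candidate: exchange starting points with their images -/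
noncomputable def perm1 (A C b : M) : M :=
  lam A (fun x => ifM (St A C b x) (fw A C b x)
    (ifM (∃ y : M, St A C b y ∧ x = fw A C b y) (bw A C b x) x))

instance (priority := 1000) dfPerm1 (A C : M) (f : Γ → M) [hf : Df M f] :
    Df M (fun γ => perm1 A C (f γ)) :=
  (inferInstance : Df M (fun γ => lam A (fun x => ifM (St A C (f γ) x) (fw A C (f γ) x)
    (ifM (∃ y : M, St A C (f γ) y ∧ x = fw A C (f γ) y) (bw A C (f γ) x) x))))

/-- second candidate: the forward map -/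
noncomputable def perm2 (A C b : M) : M :=
  lam A (fun x => ifM (Dom A C b x) (fw A C b x) x)

instance (priority := 1000) dfPerm2 (A C : M) (f : Γ → M) [hf : Df M f] :
    Df M (fun γ => perm2 A C (f γ)) :=
  (inferInstance : Df M (fun γ => lam A (fun x => ifM (Dom A C (f γ) x) (fw A C (f γ) x) x)))

/-- the canonical permutation of the generators -/
noncomputable def permb (A C b : M) : M :=
  ifM (∃ x : M, St A C b x) (perm1 A C b) (perm2 A C b)

instance (priority := 1000) dfPermb (A C : M) (f : Γ → M) [hf : Df M f] :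
    Df M (fun γ => permb A C (f γ)) :=
  (inferInstance : Df M (fun γ => ifM (∃ x : M, St A C (f γ) x) (perm1 A C (f γ))
    (perm2 A C (f γ))))

theorem mem_Fb {A C b a : M} : a ∈ Fb A C b ↔ (a ∈ A ∧ ∀ o : M, o ∈ A → b ∈ rk A C o →
    a ∈ Dd A C o) := mem_sep _ _ _

theorem mem_Rb {A C b x : M} : x ∈ Rb A C b ↔ (x ∈ Fb A C b ∧ ∀ y : M, y ∈ Fb A C b →
    y ∈ Dd A C x) := mem_sep _ _ _

namespace Dec

variable {A C J : M} (h : Dec A C J)

include h

theorem Fb_mono {b b' : M} (hb' : b ∈ b') : Sub (Fb A C b) (Fb A C b') := by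
  intro a ha
  obtain ⟨h1, h2⟩ := mem_Fb.1 ha
  exact mem_Fb.2 ⟨h1, fun o ho hbo => h2 o ho (om_trans (h.rk_spec ho).1 hbo hb')⟩

theorem Fb_closed_D {b x : M} (hx : x ∈ Fb A C b) : Sub (Dd A C x) (Fb A C b) := by
  intro y hy
  obtain ⟨_, h2⟩ := mem_Fb.1 hx
  exact mem_Fb.2 ⟨h.DA x y hy, fun o ho hbo => h.p2 o ho x (h2 o ho hbo) y hy⟩

theorem Fb_closed_J {b x y : M} (hx : x ∈ Fb A C b) (hy : y ∈ Fb A C b) :
    app J (opair x y) ∈ Fb A C b := by
  obtain ⟨hxA, h2⟩ := mem_Fb.1 hx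
  obtain ⟨hyA, h3⟩ := mem_Fb.1 hy
  exact mem_Fb.2 ⟨h.J_mem hxA hyA, fun o ho hbo => h.p3 o ho x (h2 o ho hbo) y (h3 o ho hbo)⟩

theorem Rb_nonempty {b : M} (hb : b ∈ om M) (hne : ∃ x : M, x ∈ Fb A C b) :
    ∃ x : M, x ∈ Rb A C b := by
  obtain ⟨o, ho, hbo⟩ := h.rk_unbounded b hb
  obtain ⟨x0, hx0⟩ := hne
  have hbd : ∀ x : M, x ∈ Fb A C b → rk A C x ∈ sc (rk A C o) := by
    intro x hx
    obtain ⟨hxA, h2⟩ := mem_Fb.1 hx
    exact h.rk_le ho hxA (h.p2 o ho x (h2 o ho hbo))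
  obtain ⟨m, hm, hm1, hm2⟩ := om_least (fun m => ∀ x : M, x ∈ Fb A C b → rk A C x ∈ sc m)
    ⟨rk A C o, (h.rk_spec ho).1, hbd⟩
  have hex : ∃ x : M, x ∈ Fb A C b ∧ rk A C x = m := by
    by_contra hcon
    push Not at hcon
    have h3 : ∀ x : M, x ∈ Fb A C b → rk A C x ∈ m := fun x hx =>
      (mem_sc.1 (hm1 x hx)).resolve_right (hcon x hx)
    rcases eq_zr_or_sc hm with rfl | ⟨m', hm', rfl⟩
    · exact not_mem_zr _ (h3 x0 hx0)
    · exact hm2 m' (self_mem_sc m') h3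
  obtain ⟨x, hx, hxm⟩ := hex
  obtain ⟨hxA, _⟩ := mem_Fb.1 hx
  refine ⟨x, mem_Rb.2 ⟨hx, fun y hy => ?_⟩⟩
  by_contra hyx
  have hyA := (mem_Fb.1 hy).1
  have h4 := h.rk_J hyA hxA hyx
  have h5 := hm1 _ (h.Fb_closed_J hy hx)
  rw [hxm] at h4
  rcases mem_sc.1 h5 with h6 | h6
  · exact not_mem_cycle h4 h6
  · rw [h6] at h4; exact not_mem_self _ h4

theorem Rb_D {b x : M} (hx : x ∈ Rb A C b) : Dd A C x = Fb A C b := by
  obtain ⟨h1, h2⟩ := mem_Rb.1 hx
  exact Sub.antisymm (h.Fb_closed_D h1) h2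

theorem Rb_A {b x : M} (hx : x ∈ Rb A C b) : x ∈ A := (mem_Fb.1 (mem_Rb.1 hx).1).1

theorem Rb_inj {b b' x : M} (hb : b ∈ om M) (hb' : b' ∈ om M) (h1 : I0 A C b) (h2 : I0 A C b')
    (hx : x ∈ Rb A C b) (hx' : x ∈ Rb A C b') : b = b' := by
  have he : Fb A C b = Fb A C b' := (h.Rb_D hx).symm.trans (h.Rb_D hx')
  rcases om_tri hb hb' with h3 | h3 | h3
  · exact absurd he (h2.2 b h3)
  · exact h3
  · exact absurd he.symm (h1.2 b' h3)

theorem I0_unbounded {β : M} (hβ : β ∈ om M) : ∃ b : M, b ∈ om M ∧ I0 A C b ∧ β ∈ b := by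
  obtain ⟨o, ho, hβo⟩ := h.rk_unbounded β hβ
  obtain ⟨a, ha, hna⟩ := h.D_ne_A ho
  have haF : ¬ a ∈ Fb A C β := fun hF => hna ((mem_Fb.1 hF).2 o ho hβo)
  obtain ⟨b0, hb0, hab0⟩ := h.claim3 ha
  have haF0 : a ∈ Fb A C b0 := mem_Fb.2 ⟨ha, hab0⟩
  obtain ⟨b, hb, hb1, hb2⟩ := om_least (fun b => ¬ Sub (Fb A C b) (Fb A C β))
    ⟨b0, hb0, fun hs => haF (hs a haF0)⟩
  refine ⟨b, hb, ⟨?_, ?_⟩, ?_⟩
  · by_contra hcon
    push Not at hcon
    exact hb1 fun x hx => absurd hx (hcon x)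
  · intro b' hb' he
    apply hb2 b' hb'
    rw [he]; exact hb1
  · rcases om_tri hβ hb with h3 | h3 | h3
    · exact h3
    · rw [h3] at hb1; exact absurd (Sub.refl _) hb1
    · exact absurd (h.Fb_mono h3) hb1

theorem pq_spec {b : M} (hb : I2 A C b) : pb A C b ∈ om M ∧ qb A C b ∈ om M ∧
    Pq A C b (pb A C b) (qb A C b) := by
  obtain ⟨_, x, hx, y, hy, hne⟩ := hb
  have hyx : y ∈ Dd A C x := by rw [h.Rb_D hx]; exact (mem_Rb.1 hy).1
  have hxy : x ∈ Dd A C y := by rw [h.Rb_D hy]; exact (mem_Rb.1 hx).1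
  obtain ⟨_, p, hp, hpe⟩ := (mem_sep _ _ _).1 hyx
  obtain ⟨_, q, hq, hqe⟩ := (mem_sep _ _ _).1 hxy
  have h1 := mu_spec (fun p => ∃ q : M, q ∈ om M ∧ Pq A C b p q)
    ⟨p, hp, q, hq, x, hx, y, hy, hne, hpe, hqe⟩
  obtain ⟨q', hq', hpq'⟩ := h1.2.1
  have h2 := mu_spec (fun q => Pq A C b (pb A C b) q) ⟨q', hq', hpq'⟩
  exact ⟨h1.1, h2.1, h2.2.1⟩

theorem dom_nonempty {b : M} (hb : I2 A C b) : ∃ x : M, Dom A C b x := by
  obtain ⟨_, _, x, hx, y, hy, hne, h1, h2⟩ := h.pq_spec hb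
  refine ⟨x, hx, ?_, ?_, ?_⟩
  · show fw A C b x ∈ Rb A C b
    unfold fw; rw [← h1]; exact hy
  · unfold fw; rw [← h1]; exact hne.symm
  · unfold bw fw; rw [← h1]; exact h2.symm

theorem fw_mem {b x : M} (hb : I2 A C b) (hx : x ∈ A) : fw A C b x ∈ A :=
  h.C_mem (h.pq_spec hb).1 hx

theorem bw_mem {b x : M} (hb : I2 A C b) (hx : x ∈ A) : bw A C b x ∈ A :=
  h.C_mem (h.pq_spec hb).2.1 hx

theorem Dom_A {b x : M} (hx : Dom A C b x) : x ∈ A := h.Rb_A hx.1

theorem perm1_mem {b : M} (hb : I2 A C b) : perm1 A C b ∈ Sym A := by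
  unfold perm1
  refine sym_of_invol A _ ?_ ?_
  · intro x hx
    show ifM (St A C b x) (fw A C b x)
      (ifM (∃ y : M, St A C b y ∧ x = fw A C b y) (bw A C b x) x) ∈ A
    by_cases h1 : St A C b x
    · rw [ifM_pos h1]; exact h.fw_mem hb hx
    · rw [ifM_neg h1]
      by_cases h2 : ∃ y : M, St A C b y ∧ x = fw A C b y
      · rw [ifM_pos h2]; exact h.bw_mem hb hx
      · rw [ifM_neg h2]; exact hx
  · intro x hx
    show ifM (St A C b (ifM (St A C b x) (fw A C b x)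
      (ifM (∃ y : M, St A C b y ∧ x = fw A C b y) (bw A C b x) x)))
      (fw A C b (ifM (St A C b x) (fw A C b x)
      (ifM (∃ y : M, St A C b y ∧ x = fw A C b y) (bw A C b x) x)))
      (ifM (∃ y : M, St A C b y ∧ (ifM (St A C b x) (fw A C b x)
      (ifM (∃ y : M, St A C b y ∧ x = fw A C b y) (bw A C b x) x)) = fw A C b y)
      (bw A C b (ifM (St A C b x) (fw A C b x)
      (ifM (∃ y : M, St A C b y ∧ x = fw A C b y) (bw A C b x) x))) (ifM (St A C b x) (fw A C b x)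
      (ifM (∃ y : M, St A C b y ∧ x = fw A C b y) (bw A C b x) x))) = x
    by_cases h1 : St A C b x
    · have h3 : ¬ St A C b (fw A C b x) := fun h4 => h4.2 ⟨x, h1.1, rfl⟩
      rw [ifM_pos h1, ifM_neg h3, ifM_pos ⟨x, h1, rfl⟩]
      exact h1.1.2.2.2
    · rw [ifM_neg h1]
      by_cases h2 : ∃ y : M, St A C b y ∧ x = fw A C b y
      · rw [ifM_pos h2]
        obtain ⟨y, hy, rfl⟩ := h2
        rw [hy.1.2.2.2, ifM_pos hy]
      · rw [ifM_neg h2, ifM_neg h1, ifM_neg h2]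

theorem dom_of_ran {b y : M} (hb : I2 A C b) (hns : ¬ ∃ x : M, St A C b x) (hy : Ran A C b y) :
    Dom A C b y := by
  by_contra hnd
  have hDR : ∀ x : M, Dom A C b x → Ran A C b x := fun x hx => by
    by_contra hr; exact hns ⟨x, hx, hr⟩
  have memR : ∀ y : M, y ∈ sep A (fun y => Ran A C b y) ↔ (y ∈ A ∧ Ran A C b y) :=
    fun y => mem_sep _ _ _
  have ranA : ∀ y : M, Ran A C b y → y ∈ A := by
    rintro y ⟨x, hx, rfl⟩
    exact h.fw_mem hb (h.Dom_A hx)
  obtain ⟨g, hg⟩ := exists_inj_of_self (sep A (fun y => Ran A C b y)) y (fun y => bw A C b y)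
    ((memR y).2 ⟨ranA y hy, hy⟩)
    (fun z hz => by
      obtain ⟨x, hx, rfl⟩ := ((memR z).1 hz).2
      rw [hx.2.2.2]
      exact (memR x).2 ⟨h.Dom_A hx, hDR x hx⟩)
    (fun z hz z' hz' he => by
      obtain ⟨x, hx, rfl⟩ := ((memR z).1 hz).2
      obtain ⟨x', hx', rfl⟩ := ((memR z').1 hz').2
      rw [hx.2.2.2, hx'.2.2.2] at he
      rw [he])
    (fun z hz he => by
      obtain ⟨x, hx, rfl⟩ := ((memR z).1 hz).2
      rw [hx.2.2.2] at he
      rw [he] at hx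
      exact hnd hx)
  exact h.hN.sub (fun z hz => ((memR z).1 hz).1) ⟨g, hg⟩

theorem perm2_mem {b : M} (hb : I2 A C b) (hns : ¬ ∃ x : M, St A C b x) :
    perm2 A C b ∈ Sym A := by
  have hDR : ∀ x : M, Dom A C b x → Ran A C b x := fun x hx => by
    by_contra hr; exact hns ⟨x, hx, hr⟩
  unfold perm2
  rw [mem_Sym]
  refine ⟨⟨lam_isFn fun x hx => ?_, fun x hx y hy hxy => ?_⟩, fun y hy => ?_⟩
  · by_cases h1 : Dom A C b x
    · rw [ifM_pos h1]; exact h.fw_mem hb hx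
    · rw [ifM_neg h1]; exact hx
  · rw [app_lam hx, app_lam hy] at hxy
    by_cases h1 : Dom A C b x
    · rw [ifM_pos h1] at hxy
      by_cases h2 : Dom A C b y
      · rw [ifM_pos h2] at hxy
        rw [← h1.2.2.2, hxy, h2.2.2.2]
      · rw [ifM_neg h2] at hxy
        exact absurd (h.dom_of_ran hb hns ⟨x, h1, hxy.symm⟩) h2
    · rw [ifM_neg h1] at hxy
      by_cases h2 : Dom A C b y
      · rw [ifM_pos h2] at hxy
        exact absurd (h.dom_of_ran hb hns ⟨y, h2, hxy⟩) h1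
      · rw [ifM_neg h2] at hxy
        exact hxy
  · by_cases h1 : Dom A C b y
    · obtain ⟨x, hx, rfl⟩ := hDR y h1
      exact ⟨x, h.Dom_A hx, by rw [app_lam (h.Dom_A hx), ifM_pos hx]⟩
    · exact ⟨y, hy, by rw [app_lam hy, ifM_neg h1]⟩

theorem permb_mem {b : M} (hb : I2 A C b) : permb A C b ∈ Sym A := by
  unfold permb
  by_cases hc : ∃ x : M, St A C b x
  · rw [ifM_pos hc]; exact h.perm1_mem hb
  · rw [ifM_neg hc]; exact h.perm2_mem hb hc

theorem permb_moves {b : M} (hb : I2 A C b) : ∃ x : M, x ∈ A ∧ app (permb A C b) x ≠ x := by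
  unfold permb
  by_cases hc : ∃ x : M, St A C b x
  · rw [ifM_pos hc]
    obtain ⟨x, hx⟩ := hc
    refine ⟨x, h.Dom_A hx.1, ?_⟩
    unfold perm1
    rw [app_lam (h.Dom_A hx.1), ifM_pos hx]
    exact hx.1.2.2.1
  · rw [ifM_neg hc]
    obtain ⟨x, hx⟩ := h.dom_nonempty hb
    refine ⟨x, h.Dom_A hx, ?_⟩
    unfold perm2
    rw [app_lam (h.Dom_A hx), ifM_pos hx]
    exact hx.2.2.1

theorem permb_supp {b x : M} (hx : x ∈ A) (hm : app (permb A C b) x ≠ x) :
    x ∈ Rb A C b := by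
  unfold permb at hm
  by_cases hc : ∃ x : M, St A C b x
  · rw [ifM_pos hc] at hm
    unfold perm1 at hm
    rw [app_lam hx] at hm
    by_cases h1 : St A C b x
    · exact h1.1.1
    · rw [ifM_neg h1] at hm
      by_cases h2 : ∃ y : M, St A C b y ∧ x = fw A C b y
      · obtain ⟨y, hy, rfl⟩ := h2
        exact hy.1.2.1
      · rw [ifM_neg h2] at hm
        exact absurd rfl hm
  · rw [ifM_neg hc] at hm
    unfold perm2 at hm
    rw [app_lam hx] at hm
    by_cases h1 : Dom A C b x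
    · exact h1.1
    · rw [ifM_neg h1] at hm
      exact absurd rfl hm

theorem core_false : False := by
  by_cases hub : ∀ b : M, b ∈ om M → ∃ i : M, i ∈ om M ∧ I2 A C i ∧ b ∈ i
  · obtain ⟨v, hv, hv2⟩ := exists_enum (fun i => I2 A C i) (fun x => x) (fun _ hn => hn) hub
    have hinj := enum_inj hv (fun k hk l hl hkl => ((hv2 k hk).2 l hl hkl).1)
    refine h.nd (lam (om M) (fun k => permb A C (app v k))) (lam_isFn fun k hk =>
      h.permb_mem (hv2 k hk).1) ?_ ?_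
    · intro k hk
      rw [app_lam hk]
      exact h.permb_moves (hv2 k hk).1
    · intro k hk l hl x hx h1 h2
      rw [app_lam hk] at h1
      rw [app_lam hl] at h2
      exact hinj.2 k hk l hl (h.Rb_inj (hv.app_mem hk) (hv.app_mem hl) (hv2 k hk).1.1
        (hv2 l hl).1.1 (h.permb_supp hx h1) (h.permb_supp hx h2))
  · push Not at hub
    obtain ⟨β, hβ, hβ2⟩ := hub
    have hub1 : ∀ b : M, b ∈ om M → ∃ i : M, i ∈ om M ∧ (I0 A C i ∧ ¬ I2 A C i) ∧ b ∈ i := by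
      intro b hb
      rcases om_tri hb hβ with h3 | h3 | h3
      · obtain ⟨i, hi, hi0, hbi⟩ := h.I0_unbounded hβ
        exact ⟨i, hi, ⟨hi0, fun h2 => hβ2 i hi h2 hbi⟩, om_trans hi hbi h3⟩
      · obtain ⟨i, hi, hi0, hbi⟩ := h.I0_unbounded hβ
        exact ⟨i, hi, ⟨hi0, fun h2 => hβ2 i hi h2 hbi⟩, h3 ▸ hbi⟩
      · obtain ⟨i, hi, hi0, hbi⟩ := h.I0_unbounded hb
        exact ⟨i, hi, ⟨hi0, fun h2 => hβ2 i hi h2 (om_trans hi hbi h3)⟩, hbi⟩
    obtain ⟨v, hv, hv2⟩ := exists_enum (fun i => I0 A C i ∧ ¬ I2 A C i) (fun x => x)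
      (fun _ hn => hn) hub1
    have hinj := enum_inj hv (fun k hk l hl hkl => ((hv2 k hk).2 l hl hkl).1)
    have hone : ∀ k : M, k ∈ om M → ∃! x : M, x ∈ Rb A C (app v k) := by
      intro k hk
      obtain ⟨x, hx⟩ := h.Rb_nonempty (hv.app_mem hk) (hv2 k hk).1.1.1
      refine ⟨x, hx, fun y hy => ?_⟩
      by_contra hne
      exact (hv2 k hk).1.2 ⟨(hv2 k hk).1.1, y, hy, x, hx, hne⟩
    have hsp : ∀ k : M, k ∈ om M → the (fun x => x ∈ Rb A C (app v k)) ∈ Rb A C (app v k) :=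
      fun k hk => the_spec _ (hone k hk)
    refine h.hN ⟨lam (om M) (fun k => the (fun x => x ∈ Rb A C (app v k))),
      lam_isFn (fun k hk => h.Rb_A (hsp k hk)), ?_⟩
    intro k hk l hl he
    rw [app_lam hk, app_lam hl] at he
    have h1 := hsp k hk
    rw [he] at h1
    exact hinj.2 k hk l hl (h.Rb_inj (hv.app_mem hk) (hv.app_mem hl) (hv2 k hk).1.1
        (hv2 l hl).1.1 h1 (hsp l hl))

end Dec

end Pool.Agent.H78
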