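import Pool.Agent.H78.ZFTower

/-!
If the symmetric group of `A` injects into `ω × A` then `A` has no countably infinite subset.
-/

set_option autoImplicit false
set_option linter.unusedSectionVars false
set_option synthInstance.maxSize 100000

namespace Pool.Agent.H78

universe u

variable {M : Type u} [Membership M M] [ModelZF M] {Γ : Type u} [Ctx M Γ]

/-- the block containing `b` -/
noncomputable def blk (L b : M) : M := the (fun l => l ∈ L ∧ ∃ m : M, m ∈ om M ∧ app l m = b)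

instance (priority := 1000) dfBlk (f g : Γ → M) [hf : Df M f] [hg : Df M g] :
    Df M (fun γ => blk (f γ) (g γ)) :=
  (inferInstance : Df M (fun γ => the (fun l => l ∈ f γ ∧ ∃ m : M, m ∈ om M ∧ app l m = g γ)))

/-- the position of `b` in the block `l` -/
noncomputable def pos (l b : M) : M := the (fun m => m ∈ om M ∧ app l m = b)

instance (priority := 1000) dfPos (f g : Γ → M) [hf : Df M f] [hg : Df M g] :
    Df M (fun γ => pos (f γ) (g γ)) :=
  (inferInstance : Df M (fun γ => the (fun m => m ∈ om M ∧ app (f γ) m = g γ)))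

/-- union of the ranges of the blocks -/
noncomputable def rng (A L : M) : M :=
  sep A (fun a => ∃ l : M, l ∈ L ∧ ∃ m : M, m ∈ om M ∧ app l m = a)

instance (priority := 1000) dfRng (f g : Γ → M) [hf : Df M f] [hg : Df M g] :
    Df M (fun γ => rng (f γ) (g γ)) :=
  (inferInstance : Df M (fun γ => sep (f γ) (fun a => ∃ l : M, l ∈ g γ ∧
    ∃ m : M, m ∈ om M ∧ app l m = a)))

/-- transpositions indexed by positions in blocks -/
noncomputable def trs (A L : M) : M :=
  lam (prod L (om M)) (fun z => swp A (app (fst z) (dbl (snd z))) (app (fst z) (sc (dbl (snd z)))))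

instance (priority := 1000) dfTrs (f g : Γ → M) [hf : Df M f] [hg : Df M g] :
    Df M (fun γ => trs (f γ) (g γ)) :=
  (inferInstance : Df M (fun γ => lam (prod (g γ) (om M)) (fun z =>
    swp (f γ) (app (fst z) (dbl (snd z))) (app (fst z) (sc (dbl (snd z)))))))

/-- location of a constraint coming from an old element -/
noncomputable def loc1 (A L : M) : M :=
  lam (prod (om M) (rng A L)) (fun z => opair (blk L (snd z))
    (pr (zr M) (pr (fst z) (pos (blk L (snd z)) (snd z)))))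

instance (priority := 1000) dfLoc1 (f g : Γ → M) [hf : Df M f] [hg : Df M g] :
    Df M (fun γ => loc1 (f γ) (g γ)) :=
  (inferInstance : Df M (fun γ => lam (prod (om M) (rng (f γ) (g γ))) (fun z =>
    opair (blk (g γ) (snd z)) (pr (zr M) (pr (fst z) (pos (blk (g γ) (snd z)) (snd z)))))))

/-- location of a constraint coming from a new element -/
noncomputable def loc2 (u : M) : M :=
  lam (prod (om M) (om M)) (fun z => opair u (pr (sc (zr M)) (pr (fst z) (snd z))))

/-- the extension operator -/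
noncomputable def extS (A f u L : M) : M :=
  newSeq A f (rng A L) (prod L (om M)) (trs A L) (loc1 A L) (loc2 u)

instance (priority := 1000) dfExtS (A f u : M) (g : Γ → M) [hg : Df M g] :
    Df M (fun γ => extS A f u (g γ)) :=
  (inferInstance : Df M (fun γ => newSeq A f (rng A (g γ)) (prod (g γ) (om M)) (trs A (g γ))
    (loc1 A (g γ)) (loc2 u)))

/-- good families of blocks -/
def Good (A u L : M) : Prop := (∀ l : M, l ∈ L → Inj l (om M) A) ∧ u ∈ L ∧
  ∀ l : M, l ∈ L → ∀ l' : M, l' ∈ L → ∀ m : M, m ∈ om M → ∀ m' : M, m' ∈ om M →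
    app l m = app l' m' → l = l'

instance (priority := 1000) dpGood (f g h : Γ → M) [hf : Df M f] [hg : Df M g] [hh : Df M h] :
    Dp M (fun γ => Good (f γ) (g γ) (h γ)) :=
  (inferInstance : Dp M (fun γ => (∀ l : M, l ∈ h γ → Inj l (om M) (f γ)) ∧ g γ ∈ h γ ∧
    ∀ l : M, l ∈ h γ → ∀ l' : M, l' ∈ h γ → ∀ m : M, m ∈ om M → ∀ m' : M, m' ∈ om M →
    app l m = app l' m' → l = l'))

theorem mem_rng {A L a : M} : a ∈ rng A L ↔ (a ∈ A ∧ ∃ l : M, l ∈ L ∧ ∃ m : M, m ∈ om M ∧
    app l m = a) := mem_sep _ _ _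

theorem Good.blk_eq {A u L l m : M} (h : Good A u L) (hl : l ∈ L) (hm : m ∈ om M) :
    blk L (app l m) = l :=
  the_eq _ _ ⟨hl, m, hm, rfl⟩ (fun l' ⟨hl', m', hm', he⟩ => h.2.2 l' hl' l hl m' hm' m hm he)

theorem Good.pos_eq {A u L l m : M} (h : Good A u L) (hl : l ∈ L) (hm : m ∈ om M) :
    pos l (app l m) = m :=
  the_eq _ _ ⟨hm, rfl⟩ (fun m' ⟨hm', he⟩ => (h.1 l hl).2 m' hm' m hm he)

theorem loc1_app {A u L l m n : M} (h : Good A u L) (hl : l ∈ L) (hm : m ∈ om M)
    (hn : n ∈ om M) : app (loc1 A L) (opair n (app l m)) = opair l (pr (zr M) (pr n m)) := by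
  unfold loc1
  have hmem : app l m ∈ rng A L := mem_rng.2 ⟨(h.1 l hl).1.app_mem hm, l, hl, m, hm, rfl⟩
  rw [app_lam (opair_mem_prod.2 ⟨hn, hmem⟩)]
  rw [fst_opair, snd_opair, h.blk_eq hl hm, h.pos_eq hl hm]

theorem loc2_app {u n i : M} (hn : n ∈ om M) (hi : i ∈ om M) :
    app (loc2 u) (opair n i) = opair u (pr (sc (zr M)) (pr n i)) := by
  unfold loc2
  rw [app_lam (opair_mem_prod.2 ⟨hn, hi⟩), fst_opair, snd_opair]

theorem trs_app {A L l m : M} (hl : l ∈ L) (hm : m ∈ om M) :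
    app (trs A L) (opair l m) = swp A (app l (dbl m)) (app l (sc (dbl m))) := by
  unfold trs
  rw [app_lam (opair_mem_prod.2 ⟨hl, hm⟩), fst_opair, snd_opair]

theorem Good.locSys {A f u L : M} (hf : Inj f (Sym A) (prod (om M) A)) (h : Good A u L) :
    LocSys A f (rng A L) (prod L (om M)) (trs A L) (loc1 A L) (loc2 u) := by
  have hz1 : pr (zr M) (zr M) ∈ om M := pr_mem zr_mem zr_mem
  -- which points are moved
  have hmv : ∀ l : M, l ∈ L → ∀ m : M, m ∈ om M → ∀ x : M, x ∈ A →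
      app (app (trs A L) (opair l m)) x ≠ x → (x = app l (dbl m) ∨ x = app l (sc (dbl m))) := by
    intro l hl m hm x hx hne
    rw [trs_app hl hm] at hne
    by_contra hcon
    push Not at hcon
    exact hne (swp_other hx hcon.1 hcon.2)
  refine ⟨hf, ?_, ?_, ?_, ?_, ?_, ?_, ?_, ?_⟩
  · unfold trs
    refine lam_isFn fun z hz => ?_
    obtain ⟨l, hl, m, hm, rfl⟩ := mem_prod.1 hz
    rw [fst_opair, snd_opair]
    exact swp_mem ((h.1 l hl).1.app_mem (dbl_mem hm)) ((h.1 l hl).1.app_mem (sc_mem (dbl_mem hm)))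
  · intro z hz
    obtain ⟨l, hl, m, hm, rfl⟩ := mem_prod.1 hz
    have ha := (h.1 l hl).1.app_mem (dbl_mem hm)
    refine ⟨app l (dbl m), ha, ?_⟩
    rw [trs_app hl hm, swp_left ha]
    intro he
    have := (h.1 l hl).2 _ (sc_mem (dbl_mem hm)) _ (dbl_mem hm) he
    have h3 := self_mem_sc (dbl m)
    rw [this] at h3
    exact not_mem_self _ h3
  · intro z hz z' hz' x hx h1 h2
    obtain ⟨l, hl, m, hm, rfl⟩ := mem_prod.1 hz
    obtain ⟨l', hl', m', hm', rfl⟩ := mem_prod.1 hz'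
    have d1 := dbl_mem hm
    have d2 := dbl_mem hm'
    have d3 := sc_mem d1
    have d4 := sc_mem d2
    rcases hmv l hl m hm x hx h1 with e1 | e1 <;> rcases hmv l' hl' m' hm' x hx h2 with e2 | e2 <;>
      rw [e1] at e2
    · have hll := h.2.2 l hl l' hl' _ d1 _ d2 e2
      subst hll
      rw [dbl_inj hm hm' ((h.1 l hl).2 _ d1 _ d2 e2)]
    · have hll := h.2.2 l hl l' hl' _ d1 _ d4 e2
      subst hll
      exact absurd ((h.1 l hl).2 _ d1 _ d4 e2) (dbl_ne_sc_dbl hm hm')
    · have hll := h.2.2 l hl l' hl' _ d3 _ d2 e2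
      subst hll
      exact absurd ((h.1 l hl).2 _ d3 _ d2 e2).symm (dbl_ne_sc_dbl hm' hm)
    · have hll := h.2.2 l hl l' hl' _ d3 _ d4 e2
      subst hll
      rw [dbl_inj hm hm' (sc_inj ((h.1 l hl).2 _ d3 _ d4 e2))]
  · intro n hn b hb
    obtain ⟨_, l, hl, m, hm, rfl⟩ := mem_rng.1 hb
    rw [loc1_app h hl hm hn]
    exact opair_mem_prod.2 ⟨hl, pr_mem zr_mem (pr_mem hn hm)⟩
  · intro n hn i hi
    rw [loc2_app hn hi]
    exact opair_mem_prod.2 ⟨h.2.1, pr_mem (sc_mem zr_mem) (pr_mem hn hi)⟩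
  · intro n hn b hb n' hn' b' hb' he
    obtain ⟨_, l, hl, m, hm, rfl⟩ := mem_rng.1 hb
    obtain ⟨_, l', hl', m', hm', rfl⟩ := mem_rng.1 hb'
    rw [loc1_app h hl hm hn, loc1_app h hl' hm' hn'] at he
    obtain ⟨rfl, he2⟩ := opair_inj he
    have h1 := (pr_inj zr_mem (pr_mem hn hm) zr_mem (pr_mem hn' hm') he2).2
    obtain ⟨rfl, rfl⟩ := pr_inj hn hm hn' hm' h1
    exact ⟨rfl, rfl⟩
  · intro n hn i hi n' hn' i' hi' he
    rw [loc2_app hn hi, loc2_app hn' hi'] at he
    have h1 := (pr_inj (sc_mem zr_mem) (pr_mem hn hi) (sc_mem zr_mem) (pr_mem hn' hi')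
      (opair_inj he).2).2
    exact pr_inj hn hi hn' hi' h1
  · intro n hn b hb n' hn' i hi he
    obtain ⟨_, l, hl, m, hm, rfl⟩ := mem_rng.1 hb
    rw [loc1_app h hl hm hn, loc2_app hn' hi] at he
    have h1 := (pr_inj zr_mem (pr_mem hn hm) (sc_mem zr_mem) (pr_mem hn' hi) (opair_inj he).2).1
    exact sc_ne_zr _ h1.symm

/-- the first part: `A` is Dedekind finite -/
theorem noN_of_inj {A f : M} (hf : Inj f (Sym A) (prod (om M) A)) : NoN A := by
  rintro ⟨u, hu⟩
  have memG : ∀ L : M, L ∈ sep (pow (Fn (om M) A)) (fun L => Good A u L) ↔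
      (L ∈ pow (Fn (om M) A) ∧ Good A u L) := fun L => mem_sep _ _ _
  have hpow : ∀ L : M, Good A u L → L ∈ sep (pow (Fn (om M) A)) (fun L => Good A u L) := by
    intro L hL
    exact (memG L).2 ⟨mem_pow.2 fun l hl => mem_Fn.2 (hL.1 l hl).1, hL⟩
  have hgood0 : Good A u (sing u) := by
    refine ⟨fun l hl => ?_, mem_sing.2 rfl, fun l hl l' hl' _ _ _ _ _ => ?_⟩
    · rw [mem_sing.1 hl]; exact hu
    · rw [mem_sing.1 hl, mem_sing.1 hl']
  -- the extension is disjoint from the old blocks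
  have hext : ∀ L : M, Good A u L → Inj (extS A f u L) (om M) A ∧ ∀ l : M, l ∈ L →
      ∀ m : M, m ∈ om M → ∀ m' : M, m' ∈ om M → app l m ≠ app (extS A f u L) m' := by
    intro L hL
    have hspec := (hL.locSys hf).newSeq_spec
    refine ⟨hspec.1, fun l hl m hm m' hm' he => ?_⟩
    refine hspec.2 m' hm' (mem_rng.2 ⟨hspec.1.1.app_mem hm', l, hl, m, hm, he⟩)
  refine tower_false (sep (pow (Fn (om M) A)) (fun L => Good A u L)) (sing u)
    (fun L => extS A f u L) (hpow _ hgood0) ?_ ?_ ?_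
  · intro L hL hmem
    have hL' := ((memG L).1 hL).2
    exact (hext L hL').2 _ hmem _ zr_mem _ zr_mem rfl
  · intro L hL
    have hL' := ((memG L).1 hL).2
    obtain ⟨h1, h2⟩ := hext L hL'
    refine hpow _ ⟨?_, mem_un.2 (Or.inl hL'.2.1), ?_⟩
    · intro l hl
      rcases mem_un.1 hl with hl | hl
      · exact hL'.1 l hl
      · rw [mem_sing.1 hl]; exact h1
    · intro l hl l' hl' m hm m' hm' he
      rcases mem_un.1 hl with hl | hl <;> rcases mem_un.1 hl' with hl' | hl'
      · exact hL'.2.2 l hl l' hl' m hm m' hm' he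
      · rw [mem_sing.1 hl'] at he
        exact absurd he (h2 l hl m hm m' hm')
      · rw [mem_sing.1 hl] at he
        exact absurd he.symm (h2 l' hl' m' hm' m hm)
      · rw [mem_sing.1 hl, mem_sing.1 hl']
  · rintro C hC ⟨L, hL⟩ hch
    have hCg : ∀ L : M, L ∈ C → Good A u L := fun L hL => ((memG L).1 (hC L hL)).2
    refine hpow _ ⟨?_, mem_sUn.2 ⟨L, hL, (hCg L hL).2.1⟩, ?_⟩
    · intro l hl
      obtain ⟨L', hL', hl⟩ := mem_sUn.1 hl
      exact (hCg L' hL').1 l hl
    · intro l hl l' hl' m hm m' hm' he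
      obtain ⟨L1, hL1, hl⟩ := mem_sUn.1 hl
      obtain ⟨L2, hL2, hl'⟩ := mem_sUn.1 hl'
      rcases hch L1 hL1 L2 hL2 with h | h
      · exact (hCg L2 hL2).2.2 l (h l hl) l' hl' m hm m' hm' he
      · exact (hCg L1 hL1).2.2 l hl l' (h l' hl') m hm m' hm' he

/-- no infinite sequence of nontrivial permutations with disjoint supports -/
theorem no_disjoint_seq {A f : M} (hf : Inj f (Sym A) (prod (om M) A)) (r : M)
    (hr : IsFn r (om M) (Sym A))
    (hne : ∀ k : M, k ∈ om M → ∃ x : M, x ∈ A ∧ app (app r k) x ≠ x)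
    (hd : ∀ k : M, k ∈ om M → ∀ l : M, l ∈ om M → ∀ x : M, x ∈ A → app (app r k) x ≠ x →
      app (app r l) x ≠ x → k = l) : False := by
  have hk2 : ∀ n : M, n ∈ om M → ∀ i : M, i ∈ om M →
      app (lam (prod (om M) (om M)) (fun z => pr (fst z) (snd z))) (opair n i) = pr n i := by
    intro n hn i hi
    rw [app_lam (opair_mem_prod.2 ⟨hn, hi⟩), fst_opair, snd_opair]
  have hsys : LocSys A f (emp M) (om M) r (emp M)
      (lam (prod (om M) (om M)) (fun z => pr (fst z) (snd z))) := by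
    refine ⟨hf, hr, hne, hd, ?_, ?_, ?_, ?_, ?_⟩
    · intro n _ b hb; exact absurd hb (mem_emp b)
    · intro n hn i hi
      rw [hk2 n hn i hi]; exact pr_mem hn hi
    · intro n _ b hb; exact absurd hb (mem_emp b)
    · intro n hn i hi n' hn' i' hi' he
      rw [hk2 n hn i hi, hk2 n' hn' i' hi'] at he
      exact pr_inj hn hi hn' hi' he
    · intro n _ b hb; exact absurd hb (mem_emp b)
  exact noN_of_inj hf ⟨_, hsys.newSeq_spec.1⟩

end Pool.Agent.H78
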