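import Mathlib

/-!
First-order set theory: formulas, satisfaction, models of ZF, and the set-theoretic notions used in
the statements, all expressed by membership in an arbitrary structure `(M, ∈)`.
-/

set_option autoImplicit false

namespace Pool.Agent.H78

universe u

/-- Formulas of the first-order language of set theory, free variables indexed by natural
numbers (de Bruijn style: the quantifier `ex` binds variable `0`). -/
inductive Fml : Type
  | mem (i j : ℕ) : Fml
  | eq (i j : ℕ) : Fml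
  | neg (φ : Fml) : Fml
  | and (φ ψ : Fml) : Fml
  | ex (φ : Fml) : Fml

/-- Put `x` in front of the assignment `v`. -/
def scons {M : Type u} (x : M) (v : ℕ → M) : ℕ → M
  | 0 => x
  | (i + 1) => v i

/-- Satisfaction of a formula in the structure `(M, ∈)` under the assignment `v`. -/
def Sat {M : Type u} [Membership M M] : Fml → (ℕ → M) → Prop
  | .mem i j, v => v i ∈ v j
  | .eq i j, v => v i = v j
  | .neg φ, v => ¬ Sat φ v
  | .and φ ψ, v => Sat φ v ∧ Sat ψ v
  | .ex φ, v => ∃ x : M, Sat φ (scons x v)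

/-- `(M, ∈)` is a model of `ZF`: extensionality, foundation, pairing, union, power set, infinity,
and the schemes of separation and replacement for all first-order formulas with parameters. -/
class ModelZF (M : Type u) [Membership M M] : Prop where
  ext : ∀ x y : M, (∀ z : M, z ∈ x ↔ z ∈ y) → x = y
  foundation : ∀ x : M, (∃ y : M, y ∈ x) → ∃ y : M, y ∈ x ∧ ∀ z : M, ¬ (z ∈ x ∧ z ∈ y)
  pairing : ∀ x y : M, ∃ z : M, ∀ w : M, w ∈ z ↔ (w = x ∨ w = y)
  union : ∀ x : M, ∃ y : M, ∀ w : M, w ∈ y ↔ ∃ z : M, z ∈ x ∧ w ∈ z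
  power : ∀ x : M, ∃ y : M, ∀ w : M, w ∈ y ↔ ∀ z : M, z ∈ w → z ∈ x
  infinity : ∃ x : M, (∃ e : M, e ∈ x ∧ ∀ z : M, z ∉ e) ∧
    ∀ y : M, y ∈ x → ∃ s : M, s ∈ x ∧ ∀ w : M, w ∈ s ↔ (w ∈ y ∨ w = y)
  separation : ∀ (φ : Fml) (v : ℕ → M) (a : M),
    ∃ b : M, ∀ x : M, x ∈ b ↔ (x ∈ a ∧ Sat φ (scons x v))
  replacement : ∀ (φ : Fml) (v : ℕ → M) (a : M),
    (∀ x : M, x ∈ a → ∃! y : M, Sat φ (scons x (scons y v))) →
    ∃ b : M, ∀ y : M, y ∈ b ↔ ∃ x : M, x ∈ a ∧ Sat φ (scons x (scons y v))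

section

variable {M : Type u} [Membership M M]

/-- `p = {x, y}` -/
def IsUPair (p x y : M) : Prop := ∀ z : M, z ∈ p ↔ (z = x ∨ z = y)

/-- `p` is the ordered pair `(x, y) = {{x}, {x, y}}` -/
def IsOPair (p x y : M) : Prop := ∃ a b : M, IsUPair a x x ∧ IsUPair b x y ∧ IsUPair p a b

/-- the ordered pair `(x, y)` belongs to `f` -/
def PairMem (x y f : M) : Prop := ∃ p : M, IsOPair p x y ∧ p ∈ f

/-- `f` is a function from `a` to `b` (a set of ordered pairs) -/
def IsFunc (f a b : M) : Prop :=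
  (∀ p : M, p ∈ f → ∃ x y : M, x ∈ a ∧ y ∈ b ∧ IsOPair p x y) ∧
  ∀ x : M, x ∈ a → ∃! y : M, PairMem x y f

/-- `f` is an injection from `a` to `b` -/
def IsInjection (f a b : M) : Prop :=
  IsFunc f a b ∧ ∀ x x' y : M, PairMem x y f → PairMem x' y f → x = x'

/-- `f` is a bijection from `a` to `b` -/
def IsBijection (f a b : M) : Prop :=
  IsInjection f a b ∧ ∀ y : M, y ∈ b → ∃ x : M, PairMem x y f

/-- `s` is the set of all bijections from `a` to `a` -/
def IsSymSet (s a : M) : Prop := ∀ g : M, g ∈ s ↔ IsBijection g a a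

/-- `p = a × b` -/
def IsProduct (p a b : M) : Prop := ∀ z : M, z ∈ p ↔ ∃ x y : M, x ∈ a ∧ y ∈ b ∧ IsOPair z x y

/-- `w` contains the empty set and is closed under `x ↦ x ∪ {x}` -/
def IsInductive (w : M) : Prop := (∃ e : M, e ∈ w ∧ ∀ z : M, z ∉ e) ∧
  ∀ x : M, x ∈ w → ∃ s : M, s ∈ w ∧ ∀ z : M, z ∈ s ↔ (z ∈ x ∨ z = x)

/-- `w` is the set of natural numbers, the least inductive set -/
def IsOmega (w : M) : Prop := IsInductive w ∧ ∀ w' : M, IsInductive w' → ∀ x : M, x ∈ w → x ∈ w'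

/-- `a` is infinite: not in bijection with any element `n` of the set `w` of natural numbers -/
def IsInfiniteSet (w a : M) : Prop := ∀ n : M, n ∈ w → ¬ ∃ f : M, IsBijection f n a

end

end Pool.Agent.H78
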