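import Pool.Agent.H78.ZFFin

/-!
The diagonal construction for an injection of the symmetric group of `A` into `ω × A`.
-/

set_option autoImplicit false
set_option linter.unusedSectionVars false
set_option synthInstance.maxSize 100000

namespace Pool.Agent.H78

universe u

variable {M : Type u} [Membership M M] [ModelZF M] {Γ : Type u} [Ctx M Γ]

/-- the set of permutations of `A` -/
noncomputable def Sym (A : M) : M := sep (Fn A A) (fun g => Bij g A A)

theorem mem_Sym {A g : M} : g ∈ Sym A ↔ Bij g A A := by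
  unfold Sym
  rw [mem_sep, mem_Fn]
  exact ⟨fun h => h.2, fun h => ⟨h.1.1, h⟩⟩

instance (priority := 1000) dfSym (f : Γ → M) [hf : Df M f] : Df M (fun γ => Sym (f γ)) :=
  (inferInstance : Df M (fun γ => sep (Fn (f γ) (f γ)) (fun g => Bij g (f γ) (f γ))))

/-- `g` agrees with `r` on the support of `r` -/
def Agree (A g r : M) : Prop := ∀ x : M, x ∈ A → app r x ≠ x → app g x = app r x

instance (priority := 1000) dpAgree (f g h : Γ → M) [hf : Df M f] [hg : Df M g] [hh : Df M h] :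
    Dp M (fun γ => Agree (f γ) (g γ) (h γ)) :=
  (inferInstance : Dp M (fun γ => ∀ x : M, x ∈ f γ → app (h γ) x ≠ x → app (g γ) x = app (h γ) x))

/-- the set of selected indices -/
def Sel (A f B r k1 k2 s κ : M) : Prop :=
  (∃ n : M, n ∈ om M ∧ ∃ b : M, b ∈ B ∧ κ = app k1 (opair n b) ∧
    ∃ g : M, g ∈ Sym A ∧ app f g = opair n b ∧ ¬ Agree A g (app r κ)) ∨
  (∃ n : M, n ∈ om M ∧ ∃ i : M, i ∈ om M ∧ ∃ a : M, opair i a ∈ s ∧ κ = app k2 (opair n i) ∧
    ∃ g : M, g ∈ Sym A ∧ app f g = opair n a ∧ ¬ Agree A g (app r κ))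

instance (priority := 1000) dpSel (A f B r k1 k2 s κ : Γ → M) [Df M A] [Df M f] [Df M B]
    [Df M r] [Df M k1] [Df M k2] [Df M s] [Df M κ] :
    Dp M (fun γ => Sel (A γ) (f γ) (B γ) (r γ) (k1 γ) (k2 γ) (s γ) (κ γ)) :=
  (inferInstance : Dp M (fun γ => (∃ n : M, n ∈ om M ∧ ∃ b : M, b ∈ B γ ∧ κ γ = app (k1 γ) (opair n b) ∧
    ∃ g : M, g ∈ Sym (A γ) ∧ app (f γ) g = opair n b ∧ ¬ Agree (A γ) g (app (r γ) (κ γ))) ∨
  (∃ n : M, n ∈ om M ∧ ∃ i : M, i ∈ om M ∧ ∃ a : M, opair i a ∈ s γ ∧ κ γ = app (k2 γ) (opair n i) ∧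
    ∃ g : M, g ∈ Sym (A γ) ∧ app (f γ) g = opair n a ∧ ¬ Agree (A γ) g (app (r γ) (κ γ)))))

/-- the glued permutation -/
noncomputable def glue (A f B K r k1 k2 s : M) : M :=
  lam A (fun x => ifM (∃ κ : M, κ ∈ K ∧ Sel A f B r k1 k2 s κ ∧ app (app r κ) x ≠ x)
    (the (fun y => ∃ κ : M, κ ∈ K ∧ Sel A f B r k1 k2 s κ ∧ app (app r κ) x ≠ x ∧
      y = app (app r κ) x)) x)

instance (priority := 1000) dfGlue (A f B K r k1 k2 s : Γ → M) [Df M A] [Df M f] [Df M B]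
    [Df M K] [Df M r] [Df M k1] [Df M k2] [Df M s] :
    Df M (fun γ => glue (A γ) (f γ) (B γ) (K γ) (r γ) (k1 γ) (k2 γ) (s γ)) :=
  (inferInstance : Df M (fun γ => lam (A γ) (fun x => ifM (∃ κ : M, κ ∈ K γ ∧
      Sel (A γ) (f γ) (B γ) (r γ) (k1 γ) (k2 γ) (s γ) κ ∧ app (app (r γ) κ) x ≠ x)
    (the (fun y => ∃ κ : M, κ ∈ K γ ∧ Sel (A γ) (f γ) (B γ) (r γ) (k1 γ) (k2 γ) (s γ) κ ∧
      app (app (r γ) κ) x ≠ x ∧ y = app (app (r γ) κ) x)) x)))

/-- the new element -/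
noncomputable def newEl (A f B K r k1 k2 s : M) : M := snd (app f (glue A f B K r k1 k2 s))

instance (priority := 1000) dfNewEl (A f B K r k1 k2 s : Γ → M) [Df M A] [Df M f] [Df M B]
    [Df M K] [Df M r] [Df M k1] [Df M k2] [Df M s] :
    Df M (fun γ => newEl (A γ) (f γ) (B γ) (K γ) (r γ) (k1 γ) (k2 γ) (s γ)) :=
  (inferInstance : Df M (fun γ => snd (app (f γ)
    (glue (A γ) (f γ) (B γ) (K γ) (r γ) (k1 γ) (k2 γ) (s γ)))))

/-- the sequence of states -/
noncomputable def states (A f B K r k1 k2 : M) : M :=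
  recN (pow (prod (om M) A)) (emp M)
    (fun k s => un s (sing (opair k (newEl A f B K r k1 k2 s))))

instance (priority := 1000) dfStates (A f B K r k1 k2 : Γ → M) [Df M A] [Df M f] [Df M B]
    [Df M K] [Df M r] [Df M k1] [Df M k2] :
    Df M (fun γ => states (A γ) (f γ) (B γ) (K γ) (r γ) (k1 γ) (k2 γ)) :=
  (inferInstance : Df M (fun γ => recN (pow (prod (om M) (A γ))) (emp M)
    (fun k s => un s (sing (opair k (newEl (A γ) (f γ) (B γ) (K γ) (r γ) (k1 γ) (k2 γ) s))))))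

/-- the new sequence -/
noncomputable def newSeq (A f B K r k1 k2 : M) : M :=
  lam (om M) (fun k => newEl A f B K r k1 k2 (app (states A f B K r k1 k2) k))

instance (priority := 1000) dfNewSeq (A f B K r k1 k2 : Γ → M) [Df M A] [Df M f] [Df M B]
    [Df M K] [Df M r] [Df M k1] [Df M k2] :
    Df M (fun γ => newSeq (A γ) (f γ) (B γ) (K γ) (r γ) (k1 γ) (k2 γ)) :=
  (inferInstance : Df M (fun γ => lam (om M) (fun k =>
    newEl (A γ) (f γ) (B γ) (K γ) (r γ) (k1 γ) (k2 γ)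
      (app (states (A γ) (f γ) (B γ) (K γ) (r γ) (k1 γ) (k2 γ)) k))))

/-- hypotheses on the location system -/
structure LocSys (A f B K r k1 k2 : M) : Prop where
  hf : Inj f (Sym A) (prod (om M) A)
  hr : IsFn r K (Sym A)
  hne : ∀ κ : M, κ ∈ K → ∃ x : M, x ∈ A ∧ app (app r κ) x ≠ x
  hdisj : ∀ κ : M, κ ∈ K → ∀ κ' : M, κ' ∈ K → ∀ x : M, x ∈ A → app (app r κ) x ≠ x →
    app (app r κ') x ≠ x → κ = κ'
  hk1 : ∀ n : M, n ∈ om M → ∀ b : M, b ∈ B → app k1 (opair n b) ∈ K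
  hk2 : ∀ n : M, n ∈ om M → ∀ i : M, i ∈ om M → app k2 (opair n i) ∈ K
  hk1i : ∀ n : M, n ∈ om M → ∀ b : M, b ∈ B → ∀ n' : M, n' ∈ om M → ∀ b' : M, b' ∈ B →
    app k1 (opair n b) = app k1 (opair n' b') → n = n' ∧ b = b'
  hk2i : ∀ n : M, n ∈ om M → ∀ b : M, b ∈ om M → ∀ n' : M, n' ∈ om M → ∀ b' : M, b' ∈ om M →
    app k2 (opair n b) = app k2 (opair n' b') → n = n' ∧ b = b'
  hk12 : ∀ n : M, n ∈ om M → ∀ b : M, b ∈ B → ∀ n' : M, n' ∈ om M → ∀ i : M, i ∈ om M →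
    app k1 (opair n b) ≠ app k2 (opair n' i)

namespace LocSys

variable {A f B K r k1 k2 : M} (h : LocSys A f B K r k1 k2)

include h

theorem bijr {κ : M} (hκ : κ ∈ K) : Bij (app r κ) A A := mem_Sym.1 (h.hr.app_mem hκ)

theorem moved {κ x : M} (hκ : κ ∈ K) (hx : x ∈ A) (hm : app (app r κ) x ≠ x) :
    app (app r κ) (app (app r κ) x) ≠ app (app r κ) x := fun he =>
  hm ((h.bijr hκ).1.2 _ ((h.bijr hκ).1.1.app_mem hx) _ hx he)

theorem glue_sel {s κ x : M} (hκ : κ ∈ K) (hs : Sel A f B r k1 k2 s κ) (hx : x ∈ A)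
    (hm : app (app r κ) x ≠ x) : app (glue A f B K r k1 k2 s) x = app (app r κ) x := by
  unfold glue
  rw [app_lam hx, ifM_pos ⟨κ, hκ, hs, hm⟩]
  refine the_eq _ _ ⟨κ, hκ, hs, hm, rfl⟩ ?_
  rintro y ⟨κ', hκ', _, hm', rfl⟩
  rw [h.hdisj κ hκ κ' hκ' x hx hm hm']

theorem glue_not {s x : M} (hx : x ∈ A)
    (hn : ¬ ∃ κ : M, κ ∈ K ∧ Sel A f B r k1 k2 s κ ∧ app (app r κ) x ≠ x) :
    app (glue A f B K r k1 k2 s) x = x := by
  unfold glue
  rw [app_lam hx, ifM_neg hn]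

theorem glue_sym (s : M) : glue A f B K r k1 k2 s ∈ Sym A := by
  rw [mem_Sym]
  have hfn : IsFn (glue A f B K r k1 k2 s) A A := by
    unfold glue
    refine lam_isFn fun x hx => ?_
    by_cases hc : ∃ κ : M, κ ∈ K ∧ Sel A f B r k1 k2 s κ ∧ app (app r κ) x ≠ x
    · obtain ⟨κ, hκ, hs, hm⟩ := hc
      have := h.glue_sel hκ hs hx hm
      unfold glue at this
      rw [app_lam hx] at this
      rw [this]
      exact (h.bijr hκ).1.1.app_mem hx
    · rw [ifM_neg hc]; exact hx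
  refine ⟨⟨hfn, ?_⟩, ?_⟩
  · intro x hx y hy hxy
    by_cases hc : ∃ κ : M, κ ∈ K ∧ Sel A f B r k1 k2 s κ ∧ app (app r κ) x ≠ x
    · obtain ⟨κ, hκ, hs, hm⟩ := hc
      rw [h.glue_sel hκ hs hx hm] at hxy
      by_cases hc' : ∃ κ : M, κ ∈ K ∧ Sel A f B r k1 k2 s κ ∧ app (app r κ) y ≠ y
      · obtain ⟨κ', hκ', hs', hm'⟩ := hc'
        rw [h.glue_sel hκ' hs' hy hm'] at hxy
        have h1 := h.moved hκ hx hm
        have h2 := h.moved hκ' hy hm'
        rw [← hxy] at h2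
        have h3 := h.hdisj κ hκ κ' hκ' _ ((h.bijr hκ).1.1.app_mem hx) h1 h2
        subst h3
        exact (h.bijr hκ).1.2 x hx y hy hxy
      · rw [h.glue_not hy hc'] at hxy
        exact absurd ⟨κ, hκ, hs, by rw [← hxy]; exact h.moved hκ hx hm⟩ hc'
    · rw [h.glue_not hx hc] at hxy
      by_cases hc' : ∃ κ : M, κ ∈ K ∧ Sel A f B r k1 k2 s κ ∧ app (app r κ) y ≠ y
      · obtain ⟨κ', hκ', hs', hm'⟩ := hc'
        rw [h.glue_sel hκ' hs' hy hm'] at hxy
        exact absurd ⟨κ', hκ', hs', by rw [hxy]; exact h.moved hκ' hy hm'⟩ hc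
      · rw [h.glue_not hy hc'] at hxy
        exact hxy
  · intro y hy
    by_cases hc' : ∃ κ : M, κ ∈ K ∧ Sel A f B r k1 k2 s κ ∧ app (app r κ) y ≠ y
    · obtain ⟨κ, hκ, hs, hm⟩ := hc'
      obtain ⟨x, hx, hxy⟩ := (h.bijr hκ).2 y hy
      refine ⟨x, hx, ?_⟩
      rw [h.glue_sel hκ hs hx, hxy]
      intro he
      rw [he] at hxy
      rw [hxy] at he
      exact hm he
    · exact ⟨y, hy, h.glue_not hy hc'⟩

theorem f_glue (s : M) : ∃ n : M, n ∈ om M ∧ newEl A f B K r k1 k2 s ∈ A ∧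
    app f (glue A f B K r k1 k2 s) = opair n (newEl A f B K r k1 k2 s) := by
  obtain ⟨n, hn, a, ha, he⟩ := mem_prod.1 (h.hf.1.app_mem (h.glue_sym s))
  have : newEl A f B K r k1 k2 s = a := by unfold newEl; rw [he, snd_opair]
  rw [this]
  exact ⟨n, hn, ha, he⟩

theorem agree_iff {s κ : M} (hκ : κ ∈ K) :
    Agree A (glue A f B K r k1 k2 s) (app r κ) ↔ Sel A f B r k1 k2 s κ := by
  constructor
  · intro ha
    by_contra hs
    obtain ⟨x, hx, hm⟩ := h.hne κ hκ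
    have h1 := ha x hx hm
    rw [h.glue_not hx] at h1
    · exact hm h1.symm
    · rintro ⟨κ', hκ', hs', hm'⟩
      have := h.hdisj κ hκ κ' hκ' x hx hm hm'
      subst this
      exact hs hs'
  · intro hs x hx hm
    exact h.glue_sel hκ hs hx hm

theorem new_not_mem_B (s : M) (hs : Sub s (prod (om M) A)) : ¬ newEl A f B K r k1 k2 s ∈ B := by
  intro hb
  obtain ⟨n, hn, _, he⟩ := h.f_glue s
  have hκ := h.hk1 n hn _ hb
  have h1 := h.agree_iff (s := s) hκ
  by_cases hsel : Sel A f B r k1 k2 s (app k1 (opair n (newEl A f B K r k1 k2 s)))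
  · rcases hsel with ⟨n', hn', b', hb', hk, g, hg, hfg, hna⟩ | ⟨n', hn', i, hi, a, _, hk, _⟩
    · obtain ⟨rfl, rfl⟩ := h.hk1i _ hn _ hb _ hn' _ hb' hk
      have : g = glue A f B K r k1 k2 s := h.hf.2 _ hg _ (h.glue_sym s) (hfg.trans he.symm)
      rw [this] at hna
      exact hna (h1.2 (Or.inl ⟨n, hn, _, hb, rfl, g, hg, hfg, by rw [this]; exact hna⟩))
    · exact h.hk12 _ hn _ hb _ hn' _ hi hk
  · exact hsel (Or.inl ⟨n, hn, _, hb, rfl, _, h.glue_sym s, he, fun ha => hsel (h1.1 ha)⟩)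

theorem new_not_mem_s {s i : M} (hs : Sub s (prod (om M) A))
    (hi : i ∈ om M) (hfun : ∀ j a a' : M, opair j a ∈ s → opair j a' ∈ s → a = a') :
    ¬ opair i (newEl A f B K r k1 k2 s) ∈ s := by
  intro hb
  obtain ⟨n, hn, _, he⟩ := h.f_glue s
  have hκ := h.hk2 n hn _ hi
  have h1 := h.agree_iff (s := s) hκ
  by_cases hsel : Sel A f B r k1 k2 s (app k2 (opair n i))
  · rcases hsel with ⟨n', hn', b', hb', hk, _⟩ | ⟨n', hn', i', hi', a, ha, hk, g, hg, hfg, hna⟩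
    · exact h.hk12 _ hn' _ hb' _ hn _ hi hk.symm
    · obtain ⟨rfl, rfl⟩ := h.hk2i _ hn _ hi _ hn' _ hi' hk
      have haa := hfun _ _ _ ha hb
      subst haa
      have : g = glue A f B K r k1 k2 s := h.hf.2 _ hg _ (h.glue_sym s) (hfg.trans he.symm)
      rw [this] at hna
      exact hna (h1.2 (Or.inr ⟨n, hn, i, hi, _, hb, rfl, g, hg, hfg, by rw [this]; exact hna⟩))
  · exact hsel (Or.inr ⟨n, hn, i, hi, _, hb, rfl, _, h.glue_sym s, he, fun ha => hsel (h1.1 ha)⟩)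

theorem states_rec : IsRec (pow (prod (om M) A)) (emp M)
    (fun k s => un s (sing (opair k (newEl A f B K r k1 k2 s)))) (states A f B K r k1 k2) := by
  refine recN_spec _ _ _ ?_ ?_
  · exact mem_pow.2 fun x hx => absurd hx (mem_emp x)
  · intro n hn s hs
    refine mem_pow.2 fun z hz => ?_
    rcases mem_un.1 hz with hz | hz
    · exact mem_pow.1 hs z hz
    · rw [mem_sing.1 hz]
      obtain ⟨_, _, hA, _⟩ := h.f_glue s
      exact opair_mem_prod.2 ⟨hn, hA⟩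

theorem mem_states : ∀ k : M, k ∈ om M → ∀ z : M, z ∈ app (states A f B K r k1 k2) k ↔
    ∃ i : M, i ∈ k ∧ z = opair i (app (newSeq A f B K r k1 k2) i) := by
  have hrec := h.states_rec
  apply om_induction
  · intro z
    rw [hrec.2.1]
    exact ⟨fun hz => absurd hz (mem_emp z), fun ⟨i, hi, _⟩ => absurd hi (not_mem_zr i)⟩
  · intro k hk ih z
    rw [hrec.2.2 k hk, mem_un, ih z, mem_sing]
    have : app (newSeq A f B K r k1 k2) k
        = newEl A f B K r k1 k2 (app (states A f B K r k1 k2) k) := by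
      unfold newSeq; rw [app_lam hk]
    rw [← this]
    constructor
    · rintro (⟨i, hi, rfl⟩ | rfl)
      · exact ⟨i, mem_sc.2 (Or.inl hi), rfl⟩
      · exact ⟨k, self_mem_sc k, rfl⟩
    · rintro ⟨i, hi, rfl⟩
      rcases mem_sc.1 hi with hi | rfl
      · exact Or.inl ⟨i, hi, rfl⟩
      · exact Or.inr rfl

theorem newSeq_app {k : M} (hk : k ∈ om M) : app (newSeq A f B K r k1 k2) k
    = newEl A f B K r k1 k2 (app (states A f B K r k1 k2) k) := by
  unfold newSeq; rw [app_lam hk]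

theorem newSeq_spec : Inj (newSeq A f B K r k1 k2) (om M) A ∧
    ∀ k : M, k ∈ om M → ¬ app (newSeq A f B K r k1 k2) k ∈ B := by
  have hrec := h.states_rec
  have hsub : ∀ k : M, k ∈ om M → Sub (app (states A f B K r k1 k2) k) (prod (om M) A) :=
    fun k hk => mem_pow.1 (hrec.1.app_mem hk)
  have hfun : ∀ k : M, k ∈ om M → ∀ j a a' : M, opair j a ∈ app (states A f B K r k1 k2) k →
      opair j a' ∈ app (states A f B K r k1 k2) k → a = a' := by
    intro k hk j a a' ha ha'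
    obtain ⟨i, hi, he⟩ := (h.mem_states k hk _).1 ha
    obtain ⟨i', hi', he'⟩ := (h.mem_states k hk _).1 ha'
    obtain ⟨rfl, rfl⟩ := opair_inj he
    obtain ⟨rfl, rfl⟩ := opair_inj he'
    rfl
  have hlt : ∀ k : M, k ∈ om M → ∀ l : M, l ∈ om M → k ∈ l →
      app (newSeq A f B K r k1 k2) k ≠ app (newSeq A f B K r k1 k2) l := by
    intro k hk l hl hkl he
    have h1 : opair k (app (newSeq A f B K r k1 k2) k) ∈ app (states A f B K r k1 k2) l :=
      (h.mem_states l hl _).2 ⟨k, hkl, rfl⟩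
    rw [he, h.newSeq_app hl] at h1
    exact h.new_not_mem_s (hsub l hl) hk (hfun l hl) h1
  refine ⟨⟨?_, ?_⟩, ?_⟩
  · unfold newSeq
    refine lam_isFn fun k hk => ?_
    obtain ⟨_, _, hA, _⟩ := h.f_glue (app (states A f B K r k1 k2) k)
    exact hA
  · intro x hx y hy hxy
    rcases om_tri hx hy with h' | h' | h'
    · exact absurd hxy (hlt x hx y hy h')
    · exact h'
    · exact absurd hxy.symm (hlt y hy x hx h')
  · intro k hk
    rw [h.newSeq_app hk]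
    exact h.new_not_mem_B _ (hsub k hk)

end LocSys

end Pool.Agent.H78
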