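import Pool.Agent.H78.ZFNat

/-!
Finite and Dedekind finite sets inside a model of ZF.
-/

set_option autoImplicit false
set_option linter.unusedSectionVars false
set_option synthInstance.maxSize 100000

namespace Pool.Agent.H78

universe u

variable {M : Type u} [Membership M M] [ModelZF M] {Γ : Type u} [Ctx M Γ]

/-- injections -/
def Inj (f a b : M) : Prop := IsFn f a b ∧ ∀ x : M, x ∈ a → ∀ y : M, y ∈ a → app f x = app f y → x = y

/-- bijections -/
def Bij (f a b : M) : Prop := Inj f a b ∧ ∀ y : M, y ∈ b → ∃ x : M, x ∈ a ∧ app f x = y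

instance (priority := 1000) dpInj (f g h : Γ → M) [hf : Df M f] [hg : Df M g] [hh : Df M h] :
    Dp M (fun γ => Inj (f γ) (g γ) (h γ)) :=
  (inferInstance : Dp M (fun γ => IsFn (f γ) (g γ) (h γ) ∧
    ∀ x : M, x ∈ g γ → ∀ y : M, y ∈ g γ → app (f γ) x = app (f γ) y → x = y))

instance (priority := 1000) dpBij (f g h : Γ → M) [hf : Df M f] [hg : Df M g] [hh : Df M h] :
    Dp M (fun γ => Bij (f γ) (g γ) (h γ)) :=
  (inferInstance : Dp M (fun γ => Inj (f γ) (g γ) (h γ) ∧
    ∀ y : M, y ∈ h γ → ∃ x : M, x ∈ g γ ∧ app (f γ) x = y))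

/-- `a` has no countably infinite subset -/
def NoN (a : M) : Prop := ¬ ∃ f : M, Inj f (om M) a

/-- strictly increasing enumerations -/
theorem exists_enum (P : M → Prop) [hP : Dp M (fun w : PUnit.{u+1} × M => P w.2)]
    (g : M → M) [hg : Df M (fun w : PUnit.{u+1} × M => g w.2)]
    (hgm : ∀ n : M, n ∈ om M → g n ∈ om M)
    (hub : ∀ b : M, b ∈ om M → ∃ i : M, i ∈ om M ∧ P i ∧ b ∈ i) :
    ∃ v : M, IsFn v (om M) (om M) ∧ ∀ k : M, k ∈ om M → (P (app v k) ∧
      ∀ l : M, l ∈ om M → k ∈ l → (app v k ∈ app v l ∧ g (app v k) ∈ app v l)) := by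
  -- next element
  have key : ∀ x : M, x ∈ om M → ∃ i : M, i ∈ om M ∧ (P i ∧ x ∈ i ∧ g x ∈ i) := by
    intro x hx
    have hgx := hgm x hx
    rcases om_tri hx hgx with h | h | h
    · obtain ⟨i, h1, h2, h3⟩ := hub (g x) hgx
      exact ⟨i, h1, h2, om_trans h1 h3 h, h3⟩
    · obtain ⟨i, h1, h2, h3⟩ := hub x hx
      exact ⟨i, h1, h2, h3, h ▸ h3⟩
    · obtain ⟨i, h1, h2, h3⟩ := hub x hx
      exact ⟨i, h1, h2, h3, om_trans h1 h3 h⟩
  obtain ⟨i0, hi0, hPi0, _⟩ := hub (zr M) zr_mem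
  have hrec := recN_spec (om M) i0 (fun _ x => mu (fun i => P i ∧ x ∈ i ∧ g x ∈ i)) hi0
    (fun n _ x hx => (mu_spec _ (key x hx)).1)
  set v := recN (om M) i0 (fun _ x => mu (fun i => P i ∧ x ∈ i ∧ g x ∈ i)) with hv
  have hvm : ∀ k : M, k ∈ om M → app v k ∈ om M := fun k hk => hrec.1.app_mem hk
  have hstep : ∀ k : M, k ∈ om M → (P (app v (sc k)) ∧ app v k ∈ app v (sc k) ∧
      g (app v k) ∈ app v (sc k)) := by
    intro k hk
    rw [hrec.2.2 k hk]
    exact (mu_spec _ (key (app v k) (hvm k hk))).2.1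
  have hPv : ∀ k : M, k ∈ om M → P (app v k) := by
    intro k hk
    rcases eq_zr_or_sc hk with rfl | ⟨m, hm, rfl⟩
    · rw [hrec.2.1]; exact hPi0
    · exact (hstep m hm).1
  refine ⟨v, hrec.1, fun k hk => ⟨hPv k hk, ?_⟩⟩
  apply om_induction
  · intro h; exact absurd h (not_mem_zr _)
  · intro l hl ih hkl
    rcases mem_sc.1 hkl with h | rfl
    · obtain ⟨h1, h2⟩ := ih h
      exact ⟨om_trans (hvm _ (sc_mem hl)) (hstep l hl).2.1 h1,
        om_trans (hvm _ (sc_mem hl)) (hstep l hl).2.1 h2⟩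
    · exact (hstep k hk).2

/-- unbounded sets can be enumerated injectively -/
theorem enum_inj {v : M} (hv : IsFn v (om M) (om M))
    (h : ∀ k : M, k ∈ om M → ∀ l : M, l ∈ om M → k ∈ l → app v k ∈ app v l) :
    Inj v (om M) (om M) := by
  refine ⟨hv, fun x hx y hy hxy => ?_⟩
  rcases om_tri hx hy with h' | h' | h'
  · have := h x hx y hy h'
    rw [hxy] at this; exact absurd this (not_mem_self _)
  · exact h'
  · have := h y hy x hx h'
    rw [hxy] at this; exact absurd this (not_mem_self _)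

/-- a non-surjective injective self-map yields a countably infinite subset -/
theorem exists_inj_of_self (d a : M) (F : M → M) [hF : Df M (fun w : PUnit.{u+1} × M => F w.2)]
    (ha : a ∈ d) (hm : ∀ x : M, x ∈ d → F x ∈ d)
    (hinj : ∀ x : M, x ∈ d → ∀ y : M, y ∈ d → F x = F y → x = y)
    (hna : ∀ x : M, x ∈ d → F x ≠ a) : ∃ f : M, Inj f (om M) d := by
  have hrec := recN_spec d a (fun _ x => F x) ha (fun _ _ x hx => hm x hx)
  set v := recN d a (fun _ x => F x) with hv
  have hvm : ∀ k : M, k ∈ om M → app v k ∈ d := fun k hk => hrec.1.app_mem hk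
  refine ⟨v, hrec.1, ?_⟩
  have key : ∀ x : M, x ∈ om M → ∀ y : M, y ∈ om M → app v x = app v y → x = y := by
    apply om_induction
    · intro y hy h
      rcases eq_zr_or_sc hy with rfl | ⟨m, hm', rfl⟩
      · rfl
      · rw [hrec.2.1, hrec.2.2 m hm'] at h
        exact absurd h.symm (hna _ (hvm m hm'))
    · intro x hx ih y hy h
      rcases eq_zr_or_sc hy with rfl | ⟨m, hm', rfl⟩
      · rw [hrec.2.1, hrec.2.2 x hx] at h
        exact absurd h (hna _ (hvm x hx))
      · rw [hrec.2.2 x hx, hrec.2.2 m hm'] at h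
        rw [ih m hm' (hinj _ (hvm x hx) _ (hvm m hm') h)]
  exact key

theorem NoN.sub {a b : M} (h : NoN b) (hab : Sub a b) : NoN a := by
  rintro ⟨f, hf⟩
  exact h ⟨f, hf.1.mono (fun x hx => hab _ (hf.1.app_mem hx)), hf.2⟩

/-- ranges of sequences in a Dedekind finite set are finite -/
theorem NoN.range_finite {A u : M} (hA : NoN A) (hu : IsFn u (om M) A) :
    ∃ P : M, P ∈ om M ∧ ∀ p : M, p ∈ om M → ∃ q : M, q ∈ P ∧ app u q = app u p := by
  by_contra hcon
  push Not at hcon
  -- new indices are unbounded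
  have hub : ∀ b : M, b ∈ om M → ∃ i : M, i ∈ om M ∧ (∀ q : M, q ∈ i → app u q ≠ app u i) ∧
      b ∈ i := by
    intro b hb
    obtain ⟨p, hp, hpq⟩ := hcon (sc b) (sc_mem hb)
    obtain ⟨i, hi, hi1, hi2⟩ := om_least (fun i => app u i = app u p) ⟨p, hp, rfl⟩
    refine ⟨i, hi, fun q hq h => hi2 q hq (h.trans hi1), ?_⟩
    rcases om_tri hb hi with h | h | h
    · exact h
    · subst h
      exact absurd hi1 (hpq b (self_mem_sc b))
    · exact absurd hi1 (hpq i (mem_sc.2 (Or.inl h)))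
  obtain ⟨v, hv, hv2⟩ := exists_enum (fun i => ∀ q : M, q ∈ i → app u q ≠ app u i)
    (fun x => x) (fun n hn => hn) hub
  apply hA
  refine ⟨lam (om M) (fun k => app u (app v k)), lam_isFn (fun x hx => hu.app_mem (hv.app_mem hx)),
    ?_⟩
  intro x hx y hy hxy
  rw [app_lam hx, app_lam hy] at hxy
  rcases om_tri hx hy with h | h | h
  · exact absurd hxy ((hv2 y hy).1 _ ((hv2 x hx).2 y hy h).1)
  · exact h
  · exact absurd hxy.symm ((hv2 x hx).1 _ ((hv2 y hy).2 x hx h).1)

/-- images of natural numbers are finite -/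
theorem rep_finite (F : M → M) [hF : Df M (fun w : PUnit.{u+1} × M => F w.2)] :
    ∀ n : M, n ∈ om M → ∃ m : M, m ∈ om M ∧ ∃ f : M, Bij f m (rep n F) := by
  apply om_induction
  · refine ⟨zr M, zr_mem, lam (zr M) (fun x => x), ⟨lam_isFn (fun x hx => absurd hx (not_mem_zr x)),
      fun x hx => absurd hx (not_mem_zr x)⟩, fun y hy => ?_⟩
    obtain ⟨x, hx, _⟩ := (mem_rep _ _ _).1 hy
    exact absurd hx (not_mem_zr x)
  · intro n hn ih
    obtain ⟨m, hm, f, hf⟩ := ih
    by_cases h : F n ∈ rep n F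
    · have : rep (sc n) F = rep n F := by
        refine ext fun z => ?_
        rw [mem_rep, mem_rep]
        constructor
        · rintro ⟨x, hx, rfl⟩
          rcases mem_sc.1 hx with hx | rfl
          · exact ⟨x, hx, rfl⟩
          · exact (mem_rep _ _ _).1 h
        · rintro ⟨x, hx, rfl⟩
          exact ⟨x, mem_sc.2 (Or.inl hx), rfl⟩
      rw [this]
      exact ⟨m, hm, f, hf⟩
    · refine ⟨sc m, sc_mem hm, lam (sc m) (fun x => ifM (x = m) (F n) (app f x)), ⟨?_, ?_⟩, ?_⟩
      · refine lam_isFn fun x hx => ?_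
        rcases mem_sc.1 hx with hx' | rfl
        · have hne : x ≠ m := fun h' => not_mem_self m (h' ▸ hx')
          rw [ifM_neg hne]
          obtain ⟨z, hz, hz2⟩ := (mem_rep _ _ _).1 (hf.1.1.app_mem hx')
          exact (mem_rep _ _ _).2 ⟨z, mem_sc.2 (Or.inl hz), hz2⟩
        · rw [ifM_pos rfl]
          exact (mem_rep _ _ _).2 ⟨n, self_mem_sc n, rfl⟩
      · intro x hx y hy hxy
        rw [app_lam hx, app_lam hy] at hxy
        by_cases hxm : x = m
        · by_cases hym : y = m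
          · rw [hxm, hym]
          · rw [ifM_pos hxm, ifM_neg hym] at hxy
            have hy' : y ∈ m := (mem_sc.1 hy).resolve_right hym
            exact absurd (hxy ▸ hf.1.1.app_mem hy') h
        · have hx' : x ∈ m := (mem_sc.1 hx).resolve_right hxm
          by_cases hym : y = m
          · rw [ifM_pos hym, ifM_neg hxm] at hxy
            exact absurd (hxy ▸ hf.1.1.app_mem hx') h
          · have hy' : y ∈ m := (mem_sc.1 hy).resolve_right hym
            rw [ifM_neg hxm, ifM_neg hym] at hxy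
            exact hf.1.2 x hx' y hy' hxy
      · intro y hy
        obtain ⟨x, hx, rfl⟩ := (mem_rep _ _ _).1 hy
        rcases mem_sc.1 hx with hx | rfl
        · obtain ⟨z, hz, hz2⟩ := hf.2 (F x) ((mem_rep _ _ _).2 ⟨x, hx, rfl⟩)
          have hzm : z ≠ m := fun h' => not_mem_self m (h' ▸ hz)
          exact ⟨z, mem_sc.2 (Or.inl hz), by
            rw [app_lam (mem_sc.2 (Or.inl hz)), ifM_neg hzm, hz2]⟩
        · exact ⟨m, self_mem_sc m, by rw [app_lam (self_mem_sc m), ifM_pos rfl]⟩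

end Pool.Agent.H78
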