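import Pool.Agent.H78.ZFCore2

/-!
Construction of the decoding structure from an injection of `Sym A` into `ω × A`.
-/

set_option autoImplicit false
set_option linter.unusedSectionVars false
set_option synthInstance.maxSize 100000

namespace Pool.Agent.H78

universe u

variable {M : Type u} [Membership M M] [ModelZF M] {Γ : Type u} [Ctx M Γ]

/-- the cycle `e → y → z → e` -/
noncomputable def cy (A e y z : M) : M :=
  lam A (fun x => ifM (x = e) y (ifM (x = y) z (ifM (x = z) e x)))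

instance (priority := 1000) dfCy (A e : M) (f g : Γ → M) [hf : Df M f] [hg : Df M g] :
    Df M (fun γ => cy A e (f γ) (g γ)) :=
  (inferInstance : Df M (fun γ => lam A (fun x => ifM (x = e) (f γ) (ifM (x = f γ) (g γ)
    (ifM (x = g γ) e x)))))

theorem cy_mem {A e y z : M} (he : e ∈ A) (hy : y ∈ A) (hz : z ∈ A) (h1 : y ≠ e) (h2 : z ≠ e)
    (h3 : y ≠ z) : cy A e y z ∈ Sym A := by
  have v1 : app (cy A e y z) e = y := by unfold cy; rw [app_lam he, ifM_pos rfl]
  have v2 : app (cy A e y z) y = z := by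
    unfold cy; rw [app_lam hy, ifM_neg h1, ifM_pos rfl]
  have v3 : app (cy A e y z) z = e := by
    unfold cy; rw [app_lam hz, ifM_neg h2, ifM_neg h3.symm, ifM_pos rfl]
  have v4 : ∀ x : M, x ∈ A → x ≠ e → x ≠ y → x ≠ z → app (cy A e y z) x = x := by
    intro x hx g1 g2 g3
    unfold cy; rw [app_lam hx, ifM_neg g1, ifM_neg g2, ifM_neg g3]
  have hcase : ∀ x : M, x ∈ A → (x = e ∨ x = y ∨ x = z ∨ (x ≠ e ∧ x ≠ y ∧ x ≠ z)) := by
    intro x _; tauto
  have hmem : ∀ x : M, x ∈ A → app (cy A e y z) x ∈ A := by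
    intro x hx
    rcases hcase x hx with rfl | rfl | rfl | ⟨g1, g2, g3⟩
    · rw [v1]; exact hy
    · rw [v2]; exact hz
    · rw [v3]; exact he
    · rw [v4 x hx g1 g2 g3]; exact hx
  rw [mem_Sym]
  refine ⟨⟨?_, ?_⟩, ?_⟩
  · have : IsFn (cy A e y z) A A := by
      unfold cy
      refine lam_isFn fun x hx => ?_
      have := hmem x hx
      unfold cy at this
      rw [app_lam hx] at this
      exact this
    exact this
  · intro x hx x' hx' heq
    rcases hcase x hx with e1 | e1 | e1 | ⟨g1, g2, g3⟩ <;>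
      rcases hcase x' hx' with e2 | e2 | e2 | ⟨g1', g2', g3'⟩
    · rw [e1, e2]
    · rw [e1, e2, v1, v2] at heq; exact absurd heq h3
    · rw [e1, e2, v1, v3] at heq; exact absurd heq h1
    · rw [e1, v1, v4 x' hx' g1' g2' g3'] at heq; exact absurd heq.symm g2'
    · rw [e1, e2, v2, v1] at heq; exact absurd heq.symm h3
    · rw [e1, e2]
    · rw [e1, e2, v2, v3] at heq; exact absurd heq h2
    · rw [e1, v2, v4 x' hx' g1' g2' g3'] at heq; exact absurd heq.symm g3'
    · rw [e1, e2, v3, v1] at heq; exact absurd heq.symm h1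
    · rw [e1, e2, v3, v2] at heq; exact absurd heq.symm h2
    · rw [e1, e2]
    · rw [e1, v3, v4 x' hx' g1' g2' g3'] at heq; exact absurd heq.symm g1'
    · rw [e2, v1, v4 x hx g1 g2 g3] at heq; exact absurd heq g2
    · rw [e2, v2, v4 x hx g1 g2 g3] at heq; exact absurd heq g3
    · rw [e2, v3, v4 x hx g1 g2 g3] at heq; exact absurd heq g1
    · rw [v4 x hx g1 g2 g3, v4 x' hx' g1' g2' g3'] at heq; exact heq
  · intro x hx
    rcases hcase x hx with rfl | rfl | rfl | ⟨g1, g2, g3⟩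
    · exact ⟨z, hz, v3⟩
    · exact ⟨e, he, v1⟩
    · exact ⟨y, hy, v2⟩
    · exact ⟨x, hx, v4 x hx g1 g2 g3⟩

/-- coding of a pair -/
noncomputable def jj (A f e y z : M) : M :=
  ifM (y = e ∨ y = z) z (ifM (z = e) y (snd (app f (cy A e y z))))

instance (priority := 1000) dfJj (A f e : M) (g k : Γ → M) [hg : Df M g] [hk : Df M k] :
    Df M (fun γ => jj A f e (g γ) (k γ)) :=
  (inferInstance : Df M (fun γ => ifM (g γ = e ∨ g γ = k γ) (k γ) (ifM (k γ = e) (g γ)
    (snd (app f (cy A e (g γ) (k γ)))))))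

/-- `(n, x)` is a code -/
def IsCode (A f n x : M) : Prop := ∃ g : M, g ∈ Sym A ∧ app f g = opair n x

instance (priority := 1000) dpIsCode (A f : M) (g k : Γ → M) [hg : Df M g] [hk : Df M k] :
    Dp M (fun γ => IsCode A f (g γ) (k γ)) :=
  (inferInstance : Dp M (fun γ => ∃ h : M, h ∈ Sym A ∧ app f h = opair (g γ) (k γ)))

/-- the permutation coded by `(n, x)` -/
noncomputable def dcp (A f n x : M) : M := the (fun g => g ∈ Sym A ∧ app f g = opair n x)

instance (priority := 1000) dfDcp (A f : M) (g k : Γ → M) [hg : Df M g] [hk : Df M k] :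
    Df M (fun γ => dcp A f (g γ) (k γ)) :=
  (inferInstance : Df M (fun γ => the (fun h => h ∈ Sym A ∧ app f h = opair (g γ) (k γ))))

/-- first decoded element -/
noncomputable def dc1 (A f e n x : M) : M := ifM (IsCode A f n x) (app (dcp A f n x) e) e

/-- second decoded element -/
noncomputable def dc2 (A f e n x : M) : M :=
  ifM (IsCode A f n x) (app (dcp A f n x) (app (dcp A f n x) e)) e

instance (priority := 1000) dfDc1 (A f e : M) (g k : Γ → M) [hg : Df M g] [hk : Df M k] :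
    Df M (fun γ => dc1 A f e (g γ) (k γ)) :=
  (inferInstance : Df M (fun γ => ifM (IsCode A f (g γ) (k γ)) (app (dcp A f (g γ) (k γ)) e) e))

instance (priority := 1000) dfDc2 (A f e : M) (g k : Γ → M) [hg : Df M g] [hk : Df M k] :
    Df M (fun γ => dc2 A f e (g γ) (k γ)) :=
  (inferInstance : Df M (fun γ => ifM (IsCode A f (g γ) (k γ))
    (app (dcp A f (g γ) (k γ)) (app (dcp A f (g γ) (k γ)) e)) e))

/-- one -/
noncomputable def n1 (M : Type u) [Membership M M] [ModelZF M] : M := sc (zr M)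
/-- two -/
noncomputable def n2 (M : Type u) [Membership M M] [ModelZF M] : M := sc (n1 M)
/-- three -/
noncomputable def n3 (M : Type u) [Membership M M] [ModelZF M] : M := sc (n2 M)
/-- four -/
noncomputable def n4 (M : Type u) [Membership M M] [ModelZF M] : M := sc (n3 M)

theorem n1_mem : n1 M ∈ om M := sc_mem zr_mem
theorem n2_mem : n2 M ∈ om M := sc_mem n1_mem
theorem n3_mem : n3 M ∈ om M := sc_mem n2_mem
theorem n4_mem : n4 M ∈ om M := sc_mem n3_mem

theorem n10 : n1 M ≠ zr M := sc_ne_zr _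
theorem n20 : n2 M ≠ zr M := sc_ne_zr _
theorem n30 : n3 M ≠ zr M := sc_ne_zr _
theorem n40 : n4 M ≠ zr M := sc_ne_zr _
theorem n21 : n2 M ≠ n1 M := fun h => n10 (sc_inj h)
theorem n31 : n3 M ≠ n1 M := fun h => n20 (sc_inj h)
theorem n41 : n4 M ≠ n1 M := fun h => n30 (sc_inj h)
theorem n32 : n3 M ≠ n2 M := fun h => n21 (sc_inj h)
theorem n42 : n4 M ≠ n2 M := fun h => n31 (sc_inj h)
theorem n43 : n4 M ≠ n3 M := fun h => n32 (sc_inj h)

/-- one step of the enumeration of the closure -/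
noncomputable def stp (A f e E x m : M) : M :=
  ifM (lf m = zr M) (app E (opair x (lf (rt (rt m)))))
  (ifM (lf m = n1 M) e
  (ifM (lf m = n2 M) (jj A f e (app E (opair x (lf (rt (rt m))))) (app E (opair x (rt (rt (rt m))))))
  (ifM (lf m = n3 M) (dc1 A f e (lf (rt m)) (app E (opair x (lf (rt (rt m))))))
    (dc2 A f e (lf (rt m)) (app E (opair x (lf (rt (rt m)))))))))

instance (priority := 1000) dfStp (A f e : M) (g k l : Γ → M) [hg : Df M g] [hk : Df M k]
    [hl : Df M l] : Df M (fun γ => stp A f e (g γ) (k γ) (l γ)) :=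
  (inferInstance : Df M (fun γ =>
  ifM (lf (l γ) = zr M) (app (g γ) (opair (k γ) (lf (rt (rt (l γ))))))
  (ifM (lf (l γ) = n1 M) e
  (ifM (lf (l γ) = n2 M) (jj A f e (app (g γ) (opair (k γ) (lf (rt (rt (l γ))))))
    (app (g γ) (opair (k γ) (rt (rt (rt (l γ)))))))
  (ifM (lf (l γ) = n3 M) (dc1 A f e (lf (rt (l γ))) (app (g γ) (opair (k γ) (lf (rt (rt (l γ)))))))
    (dc2 A f e (lf (rt (l γ))) (app (g γ) (opair (k γ) (lf (rt (rt (l γ))))))))))))

/-- the sequence of enumerations -/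
noncomputable def Es (A f e : M) : M :=
  recN (Fn (prod A (om M)) A) (lam (prod A (om M)) (fun w => fst w))
    (fun _ E => lam (prod A (om M)) (fun w => stp A f e E (fst w) (snd w)))

/-- the decoding function -/
noncomputable def CC (A f e : M) : M :=
  lam (prod (om M) A) (fun w => app (app (Es A f e) (lf (fst w))) (opair (snd w) (rt (fst w))))

/-- the join function -/
noncomputable def JJ (A f e : M) : M := lam (prod A A) (fun w => jj A f e (fst w) (snd w))

section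

variable {A f e : M} (hf : Inj f (Sym A) (prod (om M) A)) (he : e ∈ A)

include hf he

theorem snd_f_mem {g : M} (hg : g ∈ Sym A) : snd (app f g) ∈ A := by
  obtain ⟨n, _, a, ha, heq⟩ := mem_prod.1 (hf.1.app_mem hg)
  rw [heq, snd_opair]; exact ha

theorem jj_mem {y z : M} (hy : y ∈ A) (hz : z ∈ A) : jj A f e y z ∈ A := by
  unfold jj
  by_cases h1 : y = e ∨ y = z
  · rw [ifM_pos h1]; exact hz
  · rw [ifM_neg h1]
    push Not at h1
    by_cases h2 : z = e
    · rw [ifM_pos h2]; exact hy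
    · rw [ifM_neg h2]
      exact snd_f_mem hf he (cy_mem he hy hz h1.1 h2 h1.2)

theorem dcp_spec {n x : M} (h : IsCode A f n x) : dcp A f n x ∈ Sym A ∧
    app f (dcp A f n x) = opair n x := by
  obtain ⟨g, hg, hgx⟩ := h
  exact the_spec (fun g => g ∈ Sym A ∧ app f g = opair n x)
    ⟨g, ⟨hg, hgx⟩, fun g' ⟨hg', hgx'⟩ => hf.2 g' hg' g hg (hgx'.trans hgx.symm)⟩

theorem dc1_mem (n x : M) : dc1 A f e n x ∈ A := by
  unfold dc1
  by_cases h : IsCode A f n x
  · rw [ifM_pos h]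
    exact (mem_Sym.1 (dcp_spec hf he h).1).1.1.app_mem he
  · rw [ifM_neg h]; exact he

theorem dc2_mem (n x : M) : dc2 A f e n x ∈ A := by
  unfold dc2
  by_cases h : IsCode A f n x
  · rw [ifM_pos h]
    have := (mem_Sym.1 (dcp_spec hf he h).1).1.1
    exact this.app_mem (this.app_mem he)
  · rw [ifM_neg h]; exact he

theorem stp_mem {E x m : M} (hE : IsFn E (prod A (om M)) A) (hx : x ∈ A) :
    stp A f e E x m ∈ A := by
  have h1 : app E (opair x (lf (rt (rt m)))) ∈ A :=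
    hE.app_mem (opair_mem_prod.2 ⟨hx, lf_mem _⟩)
  have h2 : app E (opair x (rt (rt (rt m)))) ∈ A :=
    hE.app_mem (opair_mem_prod.2 ⟨hx, rt_mem _⟩)
  unfold stp
  by_cases c0 : lf m = zr M
  · rw [ifM_pos c0]; exact h1
  · rw [ifM_neg c0]
    by_cases c1 : lf m = n1 M
    · rw [ifM_pos c1]; exact he
    · rw [ifM_neg c1]
      by_cases c2 : lf m = n2 M
      · rw [ifM_pos c2]; exact jj_mem hf he h1 h2
      · rw [ifM_neg c2]
        by_cases c3 : lf m = n3 M
        · rw [ifM_pos c3]; exact dc1_mem hf he _ _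
        · rw [ifM_neg c3]; exact dc2_mem hf he _ _

theorem Es_rec : IsRec (Fn (prod A (om M)) A) (lam (prod A (om M)) (fun w => fst w))
    (fun _ E => lam (prod A (om M)) (fun w => stp A f e E (fst w) (snd w))) (Es A f e) := by
  refine recN_spec _ _ _ ?_ ?_
  · refine mem_Fn.2 (lam_isFn fun w hw => ?_)
    obtain ⟨x, hx, y, _, rfl⟩ := mem_prod.1 hw
    rw [fst_opair]; exact hx
  · intro n _ E hE
    refine mem_Fn.2 (lam_isFn fun w hw => ?_)
    obtain ⟨x, hx, y, _, rfl⟩ := mem_prod.1 hw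
    rw [fst_opair, snd_opair]
    exact stp_mem hf he (mem_Fn.1 hE) hx

theorem Es_fn {k : M} (hk : k ∈ om M) : IsFn (app (Es A f e) k) (prod A (om M)) A :=
  mem_Fn.1 ((Es_rec hf he).1.app_mem hk)

theorem Es_zr {x m : M} (hx : x ∈ A) (hm : m ∈ om M) :
    app (app (Es A f e) (zr M)) (opair x m) = x := by
  rw [(Es_rec hf he).2.1, app_lam (opair_mem_prod.2 ⟨hx, hm⟩), fst_opair]

theorem Es_sc {k x m : M} (hk : k ∈ om M) (hx : x ∈ A) (hm : m ∈ om M) :
    app (app (Es A f e) (sc k)) (opair x m) = stp A f e (app (Es A f e) k) x m := by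
  rw [(Es_rec hf he).2.2 k hk, app_lam (opair_mem_prod.2 ⟨hx, hm⟩), fst_opair, snd_opair]

theorem CC_fn : IsFn (CC A f e) (prod (om M) A) A := by
  refine lam_isFn fun w hw => ?_
  obtain ⟨p, _, x, hx, rfl⟩ := mem_prod.1 hw
  rw [fst_opair, snd_opair]
  exact (Es_fn hf he (lf_mem p)).app_mem (opair_mem_prod.2 ⟨hx, rt_mem p⟩)

theorem JJ_fn : IsFn (JJ A f e) (prod A A) A := by
  refine lam_isFn fun w hw => ?_
  obtain ⟨p, hp, x, hx, rfl⟩ := mem_prod.1 hw
  rw [fst_opair, snd_opair]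
  exact jj_mem hf he hp hx

theorem mem_D {x y : M} (hx : x ∈ A) : y ∈ Dd A (CC A f e) x ↔ ∃ k : M, k ∈ om M ∧
    ∃ m : M, m ∈ om M ∧ y = app (app (Es A f e) k) (opair x m) := by
  unfold Dd
  rw [mem_sep]
  constructor
  · rintro ⟨_, p, hp, rfl⟩
    refine ⟨lf p, lf_mem p, rt p, rt_mem p, ?_⟩
    unfold CC
    rw [app_lam (opair_mem_prod.2 ⟨hp, hx⟩), fst_opair, snd_opair]
  · rintro ⟨k, hk, m, hm, rfl⟩
    refine ⟨(Es_fn hf he hk).app_mem (opair_mem_prod.2 ⟨hx, hm⟩), pr k m, pr_mem hk hm, ?_⟩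
    unfold CC
    rw [app_lam (opair_mem_prod.2 ⟨pr_mem hk hm, hx⟩), fst_opair, snd_opair, lf_pr hk hm,
      rt_pr hk hm]

theorem Es_mono {x : M} (hx : x ∈ A) : ∀ l : M, l ∈ om M → ∀ k : M, k ∈ l → ∀ m : M, m ∈ om M →
    ∃ m' : M, m' ∈ om M ∧ app (app (Es A f e) k) (opair x m)
      = app (app (Es A f e) l) (opair x m') := by
  apply om_induction
  · intro k hk; exact absurd hk (not_mem_zr k)
  · intro l hl ih k hk m hm
    have key : ∀ m : M, m ∈ om M → ∃ m' : M, m' ∈ om M ∧ app (app (Es A f e) l) (opair x m)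
        = app (app (Es A f e) (sc l)) (opair x m') := by
      intro m hm
      refine ⟨pr (zr M) (pr (zr M) (pr m (zr M))), pr_mem zr_mem (pr_mem zr_mem (pr_mem hm zr_mem)),
        ?_⟩
      rw [Es_sc hf he hl hx (pr_mem zr_mem (pr_mem zr_mem (pr_mem hm zr_mem)))]
      unfold stp
      rw [lf_pr zr_mem (pr_mem zr_mem (pr_mem hm zr_mem)), ifM_pos rfl,
        rt_pr zr_mem (pr_mem zr_mem (pr_mem hm zr_mem)), rt_pr zr_mem (pr_mem hm zr_mem),
        lf_pr hm zr_mem]
    rcases mem_sc.1 hk with hk | rfl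
    · obtain ⟨m1, hm1, e1⟩ := ih k hk m hm
      obtain ⟨m2, hm2, e2⟩ := key m1 hm1
      exact ⟨m2, hm2, e1.trans e2⟩
    · exact key m hm

/-- two elements of the closure occur at a common level -/
theorem common {x y z : M} (hx : x ∈ A) (hy : y ∈ Dd A (CC A f e) x)
    (hz : z ∈ Dd A (CC A f e) x) : ∃ k : M, k ∈ om M ∧ ∃ m : M, m ∈ om M ∧ ∃ m' : M, m' ∈ om M ∧
      y = app (app (Es A f e) k) (opair x m) ∧ z = app (app (Es A f e) k) (opair x m') := by
  obtain ⟨k, hk, m, hm, e1⟩ := (mem_D hf he hx).1 hy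
  obtain ⟨l, hl, m', hm', e2⟩ := (mem_D hf he hx).1 hz
  rcases om_tri hk hl with h | h | h
  · obtain ⟨m1, hm1, e3⟩ := Es_mono hf he hx l hl k h m hm
    exact ⟨l, hl, m1, hm1, m', hm', e1.trans e3, e2⟩
  · subst h
    exact ⟨k, hk, m, hm, m', hm', e1, e2⟩
  · obtain ⟨m1, hm1, e3⟩ := Es_mono hf he hx k hk l h m' hm'
    exact ⟨k, hk, m, hm, m1, hm1, e1, e2.trans e3⟩

theorem D_self {x : M} (hx : x ∈ A) : x ∈ Dd A (CC A f e) x :=
  (mem_D hf he hx).2 ⟨zr M, zr_mem, zr M, zr_mem, (Es_zr hf he hx zr_mem).symm⟩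

theorem D_e {x : M} (hx : x ∈ A) : e ∈ Dd A (CC A f e) x := by
  refine (mem_D hf he hx).2 ⟨sc (zr M), sc_mem zr_mem, pr (n1 M) (zr M), pr_mem n1_mem zr_mem, ?_⟩
  rw [Es_sc hf he zr_mem hx (pr_mem n1_mem zr_mem)]
  unfold stp
  rw [lf_pr n1_mem zr_mem, ifM_neg n10, ifM_pos rfl]

theorem D_jj {x y z : M} (hx : x ∈ A) (hy : y ∈ Dd A (CC A f e) x)
    (hz : z ∈ Dd A (CC A f e) x) : jj A f e y z ∈ Dd A (CC A f e) x := by
  obtain ⟨k, hk, m, hm, m', hm', e1, e2⟩ := common hf he hx hy hz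
  have hc : pr (n2 M) (pr (zr M) (pr m m')) ∈ om M :=
    pr_mem n2_mem (pr_mem zr_mem (pr_mem hm hm'))
  refine (mem_D hf he hx).2 ⟨sc k, sc_mem hk, _, hc, ?_⟩
  rw [Es_sc hf he hk hx hc]
  unfold stp
  rw [lf_pr n2_mem (pr_mem zr_mem (pr_mem hm hm')), rt_pr n2_mem (pr_mem zr_mem (pr_mem hm hm')),
    rt_pr zr_mem (pr_mem hm hm'), lf_pr hm hm', rt_pr hm hm', ifM_neg n20, ifM_neg n21,
    ifM_pos rfl, ← e1, ← e2]

theorem D_dc1 {x y n : M} (hx : x ∈ A) (hy : y ∈ Dd A (CC A f e) x) (hn : n ∈ om M) :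
    dc1 A f e n y ∈ Dd A (CC A f e) x := by
  obtain ⟨k, hk, m, hm, e1⟩ := (mem_D hf he hx).1 hy
  have hc : pr (n3 M) (pr n (pr m (zr M))) ∈ om M :=
    pr_mem n3_mem (pr_mem hn (pr_mem hm zr_mem))
  refine (mem_D hf he hx).2 ⟨sc k, sc_mem hk, _, hc, ?_⟩
  rw [Es_sc hf he hk hx hc]
  unfold stp
  rw [lf_pr n3_mem (pr_mem hn (pr_mem hm zr_mem)), rt_pr n3_mem (pr_mem hn (pr_mem hm zr_mem)),
    rt_pr hn (pr_mem hm zr_mem), lf_pr hn (pr_mem hm zr_mem), lf_pr hm zr_mem, ifM_neg n30,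
    ifM_neg n31, ifM_neg n32, ifM_pos rfl, ← e1]

theorem D_dc2 {x y n : M} (hx : x ∈ A) (hy : y ∈ Dd A (CC A f e) x) (hn : n ∈ om M) :
    dc2 A f e n y ∈ Dd A (CC A f e) x := by
  obtain ⟨k, hk, m, hm, e1⟩ := (mem_D hf he hx).1 hy
  have hc : pr (n4 M) (pr n (pr m (zr M))) ∈ om M :=
    pr_mem n4_mem (pr_mem hn (pr_mem hm zr_mem))
  refine (mem_D hf he hx).2 ⟨sc k, sc_mem hk, _, hc, ?_⟩
  rw [Es_sc hf he hk hx hc]
  unfold stp
  rw [lf_pr n4_mem (pr_mem hn (pr_mem hm zr_mem)), rt_pr n4_mem (pr_mem hn (pr_mem hm zr_mem)),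
    rt_pr hn (pr_mem hm zr_mem), lf_pr hn (pr_mem hm zr_mem), lf_pr hm zr_mem, ifM_neg n40,
    ifM_neg n41, ifM_neg n42, ifM_neg n43, ← e1]

theorem D_trans {x y : M} (hx : x ∈ A) (hy : y ∈ Dd A (CC A f e) x) :
    Sub (Dd A (CC A f e) y) (Dd A (CC A f e) x) := by
  have hyA : y ∈ A := ((mem_sep _ _ _).1 hy).1
  have key : ∀ k : M, k ∈ om M → ∀ m : M, m ∈ om M →
      app (app (Es A f e) k) (opair y m) ∈ Dd A (CC A f e) x := by
    apply om_induction
    · intro m hm
      rw [Es_zr hf he hyA hm]; exact hy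
    · intro k hk ih m hm
      rw [Es_sc hf he hk hyA hm]
      unfold stp
      by_cases c0 : lf m = zr M
      · rw [ifM_pos c0]; exact ih _ (lf_mem _)
      · rw [ifM_neg c0]
        by_cases c1 : lf m = n1 M
        · rw [ifM_pos c1]; exact D_e hf he hx
        · rw [ifM_neg c1]
          by_cases c2 : lf m = n2 M
          · rw [ifM_pos c2]; exact D_jj hf he hx (ih _ (lf_mem _)) (ih _ (rt_mem _))
          · rw [ifM_neg c2]
            by_cases c3 : lf m = n3 M
            · rw [ifM_pos c3]; exact D_dc1 hf he hx (ih _ (lf_mem _)) (lf_mem _)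
            · rw [ifM_neg c3]; exact D_dc2 hf he hx (ih _ (lf_mem _)) (lf_mem _)
  intro z hz
  obtain ⟨k, hk, m, hm, rfl⟩ := (mem_D hf he hyA).1 hz
  exact key k hk m hm

theorem jj_decode {y z : M} (hy : y ∈ A) (hz : z ∈ A) :
    y ∈ Dd A (CC A f e) (jj A f e y z) ∧ z ∈ Dd A (CC A f e) (jj A f e y z) := by
  by_cases h1 : y = e ∨ y = z
  · have : jj A f e y z = z := by unfold jj; rw [ifM_pos h1]
    rw [this]
    refine ⟨?_, D_self hf he hz⟩
    rcases h1 with rfl | rfl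
    · exact D_e hf he hz
    · exact D_self hf he hz
  · by_cases h2 : z = e
    · have : jj A f e y z = y := by unfold jj; rw [ifM_neg h1, ifM_pos h2]
      rw [this, h2]
      exact ⟨D_self hf he hy, D_e hf he hy⟩
    · have hj : jj A f e y z = snd (app f (cy A e y z)) := by
        unfold jj; rw [ifM_neg h1, ifM_neg h2]
      push Not at h1
      have hcy := cy_mem he hy hz h1.1 h2 h1.2
      obtain ⟨n, hn, a, ha, heq⟩ := mem_prod.1 (hf.1.app_mem hcy)
      have hja : jj A f e y z = a := by rw [hj, heq, snd_opair]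
      rw [hja]
      have hcode : IsCode A f n a := ⟨_, hcy, heq⟩
      have hd : dcp A f n a = cy A e y z :=
        hf.2 _ (dcp_spec hf he hcode).1 _ hcy ((dcp_spec hf he hcode).2.trans heq.symm)
      have v1 : app (cy A e y z) e = y := by unfold cy; rw [app_lam he, ifM_pos rfl]
      have v2 : app (cy A e y z) y = z := by
        unfold cy; rw [app_lam hy, ifM_neg h1.1, ifM_pos rfl]
      constructor
      · have := D_dc1 hf he ha (D_self hf he ha) hn
        unfold dc1 at this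
        rw [ifM_pos hcode, hd, v1] at this
        exact this
      · have := D_dc2 hf he ha (D_self hf he ha) hn
        unfold dc2 at this
        rw [ifM_pos hcode, hd, v1, v2] at this
        exact this

theorem JJ_app {y z : M} (hy : y ∈ A) (hz : z ∈ A) :
    app (JJ A f e) (opair y z) = jj A f e y z := by
  unfold JJ
  rw [app_lam (opair_mem_prod.2 ⟨hy, hz⟩), fst_opair, snd_opair]

theorem dec_struct (hinf : ∀ n : M, n ∈ om M → ¬ ∃ g : M, Bij g n A) :
    Dec A (CC A f e) (JJ A f e) := by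
  refine ⟨noN_of_inj hf, hinf, CC_fn hf he, JJ_fn hf he, fun x hx => D_self hf he hx,
    fun x hx y hy => D_trans hf he hx hy, ?_, ?_, ?_⟩
  · intro x hx y hy z hz
    rw [JJ_app hf he ((mem_sep _ _ _).1 hy).1 ((mem_sep _ _ _).1 hz).1]
    exact D_jj hf he hx hy hz
  · intro y hy z hz
    rw [JJ_app hf he hy hz]
    exact jj_decode hf he hy hz
  · intro r hr h1 h2
    exact no_disjoint_seq hf r hr h1 h2

end

/-- main theorem, internal form -/
theorem no_inj {A : M} (hinf : ∀ n : M, n ∈ om M → ¬ ∃ g : M, Bij g n A) :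
    ¬ ∃ f : M, Inj f (Sym A) (prod (om M) A) := by
  rintro ⟨f, hf⟩
  by_cases hA : ∃ e : M, e ∈ A
  · obtain ⟨e, he⟩ := hA
    exact (dec_struct hf he hinf).core_false
  · push Not at hA
    refine hinf (zr M) zr_mem ⟨emp M, ⟨⟨?_, ?_⟩, ?_⟩, ?_⟩
    · intro z hz; exact absurd hz (mem_emp z)
    · intro z hz; exact absurd hz (not_mem_zr z)
    · intro z hz; exact absurd hz (not_mem_zr z)
    · intro z hz; exact absurd hz (hA z)

end Pool.Agent.H78
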