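import Pool.Agent.H78.ZFSets

/-!
Natural numbers inside a model of ZF.
-/

set_option autoImplicit false
set_option linter.unusedSectionVars false
set_option synthInstance.maxSize 100000

namespace Pool.Agent.H78

universe u

variable {M : Type u} [Membership M M] [ModelZF M] {Γ : Type u} [Ctx M Γ]

/-! ### foundation -/

theorem not_mem_self (x : M) : ¬ x ∈ x := by
  intro h
  obtain ⟨y, hy, hz⟩ := ModelZF.foundation (sing x) ⟨x, mem_sing.2 rfl⟩
  rw [mem_sing] at hy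
  subst hy
  exact hz y ⟨mem_sing.2 rfl, h⟩

theorem not_mem_cycle {x y : M} (h1 : x ∈ y) (h2 : y ∈ x) : False := by
  obtain ⟨z, hz, hw⟩ := ModelZF.foundation (upair x y) ⟨x, mem_upair.2 (Or.inl rfl)⟩
  rcases mem_upair.1 hz with rfl | rfl
  · exact hw y ⟨mem_upair.2 (Or.inr rfl), h2⟩
  · exact hw x ⟨mem_upair.2 (Or.inl rfl), h1⟩

/-! ### natural numbers -/

/-- successor -/
noncomputable def sc (x : M) : M := un x (sing x)

theorem mem_sc {x z : M} : z ∈ sc x ↔ (z ∈ x ∨ z = x) := by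
  unfold sc; rw [mem_un, mem_sing]

theorem self_mem_sc (x : M) : x ∈ sc x := mem_sc.2 (Or.inr rfl)

instance (priority := 1000) dfSc (f : Γ → M) [hf : Df M f] : Df M (fun γ => sc (f γ)) :=
  (inferInstance : Df M (fun γ => un (f γ) (sing (f γ))))

/-- inductive sets -/
def Ind (w : M) : Prop := emp M ∈ w ∧ ∀ y : M, y ∈ w → sc y ∈ w

instance (priority := 1000) dpInd (f : Γ → M) [hf : Df M f] : Dp M (fun γ => Ind (f γ)) :=
  (inferInstance : Dp M (fun γ => emp M ∈ f γ ∧ ∀ y : M, y ∈ f γ → sc y ∈ f γ))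

theorem exists_ind (M : Type u) [Membership M M] [ModelZF M] : ∃ w : M, Ind w := by
  obtain ⟨x, ⟨e, he, hee⟩, hs⟩ := ModelZF.infinity (M := M)
  refine ⟨x, ?_, ?_⟩
  · rw [← eq_emp hee]; exact he
  · intro y hy
    obtain ⟨s, hs1, hs2⟩ := hs y hy
    have : s = sc y := ext fun z => by rw [hs2, mem_sc]
    rw [← this]; exact hs1

/-- the set of natural numbers -/
noncomputable def om (M : Type u) [Membership M M] [ModelZF M] : M :=
  sep (exists_ind M).choose (fun n => ∀ w : M, Ind w → n ∈ w)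

theorem om_ind_set : Ind (om M) := by
  have h := (exists_ind M).choose_spec
  constructor
  · exact (mem_sep _ _ _).2 ⟨h.1, fun w hw => hw.1⟩
  · intro y hy
    have := (mem_sep _ _ _).1 hy
    exact (mem_sep _ _ _).2 ⟨h.2 y this.1, fun w hw => hw.2 y (this.2 w hw)⟩

theorem om_sub_ind {w : M} (hw : Ind w) : Sub (om M) w :=
  fun _ hn => ((mem_sep _ _ _).1 hn).2 w hw

/-- zero -/
noncomputable def zr (M : Type u) [Membership M M] [ModelZF M] : M := emp M

theorem zr_mem : zr M ∈ om M := om_ind_set.1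

theorem sc_mem {n : M} (h : n ∈ om M) : sc n ∈ om M := om_ind_set.2 n h

theorem om_induction (P : M → Prop) [hP : Dp M (fun w : PUnit.{u+1} × M => P w.2)]
    (h0 : P (zr M)) (hs : ∀ n : M, n ∈ om M → P n → P (sc n)) : ∀ n : M, n ∈ om M → P n := by
  intro n hn
  have : Ind (sep (om M) P) := by
    constructor
    · exact (mem_sep _ _ _).2 ⟨zr_mem, h0⟩
    · intro y hy
      have := (mem_sep _ _ _).1 hy
      exact (mem_sep _ _ _).2 ⟨sc_mem this.1, hs y this.1 this.2⟩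
  exact ((mem_sep _ _ _).1 (om_sub_ind this n hn)).2

theorem not_mem_zr (x : M) : ¬ x ∈ zr M := mem_emp x

theorem sc_ne_zr (n : M) : sc n ≠ zr M := fun h => not_mem_zr n (h ▸ self_mem_sc n)

theorem om_trans {m n k : M} (hn : n ∈ om M) (hmn : m ∈ n) (hk : k ∈ m) : k ∈ n := by
  have key : ∀ n : M, n ∈ om M → ∀ m : M, m ∈ n → ∀ k : M, k ∈ m → k ∈ n := by
    apply om_induction
    · intro m hm; exact absurd hm (not_mem_zr m)
    · intro n _ ih m hm k hk
      rcases mem_sc.1 hm with h | rfl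
      · exact mem_sc.2 (Or.inl (ih m h k hk))
      · exact mem_sc.2 (Or.inl hk)
  exact key n hn m hmn k hk

theorem om_mem {m n : M} (hn : n ∈ om M) (hmn : m ∈ n) : m ∈ om M := by
  have key : ∀ n : M, n ∈ om M → ∀ m : M, m ∈ n → m ∈ om M := by
    apply om_induction
    · intro m hm; exact absurd hm (not_mem_zr m)
    · intro n hn' ih m hm
      rcases mem_sc.1 hm with h | rfl
      · exact ih m h
      · exact hn'
  exact key n hn m hmn

theorem sc_inj {m n : M} (h : sc m = sc n) : m = n := by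
  have h1 : m ∈ sc n := h ▸ self_mem_sc m
  have h2 : n ∈ sc m := h.symm ▸ self_mem_sc n
  rcases mem_sc.1 h1 with h1 | h1
  · rcases mem_sc.1 h2 with h2 | h2
    · exact (not_mem_cycle h1 h2).elim
    · exact h2.symm
  · exact h1

theorem zr_or {n : M} (hn : n ∈ om M) : n = zr M ∨ zr M ∈ n := by
  have key : ∀ n : M, n ∈ om M → (n = zr M ∨ zr M ∈ n) := by
    apply om_induction
    · exact Or.inl rfl
    · intro n _ ih
      right
      rcases ih with h | h
      · rw [h]; exact self_mem_sc _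
      · exact mem_sc.2 (Or.inl h)
  exact key n hn

theorem sc_mem_sc {m n : M} (hn : n ∈ om M) (h : m ∈ n) : sc m ∈ sc n := by
  have key : ∀ n : M, n ∈ om M → ∀ m : M, m ∈ n → sc m ∈ sc n := by
    apply om_induction
    · intro m hm; exact absurd hm (not_mem_zr m)
    · intro n _ ih m hm
      rcases mem_sc.1 hm with h | rfl
      · exact mem_sc.2 (Or.inl (ih m h))
      · exact self_mem_sc _
  exact key n hn m h

theorem om_tri {m n : M} (hm : m ∈ om M) (hn : n ∈ om M) : m ∈ n ∨ m = n ∨ n ∈ m := by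
  have key : ∀ m : M, m ∈ om M → ∀ n : M, n ∈ om M → (m ∈ n ∨ m = n ∨ n ∈ m) := by
    apply om_induction
    · intro n hn
      rcases zr_or hn with h | h
      · exact Or.inr (Or.inl h.symm)
      · exact Or.inl h
    · intro m hm ih n hn
      rcases ih n hn with h | h | h
      · rcases mem_sc.1 (sc_mem_sc hn h) with h' | h'
        · exact Or.inl h'
        · exact Or.inr (Or.inl h')
      · rw [← h]; exact Or.inr (Or.inr (self_mem_sc _))
      · exact Or.inr (Or.inr (mem_sc.2 (Or.inl h)))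
  exact key m hm n hn

/-- least element principle -/
theorem om_least (P : M → Prop) [hP : Dp M (fun w : PUnit.{u+1} × M => P w.2)]
    (h : ∃ n : M, n ∈ om M ∧ P n) :
    ∃ n : M, n ∈ om M ∧ P n ∧ ∀ m : M, m ∈ n → ¬ P m := by
  obtain ⟨n, hn, hPn⟩ := h
  obtain ⟨y, hy, hz⟩ := ModelZF.foundation (sep (om M) P) ⟨n, (mem_sep _ _ _).2 ⟨hn, hPn⟩⟩
  have hy' := (mem_sep _ _ _).1 hy
  refine ⟨y, hy'.1, hy'.2, fun m hm hPm => hz m ⟨(mem_sep _ _ _).2 ⟨om_mem hy'.1 hm, hPm⟩, hm⟩⟩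

/-- the least natural number with `P` -/
noncomputable def mu (P : M → Prop) : M := the (fun n => n ∈ om M ∧ P n ∧ ∀ m : M, m ∈ n → ¬ P m)

instance (priority := 1000) dfMu (P : Γ → M → Prop) [hP : Dp M (fun w : Γ × M => P w.1 w.2)] :
    Df M (fun γ => mu (P γ)) := by
  have h1 := dpPMap1 P (fun w : Γ × M => w.1)
  exact (inferInstance : Df M (fun γ => the (fun n : M => n ∈ om M ∧ P γ n ∧
    ∀ m : M, m ∈ n → ¬ P γ m)))

theorem mu_spec (P : M → Prop) [hP : Dp M (fun w : PUnit.{u+1} × M => P w.2)]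
    (h : ∃ n : M, n ∈ om M ∧ P n) :
    mu P ∈ om M ∧ P (mu P) ∧ ∀ m : M, m ∈ mu P → ¬ P m := by
  refine the_spec (fun n => n ∈ om M ∧ P n ∧ ∀ m : M, m ∈ n → ¬ P m) ?_
  obtain ⟨n, h1, h2, h3⟩ := om_least P h
  refine ⟨n, ⟨h1, h2, h3⟩, fun m ⟨g1, g2, g3⟩ => ?_⟩
  rcases om_tri h1 g1 with h | h | h
  · exact absurd h2 (g3 _ h)
  · exact h.symm
  · exact absurd g2 (h3 _ h)

/-! ### recursion -/

/-- the recursion equations -/
def IsRec (X x0 : M) (G : M → M → M) (F : M) : Prop :=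
  IsFn F (om M) X ∧ app F (zr M) = x0 ∧ ∀ n : M, n ∈ om M → app F (sc n) = G n (app F n)

/-- function defined by recursion -/
noncomputable def recN (X x0 : M) (G : M → M → M) : M := the (fun F => IsRec X x0 G F)

theorem dfPMap3 (G : Γ → M → M → M) [hG : Df M (fun w : (Γ × M) × M => G w.1.1 w.1.2 w.2)]
    {Δ : Type u} [Ctx M Δ] (g : Δ → Γ) [hg : PMap M g] (x y : Δ → M) [hx : Df M x] [hy : Df M y] :
    Df M (fun w : Δ => G (g w) (x w) (y w)) := by
  have h0 := hG.out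
  have hx0 := hx.out
  have hy0 := hy.out
  -- context (((Δ × M) × M) × M) : value, x, y
  have i0 : PMap M (fun w : ((Δ × M) × M) × M => (((g w.1.1.1, w.1.2), w.2), w.1.1.2)) := by
    have : PMap M (fun w : ((Δ × M) × M) × M => g w.1.1.1) := by
      obtain ⟨ρ, hρ⟩ := hg.out
      refine ⟨⟨fun i => ρ i + 3, fun w q i hi => ?_⟩⟩
      have := hρ w.1.1.1 q i hi
      refine ⟨by
        show ρ i + 3 < Ctx.len M Δ + 1 + 1 + 1
        omega, this.2⟩
    exact pmapPair (hg := pmapPair (hg := pmapPair (hg := this) _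
      (fun w : ((Δ × M) × M) × M => w.1)) _ (fun w : ((Δ × M) × M) × M => w)) _
      (fun w : ((Δ × M) × M) × M => w.1.1)
  have h1 : Dp M (fun w : ((Δ × M) × M) × M => w.1.1.2 = G (g w.1.1.1) w.1.2 w.2) :=
    dpPMap (fun w : ((Γ × M) × M) × M => w.2 = G w.1.1.1 w.1.1.2 w.1.2)
      (fun w : ((Δ × M) × M) × M => (((g w.1.1.1, w.1.2), w.2), w.1.1.2))
  refine ⟨Dp.congr (inferInstance : Dp M (fun w : Δ × M => ∃ a : M, a = x w.1 ∧
    ∃ b : M, b = y w.1 ∧ w.2 = G (g w.1) a b)) (fun w => by simp)⟩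

instance (priority := 1000) dfRecN (f g : Γ → M) (G : Γ → M → M → M) [hf : Df M f] [hg : Df M g]
    [hG : Df M (fun w : (Γ × M) × M => G w.1.1 w.1.2 w.2)] :
    Df M (fun γ => recN (f γ) (g γ) (G γ)) := by
  have h1 : Df M (fun w : (Γ × M) × M => G w.1.1 w.2 (app w.1.2 w.2)) :=
    dfPMap3 G (fun w : (Γ × M) × M => w.1.1) (fun w => w.2) (fun w => app w.1.2 w.2)
  exact (inferInstance : Df M (fun γ => the (fun F : M => IsFn F (om M) (f γ) ∧
    app F (zr M) = g γ ∧ ∀ n : M, n ∈ om M → app F (sc n) = G γ n (app F n))))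

theorem isRec_unique {X x0 : M} {G : M → M → M} {F F' : M} (h : IsRec X x0 G F)
    (h' : IsRec X x0 G F') : F = F' := by
  refine h.1.ext h'.1 ?_
  apply om_induction
  · rw [h.2.1, h'.2.1]
  · intro n hn ih
    rw [h.2.2 n hn, h'.2.2 n hn, ih]

/-- closed sets of pairs, for the recursion theorem -/
def RecCl (x0 : M) (G : M → M → M) (S : M) : Prop :=
  opair (zr M) x0 ∈ S ∧ ∀ n : M, n ∈ om M → ∀ x : M, opair n x ∈ S → opair (sc n) (G n x) ∈ S

theorem exists_rec (X x0 : M) (G : M → M → M)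
    [hG : Df M (fun w : (PUnit.{u+1} × M) × M => G w.1.2 w.2)]
    (h0 : x0 ∈ X) (hs : ∀ n : M, n ∈ om M → ∀ x : M, x ∈ X → G n x ∈ X) :
    ∃ F : M, IsRec X x0 G F := by
  have iG : Dp M (fun w : PUnit.{u+1} × M => RecCl x0 G w.2) :=
    (inferInstance : Dp M (fun w : PUnit.{u+1} × M => opair (zr M) x0 ∈ w.2 ∧
      ∀ n : M, n ∈ om M → ∀ x : M, opair n x ∈ w.2 → opair (sc n) (G n x) ∈ w.2))
  set R : M := sep (prod (om M) X) (fun z => ∀ S : M, RecCl x0 G S → z ∈ S) with hR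
  have memR : ∀ z : M, z ∈ R ↔ (z ∈ prod (om M) X ∧ ∀ S : M, RecCl x0 G S → z ∈ S) :=
    fun z => mem_sep _ _ _
  have R0 : opair (zr M) x0 ∈ R :=
    (memR _).2 ⟨opair_mem_prod.2 ⟨zr_mem, h0⟩, fun S hS => hS.1⟩
  have Rs : ∀ n : M, n ∈ om M → ∀ x : M, opair n x ∈ R → opair (sc n) (G n x) ∈ R := by
    intro n hn x hx
    obtain ⟨h1, h2⟩ := (memR _).1 hx
    refine (memR _).2 ⟨opair_mem_prod.2 ⟨sc_mem hn, hs n hn x (opair_mem_prod.1 h1).2⟩,
      fun S hS => hS.2 n hn x (h2 S hS)⟩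
  -- removing a pair
  have remove : ∀ a b : M, opair a b ∈ R → (∀ S : M, S = sep R (fun z => z ≠ opair a b) →
      ¬ RecCl x0 G S) := by
    intro a b hab S hS hcl
    have := ((memR _).1 hab).2 S hcl
    rw [hS] at this
    exact ((mem_sep _ _ _).1 this).2 rfl
  have uniq : ∀ n : M, n ∈ om M → ∃! x : M, opair n x ∈ R := by
    apply om_induction
    · refine ⟨x0, R0, fun y hy => ?_⟩
      by_contra hne
      refine remove _ _ hy _ rfl ⟨(mem_sep _ _ _).2 ⟨R0, ?_⟩, ?_⟩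
      · intro h; exact hne (opair_inj h).2.symm
      · intro n hn x hx
        refine (mem_sep _ _ _).2 ⟨Rs n hn x ((mem_sep _ _ _).1 hx).1, ?_⟩
        intro h; exact sc_ne_zr n (opair_inj h).1
    · intro n hn ih
      obtain ⟨x, hx, hux⟩ := ih
      refine ⟨G n x, Rs n hn x hx, fun y hy => ?_⟩
      by_contra hne
      refine remove _ _ hy _ rfl ⟨(mem_sep _ _ _).2 ⟨R0, ?_⟩, ?_⟩
      · intro h; exact sc_ne_zr n (opair_inj h).1.symm
      · intro m hm x' hx'
        refine (mem_sep _ _ _).2 ⟨Rs m hm x' ((mem_sep _ _ _).1 hx').1, ?_⟩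
        intro h
        have h1 := sc_inj (opair_inj h).1
        subst h1
        have h2 := hux x' ((mem_sep _ _ _).1 hx').1
        subst h2
        exact hne (opair_inj h).2.symm
  have hfn : IsFn R (om M) X := ⟨fun z hz => ((memR z).1 hz).1, uniq⟩
  exact ⟨R, hfn, hfn.app_eq R0, fun n hn => hfn.app_eq (Rs n hn _ (hfn.app_spec hn))⟩

theorem recN_spec (X x0 : M) (G : M → M → M)
    [hG : Df M (fun w : (PUnit.{u+1} × M) × M => G w.1.2 w.2)]
    (h0 : x0 ∈ X) (hs : ∀ n : M, n ∈ om M → ∀ x : M, x ∈ X → G n x ∈ X) :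
    IsRec X x0 G (recN X x0 G) := by
  obtain ⟨F, hF⟩ := exists_rec X x0 G h0 hs
  exact the_spec (fun F => IsRec X x0 G F) ⟨F, hF, fun F' hF' => isRec_unique hF' hF⟩

/-! ### a pairing function -/

/-- doubling -/
noncomputable def dblF (M : Type u) [Membership M M] [ModelZF M] : M :=
  recN (om M) (zr M) (fun _ x => sc (sc x))

theorem dblF_rec : IsRec (om M) (zr M) (fun _ x => sc (sc x)) (dblF M) :=
  recN_spec _ _ _ zr_mem (fun _ _ _ hx => sc_mem (sc_mem hx))

/-- doubling -/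
noncomputable def dbl (n : M) : M := app (dblF M) n

instance (priority := 1000) dfDbl (f : Γ → M) [hf : Df M f] : Df M (fun γ => dbl (f γ)) :=
  (inferInstance : Df M (fun γ => app (dblF M) (f γ)))

theorem dbl_mem {n : M} (h : n ∈ om M) : dbl n ∈ om M := dblF_rec.1.app_mem h

theorem dbl_zr : dbl (zr M) = zr M := dblF_rec.2.1

theorem dbl_sc {n : M} (h : n ∈ om M) : dbl (sc n) = sc (sc (dbl n)) := dblF_rec.2.2 n h

theorem eq_zr_or_sc {n : M} (hn : n ∈ om M) : n = zr M ∨ ∃ m : M, m ∈ om M ∧ n = sc m := by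
  have key : ∀ n : M, n ∈ om M → (n = zr M ∨ ∃ m : M, m ∈ om M ∧ n = sc m) := by
    apply om_induction
    · exact Or.inl rfl
    · intro n hn _; exact Or.inr ⟨n, hn, rfl⟩
  exact key n hn

theorem dbl_inj {m n : M} (hm : m ∈ om M) (hn : n ∈ om M) (h : dbl m = dbl n) : m = n := by
  have key : ∀ m : M, m ∈ om M → ∀ n : M, n ∈ om M → dbl m = dbl n → m = n := by
    apply om_induction
    · intro n hn h
      rcases eq_zr_or_sc hn with rfl | ⟨k, hk, rfl⟩
      · rfl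
      · rw [dbl_zr, dbl_sc hk] at h; exact absurd h.symm (sc_ne_zr _)
    · intro m hm ih n hn h
      rcases eq_zr_or_sc hn with rfl | ⟨k, hk, rfl⟩
      · rw [dbl_zr, dbl_sc hm] at h; exact absurd h (sc_ne_zr _)
      · rw [dbl_sc hm, dbl_sc hk] at h
        rw [ih k hk (sc_inj (sc_inj h))]
  exact key m hm n hn h

theorem dbl_ne_sc_dbl {m n : M} (hm : m ∈ om M) (hn : n ∈ om M) : dbl m ≠ sc (dbl n) := by
  have key : ∀ m : M, m ∈ om M → ∀ n : M, n ∈ om M → dbl m ≠ sc (dbl n) := by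
    apply om_induction
    · intro n hn h
      rw [dbl_zr] at h; exact absurd h.symm (sc_ne_zr _)
    · intro m hm ih n hn h
      rw [dbl_sc hm] at h
      have h1 := sc_inj h
      rcases eq_zr_or_sc hn with rfl | ⟨k, hk, rfl⟩
      · rw [dbl_zr] at h1; exact absurd h1 (sc_ne_zr _)
      · rw [dbl_sc hk] at h1
        exact ih k hk (sc_inj h1)
  exact key m hm n hn

/-- auxiliary function for pairing -/
noncomputable def prF (M : Type u) [Membership M M] [ModelZF M] : M :=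
  recN (Fn (om M) (om M)) (lam (om M) (fun n => sc (dbl n)))
    (fun _ E => lam (om M) (fun n => dbl (app E n)))

theorem prF_rec : IsRec (Fn (om M) (om M)) (lam (om M) (fun n => sc (dbl n)))
    (fun _ E => lam (om M) (fun n => dbl (app E n))) (prF M) := by
  refine recN_spec _ _ _ ?_ ?_
  · exact mem_Fn.2 (lam_isFn fun n hn => sc_mem (dbl_mem hn))
  · intro n _ E hE
    exact mem_Fn.2 (lam_isFn fun n hn => dbl_mem ((mem_Fn.1 hE).app_mem hn))

/-- pairing function on natural numbers -/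
noncomputable def pr (m n : M) : M := app (app (prF M) m) n

instance (priority := 1000) dfPr (f g : Γ → M) [hf : Df M f] [hg : Df M g] :
    Df M (fun γ => pr (f γ) (g γ)) :=
  (inferInstance : Df M (fun γ => app (app (prF M) (f γ)) (g γ)))

theorem pr_mem {m n : M} (hm : m ∈ om M) (hn : n ∈ om M) : pr m n ∈ om M :=
  (mem_Fn.1 (prF_rec.1.app_mem hm)).app_mem hn

theorem pr_zr {n : M} (hn : n ∈ om M) : pr (zr M) n = sc (dbl n) := by
  unfold pr; rw [prF_rec.2.1, app_lam hn]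

theorem pr_sc {m n : M} (hm : m ∈ om M) (hn : n ∈ om M) : pr (sc m) n = dbl (pr m n) := by
  unfold pr; rw [prF_rec.2.2 m hm, app_lam hn]

theorem pr_inj {m n m' n' : M} (hm : m ∈ om M) (hn : n ∈ om M) (hm' : m' ∈ om M)
    (hn' : n' ∈ om M) (h : pr m n = pr m' n') : m = m' ∧ n = n' := by
  have key : ∀ m : M, m ∈ om M → ∀ n : M, n ∈ om M → ∀ m' : M, m' ∈ om M → ∀ n' : M,
      n' ∈ om M → pr m n = pr m' n' → (m = m' ∧ n = n') := by
    apply om_induction
    · intro n hn m' hm' n' hn' h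
      rcases eq_zr_or_sc hm' with rfl | ⟨k, hk, rfl⟩
      · rw [pr_zr hn, pr_zr hn'] at h
        exact ⟨rfl, dbl_inj hn hn' (sc_inj h)⟩
      · rw [pr_zr hn, pr_sc hk hn'] at h
        exact absurd h.symm (dbl_ne_sc_dbl (pr_mem hk hn') hn)
    · intro m hm ih n hn m' hm' n' hn' h
      rcases eq_zr_or_sc hm' with rfl | ⟨k, hk, rfl⟩
      · rw [pr_zr hn', pr_sc hm hn] at h
        exact absurd h (dbl_ne_sc_dbl (pr_mem hm hn) hn')
      · rw [pr_sc hm hn, pr_sc hk hn'] at h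
        obtain ⟨rfl, rfl⟩ := ih n hn k hk n' hn' (dbl_inj (pr_mem hm hn) (pr_mem hk hn') h)
        exact ⟨rfl, rfl⟩
  exact key m hm n hn m' hm' n' hn' h

/-- left decoding -/
noncomputable def lf (k : M) : M :=
  ifM (∃ m : M, m ∈ om M ∧ ∃ n : M, n ∈ om M ∧ k = pr m n)
    (the (fun m => m ∈ om M ∧ ∃ n : M, n ∈ om M ∧ k = pr m n)) (zr M)

/-- right decoding -/
noncomputable def rt (k : M) : M :=
  ifM (∃ n : M, n ∈ om M ∧ ∃ m : M, m ∈ om M ∧ k = pr m n)
    (the (fun n => n ∈ om M ∧ ∃ m : M, m ∈ om M ∧ k = pr m n)) (zr M)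

instance (priority := 1000) dfLf (f : Γ → M) [hf : Df M f] : Df M (fun γ => lf (f γ)) :=
  (inferInstance : Df M (fun γ => ifM (∃ m : M, m ∈ om M ∧ ∃ n : M, n ∈ om M ∧ f γ = pr m n)
    (the (fun m => m ∈ om M ∧ ∃ n : M, n ∈ om M ∧ f γ = pr m n)) (zr M)))

instance (priority := 1000) dfRt (f : Γ → M) [hf : Df M f] : Df M (fun γ => rt (f γ)) :=
  (inferInstance : Df M (fun γ => ifM (∃ n : M, n ∈ om M ∧ ∃ m : M, m ∈ om M ∧ f γ = pr m n)
    (the (fun n => n ∈ om M ∧ ∃ m : M, m ∈ om M ∧ f γ = pr m n)) (zr M)))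

theorem lf_pr {m n : M} (hm : m ∈ om M) (hn : n ∈ om M) : lf (pr m n) = m := by
  unfold lf
  rw [ifM_pos ⟨m, hm, n, hn, rfl⟩]
  exact the_eq _ _ ⟨hm, n, hn, rfl⟩ (fun m' ⟨hm', n', hn', h⟩ => (pr_inj hm hn hm' hn' h).1.symm)

theorem rt_pr {m n : M} (hm : m ∈ om M) (hn : n ∈ om M) : rt (pr m n) = n := by
  unfold rt
  rw [ifM_pos ⟨n, hn, m, hm, rfl⟩]
  exact the_eq _ _ ⟨hn, m, hm, rfl⟩ (fun n' ⟨hn', m', hm', h⟩ => (pr_inj hm hn hm' hn' h).2.symm)

theorem lf_mem (k : M) : lf k ∈ om M := by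
  unfold lf
  by_cases h : ∃ m : M, m ∈ om M ∧ ∃ n : M, n ∈ om M ∧ k = pr m n
  · rw [ifM_pos h]
    obtain ⟨m, hm, n, hn, rfl⟩ := h
    have : the (fun m' => m' ∈ om M ∧ ∃ n' : M, n' ∈ om M ∧ pr m n = pr m' n') = m :=
      the_eq _ _ ⟨hm, n, hn, rfl⟩ (fun m' ⟨hm', n', hn', h⟩ => (pr_inj hm hn hm' hn' h).1.symm)
    rw [this]; exact hm
  · rw [ifM_neg h]; exact zr_mem

theorem rt_mem (k : M) : rt k ∈ om M := by
  unfold rt
  by_cases h : ∃ n : M, n ∈ om M ∧ ∃ m : M, m ∈ om M ∧ k = pr m n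
  · rw [ifM_pos h]
    obtain ⟨n, hn, m, hm, rfl⟩ := h
    have : the (fun n' => n' ∈ om M ∧ ∃ m' : M, m' ∈ om M ∧ pr m n = pr m' n') = n :=
      the_eq _ _ ⟨hn, m, hm, rfl⟩ (fun n' ⟨hn', m', hm', h⟩ => (pr_inj hm hn hm' hn' h).2.symm)
    rw [this]; exact hn
  · rw [ifM_neg h]; exact zr_mem

end Pool.Agent.H78
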