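import Pool.Agent.H78.ZFBase

/-!
Elementary set theory inside a model of ZF.
-/

set_option autoImplicit false
set_option linter.unusedSectionVars false
set_option synthInstance.maxSize 100000

namespace Pool.Agent.H78

universe u

variable {M : Type u} [Membership M M] [ModelZF M] {Γ : Type u} [Ctx M Γ]

theorem ext {x y : M} (h : ∀ z : M, z ∈ x ↔ z ∈ y) : x = y := ModelZF.ext x y h

theorem eq_iff_ext (x y : M) : x = y ↔ ∀ z : M, z ∈ x ↔ z ∈ y :=
  ⟨fun h _ => h ▸ Iff.rfl, ext⟩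

/-! ### separation -/

theorem exists_sep (a : M) (P : M → Prop) [hP : Dp M (fun w : PUnit.{u+1} × M => P w.2)] :
    ∃ b : M, ∀ x : M, x ∈ b ↔ (x ∈ a ∧ P x) := by
  obtain ⟨φ, q, hφ⟩ := hP.out
  obtain ⟨b, hb⟩ := ModelZF.separation φ q a
  exact ⟨b, fun x => (hb x).trans (and_congr Iff.rfl (hφ (PUnit.unit, x)).symm)⟩

/-- an arbitrary default element -/
noncomputable def dflt (M : Type u) [Membership M M] [ModelZF M] : M :=
  Classical.choice (nonemptyM M)

open Classical in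
/-- `{x ∈ a | P x}` -/
noncomputable def sep (a : M) (P : M → Prop) : M :=
  if h : ∃ b : M, ∀ x : M, x ∈ b ↔ (x ∈ a ∧ P x) then h.choose else dflt M

theorem mem_sep (a : M) (P : M → Prop) [hP : Dp M (fun w : PUnit.{u+1} × M => P w.2)] (x : M) :
    x ∈ sep a P ↔ (x ∈ a ∧ P x) := by
  have h := exists_sep a P
  unfold sep
  rw [dif_pos h]
  exact h.choose_spec x

instance (priority := 1000) dfSep (f : Γ → M) (P : Γ → M → Prop) [hf : Df M f]
    [hP : Dp M (fun w : Γ × M => P w.1 w.2)] : Df M (fun γ => sep (f γ) (P γ)) := by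
  have h1 := dpPMap1 P (fun w : Γ × M => w.1)
  refine ⟨Dp.congr (inferInstance : Dp M (fun w : Γ × M => ∀ x : M, x ∈ w.2 ↔
    (x ∈ f w.1 ∧ P w.1 x))) (fun w => ?_)⟩
  have h2 := dpFix P w.1
  rw [eq_iff_ext]
  exact forall_congr' fun x => by rw [mem_sep]

/-! ### definite description -/

open Classical in
/-- the unique `x` with `P x` -/
noncomputable def the (P : M → Prop) : M :=
  if h : ∃! x : M, P x then h.choose else dflt M

theorem the_spec (P : M → Prop) (h : ∃! x : M, P x) : P (the P) := by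
  unfold the
  rw [dif_pos h]
  exact h.choose_spec.1

theorem the_eq (P : M → Prop) (a : M) (ha : P a) (h : ∀ x, P x → x = a) : the P = a :=
  h _ (the_spec P ⟨a, ha, h⟩)

instance (priority := 1000) dfThe (P : Γ → M → Prop) [hP : Dp M (fun w : Γ × M => P w.1 w.2)] :
    Df M (fun γ => the (P γ)) := by
  have h1 := dpPMap1 P (fun w : Γ × M => w.1)
  refine ⟨Dp.congr (inferInstance : Dp M (fun w : Γ × M =>
    ((∃! x : M, P w.1 x) ∧ P w.1 w.2) ∨ ((¬ ∃! x : M, P w.1 x) ∧ w.2 = dflt M)))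
    (fun w => ?_)⟩
  by_cases h : ∃! x : M, P w.1 x
  · constructor
    · intro hw
      left
      exact ⟨h, hw ▸ the_spec _ h⟩
    · rintro (⟨_, hw⟩ | ⟨hn, _⟩)
      · exact (the_eq _ _ hw (fun x hx => h.unique hx hw)).symm
      · exact absurd h hn
  · constructor
    · intro hw
      right
      refine ⟨h, ?_⟩
      rw [hw]; unfold the; rw [dif_neg h]
    · rintro (⟨hy, _⟩ | ⟨_, hw⟩)
      · exact absurd hy h
      · rw [hw]; unfold the; rw [dif_neg h]

/-! ### if then else -/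

open Classical in
/-- definition by cases -/
noncomputable def ifM (P : Prop) (x y : M) : M := if P then x else y

theorem ifM_pos {P : Prop} (h : P) (x y : M) : ifM P x y = x := by
  unfold ifM; rw [if_pos h]

theorem ifM_neg {P : Prop} (h : ¬ P) (x y : M) : ifM P x y = y := by
  unfold ifM; rw [if_neg h]

instance (priority := 1000) dfIf (P : Γ → Prop) (f g : Γ → M) [hP : Dp M P] [hf : Df M f]
    [hg : Df M g] : Df M (fun γ => ifM (P γ) (f γ) (g γ)) := by
  refine ⟨Dp.congr (inferInstance : Dp M (fun w : Γ × M =>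
    (P w.1 ∧ w.2 = f w.1) ∨ (¬ P w.1 ∧ w.2 = g w.1))) (fun w => ?_)⟩
  by_cases h : P w.1
  · rw [ifM_pos h]; simp [h]
  · rw [ifM_neg h]; simp [h]

/-! ### replacement -/

theorem exists_rep (a : M) (F : M → M) [hF : Df M (fun w : PUnit.{u+1} × M => F w.2)] :
    ∃ b : M, ∀ y : M, y ∈ b ↔ ∃ x : M, x ∈ a ∧ y = F x := by
  have i1 : PMap M (fun w : (PUnit.{u+1} × M) × M => (((PUnit.unit : PUnit.{u+1}), w.2), w.1.2)) :=
    pmapPair (hg := pmapPair (hg := pmapUnit) _ (fun w : (PUnit.{u+1} × M) × M => w)) _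
      (fun w : (PUnit.{u+1} × M) × M => w.1)
  have h2 : Dp M (fun w : (PUnit.{u+1} × M) × M => w.1.2 = F w.2) :=
    have := hF.out
    dpPMap (fun w : (PUnit.{u+1} × M) × M => w.2 = F w.1.2)
      (fun w : (PUnit.{u+1} × M) × M => ((PUnit.unit, w.2), w.1.2))
  obtain ⟨φ, q, hφ⟩ := h2.out
  have hφ' : ∀ x y : M, y = F x ↔ Sat φ (scons x (scons y q)) := fun x y =>
    hφ ((PUnit.unit, y), x)
  obtain ⟨b, hb⟩ := ModelZF.replacement φ q a (fun x _ =>
    ⟨F x, (hφ' x (F x)).1 rfl, fun y hy => (hφ' x y).2 hy⟩)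
  exact ⟨b, fun y => (hb y).trans (exists_congr fun x => and_congr Iff.rfl (hφ' x y).symm)⟩

open Classical in
/-- `{F x | x ∈ a}` -/
noncomputable def rep (a : M) (F : M → M) : M :=
  if h : ∃ b : M, ∀ y : M, y ∈ b ↔ ∃ x : M, x ∈ a ∧ y = F x then h.choose else dflt M

theorem mem_rep (a : M) (F : M → M) [hF : Df M (fun w : PUnit.{u+1} × M => F w.2)] (y : M) :
    y ∈ rep a F ↔ ∃ x : M, x ∈ a ∧ y = F x := by
  have h := exists_rep a F
  unfold rep
  rw [dif_pos h]
  exact h.choose_spec y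

instance (priority := 1000) dfRep (f : Γ → M) (F : Γ → M → M) [hf : Df M f]
    [hF : Df M (fun w : Γ × M => F w.1 w.2)] : Df M (fun γ => rep (f γ) (F γ)) := by
  have h0 := hF.out
  have h1 := dpPMap1 (M := M) (fun (w : Γ × M) (y : M) => y = F w.1 w.2)
    (fun w : (Γ × M) × M => (w.1.1, w.2))
    (hg := pmapPair (hg := inferInstance) _ (fun w : (Γ × M) × M => w))
  have h2 : Dp M (fun w : ((Γ × M) × M) × M => w.1.2 = F w.1.1.1 w.2) := by
    have i2 : PMap M (fun w : ((Γ × M) × M) × M => ((w.1.1, w.2), w.1.2)) :=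
      pmapPair (hg := pmapPair (hg := inferInstance) _ (fun w : ((Γ × M) × M) × M => w)) _
        (fun w : ((Γ × M) × M) × M => w.1)
    exact dpPMap (fun w : ((Γ × M) × M) × M => w.2 = F w.1.1.1 w.1.2)
      (fun w : ((Γ × M) × M) × M => ((w.1.1, w.2), w.1.2))
  refine ⟨Dp.congr (inferInstance : Dp M (fun w : Γ × M => ∀ y : M, y ∈ w.2 ↔
    ∃ x : M, x ∈ f w.1 ∧ y = F w.1 x)) (fun w => ?_)⟩
  have h2 := dfFix F w.1
  rw [eq_iff_ext]
  exact forall_congr' fun x => by rw [mem_rep]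

/-! ### basic operations -/

/-- inclusion -/
def Sub (a b : M) : Prop := ∀ x : M, x ∈ a → x ∈ b

instance (priority := 1000) dpSub (f g : Γ → M) [hf : Df M f] [hg : Df M g] :
    Dp M (fun γ => Sub (f γ) (g γ)) :=
  (inferInstance : Dp M (fun γ => ∀ x : M, x ∈ f γ → x ∈ g γ))

theorem Sub.antisymm {a b : M} (h1 : Sub a b) (h2 : Sub b a) : a = b :=
  ext fun z => ⟨h1 z, h2 z⟩

/-- the empty set -/
noncomputable def emp (M : Type u) [Membership M M] [ModelZF M] : M := sep (dflt M) (fun _ => False)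

theorem mem_emp (x : M) : ¬ x ∈ emp M := fun h => ((mem_sep _ _ _).1 h).2

theorem eq_emp {a : M} (h : ∀ x : M, ¬ x ∈ a) : a = emp M :=
  ext fun z => ⟨fun hz => absurd hz (h z), fun hz => absurd hz (mem_emp z)⟩

/-- unordered pair -/
noncomputable def upair (x y : M) : M := (ModelZF.pairing x y).choose

theorem mem_upair {x y z : M} : z ∈ upair x y ↔ (z = x ∨ z = y) :=
  (ModelZF.pairing x y).choose_spec z

instance (priority := 1000) dfUpair (f g : Γ → M) [hf : Df M f] [hg : Df M g] :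
    Df M (fun γ => upair (f γ) (g γ)) :=
  ⟨Dp.congr (inferInstance : Dp M (fun w : Γ × M => ∀ x : M, x ∈ w.2 ↔ (x = f w.1 ∨ x = g w.1)))
    (fun w => by rw [eq_iff_ext]; exact forall_congr' fun x => by rw [mem_upair])⟩

/-- singleton -/
noncomputable def sing (x : M) : M := upair x x

theorem mem_sing {x z : M} : z ∈ sing x ↔ z = x := by
  unfold sing; rw [mem_upair]; tauto

instance (priority := 1000) dfSing (f : Γ → M) [hf : Df M f] : Df M (fun γ => sing (f γ)) :=
  (inferInstance : Df M (fun γ => upair (f γ) (f γ)))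

/-- union of a set -/
noncomputable def sUn (a : M) : M := (ModelZF.union a).choose

theorem mem_sUn {a z : M} : z ∈ sUn a ↔ ∃ y : M, y ∈ a ∧ z ∈ y :=
  (ModelZF.union a).choose_spec z

instance (priority := 1000) dfSUn (f : Γ → M) [hf : Df M f] : Df M (fun γ => sUn (f γ)) :=
  ⟨Dp.congr (inferInstance : Dp M (fun w : Γ × M => ∀ x : M, x ∈ w.2 ↔
    ∃ y : M, y ∈ f w.1 ∧ x ∈ y))
    (fun w => by rw [eq_iff_ext]; exact forall_congr' fun x => by rw [mem_sUn])⟩

/-- power set -/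
noncomputable def pow (a : M) : M := (ModelZF.power a).choose

theorem mem_pow {a z : M} : z ∈ pow a ↔ Sub z a :=
  (ModelZF.power a).choose_spec z

instance (priority := 1000) dfPow (f : Γ → M) [hf : Df M f] : Df M (fun γ => pow (f γ)) :=
  ⟨Dp.congr (inferInstance : Dp M (fun w : Γ × M => ∀ x : M, x ∈ w.2 ↔ Sub x (f w.1)))
    (fun w => by rw [eq_iff_ext]; exact forall_congr' fun x => by rw [mem_pow])⟩

/-- binary union -/
noncomputable def un (a b : M) : M := sUn (upair a b)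

theorem mem_un {a b z : M} : z ∈ un a b ↔ (z ∈ a ∨ z ∈ b) := by
  unfold un; rw [mem_sUn]
  constructor
  · rintro ⟨y, hy, hz⟩
    rcases mem_upair.1 hy with rfl | rfl
    · exact Or.inl hz
    · exact Or.inr hz
  · rintro (h | h)
    · exact ⟨a, mem_upair.2 (Or.inl rfl), h⟩
    · exact ⟨b, mem_upair.2 (Or.inr rfl), h⟩

instance (priority := 1000) dfUn (f g : Γ → M) [hf : Df M f] [hg : Df M g] :
    Df M (fun γ => un (f γ) (g γ)) :=
  (inferInstance : Df M (fun γ => sUn (upair (f γ) (g γ))))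

/-- ordered pair -/
noncomputable def opair (x y : M) : M := upair (sing x) (upair x y)

instance (priority := 1000) dfOpair (f g : Γ → M) [hf : Df M f] [hg : Df M g] :
    Df M (fun γ => opair (f γ) (g γ)) :=
  (inferInstance : Df M (fun γ => upair (sing (f γ)) (upair (f γ) (g γ))))

theorem upair_inj {x y x' y' : M} (h : upair x y = upair x' y') :
    (x = x' ∧ y = y') ∨ (x = y' ∧ y = x') := by
  have h1 : x = x' ∨ x = y' := mem_upair.1 (h ▸ mem_upair.2 (Or.inl rfl))
  have h2 : y = x' ∨ y = y' := mem_upair.1 (h ▸ mem_upair.2 (Or.inr rfl))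
  have h3 : x' = x ∨ x' = y := mem_upair.1 (h.symm ▸ mem_upair.2 (Or.inl rfl))
  have h4 : y' = x ∨ y' = y := mem_upair.1 (h.symm ▸ mem_upair.2 (Or.inr rfl))
  rcases h1 with h1 | h1 <;> rcases h2 with h2 | h2 <;> rcases h3 with h3 | h3 <;>
    rcases h4 with h4 | h4 <;> subst_vars <;> simp

theorem opair_inj {x y x' y' : M} (h : opair x y = opair x' y') : x = x' ∧ y = y' := by
  unfold opair sing at h
  rcases upair_inj h with ⟨h1, h2⟩ | ⟨h1, h2⟩
  · have hx : x = x' := by rcases upair_inj h1 with h | h <;> exact h.1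
    subst hx
    rcases upair_inj h2 with h | h
    · exact ⟨rfl, h.2⟩
    · exact ⟨rfl, h.2.trans h.1⟩
  · have hx : x = x' := by rcases upair_inj h1 with h | h <;> first | exact h.1 | exact h.2
    subst hx
    rcases upair_inj h1 with h | h <;> rcases upair_inj h2 with h' | h'
    · exact ⟨rfl, h'.2.trans h.2⟩
    · exact ⟨rfl, h'.2.trans h.2⟩
    · exact ⟨rfl, h'.2.trans (h.1)⟩
    · exact ⟨rfl, h'.2.trans (h.1)⟩

theorem opair_eq {x y x' y' : M} : opair x y = opair x' y' ↔ (x = x' ∧ y = y') :=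
  ⟨opair_inj, fun h => by rw [h.1, h.2]⟩

/-- first projection -/
noncomputable def fst (z : M) : M := the (fun x : M => ∃ y : M, z = opair x y)

/-- second projection -/
noncomputable def snd (z : M) : M := the (fun y : M => ∃ x : M, z = opair x y)

theorem fst_opair (x y : M) : fst (opair x y) = x :=
  the_eq _ _ ⟨y, rfl⟩ (fun _ ⟨_, h⟩ => (opair_inj h).1.symm)

theorem snd_opair (x y : M) : snd (opair x y) = y :=
  the_eq _ _ ⟨x, rfl⟩ (fun _ ⟨_, h⟩ => (opair_inj h).2.symm)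

instance (priority := 1000) dfFst (f : Γ → M) [hf : Df M f] : Df M (fun γ => fst (f γ)) :=
  (inferInstance : Df M (fun γ => the (fun x : M => ∃ y : M, f γ = opair x y)))

instance (priority := 1000) dfSnd (f : Γ → M) [hf : Df M f] : Df M (fun γ => snd (f γ)) :=
  (inferInstance : Df M (fun γ => the (fun y : M => ∃ x : M, f γ = opair x y)))

/-- cartesian product -/
noncomputable def prod (a b : M) : M := sUn (rep a (fun x => rep b (fun y => opair x y)))

theorem mem_prod {a b z : M} : z ∈ prod a b ↔ ∃ x : M, x ∈ a ∧ ∃ y : M, y ∈ b ∧ z = opair x y := by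
  unfold prod
  rw [mem_sUn]
  constructor
  · rintro ⟨s, hs, hz⟩
    obtain ⟨x, hx, rfl⟩ := (mem_rep _ _ _).1 hs
    obtain ⟨y, hy, rfl⟩ := (mem_rep _ _ _).1 hz
    exact ⟨x, hx, y, hy, rfl⟩
  · rintro ⟨x, hx, y, hy, rfl⟩
    exact ⟨_, (mem_rep _ _ _).2 ⟨x, hx, rfl⟩, (mem_rep _ _ _).2 ⟨y, hy, rfl⟩⟩

theorem opair_mem_prod {a b x y : M} : opair x y ∈ prod a b ↔ (x ∈ a ∧ y ∈ b) := by
  rw [mem_prod]
  constructor
  · rintro ⟨x', hx, y', hy, h⟩
    obtain ⟨rfl, rfl⟩ := opair_inj h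
    exact ⟨hx, hy⟩
  · rintro ⟨hx, hy⟩
    exact ⟨x, hx, y, hy, rfl⟩

instance (priority := 1000) dfProd (f g : Γ → M) [hf : Df M f] [hg : Df M g] :
    Df M (fun γ => prod (f γ) (g γ)) :=
  ⟨Dp.congr (inferInstance : Dp M (fun w : Γ × M => ∀ z : M, z ∈ w.2 ↔
    ∃ x : M, x ∈ f w.1 ∧ ∃ y : M, y ∈ g w.1 ∧ z = opair x y))
    (fun w => by rw [eq_iff_ext]; exact forall_congr' fun x => by rw [mem_prod])⟩

/-! ### functions -/

/-- value of the function `f` at `x` -/
noncomputable def app (f x : M) : M := the (fun y : M => opair x y ∈ f)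

instance (priority := 1000) dfApp (f g : Γ → M) [hf : Df M f] [hg : Df M g] :
    Df M (fun γ => app (f γ) (g γ)) :=
  (inferInstance : Df M (fun γ => the (fun y : M => opair (g γ) y ∈ f γ)))

/-- the function `x ↦ F x` on `a` -/
noncomputable def lam (a : M) (F : M → M) : M := rep a (fun x => opair x (F x))

theorem mem_lam (a : M) (F : M → M) [hF : Df M (fun w : PUnit.{u+1} × M => F w.2)] (z : M) :
    z ∈ lam a F ↔ ∃ x : M, x ∈ a ∧ z = opair x (F x) := by
  unfold lam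
  rw [mem_rep]

instance (priority := 1000) dfLam (f : Γ → M) (F : Γ → M → M) [hf : Df M f]
    [hF : Df M (fun w : Γ × M => F w.1 w.2)] : Df M (fun γ => lam (f γ) (F γ)) :=
  (inferInstance : Df M (fun γ => rep (f γ) (fun x => opair x (F γ x))))

theorem app_lam {a : M} {F : M → M} [hF : Df M (fun w : PUnit.{u+1} × M => F w.2)] {x : M}
    (hx : x ∈ a) : app (lam a F) x = F x := by
  refine the_eq _ _ ((mem_lam _ _ _).2 ⟨x, hx, rfl⟩) (fun y hy => ?_)
  obtain ⟨x', _, h⟩ := (mem_lam _ _ _).1 hy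
  obtain ⟨rfl, rfl⟩ := opair_inj h
  rfl

/-- `f` is a function from `a` to `b` -/
def IsFn (f a b : M) : Prop := (∀ z : M, z ∈ f → z ∈ prod a b) ∧
  ∀ x : M, x ∈ a → ∃! y : M, opair x y ∈ f

instance (priority := 1000) dpIsFn (f g h : Γ → M) [hf : Df M f] [hg : Df M g] [hh : Df M h] :
    Dp M (fun γ => IsFn (f γ) (g γ) (h γ)) :=
  (inferInstance : Dp M (fun γ => (∀ z : M, z ∈ f γ → z ∈ prod (g γ) (h γ)) ∧
    ∀ x : M, x ∈ g γ → ∃! y : M, opair x y ∈ f γ))

/-- the set of functions from `a` to `b` -/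
noncomputable def Fn (a b : M) : M := sep (pow (prod a b)) (fun f => IsFn f a b)

instance (priority := 1000) dfFn (f g : Γ → M) [hf : Df M f] [hg : Df M g] :
    Df M (fun γ => Fn (f γ) (g γ)) :=
  (inferInstance : Df M (fun γ => sep (pow (prod (f γ) (g γ))) (fun h => IsFn h (f γ) (g γ))))

theorem mem_Fn {f a b : M} : f ∈ Fn a b ↔ IsFn f a b := by
  unfold Fn
  rw [mem_sep, mem_pow]
  exact ⟨fun h => h.2, fun h => ⟨h.1, h⟩⟩

theorem lam_isFn {a b : M} {F : M → M} [hF : Df M (fun w : PUnit.{u+1} × M => F w.2)]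
    (h : ∀ x : M, x ∈ a → F x ∈ b) : IsFn (lam a F) a b := by
  constructor
  · intro z hz
    obtain ⟨x, hx, rfl⟩ := (mem_lam _ _ _).1 hz
    exact opair_mem_prod.2 ⟨hx, h x hx⟩
  · intro x hx
    refine ⟨F x, (mem_lam _ _ _).2 ⟨x, hx, rfl⟩, fun y hy => ?_⟩
    obtain ⟨x', _, h⟩ := (mem_lam _ _ _).1 hy
    obtain ⟨rfl, rfl⟩ := opair_inj h
    rfl

theorem IsFn.app_spec {f a b x : M} (h : IsFn f a b) (hx : x ∈ a) : opair x (app f x) ∈ f :=
  the_spec _ (h.2 x hx)

theorem IsFn.app_mem {f a b x : M} (h : IsFn f a b) (hx : x ∈ a) : app f x ∈ b :=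
  (opair_mem_prod.1 (h.1 _ (h.app_spec hx))).2

theorem IsFn.app_eq {f a b x y : M} (h : IsFn f a b) (hxy : opair x y ∈ f) : app f x = y :=
  (h.2 x (opair_mem_prod.1 (h.1 _ hxy)).1).unique (h.app_spec (opair_mem_prod.1 (h.1 _ hxy)).1) hxy

theorem IsFn.mem_iff {f a b x y : M} (h : IsFn f a b) : opair x y ∈ f ↔ (x ∈ a ∧ app f x = y) := by
  constructor
  · intro hxy
    exact ⟨(opair_mem_prod.1 (h.1 _ hxy)).1, h.app_eq hxy⟩
  · rintro ⟨hx, rfl⟩
    exact h.app_spec hx

theorem IsFn.ext {f g a b c : M} (hf : IsFn f a b) (hg : IsFn g a c)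
    (h : ∀ x : M, x ∈ a → app f x = app g x) : f = g := by
  refine Pool.Agent.H78.ext fun z => ?_
  constructor
  · intro hz
    obtain ⟨x, hx, y, hy, rfl⟩ := mem_prod.1 (hf.1 z hz)
    rw [hg.mem_iff]
    refine ⟨hx, ?_⟩
    rw [← h x hx]; exact hf.app_eq hz
  · intro hz
    obtain ⟨x, hx, y, hy, rfl⟩ := mem_prod.1 (hg.1 z hz)
    rw [hf.mem_iff]
    refine ⟨hx, ?_⟩
    rw [h x hx]; exact hg.app_eq hz

theorem IsFn.mono {f a b c : M} (hf : IsFn f a b) (h : ∀ x : M, x ∈ a → app f x ∈ c) :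
    IsFn f a c := by
  refine ⟨fun z hz => ?_, hf.2⟩
  obtain ⟨x, hx, y, hy, rfl⟩ := mem_prod.1 (hf.1 z hz)
  refine opair_mem_prod.2 ⟨hx, ?_⟩
  rw [← hf.app_eq hz]; exact h x hx

end Pool.Agent.H78
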