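import Pool.Agent.H78.ZFDiag

/-!
A tower argument (Zermelo) and Dedekind finiteness of `A`.
-/

set_option autoImplicit false
set_option linter.unusedSectionVars false
set_option synthInstance.maxSize 100000

namespace Pool.Agent.H78

universe u

variable {M : Type u} [Membership M M] [ModelZF M] {Γ : Type u} [Ctx M Γ]

theorem Sub.refl (a : M) : Sub a a := fun _ h => h

theorem Sub.trans {a b c : M} (h1 : Sub a b) (h2 : Sub b c) : Sub a c := fun x hx => h2 x (h1 x hx)

/-- chains of sets -/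
def Chain (C : M) : Prop := ∀ x : M, x ∈ C → ∀ y : M, y ∈ C → (Sub x y ∨ Sub y x)

instance (priority := 1000) dpChain (f : Γ → M) [hf : Df M f] : Dp M (fun γ => Chain (f γ)) :=
  (inferInstance : Dp M (fun γ => ∀ x : M, x ∈ f γ → ∀ y : M, y ∈ f γ → (Sub x y ∨ Sub y x)))

/-- no strictly inflationary one-point extension on a chain complete family -/
theorem tower_false (G e0 : M) (g : M → M) [hg : Df M (fun w : PUnit.{u+1} × M => g w.2)]
    (he0 : e0 ∈ G) (hgn : ∀ L : M, L ∈ G → ¬ g L ∈ L)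
    (hS : ∀ L : M, L ∈ G → un L (sing (g L)) ∈ G)
    (hU : ∀ C : M, Sub C G → (∃ x : M, x ∈ C) → Chain C → sUn C ∈ G) : False := by
  set Adm : M → Prop := fun X => Sub X G ∧ e0 ∈ X ∧ (∀ L : M, L ∈ X → un L (sing (g L)) ∈ X) ∧
    (∀ C : M, Sub C X → (∃ x : M, x ∈ C) → Chain C → sUn C ∈ X) with hAdm
  have iAdm : Dp M (fun w : PUnit.{u+1} × M => Adm w.2) :=
    (inferInstance : Dp M (fun w : PUnit.{u+1} × M => Sub w.2 G ∧ e0 ∈ w.2 ∧
      (∀ L : M, L ∈ w.2 → un L (sing (g L)) ∈ w.2) ∧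
      (∀ C : M, Sub C w.2 → (∃ x : M, x ∈ C) → Chain C → sUn C ∈ w.2)))
  set T : M := sep G (fun L => ∀ X : M, Adm X → L ∈ X) with hT
  have memT : ∀ L : M, L ∈ T ↔ (L ∈ G ∧ ∀ X : M, Adm X → L ∈ X) := fun L => mem_sep _ _ _
  have TG : Sub T G := fun L hL => ((memT L).1 hL).1
  have TS : ∀ L : M, L ∈ T → un L (sing (g L)) ∈ T := fun L hL =>
    (memT _).2 ⟨hS L (TG L hL), fun X hX => hX.2.2.1 L (((memT L).1 hL).2 X hX)⟩
  have T0 : e0 ∈ T := (memT _).2 ⟨he0, fun X hX => hX.2.1⟩
  have TU : ∀ C : M, Sub C T → (∃ x : M, x ∈ C) → Chain C → sUn C ∈ T := by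
    intro C hC hne hch
    refine (memT _).2 ⟨hU C (hC.trans TG) hne hch, fun X hX => ?_⟩
    exact hX.2.2.2 C (fun L hL => ((memT L).1 (hC L hL)).2 X hX) hne hch
  -- induction on the tower
  have Tind : ∀ (P : M → Prop) [Dp M (fun w : PUnit.{u+1} × M => P w.2)], P e0 →
      (∀ L : M, L ∈ T → P L → P (un L (sing (g L)))) →
      (∀ C : M, Sub C T → (∀ L : M, L ∈ C → P L) → (∃ x : M, x ∈ C) → Chain C → P (sUn C)) →
      ∀ L : M, L ∈ T → P L := by
    intro P hP h0 hs hu L hL
    have memX : ∀ L : M, L ∈ sep T P ↔ (L ∈ T ∧ P L) := fun L => mem_sep _ _ _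
    have hX : Adm (sep T P) := by
      refine ⟨fun L hL => TG L ((memX L).1 hL).1, (memX _).2 ⟨T0, h0⟩, fun L hL =>
        (memX _).2 ⟨TS L ((memX L).1 hL).1, hs L ((memX L).1 hL).1 ((memX L).1 hL).2⟩, ?_⟩
      intro C hC hne hch
      have hCT : Sub C T := fun L hL => ((memX L).1 (hC L hL)).1
      exact (memX _).2 ⟨TU C hCT hne hch, hu C hCT (fun L hL => ((memX L).1 (hC L hL)).2) hne hch⟩
    exact ((memX L).1 (((memT L).1 hL).2 _ hX)).2
  have h_e0 : ∀ L : M, L ∈ T → Sub e0 L := by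
    apply Tind
    · exact Sub.refl _
    · intro L _ ih x hx; exact mem_un.2 (Or.inl (ih x hx))
    · rintro C _ hC ⟨L, hL⟩ _ x hx
      exact mem_sUn.2 ⟨L, hL, hC L hL x hx⟩
  have hcmp : ∀ C : M, C ∈ T → (∀ L : M, L ∈ T → (Sub L C ∨ Sub C L)) →
      ∀ L : M, L ∈ T → (Sub L C ∨ Sub (un C (sing (g C))) L) := by
    intro C hC hcC
    apply Tind
    · exact Or.inl (h_e0 C hC)
    · intro L hL ih
      rcases ih with h | h
      · rcases hcC _ (TS L hL) with h' | h'
        · exact Or.inl h'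
        · by_cases hgC : g L ∈ C
          · left
            intro x hx
            rcases mem_un.1 hx with hx | hx
            · exact h x hx
            · rw [mem_sing.1 hx]; exact hgC
          · right
            have hCL : Sub C L := by
              intro x hx
              rcases mem_un.1 (h' x hx) with hx' | hx'
              · exact hx'
              · rw [mem_sing] at hx'; rw [hx'] at hx; exact absurd hx hgC
            rw [Sub.antisymm h hCL]
            exact Sub.refl _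
      · right
        exact fun x hx => mem_un.2 (Or.inl (h x hx))
    · intro D _ hD _ _
      by_cases hex : ∃ L : M, L ∈ D ∧ Sub (un C (sing (g C))) L
      · obtain ⟨L, hL, h⟩ := hex
        exact Or.inr fun x hx => mem_sUn.2 ⟨L, hL, h x hx⟩
      · left
        intro x hx
        obtain ⟨L, hL, hx⟩ := mem_sUn.1 hx
        rcases hD L hL with h | h
        · exact h x hx
        · exact absurd ⟨L, hL, h⟩ hex
  have hall : ∀ C : M, C ∈ T → ∀ L : M, L ∈ T → (Sub L C ∨ Sub C L) := by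
    apply Tind
    · intro L hL; exact Or.inr (h_e0 L hL)
    · intro C hC ih L hL
      rcases hcmp C hC ih L hL with h | h
      · exact Or.inl fun x hx => mem_un.2 (Or.inl (h x hx))
      · exact Or.inr h
    · intro D _ hD _ _ L hL
      by_cases hex : ∃ C : M, C ∈ D ∧ Sub L C
      · obtain ⟨C, hC, h⟩ := hex
        exact Or.inl fun x hx => mem_sUn.2 ⟨C, hC, h x hx⟩
      · right
        intro x hx
        obtain ⟨C, hC, hx⟩ := mem_sUn.1 hx
        rcases hD C hC L hL with h | h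
        · exact absurd ⟨C, hC, h⟩ hex
        · exact h x hx
  have hTT : sUn T ∈ T := TU T (Sub.refl T) ⟨e0, T0⟩ (fun x hx y hy => hall y hy x hx)
  have h1 := TS _ hTT
  have h2 : g (sUn T) ∈ sUn T :=
    mem_sUn.2 ⟨_, h1, mem_un.2 (Or.inr (mem_sing.2 rfl))⟩
  exact hgn _ (TG _ hTT) h2

/-- a transposition -/
noncomputable def swp (A a b : M) : M := lam A (fun x => ifM (x = a) b (ifM (x = b) a x))

instance (priority := 1000) dfSwp (f g h : Γ → M) [hf : Df M f] [hg : Df M g] [hh : Df M h] :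
    Df M (fun γ => swp (f γ) (g γ) (h γ)) :=
  (inferInstance : Df M (fun γ => lam (f γ) (fun x => ifM (x = g γ) (h γ) (ifM (x = h γ) (g γ) x))))

/-- involutions are permutations -/
theorem sym_of_invol (A : M) (F : M → M) [hF : Df M (fun w : PUnit.{u+1} × M => F w.2)]
    (h1 : ∀ x : M, x ∈ A → F x ∈ A) (h2 : ∀ x : M, x ∈ A → F (F x) = x) : lam A F ∈ Sym A := by
  rw [mem_Sym]
  refine ⟨⟨lam_isFn h1, fun x hx y hy hxy => ?_⟩, fun y hy => ⟨F y, h1 y hy, ?_⟩⟩
  · rw [app_lam hx, app_lam hy] at hxy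
    rw [← h2 x hx, ← h2 y hy, hxy]
  · rw [app_lam (h1 y hy), h2 y hy]

theorem swp_mem {A a b : M} (ha : a ∈ A) (hb : b ∈ A) : swp A a b ∈ Sym A := by
  unfold swp
  refine sym_of_invol A _ ?_ ?_
  · intro x hx
    show ifM (x = a) b (ifM (x = b) a x) ∈ A
    by_cases h : x = a
    · rw [ifM_pos h]; exact hb
    · rw [ifM_neg h]
      by_cases h' : x = b
      · rw [ifM_pos h']; exact ha
      · rw [ifM_neg h']; exact hx
  · intro x hx
    show ifM (ifM (x = a) b (ifM (x = b) a x) = a) b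
      (ifM (ifM (x = a) b (ifM (x = b) a x) = b) a (ifM (x = a) b (ifM (x = b) a x))) = x
    by_cases h : x = a
    · rw [ifM_pos h]
      by_cases hab : b = a
      · rw [ifM_pos hab, hab, h]
      · rw [ifM_neg hab, ifM_pos rfl, h]
    · rw [ifM_neg h]
      by_cases h' : x = b
      · rw [ifM_pos h', ifM_pos rfl, h']
      · rw [ifM_neg h', ifM_neg h, ifM_neg h']

theorem swp_left {A a b : M} (ha : a ∈ A) : app (swp A a b) a = b := by
  unfold swp
  rw [app_lam ha, ifM_pos rfl]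

theorem swp_right {A a b : M} (hb : b ∈ A) : app (swp A a b) b = a := by
  unfold swp
  rw [app_lam hb]
  by_cases h : b = a
  · rw [ifM_pos h, h]
  · rw [ifM_neg h, ifM_pos rfl]

theorem swp_other {A a b x : M} (hx : x ∈ A) (h1 : x ≠ a) (h2 : x ≠ b) :
    app (swp A a b) x = x := by
  unfold swp
  rw [app_lam hx, ifM_neg h1, ifM_neg h2]

end Pool.Agent.H78
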